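import Pool.Agent.MP_20201c_gt.H42.Spec
import Pool.Agent.MP_20201c_gt.H91.Mesh

/-! A set bounded by a polygon is polyhedral near every compact set. -/

open MeasureTheory Set Filter Topology Metric
open scoped ENNReal

namespace Pool.Agent.MP_20201c_gt.H42

open Pool.Agent.MP_20201c_gt.H91 Pool.Agent.MP_20201c_gt.H91.Msh

namespace RApx

theorem fin_tri {h : ℝ} (hh : 0 < h) {W : Set ℂ} (hW : Bornology.IsBounded W) :
    {τ : Tri | hull (gp h) τ ⊆ W}.Finite := by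
  obtain ⟨R, hR⟩ := hW.exists_norm_le
  refine ((Finset.Icc (-⌈R / h⌉) ⌈R / h⌉ ×ˢ Finset.Icc (-⌈R / h⌉) ⌈R / h⌉) ×ˢ
    (Finset.univ : Finset Bool)).finite_toSet.subset fun τ hτ => ?_
  have e : tv τ 0 = τ.1 := by
    unfold tv
    split_ifs <;> rfl
  have hb : ‖gp h τ.1‖ ≤ R := hR _ (hτ (subset_convexHull _ _ ⟨0, congrArg (gp h) e⟩))
  have key : ∀ n : ℤ, |h * n| ≤ R → n ∈ Finset.Icc (-⌈R / h⌉) ⌈R / h⌉ := by
    intro n hn
    rw [abs_mul, abs_of_pos hh, mul_comm, ← le_div_iff₀ hh] at hn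
    have := hn.trans (Int.le_ceil _)
    rw [← Int.cast_abs, Int.cast_le] at this
    exact Finset.mem_Icc.2 (abs_le.1 this)
  have a1 : |h * τ.1.1| ≤ ‖gp h τ.1‖ := Complex.abs_re_le_norm (gp h τ.1)
  have a2 : |h * τ.1.2| ≤ ‖gp h τ.1‖ := Complex.abs_im_le_norm (gp h τ.1)
  exact Finset.mem_coe.2 (Finset.mem_product.2 ⟨Finset.mem_product.2
    ⟨key _ (by linarith), key _ (by linarith)⟩, Finset.mem_univ _⟩)

theorem hull_dist {h : ℝ} (hh : 0 < h) {τ : Tri} {x y : ℂ} (hx : x ∈ hull (gp h) τ)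
    (hy : y ∈ hull (gp h) τ) : dist y x ≤ 4 * h := by
  have k : hull (gp h) τ ⊆ closedBall (gp h τ.1) (2 * h) :=
    hull_sub (convex_closedBall _ _) fun i => by
      rw [mem_closedBall, dist_eq_norm]
      exact tv_near hh τ i
  linarith [dist_triangle_right y x (gp h τ.1), mem_closedBall.1 (k hx), mem_closedBall.1 (k hy)]

end RApx

open RApx in
theorem sApx (hT : STri) : SApx := by
  intro U K E μ hU hK hKU hn hs
  obtain ⟨δ, hδ, hW⟩ := hK.exists_thickening_subset_open hU hKU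
  have hh : 0 < δ / 10 := by positivity
  have hf := fin_tri hh (hK.isBounded.thickening (δ := δ))
  have h1 : ∀ τ : Tri, hull (gp (δ / 10)) τ ⊆ thickening δ K → ∃ Q : PC 2,
      Ins (hull (gp (δ / 10)) τ) Q ∧ volume (symmDiff (car Q) E ∩ hull (gp (δ / 10)) τ) = 0 :=
    fun τ hτ => hT (gp (δ / 10) ∘ tv τ) E μ (hn.mono (interior_subset.trans (hτ.trans hW)))
      (hs.mono (interior_subset.trans (hτ.trans hW)))
  choose! Q hQ using h1
  have h2 : ∀ᵐ x : ℂ, ∀ τ : Tri, hull (gp (δ / 10)) τ ⊆ thickening δ K →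
      x ∉ symmDiff (car (Q τ)) E ∩ hull (gp (δ / 10)) τ := by
    rw [ae_all_iff]
    intro τ
    by_cases hτ : hull (gp (δ / 10)) τ ⊆ thickening δ K
    · filter_upwards [measure_eq_zero_iff_ae_notMem.1 (hQ τ hτ).2] with x hx _ using hx
    · exact Eventually.of_forall fun x h => absurd h hτ
  have h3 : ∀ᵐ x : ℂ, (x ∈ car (∑ τ ∈ hf.toFinset, Q τ) → x ∈ E) ∧
      (x ∈ thickening (δ / 2) K → x ∈ E → x ∈ car (∑ τ ∈ hf.toFinset, Q τ)) := by
    filter_upwards [h2, off_grid (δ / 10)] with x hx hg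
    constructor
    · intro hc
      obtain ⟨τ, hτ, hm⟩ := mem_iUnion₂.1 (car_sum_sub _ _ hc)
      have hτ' := hf.mem_toFinset.1 hτ
      by_contra hE
      exact hx τ hτ' ⟨Or.inl ⟨hm, hE⟩, (hQ τ hτ').1.car hm⟩
    · intro hV hE
      obtain ⟨τ₀, -, a2, a3⟩ := tri_unique hh hg
      have hτ : hull (gp (δ / 10)) τ₀ ⊆ thickening δ K := fun y hy => by
        obtain ⟨z, hz, hd⟩ := mem_thickening_iff.1 hV
        exact mem_thickening_iff.2 ⟨z, hz, by
          linarith [dist_triangle y x z, hull_dist hh a2 hy]⟩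
      have hm : x ∈ car (Q τ₀) := by
        by_contra hm
        exact hx τ₀ hτ ⟨Or.inr ⟨hE, hm⟩, a2⟩
      rw [car, mem_ofPred_eq, map_sum, Finset.sum_eq_single τ₀]
      · exact hm
      · intro τ hτ' hne
        by_contra h0
        exact hne (a3 τ ((hQ τ (hf.mem_toFinset.1 hτ')).1.car h0))
      · exact fun h0 => absurd (hf.mem_toFinset.2 hτ) h0
  refine ⟨∑ τ ∈ hf.toFinset, Q τ, thickening (δ / 2) K, Ins.sum _ fun τ hτ => ?_,
    isOpen_thickening, self_subset_thickening (half_pos hδ) K,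
    (thickening_mono (half_le_self hδ.le) K).trans hW, ?_, ?_⟩
  · exact (hQ τ (hf.mem_toFinset.1 hτ)).1.mono ((hf.mem_toFinset.1 hτ).trans hW)
  · rw [measure_eq_zero_iff_ae_notMem]
    filter_upwards [h3] with x hx
    rintro ⟨h | h, hV⟩
    · exact h.2 (hx.1 h.1)
    · exact h.2 (hx.2 hV h.1)
  · rw [measure_eq_zero_iff_ae_notMem]
    filter_upwards [h3] with x hx h using h.2 (hx.1 h.1)

end Pool.Agent.MP_20201c_gt.H42
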