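import Pool.Agent.MP_20201c_gt.H42.Spec

/-! The flat boundary of a measurable set of finite area. -/

open MeasureTheory Set Filter Topology Metric
open scoped ENNReal

namespace Pool.Agent.MP_20201c_gt.H42

open Pool.Agent.MP_20201c_gt.H91

namespace RBd

theorem dist_pbd (Q Q' : PC 2) :
    ENNReal.ofReal (dist ((pbd Q : PC 1) : FC 1) ((pbd Q' : PC 1) : FC 1)) ≤
      volume (symmDiff (car Q) (car Q')) := by
  rw [dist_pc, ← map_add, enorm_pc, ← car_add]
  exact iInf_le_of_le (Q + Q') (by rw [sub_self, pm_zero, zero_add, pm_two, inter_univ])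

theorem dist_tri (Q Q' : PC 2) (S : Set ℂ) :
    ENNReal.ofReal (dist ((pbd Q : PC 1) : FC 1) ((pbd Q' : PC 1) : FC 1)) ≤
      volume (symmDiff (car Q) S) + volume (symmDiff (car Q') S) := by
  refine (dist_pbd Q Q').trans ((measure_mono fun z hz => ?_).trans (measure_union_le _ _))
  simp only [mem_symmDiff, mem_union] at hz ⊢
  tauto

end RBd

theorem sBd (h : SDense) : SBd := by
  intro S hS hfin
  choose Q hQ using fun n : ℕ =>
    h univ S isOpen_univ hS (subset_univ _) hfin ((1 / 2) ^ n) (by positivity)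
  have hc : CauchySeq fun n => ((pbd (Q n) : PC 1) : FC 1) := by
    refine cauchySeq_of_le_geometric (1 / 2) 2 (by norm_num) fun n => ?_
    have h1 := (RBd.dist_tri (Q n) (Q (n + 1)) S).trans
      (add_le_add (hQ n).2.le (hQ (n + 1)).2.le)
    rw [← ENNReal.ofReal_add (by positivity) (by positivity),
      ENNReal.ofReal_le_ofReal_iff (by positivity), pow_succ] at h1
    have : (0 : ℝ) < (1 / 2) ^ n := by positivity
    linarith
  obtain ⟨T, hT⟩ := cauchySeq_tendsto_of_complete hc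
  refine ⟨T, fun Q' => ?_⟩
  have t1 : Tendsto (fun n => ENNReal.ofReal
      (dist ((pbd Q' : PC 1) : FC 1) ((pbd (Q n) : PC 1) : FC 1))) atTop
      (𝓝 (ENNReal.ofReal (dist ((pbd Q' : PC 1) : FC 1) T))) :=
    ENNReal.tendsto_ofReal (tendsto_const_nhds.dist hT)
  have t2 : Tendsto (fun n : ℕ => volume (symmDiff (car Q') S) + ENNReal.ofReal ((1 / 2) ^ n))
      atTop (𝓝 (volume (symmDiff (car Q') S) + ENNReal.ofReal 0)) :=
    tendsto_const_nhds.add (ENNReal.tendsto_ofReal
      (tendsto_pow_atTop_nhds_zero_of_lt_one (by norm_num) (by norm_num)))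
  rw [ENNReal.ofReal_zero, add_zero] at t2
  exact le_of_tendsto_of_tendsto' t1 t2 fun n =>
    (RBd.dist_tri Q' (Q n) S).trans (add_le_add le_rfl (hQ n).2.le)

theorem sBd2 (h : SDense) : SBd2 := by
  intro Ω S T ho hb hS hT
  have key : ∀ ε : ℝ, 0 < ε → ∃ Q : PC 2, Ins Ω Q ∧ dist ((pbd Q : PC 1) : FC 1) T < ε ∧
      volume (symmDiff (car Q) (S ∩ Ω)) < ENNReal.ofReal ε := fun ε hε => by
    obtain ⟨Q, h1, h2⟩ := h Ω (S ∩ Ω) ho (hS.inter ho.measurableSet) inter_subset_right
      (hb.subset inter_subset_right).measure_lt_top.ne ε hε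
    exact ⟨Q, h1, (ENNReal.ofReal_lt_ofReal_iff hε).1 ((hT Q).trans_lt h2), h2⟩
  refine ⟨mem_Zc.2 ⟨?_, ?_⟩, ⟨Poly.zero _, hS, fun K _ hΩ ε hε => ?_⟩, ?_⟩
  · refine subset_compl_iff_disjoint_right.2 (disjoint_spt isClosed_closure.isOpen_compl
      (le_zero_iff.1 (lm_le fun K _ hK ε hε => ?_))) |>.trans (compl_compl _).subset
    obtain ⟨Q, h1, h2, -⟩ := key ε hε
    refine ⟨pbd Q, h2, (pm_of_disjoint ?_).le⟩
    exact disjoint_compl_right.mono (h1.pbd.car.trans subset_closure) hK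
  · have h0 : fbd T = 0 := by
      refine (eq_of_forall_dist_le fun ε hε => ?_).symm
      obtain ⟨Q, -, h2, -⟩ := key ε hε
      have h3 := dist_fbd_le ((pbd Q : PC 1) : FC 1) T
      rw [fbd_coe, pbd_pbd, UniformSpace.Completion.coe_zero] at h3
      exact h3.trans h2.le
    rw [h0]
    exact mem_supp.1 (Supp 0 (frontier Ω)).zero_mem
  · obtain ⟨Q, -, h2, h3⟩ := key ε hε
    refine ⟨pbd Q, Ω, car Q, ho, hΩ, h2, ?_, ?_, lt_of_le_of_lt (measure_mono fun z hz => ?_) h3⟩
    · rw [add_zero]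
      exact noB_pbd Ω Q
    · rw [add_zero]
      exact side_pbd Ω Q
    · simp only [mem_inter_iff, mem_symmDiff] at hz ⊢
      tauto
  · have h1 := hT 0
    rwa [map_zero, UniformSpace.Completion.coe_zero, dist_zero_left, car_zero, ← bot_eq_empty,
      bot_symmDiff] at h1

end Pool.Agent.MP_20201c_gt.H42
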