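import Pool.Agent.MP_20201c_gt.H42.Spec

/-! Connectedness of the inner parallel domains, and normal segments across the boundary. -/

open MeasureTheory Set Filter Topology Metric

namespace Pool.Agent.MP_20201c_gt.H42

open Pool.Agent.MP_20201c_gt.H91

namespace RConn

variable {ρ : ℂ → ℝ} {gr : ℂ → ℂ} {L c₀ β R : ℝ}

theorem key (h : Good ρ gr L c₀ β R) (z : ℂ) (s : ℝ) :
    |ρ (z + s • gr z) - ρ z - s * ‖gr z‖ ^ 2| ≤ L * (s ^ 2 * ‖gr z‖ ^ 2) := by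
  have := h.tay z (z + s • gr z)
  rwa [add_sub_cancel_left, Nrm.ip_ss, norm_smul, mul_pow, Real.norm_eq_abs, sq_abs] at this

theorem bound (h : Good ρ gr L c₀ β R) (z : ℂ) {s : ℝ} (h0 : 0 ≤ s) (h1 : s ≤ (2 * L)⁻¹) :
    L * (s ^ 2 * ‖gr z‖ ^ 2) ≤ s / 2 * ‖gr z‖ ^ 2 := by
  have h2 : L * s ≤ 1 / 2 := by
    have := mul_le_mul_of_nonneg_left h1 h.hL.le
    rwa [show L * (2 * L)⁻¹ = 1 / 2 by have := h.hL.ne'; field_simp] at this
  nlinarith [mul_nonneg h0 (sq_nonneg ‖gr z‖)]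

theorem up (h : Good ρ gr L c₀ β R) (z : ℂ) {s : ℝ} (h0 : 0 ≤ s) (h1 : s ≤ (2 * L)⁻¹) :
    ρ z + s / 2 * ‖gr z‖ ^ 2 ≤ ρ (z + s • gr z) := by
  linarith [(abs_le.1 (key h z s)).1, bound h z h0 h1]

theorem down (h : Good ρ gr L c₀ β R) (z : ℂ) {s : ℝ} (h0 : 0 ≤ s) (h1 : s ≤ (2 * L)⁻¹) :
    ρ (z + (-s) • gr z) ≤ ρ z - s / 2 * ‖gr z‖ ^ 2 := by
  have := (abs_le.1 (key h z (-s))).2
  rw [neg_sq] at this
  linarith [bound h z h0 h1]

theorem seg {z v w : ℂ} {t : ℝ} (hw : w ∈ segment ℝ z (z + t • v)) :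
    ∃ θ ∈ Icc (0 : ℝ) 1, w = z + (θ * t) • v := by
  rw [segment_eq_image'] at hw
  obtain ⟨θ, hθ, rfl⟩ := hw
  exact ⟨θ, hθ, by simp only [add_sub_cancel_left, smul_smul]⟩

theorem low_sq (h : Good ρ gr L c₀ β R) {z : ℂ} (hz : |ρ z| ≤ β) :
    (2 * L)⁻¹ / 2 * c₀ ^ 2 ≤ (2 * L)⁻¹ / 2 * ‖gr z‖ ^ 2 := by
  have := h.hL
  exact mul_le_mul_of_nonneg_left (pow_le_pow_left₀ h.hc.le (h.low z hz) 2) (by positivity)

end RConn

open RConn

theorem sConn : SConn := by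
  intro ρ gr L c₀ β R h hc
  have hL := h.hL
  have hc₀ := h.hc
  have ht : 0 < (2 * L)⁻¹ := by positivity
  refine ⟨min β ((2 * L)⁻¹ / 2 * c₀ ^ 2), lt_min h.hβ (by positivity), fun η hη => ?_⟩
  have hg : Continuous gr := (LipschitzWith.of_dist_le_mul (K := ⟨L, hL.le⟩) fun x y => by
    rw [dist_eq_norm, dist_eq_norm]
    exact h.lipg y x).continuous
  have hF : Continuous fun z => z + (2 * L)⁻¹ • gr z := by fun_prop
  have h1 := hc.isPreconnected.image _ hF.continuousOn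
  have h2 : (fun z => z + (2 * L)⁻¹ • gr z) '' {z | 0 < ρ z} ⊆ {z | η < ρ z} := by
    rintro _ ⟨z, hz, rfl⟩
    have a0 : 0 < ρ z := hz
    have a1 := up h z ht.le le_rfl
    have a2 := le_min_iff.1 hη.2
    show η < ρ _
    rcases le_or_gt (ρ z) β with a3 | a3
    · linarith [low_sq h (abs_le.2 ⟨by linarith [h.hβ], a3⟩), a2.2]
    · have : 0 ≤ (2 * L)⁻¹ / 2 * ‖gr z‖ ^ 2 := by positivity
      linarith [a2.1]
  have h3 : ∀ z ∈ {z | η < ρ z}, segment ℝ z (z + (2 * L)⁻¹ • gr z) ⊆ {z | η < ρ z} := by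
    intro z hz w hw
    obtain ⟨θ, hθ, rfl⟩ := seg hw
    have a0 : η < ρ z := hz
    have a1 : 0 ≤ θ * (2 * L)⁻¹ := mul_nonneg hθ.1 ht.le
    have a2 := up h z a1 (mul_le_of_le_one_left ht.le hθ.2)
    have : 0 ≤ θ * (2 * L)⁻¹ / 2 * ‖gr z‖ ^ 2 := by positivity
    show η < ρ _
    linarith
  refine isPreconnected_of_forall_pair fun x hx y hy =>
    ⟨segment ℝ x (x + (2 * L)⁻¹ • gr x) ∪ (_ ∪ segment ℝ y (y + (2 * L)⁻¹ • gr y)),
      union_subset (h3 x hx) (union_subset h2 (h3 y hy)), Or.inl (left_mem_segment _ _ _),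
      Or.inr (Or.inr (left_mem_segment _ _ _)), ?_⟩
  exact IsPreconnected.union _ (right_mem_segment _ _ _) (Or.inl ⟨x, hη.1.trans_lt hx, rfl⟩)
    (convex_segment _ _).isPreconnected
    (h1.union _ ⟨y, hη.1.trans_lt hy, rfl⟩ (right_mem_segment _ _ _)
      (convex_segment _ _).isPreconnected)

theorem sNrm : SNrm := by
  classical
  intro ρ gr L c₀ β R h
  have hL := h.hL
  have hc₀ := h.hc
  have ht : 0 < (2 * L)⁻¹ := by positivity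
  obtain ⟨η₀, h0, h1, h2⟩ : ∃ η₀ : ℝ, 0 < η₀ ∧ η₀ ≤ β ∧ 2 * η₀ ≤ (2 * L)⁻¹ / 2 * c₀ ^ 2 :=
    ⟨min β ((2 * L)⁻¹ / 2 * c₀ ^ 2 / 2), lt_min h.hβ (by positivity), min_le_left _ _, by
      linarith [min_le_right β ((2 * L)⁻¹ / 2 * c₀ ^ 2 / 2)]⟩
  refine ⟨η₀, h0, fun η hη μ hμ hn => ?_⟩
  obtain ⟨B, hB⟩ : ∃ B : Finset ℂ, ∀ z, z ∈ B ↔ bdy μ z ≠ 0 ∧ -η₀ < ρ z :=
    ⟨hμ.bdy_finite.toFinset.filter fun z => -η₀ < ρ z, fun z => by simp⟩
  have hle : ∀ b ∈ B, ρ b ≤ η := fun b hb => not_lt.1 fun hc => ((hB b).1 hb).1 (hn b hc)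
  refine ⟨∑ b ∈ B, sg b (b + (-(2 * L)⁻¹) • gr b), ⟨_, _, _, ((msr_equivFin (fun b : B => b.1)
    fun b : B => b.1 + (-(2 * L)⁻¹) • gr b.1).trans
      (Finset.sum_coe_sort B fun b => sg b (b + (-(2 * L)⁻¹) • gr b))).symm, fun i => ?_⟩,
    fun z hz => ?_⟩
  · refine disjoint_left.2 fun w hw (hw' : η < ρ w) => ?_
    obtain ⟨θ, hθ, rfl⟩ := seg hw
    have a1 : 0 ≤ θ * (2 * L)⁻¹ := mul_nonneg hθ.1 ht.le
    have a2 := down h ((Fintype.equivFin B).symm i).1 a1 (mul_le_of_le_one_left ht.le hθ.2)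
    have a3 := hle _ ((Fintype.equivFin B).symm i).2
    have : 0 ≤ θ * (2 * L)⁻¹ / 2 * ‖gr ((Fintype.equivFin B).symm i).1‖ ^ 2 := by positivity
    rw [mul_neg, Function.comp_apply] at hw'
    linarith
  · have hp : ∀ b ∈ B, Poly univ (sg b (b + (-(2 * L)⁻¹) • gr b)) := fun b _ =>
      Poly.sg (mem_univ _) (mem_univ _)
    have e : ∀ b ∈ B, bdy (sg b (b + (-(2 * L)⁻¹) • gr b)) z = if b = z then 1 else 0 := by
      intro b hb
      have a1 := down h b ht.le le_rfl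
      have a2 := hle b hb
      have a3 := low_sq h (z := b) (abs_le.2 ⟨by linarith [((hB b).1 hb).2], by linarith [hη.2]⟩)
      have a4 : -η₀ < ρ z := hz
      rw [bdy_sg, if_neg (c := _ + _ = z) fun e => by rw [e] at a1; linarith [hη.2], add_zero]
    rw [bdy_add hμ (Poly.sum B hp), bdy_sum B hp, Finset.sum_congr rfl e, Finset.sum_ite_eq']
    split_ifs with hzB
    · rw [(z2 _).resolve_left ((hB z).1 hzB).1]
      rfl
    · rw [add_zero]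
      exact not_not.1 fun hc => hzB ((hB z).2 ⟨hc, hz⟩)

end Pool.Agent.MP_20201c_gt.H42
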