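import Pool.Agent.MP_20201c_gt.H42.Spec
import Pool.Agent.MP_20201c_gt.H91.SideT

/-! A polygonal chain that bounds the empty set in an open set has no mass there. -/

open MeasureTheory Set Filter Topology Metric
open scoped ENNReal

namespace Pool.Agent.MP_20201c_gt.H42

open Pool.Agent.MP_20201c_gt.H91

namespace RConv

theorem haus_le (a b : ℂ) {S : Set ℂ} (hS : MeasurableSet S) (h : S ⊆ segment ℝ a b) :
    μH[1] S ≤ sg a b S := by
  have hl : LipschitzWith ‖b - a‖₊ fun t : ℝ => a + t • (b - a) :=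
    LipschitzWith.of_dist_le_mul fun s t => by
      rw [dist_add_left, dist_eq_norm, ← sub_smul, norm_smul, dist_eq_norm, mul_comm]
      exact le_rfl
  have h1 : S ⊆ (fun t : ℝ => a + t • (b - a)) ''
      {t : ℝ | t ∈ Icc (0 : ℝ) 1 ∧ a + t • (b - a) ∈ S} := by
    intro x hx
    obtain ⟨t, ht, rfl⟩ := m1_seg_ex (h hx)
    exact ⟨t, ⟨ht, hx⟩, rfl⟩
  refine (measure_mono h1).trans ((hl.hausdorffMeasure_image_le zero_le_one _).trans ?_)
  rw [sg_apply a b hS, hausdorffMeasure_real, ENNReal.rpow_one, ofReal_norm]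
  exact le_rfl

theorem seg_closed (a b : ℂ) : IsClosed (segment ℝ a b) := by
  rw [segment_eq_image_lineMap]
  exact (isCompact_Icc.image AffineMap.lineMap_continuous).isClosed

theorem overlap {m : ℕ} {a b : Fin m → ℂ}
    (h : ∀ U, MeasurableSet U → msr a b U ≤ μH[1] U) {i j : Fin m} (hij : i ≠ j) :
    sg (a i) (b i) (segment ℝ (a i) (b i) ∩ segment ℝ (a j) (b j)) = 0 := by
  classical
  set S := segment ℝ (a i) (b i) ∩ segment ℝ (a j) (b j) with hS
  have hm : MeasurableSet S := (m1_seg_meas _ _).inter (m1_seg_meas _ _)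
  have h1 : sg (a j) (b j) S + sg (a i) (b i) S ≤ msr a b S := by
    unfold msr
    rw [Measure.finsetSum_apply, ← Finset.sum_pair (f := fun k => sg (a k) (b k) S) hij.symm]
    exact Finset.sum_le_sum_of_subset (Finset.subset_univ _)
  have h2 := (h1.trans (h S hm)).trans (haus_le (a j) (b j) hm inter_subset_right)
  have h3 : sg (a j) (b j) S + sg (a i) (b i) S ≤ sg (a j) (b j) S + 0 := by rwa [add_zero]
  exact le_zero_iff.1 ((ENNReal.add_le_add_iff_left (measure_ne_top _ _)).1 h3)

theorem exists_pt {m : ℕ} {a b : Fin m → ℂ} {V : Set ℂ}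
    (h : ∀ U, MeasurableSet U → msr a b U ≤ μH[1] U) (hV : msr a b V ≠ 0) :
    ∃ i x, x ∈ V ∧ x ∈ segment ℝ (a i) (b i) ∧ x ≠ a i ∧ x ≠ b i ∧
      ∀ j, j ≠ i → x ∉ segment ℝ (a j) (b j) := by
  by_contra hc
  apply hV
  unfold msr
  rw [Measure.finsetSum_apply]
  refine Finset.sum_eq_zero fun i _ => ?_
  have h0 : sg (a i) (b i) ((segment ℝ (a i) (b i))ᶜ ∪ ({a i, b i} ∪
      ⋃ j : {j // j ≠ i}, segment ℝ (a i) (b i) ∩ segment ℝ (a j) (b j))) = 0 :=
    measure_union_null (m1_sg_compl _ _) (measure_union_null (sg_finite _ _ (toFinite _))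
      (measure_iUnion_null fun j => overlap h j.2.symm))
  refine measure_mono_null (fun x hx => ?_) h0
  by_contra h1
  simp only [mem_union, mem_compl_iff, mem_insert_iff, mem_singleton_iff, mem_iUnion,
    mem_inter_iff, not_or, not_not, not_exists, not_and] at h1
  exact hc ⟨i, x, hx, h1.1, h1.2.1.1, h1.2.1.2, fun j hj => h1.2.2 ⟨j, hj⟩ h1.1⟩

theorem null_of_side {m : ℕ} {a b : Fin m → ℂ} {V : Set ℂ} (ho : IsOpen V)
    (h : ∀ U, MeasurableSet U → msr a b U ≤ μH[1] U) (hs : SideR V a b ∅) : msr a b V = 0 := by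
  classical
  by_contra hV
  obtain ⟨i, x, hx, hxs, hxa, hxb, hxo⟩ := exists_pt h hV
  have hW : IsOpen (V ∩ ⋂ j : {j // j ≠ i}, (segment ℝ (a j) (b j))ᶜ) :=
    ho.inter (isOpen_iInter_of_finite fun j => (seg_closed _ _).isOpen_compl)
  obtain ⟨r, hr, hb⟩ := Metric.isOpen_iff.1 hW x ⟨hx, mem_iInter.2 fun j => hxo j j.2⟩
  obtain ⟨t, ht, rfl⟩ := m1_seg_ex hxs
  have ht0 : 0 < t := lt_of_le_of_ne ht.1 fun e => hxa (by simp [← e])
  have ht1 : t < 1 := lt_of_le_of_ne ht.2 fun e => hxb (by simp [e])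
  have hd : b i - a i ≠ 0 := fun e => hxa (by simp [e])
  set x := a i + t • (b i - a i) with hxe
  set O : Set (ℂ × ℂ) := {q | q.1 ∈ ball x r ∧ q.2 ∈ ball x r ∧
    dt (q.2 - q.1) (a i - q.1) * dt (q.2 - q.1) (b i - q.1) < 0 ∧
    dt (b i - a i) (q.1 - a i) * dt (b i - a i) (q.2 - a i) < 0} with hO
  have hOo : IsOpen O := by
    have c1 : Continuous fun q : ℂ × ℂ =>
        dt (q.2 - q.1) (a i - q.1) * dt (q.2 - q.1) (b i - q.1) := by unfold dt; fun_prop
    have c2 : Continuous fun q : ℂ × ℂ =>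
        dt (b i - a i) (q.1 - a i) * dt (b i - a i) (q.2 - a i) := by unfold dt; fun_prop
    exact (isOpen_ball.preimage continuous_fst).inter
      ((isOpen_ball.preimage continuous_snd).inter
        ((isOpen_lt c1 continuous_const).inter (isOpen_lt c2 continuous_const)))
  have hn : 0 < ‖b i - a i‖ := norm_pos_iff.2 hd
  have hN : 0 < (b i - a i).re ^ 2 + (b i - a i).im ^ 2 := by
    have := Complex.normSq_pos.mpr hd
    rw [Complex.normSq_apply] at this
    nlinarith
  have hOn : O.Nonempty := by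
    set s : ℝ := r / (2 * ‖b i - a i‖) with hs'
    have hs0 : 0 < s := by positivity
    have hsn : ‖s • (Complex.I * (b i - a i))‖ < r := by
      rw [norm_smul, norm_mul, Complex.norm_I, one_mul, Real.norm_of_nonneg hs0.le, hs']
      field_simp
      linarith
    refine ⟨(x + s • (Complex.I * (b i - a i)), x - s • (Complex.I * (b i - a i))), ?_, ?_, ?_, ?_⟩
    · simpa [mem_ball, dist_eq_norm] using hsn
    · simpa [mem_ball, dist_eq_norm] using hsn
    · have e : dt (x - s • (Complex.I * (b i - a i)) - (x + s • (Complex.I * (b i - a i))))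
          (a i - (x + s • (Complex.I * (b i - a i)))) *
          dt (x - s • (Complex.I * (b i - a i)) - (x + s • (Complex.I * (b i - a i))))
          (b i - (x + s • (Complex.I * (b i - a i)))) =
          -(4 * s ^ 2 * (t * (1 - t)) * ((b i - a i).re ^ 2 + (b i - a i).im ^ 2) ^ 2) := by
        simp only [hxe, dt, Complex.sub_re, Complex.sub_im, Complex.add_re, Complex.add_im,
          Complex.smul_re, Complex.smul_im, smul_eq_mul, Complex.mul_re, Complex.mul_im,
          Complex.I_re, Complex.I_im]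
        ring
      have h1 : 0 < 1 - t := by linarith
      simp only
      rw [e, neg_lt_zero]
      positivity
    · have e : dt (b i - a i) (x + s • (Complex.I * (b i - a i)) - a i) *
          dt (b i - a i) (x - s • (Complex.I * (b i - a i)) - a i) =
          -(s ^ 2 * ((b i - a i).re ^ 2 + (b i - a i).im ^ 2) ^ 2) := by
        simp only [hxe, dt, Complex.sub_re, Complex.sub_im, Complex.add_re, Complex.add_im,
          Complex.smul_re, Complex.smul_im, smul_eq_mul, Complex.mul_re, Complex.mul_im,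
          Complex.I_re, Complex.I_im]
        ring
      simp only
      rw [e, neg_lt_zero]
      positivity
  refine (hOo.measure_pos volume hOn).ne' (measure_mono_null ?_ (ae_iff.1 hs))
  intro q hq hq'
  obtain ⟨h1, h2, h3, h4⟩ := hq
  have hsub : segment ℝ q.1 q.2 ⊆ ball x r := (convex_ball x r).segment_subset h1 h2
  have h5 := hq' (hsub.trans (hb.trans inter_subset_left))
  have h6 : cr (a i) (b i) q.1 q.2 :=
    (stCr (left_ne_zero_of_mul h3.ne) (right_ne_zero_of_mul h3.ne)
      fun _ => ⟨left_ne_zero_of_mul h4.ne, right_ne_zero_of_mul h4.ne⟩).2 ⟨h3, h4⟩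
  rw [Finset.sum_eq_single i, if_pos h6] at h5
  · simp at h5
  · intro j _ hj
    refine if_neg ?_
    rintro ⟨y, hy, hy'⟩
    exact mem_iInter.1 (hb (hsub hy')).2 ⟨j, hj⟩ hy
  · intro h7
    exact absurd (Finset.mem_univ i) h7

end RConv

theorem sConv (h : SRed) : SConv := by
  intro V P ho hs
  obtain ⟨ν, hν, he, hm⟩ := h P
  have h1 := he.side hν hs
  obtain ⟨m, a, b, -, rfl⟩ := hν
  rw [← hm V ho.measurableSet]
  refine RConv.null_of_side ho (fun U hU => ?_) (h1.rep rfl)
  rw [hm U hU, pm_one]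
  exact measure_mono inter_subset_right

theorem sCM (h1 : SRed) (h2 : SConv) : SCM := by
  classical
  intro V μ ho hs
  obtain ⟨P, hP⟩ := exists_ms hs.poly
  have h3 := h2 V P ho (hP.symm.side (ms_poly P) hs)
  obtain ⟨ν, hν, he, hm⟩ := h1 P
  rw [← hm V ho.measurableSet] at h3
  refine ⟨ν, hP.symm.trans he, ?_⟩
  obtain ⟨m, a, b, -, rfl⟩ := hν
  refine ⟨_, (fun i : {i // a i ≠ b i} => a i) ∘ (Fintype.equivFin _).symm,
    (fun i : {i // a i ≠ b i} => b i) ∘ (Fintype.equivFin _).symm, ?_, fun k => ?_⟩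
  · rw [msr_equivFin]
    unfold msr
    rw [← Finset.sum_subtype (Finset.univ.filter fun i => a i ≠ b i) (p := fun i => a i ≠ b i)
      (by simp) (fun i => sg (a i) (b i)), Finset.sum_filter]
    refine Finset.sum_congr rfl fun i _ => ?_
    split_ifs with h4
    · rfl
    · rw [not_not.1 h4, sg_self]
  · obtain ⟨⟨i, hi⟩, hk⟩ : ∃ i : {i // a i ≠ b i}, (Fintype.equivFin _).symm k = i := ⟨_, rfl⟩
    simp only [Function.comp_apply, hk]
    refine disjoint_left.2 fun x hx hxV => ?_
    obtain ⟨r, hr, hb⟩ := Metric.isOpen_iff.1 ho x hxV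
    have h4 : sg (a i) (b i) V ≤ msr a b V := by
      unfold msr
      rw [Measure.finsetSum_apply]
      exact Finset.single_le_sum (f := fun k => sg (a k) (b k) V) (fun _ _ => zero_le)
        (Finset.mem_univ i)
    exact ((sg_pos hi hx hr).trans_le ((measure_mono hb).trans h4)).ne' h3

end Pool.Agent.MP_20201c_gt.H42
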