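import Pool.Agent.MP_20201c_gt.H42.Spec
import Pool.Agent.MP_20201c_gt.H91.Mesh

/-! The twisted edges are homologous to the reference polygon in the core. -/

open MeasureTheory Set Filter Topology Metric
open scoped ENNReal

namespace Pool.Agent.MP_20201c_gt.H42

open Pool.Agent.MP_20201c_gt.H91

namespace RD

variable {Ω G : Set ℂ} {B : ℂ → Set ℂ} {h h' r ε : ℝ} {𝒯 : Finset Tri} {w : Ed → ℝ}
  {s : ℂ → Tri → ℝ} {pos : Vt → ℂ}

/-- Triangles near `y`. -/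
def Nr (h h' r : ℝ) (y : ℂ) (τ : Tri) : Prop := ‖gp h τ.1 - y‖ + 4 * h' ≤ r

theorem far_hull (hh : 0 < h) (h1 : h ≤ h') (h2 : 20 * h' ≤ r) (h3 : 10 * ε ≤ r)
    (hp : PosOK h ε pos) {y : ℂ} {τ : Tri} (hτ : ¬ Nr h h' r y τ) :
    Disjoint (hull pos τ) (ball y (r / 2)) := by
  have k : hull pos τ ⊆ closedBall (gp h τ.1) (2 * h + ε) := by
    refine Msh.hull_sub (convex_closedBall _ _) fun i => ?_
    rw [mem_closedBall_iff_norm]
    have a := (hp (tv τ i)).1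
    have b := Msh.tv_near hh τ i
    have c := norm_sub_le_norm_sub_add_norm_sub (pos (tv τ i)) (gp h (tv τ i)) (gp h τ.1)
    linarith
  refine disjoint_left.2 fun z hz hz' => hτ ?_
  have a := mem_closedBall_iff_norm'.1 (k hz)
  have b := mem_ball_iff_norm.1 hz'
  have c := norm_sub_le_norm_sub_add_norm_sub (gp h τ.1) z y
  unfold Nr
  linarith

theorem far_edge (hh : 0 < h) (h1 : h ≤ h') (h2 : 20 * h' ≤ r) (h3 : 10 * ε ≤ r)
    (hp : PosOK h ε pos) {y : ℂ} {e : Ed}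
    (he : ¬ (Nr h h' r y (eT1 e) ∧ Nr h h' r y (eT2 e))) :
    Disjoint (segment ℝ (pos e.1) (pos (eEnd e))) (ball y (r / 2)) := by
  rcases not_and_or.1 he with k | k
  · exact (far_hull hh h1 h2 h3 hp k).mono_left ((edge_hull pos e).trans inter_subset_left)
  · exact (far_hull hh h1 h2 h3 hp k).mono_left ((edge_hull pos e).trans inter_subset_right)

theorem tr_pp : tr 1 1 = univ := by
  ext u
  simp [tr]

theorem tr_nn : tr (-1) (-1) = ∅ := by
  ext u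
  simp only [tr, mem_ofPred_eq, mem_empty_iff_false, iff_false, not_lt]
  linarith

theorem sgOn_all (a b : ℂ) : sgOn a b univ = sg a b := by
  rw [sgOn, sg, univ_inter]

open Classical in
theorem edg_eq (a b : ℂ) {c d : ℝ} (hc : c = 1 ∨ c = -1) (hd : d = 1 ∨ d = -1) :
    sgOn a b (symmDiff (tr c c) (tr d d)) = if c * d = -1 then sg a b else 0 := by
  rcases hc with rfl | rfl <;> rcases hd with rfl | rfl
  · rw [symmDiff_self, if_neg (by norm_num)]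
    exact sgOn_empty a b
  · rw [tr_pp, tr_nn, if_pos (by norm_num), ← bot_eq_empty, symmDiff_bot, sgOn_all]
  · rw [tr_pp, tr_nn, if_pos (by norm_num), ← bot_eq_empty, bot_symmDiff, sgOn_all]
  · rw [symmDiff_self, if_neg (by norm_num)]
    exact sgOn_empty a b

open Classical in
theorem stM_eq (hS : Signs Ω B h h' r 𝒯 w s) (y : ℂ) :
    stM (𝒯.filter (Nr h h' r y)) pos (fun τ _ => s y τ) = dW w (𝒯.filter (Nr h h' r y)) pos := by
  have k : ∑ τ ∈ 𝒯.filter (Nr h h' r y), levT pos (fun τ _ => s y τ) τ = 0 := by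
    refine Finset.sum_eq_zero fun τ _ => lev_zero _ ?_
    rcases hS.hs y τ with a | a
    · exact Or.inl fun i => by simp [a]
    · exact Or.inr fun i => by simp [a]
  rw [H91.stM, k, zero_add, dW]
  refine Eq.trans ?_ (Finset.sum_filter _ _).symm
  refine Finset.sum_congr rfl fun e he => ?_
  obtain ⟨a, b⟩ := StM.mem_inE.1 he
  rw [Finset.mem_filter] at a b
  rw [hS.mul y e (StM.mem_inE.2 ⟨a.1, b.1⟩) a.2 b.2]
  exact edg_eq _ _ (hS.hs y _) (hS.hs y _)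

open Classical in
theorem dW_split (y : ℂ) : dW w 𝒯 pos = dW w (𝒯.filter (Nr h h' r y)) pos +
    ∑ e ∈ ((inE 𝒯).filter fun e => w e = -1).filter
      (fun e => ¬ (Nr h h' r y (eT1 e) ∧ Nr h h' r y (eT2 e))), sg (pos e.1) (pos (eEnd e)) := by
  rw [dW, dW, ← Finset.sum_filter_add_sum_filter_not _
    (fun e => Nr h h' r y (eT1 e) ∧ Nr h h' r y (eT2 e))]
  congr 2
  ext e
  simp only [Finset.mem_filter, StM.mem_inE]
  tauto

theorem dW_poly : Poly univ (dW w 𝒯 pos) :=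
  Poly.sum _ fun _ _ => Poly.sg (mem_univ _) (mem_univ _)

theorem loc (hh : 0 < h) (h1 : h ≤ h') (h2 : 20 * h' ≤ r) (h3 : 10 * ε ≤ r)
    (hp : PosOK h ε pos) (hS : Signs Ω B h h' r 𝒯 w s)
    (ho : ∀ e : Ed, ¬ (eT1 e ∈ 𝒯 ↔ eT2 e ∈ 𝒯) →
      Disjoint (segment ℝ (pos e.1) (pos (eEnd e))) G) (y : ℂ) :
    NoB (G ∩ ball y (r / 2)) (dW w 𝒯 pos) ∧ ∃ E, Side (G ∩ ball y (r / 2)) (dW w 𝒯 pos) E ∧
      ∀ z, ∀ τ₀ ∈ 𝒯, Nr h h' r y τ₀ → z ∈ hull pos τ₀ → (∀ τ ∈ 𝒯, τ ≠ τ₀ → z ∉ hull pos τ) →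
        (s y τ₀ = 1 → z ∈ E) ∧ (s y τ₀ = -1 → z ∉ E) := by
  classical
  have k0 : ∀ τ ∈ 𝒯.filter (Nr h h' r y), ∀ i,
      (fun τ _ => s y τ : St) τ (tv τ i) ≠ 0 := fun τ _ i => by
    rcases hS.hs y τ with a | a <;> simp [a]
  have k1 : ∀ e : Ed, ¬ (eT1 e ∈ 𝒯.filter (Nr h h' r y) ↔ eT2 e ∈ 𝒯.filter (Nr h h' r y)) →
      Disjoint (segment ℝ (pos e.1) (pos (eEnd e))) (G ∩ ball y (r / 2)) := fun e he => by
    by_cases a : Nr h h' r y (eT1 e) ∧ Nr h h' r y (eT2 e)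
    · refine (ho e fun b => he ?_).mono_right inter_subset_left
      simp only [Finset.mem_filter, a.1, a.2, and_true]
      exact b
    · exact (far_edge hh h1 h2 h3 hp a).mono_right inter_subset_right
  obtain ⟨p1, E, p2, p3⟩ := stM_side (W := univ) (pos := pos) (S := fun τ _ => s y τ)
    (subset_refl _) k0 k1
  rw [stM_eq hS] at p1 p2
  set F := ((inE 𝒯).filter fun e => w e = -1).filter
    (fun e => ¬ (Nr h h' r y (eT1 e) ∧ Nr h h' r y (eT2 e))) with hF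
  have q0 : ∀ e ∈ F, Disjoint (segment ℝ (pos e.1) (pos (eEnd e))) (G ∩ ball y (r / 2)) :=
    fun e he => (far_edge hh h1 h2 h3 hp (Finset.mem_filter.1 he).2).mono_right inter_subset_right
  have q1 : ∀ e : Ed, Poly (segment ℝ (pos e.1) (pos (eEnd e))) (sg (pos e.1) (pos (eEnd e))) :=
    fun e => Poly.sg (left_mem_segment _ _ _) (right_mem_segment _ _ _)
  have q2 : ∀ e ∈ F, Poly univ (sg (pos e.1) (pos (eEnd e))) :=
    fun e _ => (q1 e).mono (subset_univ _)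
  have q3 : Side (G ∩ ball y (r / 2)) (∑ e ∈ F, sg (pos e.1) (pos (eEnd e))) ∅ := by
    have := side_sum (Ω := G ∩ ball y (r / 2)) F (μ := fun e => sg (pos e.1) (pos (eEnd e)))
      (E := fun _ => ∅) fun e he => side_out' (q1 e) (convex_segment _ _) (q0 e he)
    simpa using this
  have q4 : dW w 𝒯 pos = dW w (𝒯.filter (Nr h h' r y)) pos +
      ∑ e ∈ F, sg (pos e.1) (pos (eEnd e)) := by
    convert dW_split (h := h) (h' := h') (r := r) (𝒯 := 𝒯) (w := w) (pos := pos) y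
  refine ⟨fun z hz => ?_, E, ?_, fun z τ₀ hτ₀ hn hz hu => ?_⟩
  · rw [q4, bdy_add dW_poly (Poly.sum _ q2), p1 z (mem_univ _) hz, bdy_sum _ q2,
      Finset.sum_eq_zero fun e he => (q1 e).bdy_of_notMem fun a => disjoint_left.1 (q0 e he) a hz]
    simp
  · have := p2.add q3
    rwa [← bot_eq_empty, symmDiff_bot, ← q4] at this
  · have := p3 z τ₀ (Finset.mem_filter.2 ⟨hτ₀, hn⟩) hz
      fun τ hτ => hu τ (Finset.mem_filter.1 hτ).1
    exact ⟨fun a => this.1 fun i => by simp [a], fun a => this.2 fun i => by simp [a]⟩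

theorem meas (hh : 0 < h) (hB : ∀ q, MeasurableSet (B q)) :
    MeasurableSet {x | x ∈ B (gp h (vtx h x))} := by
  have : {x | x ∈ B (gp h (vtx h x))} = ⋃ v : Vt, Msh.Sq h v ∩ B (gp h v) := by
    ext x
    simp only [mem_ofPred_eq, mem_iUnion, mem_inter_iff, Msh.Sq]
    exact ⟨fun k => ⟨_, rfl, k⟩, fun ⟨v, k1, k2⟩ => k1 ▸ k2⟩
  rw [this]
  exact MeasurableSet.iUnion fun v => (Msh.sq_meas hh v).inter (hB _)

theorem ae_sign (hS : Signs Ω B h h' r 𝒯 w s) (y : ℂ) : ∀ᵐ x : ℂ, ∀ τ : Tri, τ ∈ 𝒯 →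
    Nr h h' r y τ → x ∈ ball (gp h τ.1) (4 * h') →
      (s y τ = 1 → (x ∈ B (gp h τ.1) ↔ x ∈ B y)) ∧
        (s y τ = -1 → (x ∈ B (gp h τ.1) ↔ x ∉ B y)) := by
  refine ae_all_iff.2 fun τ => ?_
  by_cases a : τ ∈ 𝒯 ∧ Nr h h' r y τ
  · rcases hS.hs y τ with b | b
    · filter_upwards [measure_eq_zero_iff_ae_notMem.1 (hS.pos y τ a.1 a.2 b)] with x hx _ _ k
      refine ⟨fun _ => ?_, fun c => absurd (b.symm.trans c) (by norm_num)⟩
      simp only [mem_inter_iff, mem_symmDiff] at hx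
      tauto
    · filter_upwards [measure_eq_zero_iff_ae_notMem.1 (hS.neg y τ a.1 a.2 b)] with x hx _ _ k
      refine ⟨fun c => absurd (c.symm.trans b) (by norm_num), fun _ => ?_⟩
      simp only [mem_inter_iff, mem_symmDiff, mem_compl_iff] at hx
      tauto
  · exact Eventually.of_forall fun x k1 k2 => absurd ⟨k1, k2⟩ a

end RD

theorem sD (h : SLoc) : SD := by
  intro Ω G U μ B h₀ h' r ε 𝒯 w s pos hh h1 h2 h3 hU _ hUΩ hΩG hμ hn hp hB hS ho hae
  have hr : 0 < r / 2 := by linarith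
  have k1 : NoB G (dW w 𝒯 pos) := fun y hy =>
    (RD.loc hh h1 h2 h3 hp hS ho y).1 y ⟨hy, mem_ball_self hr⟩
  have hm := RD.meas hh fun q => (hB q).1
  refine ⟨k1, _, h U _ _ hU (RD.dW_poly.add hμ) hm
    ((k1.mono (hUΩ.trans hΩG)).add (hn.mono hUΩ) RD.dW_poly hμ) fun y hy => ?_,
    Eventually.of_forall fun x _ => Iff.rfl⟩
  obtain ⟨E, p1, p2⟩ := (RD.loc hh h1 h2 h3 hp hS ho y).2
  obtain ⟨ρ, hρ, hb⟩ := Metric.isOpen_iff.1 (hU.inter isOpen_ball) y ⟨hy, mem_ball_self hr⟩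
  have a1 : ball y ρ ⊆ G ∩ ball y (r / 2) :=
    hb.trans (inter_subset_inter_left _ (hUΩ.trans hΩG))
  have a2 : ball y ρ ⊆ ball y r ∩ Ω := fun z hz =>
    ⟨ball_subset_ball (by linarith) (hb hz).2, hUΩ (hb hz).1⟩
  refine ⟨ρ, hρ, side_congr ((p1.mono a1).add ((hB y).mono a2)).compl hm ?_⟩
  refine measure_eq_zero_iff_ae_notMem.2 ?_
  filter_upwards [hae, RD.ae_sign hS y] with x hx hx' k
  obtain ⟨τ₀, b1, b2, b3, b4⟩ := hx (hb k.2).1
  have c1 := Msh.vtx_near hh x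
  have c2 := mem_ball_iff_norm.1 (hb k.2).2
  have c3 := norm_sub_le_norm_sub_add_norm_sub (gp h₀ (vtx h₀ x)) x y
  have c4 : RD.Nr h₀ h' r y τ₀ := by
    rw [norm_sub_rev (gp h₀ (vtx h₀ x)) x] at c3
    unfold RD.Nr
    rw [b2]
    linarith
  have c5 : x ∈ ball (gp h₀ τ₀.1) (4 * h') := by
    rw [mem_ball_iff_norm, b2]
    linarith
  have d1 := hx' τ₀ b1 c4 c5
  have d2 := p2 x τ₀ b1 c4 b3 b4
  have d3 := k.1
  rw [b2] at d1
  simp only [mem_symmDiff, mem_compl_iff, mem_ofPred_eq] at d3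
  rcases hS.hs y τ₀ with a | a
  · have := d1.1 a
    have := d2.1 a
    tauto
  · have := d1.2 a
    have := d2.2 a
    tauto

end Pool.Agent.MP_20201c_gt.H42
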