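import Pool.Agent.MP_20201c_gt.H42.Spec
import Pool.Agent.MP_20201c_gt.H91.Mesh

/-! Polyhedral sets are dense among the measurable sets of finite area. -/

open MeasureTheory Set Filter Topology Metric
open scoped ENNReal

namespace Pool.Agent.MP_20201c_gt.H42

open Pool.Agent.MP_20201c_gt.H91

namespace RDense

theorem fin_tri {K : Set ℂ} (hK : IsCompact K) {h : ℝ} (hh : 0 < h) :
    {τ : Tri | ∃ x ∈ K, vtx h x = τ.1}.Finite := by
  obtain ⟨R, hR⟩ := hK.isBounded.subset_closedBall 0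
  refine ((Finset.Icc ⌊-R / h⌋ ⌊R / h⌋ ×ˢ Finset.Icc ⌊-R / h⌋ ⌊R / h⌋) ×ˢ
    (Finset.univ : Finset Bool)).finite_toSet.subset fun τ hτ => ?_
  obtain ⟨x, hx, e⟩ := hτ
  have hb := mem_closedBall_zero_iff.1 (hR hx)
  have key : ∀ a : ℝ, |a| ≤ R → ⌊a / h⌋ ∈ Finset.Icc ⌊-R / h⌋ ⌊R / h⌋ := by
    intro a ha
    rw [abs_le] at ha
    exact Finset.mem_Icc.2 ⟨Int.floor_mono (div_le_div_of_nonneg_right ha.1 hh.le),
      Int.floor_mono (div_le_div_of_nonneg_right ha.2 hh.le)⟩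
  refine Finset.mem_coe.2 (Finset.mem_product.2 ⟨Finset.mem_product.2 ?_, Finset.mem_univ _⟩)
  rw [← e]
  exact ⟨key _ ((Complex.abs_re_le_norm x).trans hb), key _ ((Complex.abs_im_le_norm x).trans hb)⟩

theorem mem_car_sum {ι : Type} (s : Finset ι) (σ : ι → Fin 3 → ℂ) {x : ℂ} {i₀ : ι} (hi : i₀ ∈ s)
    (hx : x ∈ hl (σ i₀)) (hu : ∀ i ∈ s, x ∈ hl (σ i) → i = i₀) :
    x ∈ car (∑ i ∈ s, sx (σ i)) := by
  rw [car, mem_ofPred_eq, map_sum, Finset.sum_eq_single_of_mem i₀ hi]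
  · rw [← car_sx] at hx
    exact hx
  · intro i his hne
    by_contra h0
    have : x ∈ car (sx (σ i)) := h0
    rw [car_sx] at this
    exact hne (hu i his this)

/-- A compact set is almost covered by a polyhedral set inside a neighbourhood. -/
theorem cover {K O : Set ℂ} (hK : IsCompact K) (hO : IsOpen O) (hKO : K ⊆ O) :
    ∃ Q : PC 2, Ins O Q ∧ ∀ᵐ x : ℂ, x ∈ K → x ∈ car Q := by
  obtain ⟨δ, hδ, hth⟩ := hK.exists_thickening_subset_open hO hKO
  have hh : 0 < δ / 5 := by positivity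
  have hfin := fin_tri hK hh
  refine ⟨∑ τ ∈ hfin.toFinset, sx (gp (δ / 5) ∘ tv τ), Ins.sum _ fun τ hτ => Ins.sx ?_, ?_⟩
  · rw [Finite.mem_toFinset] at hτ
    obtain ⟨x, hx, e⟩ := hτ
    have h1 : hull (gp (δ / 5)) τ ⊆ closedBall (gp (δ / 5) τ.1) (2 * (δ / 5)) :=
      Msh.hull_sub (convex_closedBall _ _) fun i => by
        rw [mem_closedBall, dist_eq_norm]
        exact Msh.tv_near hh τ i
    intro z hz
    have h2 := h1 hz
    rw [mem_closedBall] at h2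
    have h3 := Msh.vtx_near hh x
    rw [e, ← dist_eq_norm, dist_comm] at h3
    refine hth (mem_thickening_iff.2 ⟨x, hx, ?_⟩)
    have := dist_triangle z (gp (δ / 5) τ.1) x
    linarith
  · filter_upwards [Msh.off_grid (δ / 5)] with x hx hxK
    obtain ⟨τ₀, a1, a2, a3⟩ := Msh.tri_unique hh hx
    refine mem_car_sum _ (fun τ => gp (δ / 5) ∘ tv τ) (i₀ := τ₀) ?_ a2 fun τ _ hτ => a3 τ hτ
    rw [Finite.mem_toFinset]
    exact ⟨x, hxK, a1.symm⟩

end RDense

theorem sDense : SDense := by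
  intro U E hU hE hEU hfin ε hε
  have hε' : ENNReal.ofReal (ε / 2) ≠ 0 := by
    simpa using hε
  obtain ⟨O, hEO, hO, -, hOE⟩ := hE.exists_isOpen_sdiff_lt hfin hε'
  obtain ⟨K, hKE, hK, hEK⟩ := hE.exists_isCompact_sdiff_lt hfin hε'
  obtain ⟨Q, hQ, hc⟩ := RDense.cover hK (hO.inter hU) (hKE.trans (subset_inter hEO hEU))
  refine ⟨Q, hQ.mono inter_subset_right, ?_⟩
  have h1 : volume (symmDiff (car Q) E) ≤ volume ((O \ E) ∪ (E \ K)) := by
    refine measure_mono_ae ?_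
    filter_upwards [hc] with x hx hm
    rcases (mem_symmDiff.1 hm) with ⟨a, b⟩ | ⟨a, b⟩
    · exact Or.inl ⟨(hQ.car a).1, b⟩
    · exact Or.inr ⟨a, fun hk => b (hx hk)⟩
  refine h1.trans_lt ((measure_union_le _ _).trans_lt ?_)
  rw [← add_halves ε, ENNReal.ofReal_add (half_pos hε).le (half_pos hε).le]
  exact ENNReal.add_lt_add hOE hEK

end Pool.Agent.MP_20201c_gt.H42
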