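import Pool.Agent.MP_20201c_gt.H42.Spec

/-! Every relative flat cycle is a polygon plus the boundary of a set; small cycles bound small
sets. -/

open MeasureTheory Set Filter Topology Metric
open scoped ENNReal

namespace Pool.Agent.MP_20201c_gt.H42

open Pool.Agent.MP_20201c_gt.H91

namespace REx

theorem prep (h2 : SGlue) {ρ : ℂ → ℝ} {gr : ℂ → ℂ} {L c₀ β R : ℝ} (hG : Good ρ gr L c₀ β R)
    {η η₀ : ℝ} (hη : 0 < η)
    (hN : ∀ μ : Ms, Poly univ μ → NoB {z | η < ρ z} μ →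
      ∃ ν, Out {z | η < ρ z} ν ∧ NoB {z | -η₀ < ρ z} (μ + ν))
    (T : FC 1) (hT : Disjoint (spt (fbd T)) {z | 0 < ρ z}) {δ : ℝ} (hδ : 0 < δ) :
    ∃ (P : PC 1) (ν : Ms), dist (P : FC 1) T < δ ∧ NoB {z | η < ρ z} (ms P) ∧
      Poly univ (ms P + ν) ∧ NoB {z | -η₀ < ρ z} (ms P + ν) ∧
      Side {z | η < ρ z} (ms P + (ms P + ν)) ∅ ∧ Side {z | η < ρ z} ν ∅ := by
  have hK : IsCompact {z | η ≤ ρ z} := by
    refine (isCompact_closedBall (0 : ℂ) R).of_isClosed_subset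
      (isClosed_le continuous_const hG.continuous) fun z hz => ?_
    have h0 : η ≤ ρ z := hz
    have h1 := hG.ball z (by linarith [hG.hβ])
    rw [mem_closedBall_zero_iff]
    linarith
  obtain ⟨P, hP, hd⟩ := h2 T _ hK (hT.mono_right fun z hz => hη.trans_le hz) δ hδ
  have hn : NoB {z | η < ρ z} (ms P) := 
    noB_ms.2 (hd.mono_right fun z (hz : η < ρ z) => show η ≤ ρ z from hz.le)
  obtain ⟨ν, ho, hb⟩ := hN _ (ms_poly P) hn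
  refine ⟨P, ν, hP, hn, (ms_poly P).add ho.poly, hb, ?_, ho.side⟩
  have h3 := (side_double (Ω := {z | η < ρ z}) (ms_poly P)).add ho.side
  rwa [symmDiff_self, add_assoc] at h3

end REx

theorem sEx (h1 : SSeq) (h2 : SGlue) (h3 : SNrm) : SEx := by
  intro ρ gr L c₀ β R hG hc
  obtain ⟨η₁, p1, a1⟩ := h1 ρ gr L c₀ β R hG hc
  obtain ⟨η₀, p0, a0⟩ := h3 ρ gr L c₀ β R hG
  have hη : 0 < min η₁ η₀ := lt_min p1 p0
  obtain ⟨δ, hδ, a2⟩ := a1 _ ⟨hη, min_le_left _ _⟩ 1 one_pos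
  refine ⟨η₀, p0, fun T hT => ?_⟩
  obtain ⟨P, ν, b1, b2, b3, b4, b5, -⟩ :=
    REx.prep h2 hG hη (a0 _ ⟨hη.le, min_le_right _ _⟩) T hT hδ
  obtain ⟨S, hS, -⟩ := a2 T P _ hT b1 b2 b3
    (b4.mono fun z hz => (neg_lt_zero.2 p0).trans hz) b5
  exact ⟨_, S, b4, hS⟩

theorem sSm (h1 : SSeq) (h2 : SGlue) (h3 : SNrm) (h4 : SNear) (h5 : SExt) : SSm := by
  intro ρ gr L c₀ β R hG hc ε hε
  have hε3 : 0 < ε / 3 := by positivity
  obtain ⟨η₁, p1, a1⟩ := h1 ρ gr L c₀ β R hG hc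
  obtain ⟨η₀, p0, a0⟩ := h3 ρ gr L c₀ β R hG
  obtain ⟨δ₀, C, p4, pC, a4⟩ := h4 ρ gr L c₀ β R hG
  obtain ⟨η₅, p5, a5⟩ := h5 ρ gr L c₀ β R hG hc
  obtain ⟨β₁, pβ, aβ⟩ := hG.strip (ENNReal.ofReal_pos.2 hε3)
  have hβ := hG.hβ
  obtain ⟨η, hη, e1, e0, e5, eβ, e4⟩ :
      ∃ η : ℝ, 0 < η ∧ η ≤ η₁ ∧ η ≤ η₀ ∧ η ≤ η₅ ∧ η ≤ β₁ ∧ η ≤ β / 4 :=
    ⟨min (min (min η₁ η₀) (min η₅ β₁)) (β / 4), by positivity, by simp, by simp, by simp, by simp,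
      by simp⟩
  obtain ⟨δ₁, pδ, a2⟩ := a1 η ⟨hη, e1⟩ _ hε3
  obtain ⟨δ, hδ, d1, d0, dC⟩ : ∃ δ : ℝ, 0 < δ ∧ δ ≤ δ₁ ∧ δ ≤ δ₀ / 2 ∧ δ ≤ ε / 3 / (2 * C) :=
    ⟨min (min δ₁ (δ₀ / 2)) (ε / 3 / (2 * C)), by positivity, by simp, by simp, by simp⟩
  refine ⟨δ, hδ, fun T hT hn => ?_⟩
  obtain ⟨P, ν, b1, b2, b3, b4, b5, b6⟩ := REx.prep h2 hG hη (a0 η ⟨hη.le, e0⟩) T hT hδ
  have b7 : NoB {z | 0 < ρ z} (ms P + ν) := b4.mono fun z hz => (neg_lt_zero.2 p0).trans hz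
  have hP : ‖P‖ < 2 * δ := by
    have k1 := norm_le_norm_add_norm_sub' (P : FC 1) T
    rw [UniformSpace.Completion.norm_coe, ← dist_eq_norm] at k1
    linarith
  obtain ⟨D, c1, c2⟩ := a4 η ⟨hη.le, e4⟩ (2 * δ) ⟨by positivity, by linarith⟩ P hP b2
  obtain ⟨S₁, c3, c4⟩ := a2 T P _ hT (b1.trans_le d1) b2 b3 b7 b5
  have c5 := c1.add b6
  rw [← bot_eq_empty, symmDiff_bot] at c5
  obtain ⟨A, c6, c7⟩ := a5 η ⟨hη, e5⟩ _ D b7 c5
  have ho : IsOpen {z | 0 < ρ z} := isOpen_lt continuous_const hG.continuous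
  refine ⟨symmDiff S₁ A, c3.chg ho (Poly.zero _) (by rwa [zero_add]) (by rwa [zero_add]), ?_⟩
  have c8 : volume D ≤ ENNReal.ofReal (ε / 3) := by
    refine c2.trans (ENNReal.ofReal_le_ofReal ?_)
    rw [le_div_iff₀ (by positivity)] at dC
    linarith
  have hsub : symmDiff S₁ A ∩ {z | 0 < ρ z} ⊆ {z | 0 < ρ z ∧ ρ z < 2 * β₁} ∪
      (S₁ ∩ {z | η < ρ z} ∪ (symmDiff A D ∩ {z | η < ρ z} ∪ D)) := by
    intro z hz
    by_cases hz1 : η < ρ z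
    · simp only [mem_inter_iff, mem_symmDiff, mem_union, mem_ofPred_eq, hz1, and_true] at hz ⊢
      tauto
    · exact Or.inl ⟨hz.2, by linarith [not_lt.1 hz1]⟩
  calc volume (symmDiff S₁ A ∩ {z | 0 < ρ z})
      ≤ ENNReal.ofReal (ε / 3) + (ENNReal.ofReal (ε / 3) + (0 + ENNReal.ofReal (ε / 3))) :=
        (measure_mono hsub).trans ((measure_union_le _ _).trans (add_le_add aβ
          ((measure_union_le _ _).trans (add_le_add c4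
            ((measure_union_le _ _).trans (add_le_add c7.le c8))))))
    _ = ENNReal.ofReal ε := by
        rw [zero_add, ← ENNReal.ofReal_add hε3.le hε3.le,
          ← ENNReal.ofReal_add hε3.le (by positivity)]
        congr 1
        ring

end Pool.Agent.MP_20201c_gt.H42
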