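import Pool.Agent.MP_20201c_gt.H42.Spec
import Pool.Agent.MP_20201c_gt.H91.SideU

/-! Row Ext: a side set in the core extends to the whole domain. -/

open MeasureTheory Set Filter Topology Metric
open scoped ENNReal

namespace Pool.Agent.MP_20201c_gt.H42

open Pool.Agent.MP_20201c_gt.H91

theorem sExt (h1 : SApx) (h2 : SCM) (h3 : SPush) (h4 : SConn) : SExt := by
  intro ρ gr L c₀ β R hG hc
  obtain ⟨ηP, hP0, hP⟩ := h3 ρ gr L c₀ β R hG
  obtain ⟨ηC, hC0, hC⟩ := h4 ρ gr L c₀ β R hG hc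
  refine ⟨min (ηP / 2) ηC, lt_min (half_pos hP0) hC0, fun η hη ν A hν hA => ?_⟩
  have hη1 : η ≤ ηP / 2 := hη.2.trans (min_le_left _ _)
  have hη2 : η ≤ ηC := hη.2.trans (min_le_right _ _)
  have hUo : IsOpen {z | η < ρ z} := isOpen_lt continuous_const hG.continuous
  have hU0 : {z | η < ρ z} ⊆ {z | 0 < ρ z} := fun z hz => lt_trans hη.1 hz
  have hK : IsCompact {z | ηP ≤ ρ z} := by
    refine (isCompact_closedBall (0 : ℂ) R).of_isClosed_subset
      (isClosed_le continuous_const hG.continuous) fun z hz => ?_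
    have h5 : ηP ≤ ρ z := hz
    have := hG.ball z (by linarith [hG.hβ])
    rw [mem_closedBall_zero_iff]
    linarith
  have hKU : {z | ηP ≤ ρ z} ⊆ {z | η < ρ z} := fun z hz => by
    have h5 : ηP ≤ ρ z := hz
    show η < ρ z
    linarith
  obtain ⟨Q, V, -, hVo, hKV, hVU, hQ, -⟩ := h1 _ _ A ν hUo hK hKU (hν.mono hU0) hA
  have pν := hA.poly
  have pQ := ms_poly (pbd Q)
  have s1 : Side V (ν + ms (pbd Q)) ∅ := by
    refine side_congr ((hA.mono hVU).add (side_pbd V Q)) MeasurableSet.empty ?_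
    rw [← bot_eq_empty, symmDiff_bot, symmDiff_comm]
    exact hQ
  obtain ⟨ν', e1, o1⟩ := h2 V _ hVo s1
  have o2 : Out {z | ηP < ρ z} ν' := o1.mono fun z hz => hKV (show ηP ≤ ρ z from le_of_lt hz)
  have n1 : NoB {z | 0 < ρ z} ν' :=
    (hν.add (noB_pbd _ Q) pν pQ).eq2 e1 (pν.add pQ) o1.poly
  obtain ⟨A₁, hA₁⟩ := hP ν' o2 n1
  have s2 : Side {z | 0 < ρ z} ν (symmDiff A₁ (car Q)) :=
    ((e1.symm.add (Eq2.refl _)).trans (Eq2.cancel ν pQ)).side pν (hA₁.add (side_pbd _ Q))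
  have u := side_uniq hUo (hC η ⟨hη.1.le, hη2⟩) (s2.mono hU0) hA
  rcases min_eq_iff.1 u with h | h
  · exact ⟨_, s2, h.1⟩
  · refine ⟨_, s2.compl, ?_⟩
    have e : symmDiff (symmDiff A₁ (car Q))ᶜ A = symmDiff (symmDiff A₁ (car Q)) Aᶜ := by
      ext x; simp only [mem_symmDiff, mem_compl_iff]; tauto
    rw [e]
    exact h.1

end Pool.Agent.MP_20201c_gt.H42
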