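import Pool.Agent.MP_20201c_gt.H42.Spec

/-! Short relative cycles bound sets of small area. -/

open MeasureTheory Set Filter Topology Metric
open scoped ENNReal

namespace Pool.Agent.MP_20201c_gt.H42

open Pool.Agent.MP_20201c_gt.H91

namespace RFill

theorem cone {G W : Set ℂ} {o : ℂ} (ho : Adm G W o) {κ : Ms} (hκ : Poly W κ) (hp : NoB G κ)
    {M : ℝ} (hM0 : 0 ≤ M) (hM : ∀ z ∈ W, ‖o - z‖ ≤ M) :
    ∃ D, Side G κ D ∧ volume D ≤ ENNReal.ofReal M * κ univ := by
  classical
  obtain ⟨m, a, b, hab, rfl⟩ := hκ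
  obtain ⟨D, hD, hS⟩ := SM.side_sum' (Ω := G) Finset.univ
    (fun i (_ : i ∈ Finset.univ) => side_tri G (a i) (b i) o)
  have hν : Side G (∑ j, sg o (Sum.elim a b j)) ∅ := by
    refine SM.side_even (fun _ => o) (Sum.elim a b) fun z w h => ?_
    obtain ⟨j, -, hj⟩ := Finset.exists_ne_zero_of_sum_ne_zero h
    have hj' : o = z ∧ Sum.elim a b j = w := by
      by_contra h0
      exact hj (if_neg h0)
    obtain ⟨rfl, hw⟩ := hj'
    have hwW : w ∈ W := by
      rw [← hw]
      rcases j with i | i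
      · exact (hab i).1
      · exact (hab i).2
    have hb : bdy (msr a b) w ≠ 0 := by
      rw [bdy_msr]
      rw [Fintype.sum_sum_type] at h
      simpa only [ind, Sum.elim_inl, Sum.elim_inr, true_and] using h
    have hwG : w ∉ G := fun hG => hb (hp w hG)
    exact Set.disjoint_left.2 fun y hy hyΩ => ho.2 w hwW hwG y hy hyΩ
  have hνP : Poly W (∑ j, sg o (Sum.elim a b j)) :=
    Poly.of_fintype (fun _ => o) (Sum.elim a b) fun j => ⟨ho.1, by
      rcases j with i | i
      · exact (hab i).1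
      · exact (hab i).2⟩
  refine ⟨D, ?_, ?_⟩
  · have h1 := hS.add hν
    rw [show symmDiff D ∅ = D from symmDiff_bot D] at h1
    refine Side.cancel ⟨m, a, b, hab, rfl⟩ hνP ?_
    have h2 : ∑ i, (sg (a i) (b i) + sg (b i) o + sg o (a i)) =
        msr a b + ∑ j, sg o (Sum.elim a b j) := by
      rw [Fintype.sum_sum_type, Finset.sum_add_distrib, Finset.sum_add_distrib, msr]
      simp only [Sum.elim_inl, Sum.elim_inr, fun i => sg_comm (b i) o]
      abel
    rwa [h2] at h1
  · refine (measure_mono hD).trans ((measure_biUnion_finset_le _ _).trans ?_)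
    rw [msr, Measure.finsetSum_apply, Finset.mul_sum]
    refine Finset.sum_le_sum fun i _ => (tri_area _ _ _).trans ?_
    rw [sg_univ, ← ENNReal.ofReal_mul hM0, mul_comm M]
    exact ENNReal.ofReal_le_ofReal
      (mul_le_mul_of_nonneg_left (hM _ (hab i).1) (norm_nonneg _))

/-- A radius that separates the segments. -/
theorem radius {ι : Type} (s : Finset ι) (a b : ι → ℂ) (q : ℂ) {δ : ℝ} (hδ : 0 < δ)
    (h : (∑ i ∈ s, sg (a i) (b i)) univ ≤ ENNReal.ofReal δ) :
    ∃ t ∈ Ioc 0 (3 * δ), ∀ i ∈ s, ‖a i - q‖ + ‖b i - a i‖ < t ∨ t < ‖a i - q‖ - ‖b i - a i‖ := by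
  by_contra hc
  have h1 : Ioc 0 (3 * δ) ⊆
      ⋃ i ∈ s, Icc (‖a i - q‖ - ‖b i - a i‖) (‖a i - q‖ + ‖b i - a i‖) := by
    intro t ht
    by_contra h2
    refine hc ⟨t, ht, fun i hi => ?_⟩
    by_contra h3
    rw [not_or, not_lt, not_lt] at h3
    exact h2 (mem_biUnion hi ⟨h3.2, h3.1⟩)
  have h2 := (measure_mono (μ := (volume : Measure ℝ)) h1).trans (measure_biUnion_finset_le _ _)
  have h3 : ∑ i ∈ s, volume (Icc (‖a i - q‖ - ‖b i - a i‖) (‖a i - q‖ + ‖b i - a i‖)) =
      ENNReal.ofReal 2 * (∑ i ∈ s, sg (a i) (b i)) univ := by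
    rw [Measure.finsetSum_apply, Finset.mul_sum]
    refine Finset.sum_congr rfl fun i _ => ?_
    rw [Real.volume_Icc, sg_univ, ← ENNReal.ofReal_mul zero_le_two]
    congr 1
    ring
  rw [h3, Real.volume_Ioc] at h2
  have h4 := h2.trans (mul_le_mul_right h _)
  rw [← ENNReal.ofReal_mul zero_le_two, ENNReal.ofReal_le_ofReal_iff (by positivity)] at h4
  linarith

theorem fill {G : Set ℂ} {δ M : ℝ} (hδ : 0 < δ)
    (hloc : ∀ (q : ℂ) (κ : Ms), Poly (cb q (3 * δ)) κ → NoB G κ →
      ∃ D, Side G κ D ∧ volume D ≤ ENNReal.ofReal M * κ univ)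
    {ι : Type} (a b : ι → ℂ) (s : Finset ι) :
    (∑ i ∈ s, sg (a i) (b i)) univ ≤ ENNReal.ofReal δ → NoB G (∑ i ∈ s, sg (a i) (b i)) →
      ∃ D, Side G (∑ i ∈ s, sg (a i) (b i)) D ∧
        volume D ≤ ENNReal.ofReal M * (∑ i ∈ s, sg (a i) (b i)) univ := by
  classical
  induction s using Finset.strongInduction with
  | H s ih =>
    intro hs hn
    rcases s.eq_empty_or_nonempty with rfl | ⟨i₀, hi₀⟩
    · exact ⟨∅, by simpa using side_zero G, by simp⟩
    obtain ⟨t, ht, hsep⟩ := radius s a b (a i₀) hδ hs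
    set P : ι → Prop := fun i => ‖a i - a i₀‖ + ‖b i - a i‖ < t with hP
    have hsum : ∑ i ∈ s.filter P, sg (a i) (b i) + ∑ i ∈ s.filter (fun i => ¬ P i), sg (a i) (b i) =
        ∑ i ∈ s, sg (a i) (b i) := Finset.sum_filter_add_sum_filter_not s P _
    have p1 : Poly (ball (a i₀) t) (∑ i ∈ s.filter P, sg (a i) (b i)) := by
      refine Poly.sum _ fun i hi => ?_
      have h1 : ‖a i - a i₀‖ + ‖b i - a i‖ < t := (Finset.mem_filter.1 hi).2
      have h2 := norm_nonneg (b i - a i)
      have h3 := norm_sub_le_norm_sub_add_norm_sub (b i) (a i) (a i₀)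
      refine Poly.sg ?_ ?_ <;> rw [mem_ball, dist_eq_norm] <;> linarith
    have p2 : Poly (ball (a i₀) t)ᶜ (∑ i ∈ s.filter (fun i => ¬ P i), sg (a i) (b i)) := by
      refine Poly.sum _ fun i hi => ?_
      have h0 := Finset.mem_filter.1 hi
      have h1 : t < ‖a i - a i₀‖ - ‖b i - a i‖ := (hsep i h0.1).resolve_left h0.2
      have h2 := norm_nonneg (b i - a i)
      have h3 := norm_sub_le_norm_sub_add_norm_sub (a i) (b i) (a i₀)
      rw [norm_sub_rev (a i) (b i)] at h3
      refine Poly.sg ?_ ?_ <;> rw [mem_compl_iff, mem_ball, dist_eq_norm, not_lt] <;> linarith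
    have hb : ∀ z ∈ G, bdy (∑ i ∈ s.filter P, sg (a i) (b i)) z = 0 ∧
        bdy (∑ i ∈ s.filter (fun i => ¬ P i), sg (a i) (b i)) z = 0 := by
      intro z hz
      have h1 := hn z hz
      rw [← hsum, bdy_add p1 p2] at h1
      by_cases h2 : z ∈ ball (a i₀) t
      · have h3 := p2.bdy_of_notMem (z := z) fun h => h h2
        rw [h3, add_zero] at h1
        exact ⟨h1, h3⟩
      · have h3 := p1.bdy_of_notMem h2
        rw [h3, zero_add] at h1
        exact ⟨h3, h1⟩
    obtain ⟨D₁, s1, v1⟩ := hloc (a i₀) _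
      (p1.mono (ball_subset_closedBall.trans (closedBall_subset_closedBall ht.2)))
      fun z hz => (hb z hz).1
    have hss : s.filter (fun i => ¬ P i) ⊂ s := by
      refine Finset.filter_ssubset.2 ⟨i₀, hi₀, not_not.2 ((hsep i₀ hi₀).resolve_right ?_)⟩
      have h2 := norm_nonneg (b i₀ - a i₀)
      rw [sub_self, norm_zero, not_lt]
      linarith [ht.1]
    obtain ⟨D₂, s2, v2⟩ := ih _ hss (le_trans (by
      rw [← hsum, Measure.add_apply]
      exact le_add_self) hs) fun z hz => (hb z hz).2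
    refine ⟨symmDiff D₁ D₂, hsum ▸ s1.add s2, ?_⟩
    rw [← hsum, Measure.add_apply, mul_add]
    exact (measure_mono symmDiff_subset_union).trans
      ((measure_union_le _ _).trans (add_le_add v1 v2))

end RFill

theorem sFill : SFill := by
  intro ρ gr L c₀ β R h
  have hβ := h.hβ
  have h' : Good (fun z => ρ z - β / 4) gr L c₀ (β / 2) R :=
    { hL := h.hL
      hc := h.hc
      hβ := half_pos hβ
      tay := fun z w => by simpa using h.tay z w
      lip := fun z w => by simpa using h.lip z w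
      lipg := h.lipg
      bdg := h.bdg
      low := fun z hz => h.low z (by
        rw [abs_le] at hz ⊢
        constructor <;> linarith [hz.1, hz.2])
      ball := fun z hz => h.ball z (by linarith) }
  obtain ⟨r, hr, hst⟩ := h'.star
  refine ⟨min (r / 3) (1 / 6), 12, by positivity, by norm_num, fun η hη δ hδ ν hν hl hn => ?_⟩
  have hδ0 : 0 < δ := hδ.1
  have hδ1 : δ ≤ r / 3 := hδ.2.trans (min_le_left _ _)
  have hδ2 : δ ≤ 1 / 6 := hδ.2.trans (min_le_right _ _)
  have hS : Star {z | η < ρ z} (cb 0 R) r := by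
    have h1 := hst (β / 4 - η) ⟨by linarith [hη.2], by linarith [hη.1]⟩
    have h2 : {z | -(β / 4 - η) < ρ z - β / 4} = {z | η < ρ z} := by
      ext z
      simp only [mem_ofPred_eq]
      constructor <;> intro h3 <;> linarith
    rwa [h2] at h1
  obtain ⟨m, a, b, -, rfl⟩ := hν
  obtain ⟨D, hD, hv⟩ := RFill.fill (G := {z | η < ρ z}) (M := 12 * δ) hδ0 (fun q κ hκ hκn => by
    by_cases hd : Disjoint (cb q (3 * δ)) {z | η < ρ z}
    · exact ⟨∅, side_out' hκ (convex_closedBall _ _) hd, by simp⟩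
    obtain ⟨y, hy1, hy2⟩ := not_disjoint_iff.1 hd
    have hy3 : ‖y‖ + 1 ≤ R := h.ball y (by
      have h1 : η < ρ y := hy2
      linarith [hη.1])
    have hsub : cb q (3 * δ) ⊆ cb 0 R := by
      intro z hz
      rw [mem_closedBall] at hz hy1
      rw [mem_closedBall, dist_zero_right]
      have h1 := dist_triangle_right z y q
      have h2 := norm_le_norm_add_norm_sub' z y
      rw [dist_eq_norm] at h1
      linarith
    obtain ⟨R', hR', o, ho⟩ := hS q (hsub (mem_closedBall_self (by positivity))) (3 * δ)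
      ⟨by positivity, by linarith⟩
    refine RFill.cone ho (hκ.mono (subset_inter hsub (closedBall_subset_closedBall hR'.1))) hκn
      (by positivity) fun z hz => ?_
    have h1 := dist_triangle_right o z q
    have h2 : dist o q ≤ R' := ho.1.2
    have h3 : dist z q ≤ R' := hz.2
    rw [dist_eq_norm] at h1
    linarith [hR'.2]) a b Finset.univ hl hn
  refine ⟨D, hD, hv.trans ((mul_le_mul_right hl _).trans (le_of_eq ?_))⟩
  rw [← ENNReal.ofReal_mul (by positivity)]
  congr 1
  ring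

end Pool.Agent.MP_20201c_gt.H42
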