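import Pool.Agent.MP_20201c_gt.H42.Spec

/-! Approximation of a flat chain by polygons whose boundary avoids a compact set. -/

open MeasureTheory Set Filter Topology Metric
open scoped ENNReal

namespace Pool.Agent.MP_20201c_gt.H42

open Pool.Agent.MP_20201c_gt.H91

namespace RGlue

theorem exists_level {m : ℕ} (u v l : Fin m → ℝ) (t : ℝ) (hl : ∀ i, |v i - u i| ≤ l i)
    (h : ∑ i, ENNReal.ofReal (l i) < ENNReal.ofReal t) :
    ∃ s, t < s ∧ s < 2 * t ∧ ∀ i, u i < s ↔ v i < s := by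
  have h1 : ¬ Ioo t (2 * t) ⊆ ⋃ i, uIcc (u i) (v i) := by
    intro hs
    have h2 := (measure_mono (μ := volume) hs).trans (measure_iUnion_fintype_le _ _)
    rw [Real.volume_Ioo, show 2 * t - t = t by ring] at h2
    refine absurd (h2.trans (Finset.sum_le_sum fun i _ => ?_)) h.not_ge
    rw [Real.volume_interval]
    exact ENNReal.ofReal_le_ofReal (hl i)
  obtain ⟨s, hs, hn⟩ := not_subset.1 h1
  refine ⟨s, hs.1, hs.2, fun i => ?_⟩
  have h3 : s ∉ uIcc (u i) (v i) := fun h' => hn (mem_iUnion.2 ⟨i, h'⟩)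
  rw [mem_uIcc] at h3
  constructor <;> intro h4 <;> by_contra h5
  · exact h3 (Or.inl ⟨h4.le, not_lt.1 h5⟩)
  · exact h3 (Or.inr ⟨h4.le, not_lt.1 h5⟩)

theorem cut (h1 : SRed) (h2 : SLe) (P₁ : PC 1) (Y : PC 0) (x : ℂ) {δ t : ℝ}
    (h : ‖pbd P₁ + Y‖ < δ) (hδ : δ ≤ 1) (ht : δ ≤ t)
    (hY : Disjoint (car Y) (closedBall x (2 * t))) :
    ∃ P : PC 1, ‖P + P₁‖ ≤ δ ∧ car (pbd P) ⊆ car (pbd P₁) \ closedBall x t := by
  classical
  have hδ0 : 0 ≤ δ := (norm_nonneg _).trans h.le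
  obtain ⟨R, hR⟩ := exists_fill h
  have e0 : pbd P₁ + Y + pbd R = 0 :=
    eq_zero_of_pm_lt (le_self_add.trans_lt (hR.trans_le (ENNReal.ofReal_le_one.2 hδ)))
  have hR' : pm R univ < ENNReal.ofReal δ := le_add_self.trans_lt hR
  obtain ⟨ν, hν, he, hm⟩ := h1 R
  obtain ⟨m, a, b, -, rfl⟩ := id hν
  have hsum : ∑ i, ENNReal.ofReal ‖b i - a i‖ < ENNReal.ofReal δ := by
    rw [← hm univ MeasurableSet.univ, msr, Measure.finsetSum_apply] at hR'
    simpa only [sg_univ] using hR'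
  obtain ⟨s, s1, s2, hs⟩ := exists_level (fun i => dist (a i) x) (fun i => dist (b i) x)
    (fun i => ‖b i - a i‖) t (fun i => (abs_dist_sub_le _ _ _).trans_eq (dist_eq_norm _ _))
    (hsum.trans_le (ENNReal.ofReal_le_ofReal ht))
  let I : Finset (Fin m) := Finset.univ.filter fun i => dist (a i) x < s
  let R' : PC 1 := ∑ i ∈ I, sx ![a i, b i]
  have hp : ∀ J : Finset (Fin m), Poly univ (∑ i ∈ J, sg (a i) (b i)) :=
    fun J => Poly.sum _ fun _ _ => Poly.sg (mem_univ _) (mem_univ _)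
  have hb : ∀ (J : Finset (Fin m)) (z : ℂ), bdy (∑ i ∈ J, sg (a i) (b i)) z =
      ∑ i ∈ J, bdy (sg (a i) (b i)) z :=
    fun J z => bdy_sum J (fun _ _ => Poly.sg (mem_univ _) (mem_univ _)) z
  have hc : ∀ z, co (fun _ => z) (pbd R') = ∑ i ∈ I, bdy (sg (a i) (b i)) z := fun z => by
    rw [← bdy_ms, (ms_segs I a b).bdy (ms_poly _) (hp I), hb]
  refine ⟨P₁ + R', ?_, fun z hz => ?_⟩
  · rw [add_comm P₁, add_assoc, pc_add_self, add_zero]
    refine norm_le_of_pm hδ0 ((h2 R' _ (hp I) (ms_segs I a b) univ MeasurableSet.univ).trans ?_)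
    rw [Measure.finsetSum_apply]
    simp only [sg_univ]
    exact (Finset.sum_le_sum_of_subset (Finset.subset_univ _)).trans hsum.le
  · rw [mem_car_zero, map_add, map_add, hc] at hz
    by_cases hzs : dist z x < s
    · exfalso
      have e1 : ∑ i ∈ I, bdy (sg (a i) (b i)) z = co (fun _ => z) (pbd R) := by
        rw [← bdy_ms, he.bdy (ms_poly _) hν, msr, hb]
        refine Finset.sum_subset (Finset.subset_univ _) fun i _ hi => ?_
        have h3 : ¬ dist (a i) x < s := by simpa [I] using hi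
        have h4 : ¬ dist (b i) x < s := fun h' => h3 ((hs i).2 h')
        rw [bdy_sg, if_neg (by rintro rfl; exact h3 hzs), if_neg (by rintro rfl; exact h4 hzs),
          add_zero]
      have e2 : co (fun _ => z) Y = 0 := (z2 _).resolve_right fun h' =>
        disjoint_left.1 hY ((mem_car_zero Y z).2 h') (mem_closedBall.2 (hzs.trans s2).le)
      have e3 := congrArg (co fun _ => z) e0
      rw [map_add, map_add, e2, add_zero, map_zero, ← e1, hz] at e3
      exact one_ne_zero e3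
    · have e1 : ∑ i ∈ I, bdy (sg (a i) (b i)) z = 0 := by
        refine Finset.sum_eq_zero fun i hi => ?_
        have h3 : dist (a i) x < s := by simpa [I] using hi
        have h4 : dist (b i) x < s := (hs i).1 h3
        rw [bdy_sg, if_neg (by rintro rfl; exact hzs h3), if_neg (by rintro rfl; exact hzs h4),
          add_zero]
      rw [e1, add_zero] at hz
      exact ⟨(mem_car_zero _ z).2 hz, fun h' => hzs ((mem_closedBall.1 h').trans_lt s1)⟩

/-- Approximation with boundary outside `A`. -/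
def Ap (T : FC 1) (A : Set ℂ) : Prop :=
  ∀ ε : ℝ, 0 < ε → ∃ P : PC 1, dist (P : FC 1) T < ε ∧ Disjoint (car (pbd P)) A

theorem Ap.mono {T : FC 1} {A B : Set ℂ} (h : Ap T B) (hA : A ⊆ B) : Ap T A := fun ε hε => by
  obtain ⟨P, h1, h2⟩ := h ε hε
  exact ⟨P, h1, h2.mono_right hA⟩

theorem step (h1 : SRed) (h2 : SLe) {T : FC 1} {A : Set ℂ} {x : ℂ} {t : ℝ} (ht : 0 < t)
    (h0 : lm (fbd T) (ball x (3 * t)) = 0) (h : Ap T A) : Ap T (A ∪ closedBall x t) := by
  intro ε hε
  obtain ⟨δ, d0, d1, d2, d3⟩ : ∃ δ : ℝ, 0 < δ ∧ δ ≤ 1 ∧ δ ≤ t ∧ δ ≤ ε / 2 :=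
    ⟨min 1 (min t (ε / 2)), by positivity, min_le_left _ _,
      (min_le_right _ _).trans (min_le_left _ _), (min_le_right _ _).trans (min_le_right _ _)⟩
  obtain ⟨P₁, p1, p2⟩ := h _ (half_pos d0)
  obtain ⟨Y, y1, y2⟩ := exists_of_lm_lt (c := 1) (h0.trans_lt one_pos)
    (isCompact_closedBall x (2 * t)) (closedBall_subset_ball (by linarith)) (half_pos d0)
  have h3 : ‖pbd P₁ + Y‖ < δ := by
    rw [← dist_pc, ← fbd_coe]
    have h4 := dist_triangle_right (fbd (P₁ : FC 1)) (Y : FC 0) (fbd T)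
    have h5 := dist_fbd_le (P₁ : FC 1) T
    linarith
  obtain ⟨P, q1, q2⟩ := cut h1 h2 P₁ Y x h3 d1 d2 (disjoint_of_pm_lt y2)
  refine ⟨P, ?_, disjoint_left.2 fun z hz hz' => ?_⟩
  · rw [← dist_pc] at q1
    have h4 := dist_triangle (P : FC 1) (P₁ : FC 1) T
    linarith
  · rcases hz' with h' | h'
    · exact disjoint_left.1 p2 (q2 hz).1 h'
    · exact (q2 hz).2 h'

end RGlue

open RGlue in
theorem sGlue (h1 : SRed) (h2 : SLe) : SGlue := by
  intro T K hK hd
  have key : ∀ A, Ap T A → Ap T (A ∪ K) := by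
    refine hK.induction_on (p := fun B => ∀ A, Ap T A → Ap T (A ∪ B)) (fun A h => by simpa using h)
      (fun B B' hB h A hA => (h A hA).mono (union_subset_union_right _ hB))
      (fun B B' h h' A hA => by rw [← union_assoc]; exact h' _ (h A hA)) fun x hx => ?_
    obtain ⟨r, hr, h0⟩ := not_mem_spt.1 (disjoint_right.1 hd hx)
    refine ⟨closedBall x (r / 3), mem_nhdsWithin_of_mem_nhds (closedBall_mem_nhds x (by linarith)),
      fun A hA => step h1 h2 (by linarith) ?_ hA⟩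
    rwa [show 3 * (r / 3) = r by ring]
  refine (key ∅ fun ε hε => ?_).mono subset_union_right
  obtain ⟨P, hP⟩ := exists_pc T hε
  exact ⟨P, hP, disjoint_empty _⟩

end Pool.Agent.MP_20201c_gt.H42
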