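import Pool.Agent.MP_20201c_gt.H42.Spec
import Pool.Agent.MP_20201c_gt.H27.Iso
import Pool.Agent.MP_20201c_gt.H91.SideP
import Pool.Agent.MP_20201c_gt.H91.SideU

/-! The perimeter is bounded by the localized mass; sets of zero perimeter are trivial. -/

open MeasureTheory Set Filter Topology Metric
open scoped ENNReal

namespace Pool.Agent.MP_20201c_gt.H42

open Pool.Agent.MP_20201c_gt.H91

namespace RLsc

theorem dvg_bdd {φ : ℂ → ℂ} (h1 : ContDiff ℝ 1 φ) (h2 : HasCompactSupport φ) :
    ∃ M : ℝ, 0 < M ∧ ∀ z, |dvg φ z| ≤ M := by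
  have hc : Continuous (fderiv ℝ φ) := h1.continuous_fderiv one_ne_zero
  have hd : Continuous (dvg φ) := by
    unfold dvg
    fun_prop
  obtain ⟨M, hM⟩ := hd.bounded_above_of_compact_support
    (HasCompactSupport.intro h2.isCompact fun x hx => sp_dvg_out hx)
  exact ⟨max M 1, lt_max_of_lt_right one_pos, fun z => (hM z).trans (le_max_left _ _)⟩

/-- Integrals over sets that are close near the support of the integrand. -/
theorem int_near {f : ℂ → ℝ} (hf : Integrable f) {M ε : ℝ} (hM : ∀ z, |f z| ≤ M) (hε : 0 ≤ ε)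
    {E F V : Set ℂ} (hE : MeasurableSet E) (hF : MeasurableSet F) (hV : MeasurableSet V)
    (h0 : ∀ z, z ∉ V → f z = 0) (h : volume (symmDiff E F ∩ V) ≤ ENNReal.ofReal ε) :
    ∫ z in F, f z ≤ (∫ z in E, f z) + M * ε := by
  have hD : MeasurableSet (symmDiff E F ∩ V) := (hE.symmDiff hF).inter hV
  have hM0 : 0 ≤ M := (abs_nonneg _).trans (hM 0)
  have hi : Integrable ((symmDiff E F ∩ V).indicator fun _ => M) :=
    (integrable_indicator_iff hD).2
      (integrableOn_const (ne_top_of_le_ne_top ENNReal.ofReal_ne_top h))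
  have h1 : ∫ z, F.indicator f z ≤
      ∫ z, (E.indicator f z + (symmDiff E F ∩ V).indicator (fun _ => M) z) := by
    refine integral_mono (hf.indicator hF) ((hf.indicator hE).add hi) fun z => ?_
    have a := abs_le.1 (hM z)
    by_cases v : z ∈ V
    · by_cases e : z ∈ E <;> by_cases e' : z ∈ F <;>
        simp [indicator, mem_symmDiff, v, e, e', a.2] <;> linarith [a.1]
    · simp [indicator, v, h0 z v]
  rw [integral_add (hf.indicator hE) hi, integral_indicator hF, integral_indicator hE,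
    integral_indicator hD, setIntegral_const, smul_eq_mul, mul_comm] at h1
  refine h1.trans (add_le_add le_rfl (mul_le_mul_of_nonneg_left ?_ hM0))
  exact ENNReal.toReal_le_of_le_ofReal hε h

end RLsc

open RLsc in
theorem sLsc (h : SCore) : SLsc := by
  intro Ω V S A T μ hR hV hΩ hA
  refine iSup_le fun φ => iSup_le fun h1 => iSup_le fun h2 => iSup_le fun h3 =>
    iSup_le fun h4 => le_of_forall_gt_imp_ge_of_dense fun c hc => ?_
  rcases eq_or_ne c ∞ with rfl | hc'
  · exact le_top
  obtain ⟨M, hM0, hM⟩ := dvg_bdd h1 h2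
  refine ENNReal.ofReal_le_of_le_toReal (le_of_forall_pos_le_add fun δ hδ => ?_)
  obtain ⟨ν, V', E, a1, a2, a3, a4, a5, a6⟩ :=
    h Ω V (tsupport φ) S T μ c hR h2.isCompact h3 hΩ hc (δ / M) (div_pos hδ hM0)
  have s : Side (V' ∩ V) ν (symmDiff E A) :=
    Side.cancel a1 hA.poly ((a5.mono inter_subset_left).add (hA.mono inter_subset_right))
  have := a1.finite
  obtain ⟨W, b1, b2, b3⟩ := Set.exists_isOpen_lt_of_lt (μ := ν) (tsupport φ) c a4
  have p := (side_per (a2.inter hV) s b2).trans b3.le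
  rw [← ENNReal.ofReal_toReal hc'] at p
  have i := H27.int_le_of_per ENNReal.toReal_nonneg p h1 h2
    (subset_inter b1 (subset_inter a3 h3)) h4
  have n := int_near (sp_dvg_int h1 h2) hM (div_pos hδ hM0).le s.1 (hR.2.1.symmDiff hA.1)
    a2.measurableSet (fun z hz => sp_dvg_out fun x => hz (a3 x)) (by
      refine le_trans (measure_mono fun z hz => ?_) a6.le
      simp only [mem_inter_iff, mem_symmDiff] at hz ⊢
      tauto)
  rw [mul_div_cancel₀ _ hM0.ne'] at n
  linarith

theorem sCst : SCst := by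
  intro Ω S ho hc hS h
  have hcov : Ω ⊆ spCore Ω S ∪ spCore Ω Sᶜ := fun x hx => by
    obtain ⟨r', hr', h0⟩ := h x hx
    obtain ⟨r, rfl⟩ : ∃ r, r' = 4 * r := ⟨r' / 4, by ring⟩
    have hr : 0 < r := by linarith
    have i := H27.loc_iso hS hr le_rfl (h0.le.trans zero_le)
    rw [zero_mul, mul_zero] at i
    have hf : ∀ D : Set ℂ, volume.real (D ∩ ball x r) = 0 → ∀ᵐ y, y ∈ ball x r → y ∈ Dᶜ :=
      fun D hD => by
        rw [measureReal_eq_zero_iff
          (measure_ne_top_of_subset inter_subset_right measure_ball_lt_top.ne)] at hD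
        filter_upwards [measure_eq_zero_iff_ae_notMem.1 hD] with y hy hy' hy''
        exact hy ⟨hy'', hy'⟩
    rcases mul_eq_zero.1 (le_antisymm i (mul_nonneg measureReal_nonneg measureReal_nonneg))
      with e | e
    · exact Or.inr ⟨hx, r, hr, hf _ e⟩
    · exact Or.inl ⟨hx, r, hr, compl_compl S ▸ hf _ e⟩
  have key : ∀ D : Set ℂ, Ω ⊆ spCore Ω D → volume (Dᶜ ∩ Ω) = 0 := fun D hD => by
    rw [measure_eq_zero_iff_ae_notMem]
    filter_upwards [sp_core_ae Ω D] with y hy hy'
    exact hy'.1 (hy (hD hy'.2))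
  rcases hc.subset_or_subset (sp_core_open ho _) (sp_core_open ho _) (sp_core_disj Ω S) hcov
    with e | e
  · exact Or.inr (key _ e)
  · exact Or.inl (compl_compl S ▸ key _ e)

end Pool.Agent.MP_20201c_gt.H42
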