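import Pool.Agent.MP_20201c_gt.H42.Spec

/-! Lower semicontinuity in weighted form, and small differences of close polygonal chains. -/

open MeasureTheory Set Filter Topology Metric
open scoped ENNReal

namespace Pool.Agent.MP_20201c_gt.H42

open Pool.Agent.MP_20201c_gt.H91

namespace RLscW

theorem diff {f : ℂ → ℝ} (hf : Integrable f) {X Y D : Set ℂ} (hX : MeasurableSet X)
    (hY : MeasurableSet Y) (hD : MeasurableSet D) (h : ∀ z, f z ≠ 0 → z ∉ D → (z ∈ X ↔ z ∈ Y)) :
    ∫ z in X, f z ≤ (∫ z in Y, f z) + ∫ z in D, |f z| := by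
  rw [← integral_indicator hX, ← integral_indicator hY, ← integral_indicator hD,
    ← integral_add (hf.indicator hY) (hf.abs.indicator hD)]
  refine integral_mono (hf.indicator hX) ((hf.indicator hY).add (hf.abs.indicator hD)) fun z => ?_
  have h1 := h z
  have h2 := le_abs_self (f z)
  have h3 := neg_abs_le (f z)
  by_cases h0 : f z = 0
  · simp [indicator, h0]
  by_cases a : z ∈ X <;> by_cases b : z ∈ Y <;> by_cases c : z ∈ D <;>
    simp only [indicator, a, b, c, if_true, if_false, h0, ne_eq, not_false_eq_true, true_iff,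
      false_iff, not_true_eq_false, forall_const] at h1 ⊢ <;> linarith [abs_nonneg (f z)]

end RLscW

open RLscW in
theorem sLscW (h1 : SCore) (h2 : SW) : SLscW := by
  intro Ω U S T μ hR hU ι s V A g w hs hg
  refine le_of_forall_gt_imp_ge_of_dense fun c hc => ?_
  rcases eq_or_ne c ∞ with rfl | hc'
  · exact le_top
  refine ENNReal.ofReal_le_of_le_toReal ?_
  have hK : IsCompact (⋃ i ∈ s, tsupport (g i)) :=
    s.isCompact_biUnion fun i hi => (hs i hi).2.2.2.2.1
  have hKi : ∀ i ∈ s, tsupport (g i) ⊆ ⋃ i ∈ s, tsupport (g i) := fun i hi =>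
    subset_biUnion_of_mem (u := fun i => tsupport (g i)) (Finset.mem_coe.2 hi)
  choose ν W E a1 a2 a3 a4 a5 a6 using fun n : ℕ => h1 Ω U _ S T μ c hR hK
    (iUnion₂_subset fun i hi => (hs i hi).2.2.2.2.2.1.trans (hs i hi).2.1) hU hc (1 / (n + 1))
    (by positivity)
  have fi : ∀ i ∈ s, Integrable (dvg fun y => g i y • w i) := fun i hi =>
    sp_dvg_int ((hs i hi).2.2.2.1.smul contDiff_const) (hs i hi).2.2.2.2.1.smul_right
  have t0 : Tendsto (volume ∘ fun n => symmDiff (E n) S ∩ W n) atTop (𝓝 0) := by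
    refine tendsto_of_tendsto_of_tendsto_of_le_of_le tendsto_const_nhds ?_ (fun _ => zero_le)
      fun n => (a6 n).le
    simpa using ENNReal.tendsto_ofReal tendsto_one_div_add_atTop_nhds_zero_nat
  have t1 := (tendsto_finsetSum s fun i hi =>
    (fi i hi).abs.tendsto_setIntegral_nhds_zero t0).const_add c.toReal
  rw [Finset.sum_const_zero, add_zero] at t1
  refine ge_of_tendsto' t1 fun n => ?_
  have := (a1 n).finite
  have gi : ∀ i ∈ s, Integrable (g i) (ν n) := fun i hi =>
    (hs i hi).2.2.2.1.continuous.integrable_of_hasCompactSupport (hs i hi).2.2.2.2.1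
  have b1 : ∑ i ∈ s, ∫ z, g i z ∂ν n ≤ c.toReal := by
    rw [← integral_finsetSum _ gi]
    refine le_trans ?_ (ENNReal.toReal_mono hc' (a4 n).le)
    rw [← measureReal_def, ← integral_indicator_one hK.measurableSet]
    refine integral_mono (integrable_finsetSum _ gi)
      ((integrable_const 1).indicator hK.measurableSet) fun z => ?_
    by_cases hz : z ∈ ⋃ i ∈ s, tsupport (g i)
    · rw [indicator_of_mem hz]; exact hg z
    · rw [indicator_of_notMem hz]
      exact (Finset.sum_eq_zero fun i hi => image_eq_zero_of_notMem_tsupport fun h =>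
        hz (hKi i hi h)).le
  refine le_trans (Finset.sum_le_sum fun i hi => ?_)
    (Finset.sum_add_distrib.trans_le (add_le_add b1 le_rfl))
  obtain ⟨c1, -, c3, c4, c5, c6, c7, c8⟩ := hs i hi
  refine (diff (fi i hi) (hR.2.1.symmDiff c3.1) ((a5 n).1.symmDiff c3.1)
    (((a5 n).1.symmDiff hR.2.1).inter (a2 n).measurableSet) fun z hz hz' => ?_).trans
    (add_le_add (h2 (V i ∩ W n) _ (ν n) (g i) (w i) (c1.inter (a2 n))
      (Side.cancel (a1 n) hR.1 (((a5 n).mono inter_subset_right).add (c3.mono inter_subset_left)))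
      c4 c5 (subset_inter c6 ((hKi i hi).trans (a3 n))) c7 c8) le_rfl)
  have hW : z ∈ W n := a3 n (hKi i hi (tsupport_smul_subset_left (g i) (fun _ => w i)
    (by_contra fun h => hz (sp_dvg_out h))))
  simp only [mem_inter_iff, mem_symmDiff, hW, and_true] at hz' ⊢
  tauto

theorem sNear (h1 : SRed) (h2 : SFill) : SNear := by
  intro ρ gr L c₀ β R hG
  obtain ⟨δ₀, C, h0, hC, H⟩ := h2 ρ gr L c₀ β R hG
  refine ⟨δ₀, C * δ₀ + 1, h0, by positivity, fun η hη δ hδ P hP hN => ?_⟩
  obtain ⟨Q, hQ⟩ := exists_fill hP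
  obtain ⟨ν, a1, a2, a3⟩ := h1 (P + pbd Q)
  have e := (ms_add P (pbd Q)).symm.trans a2
  obtain ⟨D, b1, b2⟩ := H η hη δ hδ ν a1 (a3 _ .univ ▸ le_self_add.trans hQ.le)
    ((hN.add (noB_pbd _ Q) (ms_poly _) (ms_poly _)).eq2 e ((ms_poly _).add (ms_poly _)) a1)
  refine ⟨symmDiff D (car Q), ((e.symm.add (Eq2.refl _)).trans (Eq2.cancel _ (ms_poly _))).side
    (ms_poly _) (b1.add (side_pbd _ Q)), (measure_mono symmDiff_le_sup).trans
    ((measure_union_le _ _).trans ?_)⟩
  have b3 : volume (car Q) ≤ ENNReal.ofReal δ := by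
    have := le_add_self.trans hQ.le
    rwa [pm_two, inter_univ] at this
  refine (add_le_add b2 b3).trans ?_
  rw [← ENNReal.ofReal_add (by positivity) hδ.1.le]
  refine ENNReal.ofReal_le_ofReal ?_
  nlinarith [mul_le_mul_of_nonneg_left hδ.2 (mul_pos hC hδ.1).le]

end Pool.Agent.MP_20201c_gt.H42
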