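import Pool.Agent.MP_20201c_gt.H42.Spec

/-! A polygon in the collar of the domain without boundary in the domain bounds there. -/

open MeasureTheory Set Filter Topology Metric
open scoped ENNReal

namespace Pool.Agent.MP_20201c_gt.H42

open Pool.Agent.MP_20201c_gt.H91

namespace RPush

variable {ρ : ℂ → ℝ} {gr : ℂ → ℂ} {L c₀ β R : ℝ}

theorem desc (h : Good ρ gr L c₀ β R) (z : ℂ) {s : ℝ} (h0 : 0 ≤ s) (h1 : s ≤ (2 * L)⁻¹) :
    ρ (z - s • gr z) ≤ ρ z - s / 2 * ‖gr z‖ ^ 2 := by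
  have hL := h.hL
  have h2 := (abs_le.1 (h.tay z (z - s • gr z))).2
  have e : z - s • gr z - z = (-s) • gr z := by
    rw [neg_smul]
    abel
  rw [e, Nrm.ip_ss, norm_smul, Real.norm_eq_abs, abs_neg, abs_of_nonneg h0] at h2
  have h3 : L * s ≤ 1 / 2 := by
    have := mul_le_mul_of_nonneg_left h1 hL.le
    rwa [show L * (2 * L)⁻¹ = 1 / 2 by field_simp] at this
  have h4 : 0 ≤ s * ‖gr z‖ ^ 2 := by positivity
  have h5 := mul_le_mul_of_nonneg_right h3 h4
  nlinarith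

theorem spoke (h : Good ρ gr L c₀ β R) (z : ℂ) (hz : ρ z ≤ 0) :
    Disjoint (segment ℝ z (z - (2 * L)⁻¹ • gr z)) {z | 0 < ρ z} := by
  have hL := h.hL
  refine disjoint_left.2 fun w hw hw' => ?_
  obtain ⟨t, ht, rfl⟩ := m1_seg_ex hw
  have e : z + t • (z - (2 * L)⁻¹ • gr z - z) = z - (t * (2 * L)⁻¹) • gr z := by
    rw [mul_smul]
    module
  rw [e] at hw'
  have hp : 0 ≤ (2 * L)⁻¹ := by positivity
  have h1 := desc h z (s := t * (2 * L)⁻¹) (mul_nonneg ht.1 hp)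
    (by simpa using mul_le_mul_of_nonneg_right ht.2 hp)
  have h2 : 0 ≤ t * (2 * L)⁻¹ / 2 * ‖gr z‖ ^ 2 := by
    have := ht.1
    positivity
  have h3 : 0 < ρ (z - (t * (2 * L)⁻¹) • gr z) := hw'
  linarith

theorem deep (h : Good ρ gr L c₀ β R) {η : ℝ} (h1 : η ≤ β) (h2 : η ≤ c₀ ^ 2 / (8 * L)) (z : ℂ)
    (hz : ρ z ≤ η) : ρ (z - (2 * L)⁻¹ • gr z) ≤ -η := by
  have hL := h.hL
  have hp : 0 ≤ (2 * L)⁻¹ := by positivity
  have h3 := desc h z hp le_rfl
  by_cases hb : -β ≤ ρ z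
  · have h4 := h.low z (abs_le.2 ⟨hb, hz.trans h1⟩)
    have h5 : c₀ ^ 2 ≤ ‖gr z‖ ^ 2 := pow_le_pow_left₀ h.hc.le h4 2
    have h6 : (2 * L)⁻¹ / 2 * c₀ ^ 2 ≤ (2 * L)⁻¹ / 2 * ‖gr z‖ ^ 2 :=
      mul_le_mul_of_nonneg_left h5 (by positivity)
    have h7 : (2 * L)⁻¹ / 2 * c₀ ^ 2 = 2 * (c₀ ^ 2 / (8 * L)) := by
      field_simp
      ring
    linarith
  · have h4 : 0 ≤ (2 * L)⁻¹ / 2 * ‖gr z‖ ^ 2 := by positivity
    push Not at hb
    linarith

theorem lip2 (h : Good ρ gr L c₀ β R) (a b : ℂ) :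
    ‖(b - (2 * L)⁻¹ • gr b) - (a - (2 * L)⁻¹ • gr a)‖ ≤ 2 * ‖b - a‖ := by
  have hL := h.hL
  have hp : 0 ≤ (2 * L)⁻¹ := by positivity
  have e : (b - (2 * L)⁻¹ • gr b) - (a - (2 * L)⁻¹ • gr a) =
      (b - a) - (2 * L)⁻¹ • (gr b - gr a) := by
    rw [smul_sub]
    abel
  rw [e]
  refine (norm_sub_le _ _).trans ?_
  rw [norm_smul, Real.norm_of_nonneg hp]
  have h1 := mul_le_mul_of_nonneg_left (h.lipg a b) hp
  have h2 : (2 * L)⁻¹ * (L * ‖b - a‖) = ‖b - a‖ / 2 := by field_simp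
  have h3 := norm_nonneg (b - a)
  linarith

/-- The segment together with the two spokes at its end points bounds. -/
def Bd (Ω : Set ℂ) (n : ℂ → ℂ) (a b : ℂ) : Prop :=
  ∃ A, Side Ω (sg a b + (sg a (n a) + sg b (n b))) A

theorem ps (a b : ℂ) : Poly univ (sg a b) := Poly.sg (mem_univ _) (mem_univ _)

theorem bd_short {Ω : Set ℂ} {n : ℂ → ℂ} {a b : ℂ} (h : Disjoint (segment ℝ (n a) (n b)) Ω) :
    Bd Ω n a b := by
  have h1 := side_tri Ω a b (n b)
  have h2 := side_tri Ω a (n b) (n a)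
  have h3 : Side Ω (sg (n a) (n b)) ∅ := by
    rw [← msr_single]
    exact side_out fun _ => h
  have h4 := (h1.add h2).add h3
  refine ⟨_, Side.cancel ((ps _ _).add ((ps _ _).add (ps _ _)))
    ((ps a (n b)).add (ps (n a) (n b))) (?_ : Side Ω _ (symmDiff (symmDiff
      (convexHull ℝ {a, b, n b}) (convexHull ℝ {a, n b, n a})) ∅))⟩
  rw [sg_comm (n b) a, sg_comm (n b) (n a), sg_comm (n a) a] at h4
  have e : sg a b + (sg a (n a) + sg b (n b)) + (sg a (n b) + sg (n a) (n b)) +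
      (sg a (n b) + sg (n a) (n b)) = sg a b + sg b (n b) + sg a (n b) +
        (sg a (n b) + sg (n a) (n b) + sg a (n a)) + sg (n a) (n b) := by abel
  rw [e]
  exact h4

theorem bd_glue {Ω : Set ℂ} {n : ℂ → ℂ} {a b c : ℂ} (hc : c ∈ segment ℝ a b) (h1 : Bd Ω n a c)
    (h2 : Bd Ω n c b) : Bd Ω n a b := by
  obtain ⟨A, hA⟩ := h1
  obtain ⟨B, hB⟩ := h2
  refine ⟨symmDiff A B, Side.cancel ((ps _ _).add ((ps _ _).add (ps _ _))) (ps c (n c)) ?_⟩
  have e : sg a b + (sg a (n a) + sg b (n b)) + sg c (n c) + sg c (n c) =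
      sg a c + (sg a (n a) + sg c (n c)) + (sg c b + (sg c (n c) + sg b (n b))) := by
    rw [sg_split hc]
    abel
  rw [e]
  exact hA.add hB

theorem bd_all {Ω U : Set ℂ} {n : ℂ → ℂ} {δ : ℝ} (hδ : 0 < δ)
    (h : ∀ a b, a ∈ U → ‖b - a‖ ≤ δ → Bd Ω n a b) (a b : ℂ) (hs : segment ℝ a b ⊆ U) :
    Bd Ω n a b := by
  have key : ∀ (N : ℕ) (a b : ℂ), segment ℝ a b ⊆ U → ‖b - a‖ ≤ 2 ^ N * δ → Bd Ω n a b := by
    intro N
    induction N with
    | zero =>
      intro a b hs hn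
      exact h a b (hs (left_mem_segment _ _ _)) (by simpa using hn)
    | succ N ih =>
      intro a b hs hn
      have hc : a + (1 / 2 : ℝ) • (b - a) ∈ segment ℝ a b :=
        m1_seg_mem a b ⟨by norm_num, by norm_num⟩
      have e1 : a + (1 / 2 : ℝ) • (b - a) - a = (1 / 2 : ℝ) • (b - a) := by abel
      have e2 : b - (a + (1 / 2 : ℝ) • (b - a)) = (1 / 2 : ℝ) • (b - a) := by module
      have e3 : ‖(1 / 2 : ℝ) • (b - a)‖ ≤ 2 ^ N * δ := by
        rw [norm_smul, Real.norm_of_nonneg (by norm_num)]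
        rw [pow_succ] at hn
        linarith
      refine bd_glue hc (ih _ _ ?_ (by rwa [e1])) (ih _ _ ?_ (by rwa [e2]))
      · exact ((convex_segment a b).segment_subset (left_mem_segment _ _ _) hc).trans hs
      · exact ((convex_segment a b).segment_subset hc (right_mem_segment _ _ _)).trans hs
  obtain ⟨N, hN⟩ := pow_unbounded_of_one_lt (‖b - a‖ / δ) (one_lt_two (α := ℝ))
  exact key N a b hs ((div_le_iff₀ hδ).1 hN.le)

end RPush

open RPush in
theorem sPush : SPush := by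
  classical
  intro ρ gr L c₀ β R h
  have hL := h.hL
  have hc := h.hc
  have hβ := h.hβ
  set η : ℝ := min β (c₀ ^ 2 / (8 * L)) with hη
  have hη0 : 0 < η := lt_min hβ (by positivity)
  refine ⟨η, hη0, ?_⟩
  rintro ν ⟨m, a, b, rfl, hd⟩ hn
  set n : ℂ → ℂ := fun z => z - (2 * L)⁻¹ • gr z with hnd
  have hshort : ∀ a b : ℂ, a ∈ {z | ρ z ≤ η} → ‖b - a‖ ≤ η / (2 * L) →
      Bd {z | 0 < ρ z} n a b := by
    intro a b ha hab
    refine bd_short (disjoint_left.2 fun w hw hw' => ?_)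
    obtain ⟨t, ht, rfl⟩ := m1_seg_ex hw
    have h1 : ρ (n a) ≤ -η := deep h (min_le_left _ _) (min_le_right _ _) a ha
    have h2 : ‖n b - n a‖ ≤ 2 * ‖b - a‖ := lip2 h a b
    have h3 := (abs_le.1 (h.lip (n a) (n a + t • (n b - n a)))).2
    rw [add_sub_cancel_left, norm_smul, Real.norm_of_nonneg ht.1] at h3
    have h4 : t * ‖n b - n a‖ ≤ ‖n b - n a‖ := by
      simpa using mul_le_mul_of_nonneg_right ht.2 (norm_nonneg (n b - n a))
    have h5 : L * (t * ‖n b - n a‖) ≤ L * (2 * (η / (2 * L))) :=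
      mul_le_mul_of_nonneg_left (by linarith) hL.le
    have h6 : L * (2 * (η / (2 * L))) = η := by field_simp
    have h7 : 0 < ρ (n a + t • (n b - n a)) := hw'
    linarith
  have hall : ∀ i, Bd {z | 0 < ρ z} n (a i) (b i) := fun i =>
    bd_all (by positivity) hshort _ _ fun z hz =>
      show ρ z ≤ η from not_lt.1 fun h' => disjoint_left.1 (hd i) hz h'
  choose A hA using hall
  obtain ⟨D, -, hD⟩ := SM.side_sum' (Finset.univ : Finset (Fin m)) fun i _ => hA i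
  have hsp : Side {z | 0 < ρ z} (∑ j : Fin m ⊕ Fin m, sg (Sum.elim a b j) (n (Sum.elim a b j))) ∅ := by
    refine SM.side_even (Sum.elim a b) (fun j => n (Sum.elim a b j)) fun z w hzw => ?_
    obtain ⟨j, -, hj⟩ := Finset.exists_ne_zero_of_sum_ne_zero hzw
    have hj' : Sum.elim a b j = z ∧ n (Sum.elim a b j) = w := by
      by_contra hc'
      exact hj (if_neg hc')
    have hw : w = n z := by rw [← hj'.2, hj'.1]
    subst hw
    refine spoke h z (not_lt.1 fun hz => hzw ?_)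
    have h1 := hn z hz
    rw [bdy_msr] at h1
    refine Eq.trans ?_ h1
    rw [Fintype.sum_sum_type]
    unfold ind
    refine congrArg₂ (· + ·) (Finset.sum_congr rfl fun i _ => ?_)
      (Finset.sum_congr rfl fun i _ => ?_)
    · by_cases e : a i = z <;> simp [e]
    · by_cases e : b i = z <;> simp [e]
  refine ⟨symmDiff D ∅, Side.cancel (W := univ) ⟨m, a, b, fun _ => ⟨mem_univ _, mem_univ _⟩, rfl⟩
    hsp.poly ?_⟩
  have e : msr a b + ∑ j : Fin m ⊕ Fin m, sg (Sum.elim a b j) (n (Sum.elim a b j)) =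
      ∑ i, (sg (a i) (b i) + (sg (a i) (n (a i)) + sg (b i) (n (b i)))) := by
    rw [Fintype.sum_sum_type, Finset.sum_add_distrib, Finset.sum_add_distrib]
    rfl
  have h2 := hD.add hsp
  rwa [← e] at h2

end Pool.Agent.MP_20201c_gt.H42
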