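import Pool.Agent.MP_20201c_gt.H42.Spec

/-! The part of a polygonal measure in an open set as a flat chain. -/

open MeasureTheory Set Filter Topology Metric
open scoped ENNReal

namespace Pool.Agent.MP_20201c_gt.H42

open Pool.Agent.MP_20201c_gt.H91

namespace RRes

theorem out_zero (U : Set ℂ) : Out U 0 :=
  ⟨0, Fin.elim0, Fin.elim0, by simp [msr], fun i => i.elim0⟩

theorem out_sg {U : Set ℂ} {a b : ℂ} (h : Disjoint (segment ℝ a b) U) : Out U (sg a b) :=
  ⟨1, fun _ => a, fun _ => b, (msr_single a b).symm, fun _ => h⟩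

theorem out_add {U : Set ℂ} {μ ν : Ms} (h : Out U μ) (h' : Out U ν) : Out U (μ + ν) := by
  obtain ⟨m, a, b, rfl, hab⟩ := h
  obtain ⟨n, a', b', rfl, hab'⟩ := h'
  refine ⟨m + n, Fin.append a a', Fin.append b b', (msr_append a b a' b').symm, fun i => ?_⟩
  refine Fin.addCases (fun i => ?_) (fun i => ?_) i
  · simpa using hab i
  · simpa using hab' i

theorem res_zero (U : Set ℂ) : IsRes U 0 0 := fun K _ _ ε hε =>
  ⟨0, 0, 0, by rwa [UniformSpace.Completion.coe_zero, dist_self], Ins.zero U, Poly.zero _,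
    out_zero K, (add_zero 0).symm, Eq2.refl _⟩

theorem res_add {U : Set ℂ} {μ μ' : Ms} {T T' : FC 1} (h : IsRes U μ T) (h' : IsRes U μ' T') :
    IsRes U (μ + μ') (T + T') := by
  intro K hK hU ε hε
  obtain ⟨P, ν, κ, a1, a2, a3, a4, a5, a6⟩ := h K hK hU _ (half_pos hε)
  obtain ⟨P', ν', κ', b1, b2, b3, b4, b5, b6⟩ := h' K hK hU _ (half_pos hε)
  refine ⟨P + P', ν + ν', κ + κ', ?_, a2.add b2, a3.add b3, out_add a4 b4, ?_,
    (ms_add P P').trans (a6.add b6)⟩
  · rw [UniformSpace.Completion.coe_add]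
    exact (dist_add_add_le _ _ _ _).trans_lt (by linarith)
  · rw [a5, b5, add_add_add_comm]

open Classical in
/-- Repeated bisection: the chain and the measure of the pieces in `U`, and the other pieces. -/
noncomputable def bis (U : Set ℂ) : ℕ → ℂ → ℂ → PC 1 × Ms × Ms
  | 0, a, b => if segment ℝ a b ⊆ U then (sx ![a, b], sg a b, 0) else (0, 0, sg a b)
  | n + 1, a, b => if segment ℝ a b ⊆ U then (sx ![a, b], sg a b, 0)
      else bis U n a (midpoint ℝ a b) + bis U n (midpoint ℝ a b) b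

theorem bis_in {U : Set ℂ} {a b : ℂ} (h : segment ℝ a b ⊆ U) (n : ℕ) :
    bis U n a b = (sx ![a, b], sg a b, 0) := by
  cases n <;> simp only [bis, if_pos h]

theorem bis_zero {U : Set ℂ} {a b : ℂ} (h : ¬ segment ℝ a b ⊆ U) :
    bis U 0 a b = (0, 0, sg a b) := by
  simp only [bis, if_neg h]

theorem bis_succ {U : Set ℂ} {a b : ℂ} (h : ¬ segment ℝ a b ⊆ U) (n : ℕ) :
    bis U (n + 1) a b = bis U n a (midpoint ℝ a b) + bis U n (midpoint ℝ a b) b := by
  simp only [bis, if_neg h]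

theorem psg (a b : ℂ) : Poly univ (sg a b) := Poly.sg (mem_univ _) (mem_univ _)

theorem bis_spec (U : Set ℂ) (n : ℕ) : ∀ a b : ℂ, Ins U (bis U n a b).1 ∧
    Poly univ (bis U n a b).2.1 ∧ sg a b = (bis U n a b).2.1 + (bis U n a b).2.2 ∧
    Eq2 (ms (bis U n a b).1) (bis U n a b).2.1 := by
  have h0 : ∀ (n : ℕ) (a b : ℂ), segment ℝ a b ⊆ U → Ins U (bis U n a b).1 ∧
      Poly univ (bis U n a b).2.1 ∧ sg a b = (bis U n a b).2.1 + (bis U n a b).2.2 ∧
      Eq2 (ms (bis U n a b).1) (bis U n a b).2.1 := by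
    intro n a b h
    rw [bis_in h]
    exact ⟨Ins.sx (by rw [hl_two]; exact h), psg a b, (add_zero _).symm, Eq2.of_eq (ms_sx _)⟩
  induction n with
  | zero =>
    intro a b
    by_cases h : segment ℝ a b ⊆ U
    · exact h0 _ a b h
    · rw [bis_zero h]
      exact ⟨Ins.zero U, Poly.zero _, (zero_add _).symm, Eq2.refl _⟩
  | succ n ih =>
    intro a b
    by_cases h : segment ℝ a b ⊆ U
    · exact h0 _ a b h
    · rw [bis_succ h]
      obtain ⟨a1, a2, a3, a4⟩ := ih a (midpoint ℝ a b)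
      obtain ⟨b1, b2, b3, b4⟩ := ih (midpoint ℝ a b) b
      refine ⟨a1.add b1, a2.add b2, ?_, (ms_add _ _).trans (a4.add b4)⟩
      rw [sg_split (midpoint_mem_segment a b), a3, b3]
      exact add_add_add_comm _ _ _ _

theorem bis_mono (U : Set ℂ) (n : ℕ) : ∀ a b : ℂ,
    ∃ κ, Poly univ κ ∧ (bis U (n + 1) a b).2.1 = (bis U n a b).2.1 + κ := by
  induction n with
  | zero =>
    intro a b
    by_cases h : segment ℝ a b ⊆ U
    · exact ⟨0, Poly.zero _, by rw [bis_in h, bis_in h, add_zero]⟩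
    · exact ⟨_, (bis_spec U 1 a b).2.1, by rw [bis_zero h]; exact (zero_add _).symm⟩
  | succ n ih =>
    intro a b
    by_cases h : segment ℝ a b ⊆ U
    · exact ⟨0, Poly.zero _, by rw [bis_in h, bis_in h, add_zero]⟩
    · obtain ⟨κ, a1, a2⟩ := ih a (midpoint ℝ a b)
      obtain ⟨κ', b1, b2⟩ := ih (midpoint ℝ a b) b
      refine ⟨κ + κ', a1.add b1, ?_⟩
      rw [bis_succ h (n + 1), bis_succ h n]
      change (bis U (n + 1) _ _).2.1 + (bis U (n + 1) _ _).2.1 =
        (bis U n _ _).2.1 + (bis U n _ _).2.1 + _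
      rw [a2, b2]
      exact add_add_add_comm _ _ _ _

theorem bis_out {U K : Set ℂ} {δ : ℝ} (hK : cthickening δ K ⊆ U) (n : ℕ) : ∀ a b : ℂ,
    dist a b ≤ 2 ^ n * δ → Out K (bis U n a b).2.2 := by
  induction n with
  | zero =>
    intro a b hd
    by_cases h : segment ℝ a b ⊆ U
    · rw [bis_in h]; exact out_zero K
    · rw [bis_zero h]
      refine out_sg (disjoint_left.2 fun x hx hxK => h fun y hy => hK ?_)
      refine mem_cthickening_of_dist_le y x δ K hxK ?_
      rw [pow_zero, one_mul] at hd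
      have ha : a ∈ closedBall x δ := by
        have := dist_add_dist_of_mem_segment hx
        rw [mem_closedBall]
        linarith [dist_nonneg (x := x) (y := b)]
      have hb : b ∈ closedBall x δ := by
        have := dist_add_dist_of_mem_segment hx
        rw [mem_closedBall, dist_comm]
        linarith [dist_nonneg (x := a) (y := x)]
      exact (convex_closedBall x δ).segment_subset ha hb hy
  | succ n ih =>
    intro a b hd
    by_cases h : segment ℝ a b ⊆ U
    · rw [bis_in h]; exact out_zero K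
    · rw [bis_succ h]
      rw [pow_succ] at hd
      refine out_add (ih _ _ ?_) (ih _ _ ?_)
      · rw [dist_left_midpoint]
        norm_num
        linarith
      · rw [dist_midpoint_right]
        norm_num
        linarith

theorem res_sg (h : SLe) {U : Set ℂ} (hU : IsOpen U) (a b : ℂ) : ∃ T, IsRes U (sg a b) T := by
  let M : ℕ → ℝ := fun n => ((bis U n a b).2.1).real univ
  have h1 : ∀ n, dist ((bis U n a b).1 : FC 1) ((bis U (n + 1) a b).1 : FC 1) ≤
      M (n + 1) - M n := by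
    intro n
    obtain ⟨κ, a1, a2⟩ := bis_mono U n a b
    obtain ⟨-, b2, -, b4⟩ := bis_spec U n a b
    obtain ⟨-, -, -, c4⟩ := bis_spec U (n + 1) a b
    have := a1.finite
    have := b2.finite
    have e : M (n + 1) - M n = κ.real univ := by
      simp only [M]
      rw [a2, measureReal_add_apply]
      ring
    rw [dist_pc, e]
    refine norm_le_of_pm measureReal_nonneg ?_
    rw [ofReal_measureReal]
    refine h _ κ a1 ((ms_add _ _).trans ((b4.add c4).trans
      ((Eq2.of_eq ?_).trans (Eq2.cancel κ b2)))) _ MeasurableSet.univ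
    rw [a2]
    abel
  have h2 : ∀ n, M n ≤ ‖b - a‖ := by
    intro n
    rw [← sg_real_univ]
    refine ENNReal.toReal_mono (measure_ne_top _ _) ?_
    rw [(bis_spec U n a b).2.2.1, Measure.add_apply]
    exact le_self_add
  have h3 : Summable fun n => M (n + 1) - M n := by
    refine summable_of_sum_range_le (c := ‖b - a‖) (fun n => dist_nonneg.trans (h1 n)) fun n => ?_
    rw [Finset.sum_range_sub]
    have : 0 ≤ M 0 := measureReal_nonneg
    linarith [h2 n]
  obtain ⟨T, hT⟩ := cauchySeq_tendsto_of_complete (cauchySeq_of_dist_le_of_summable _ h1 h3)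
  refine ⟨T, fun K hK hKU ε hε => ?_⟩
  obtain ⟨δ, hδ, hc⟩ := hK.exists_cthickening_subset_open hU hKU
  have e1 := Metric.tendsto_nhds.1 hT ε hε
  have e2 : ∀ᶠ n : ℕ in atTop, dist a b ≤ 2 ^ n * δ :=
    ((tendsto_pow_atTop_atTop_of_one_lt one_lt_two).atTop_mul_const hδ).eventually_ge_atTop _
  obtain ⟨n, n1, n2⟩ := (e1.and e2).exists
  obtain ⟨b1, b2, b3, b4⟩ := bis_spec U n a b
  exact ⟨_, _, _, n1, b1, b2, bis_out hc n a b n2, b3, b4⟩

end RRes

theorem sRes (h : SLe) : SRes := by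
  rintro U μ hU ⟨m, a, b, -, rfl⟩
  refine Finset.sum_induction _ (fun μ => ∃ T, IsRes U μ T) ?_ ⟨0, RRes.res_zero U⟩
    fun i _ => RRes.res_sg h hU _ _
  rintro μ ν ⟨T, hT⟩ ⟨T', hT'⟩
  exact ⟨T + T', RRes.res_add hT hT'⟩

theorem sRes2 (h : SLe) : SRes2 := by
  intro Ω μ T hΩ hμ hn hr
  have h0 := hr ∅ isCompact_empty (empty_subset _)
  have hc : IsOpen (closure Ω)ᶜ := isClosed_closure.isOpen_compl
  have hb : ∀ {P : PC 1} {ε : ℝ}, dist (P : FC 1) T < ε →
      dist ((pbd P : PC 0) : FC 0) (fbd T) < ε := fun hP => by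
    rw [← fbd_coe]
    exact (dist_fbd_le _ _).trans_lt hP
  refine ⟨mem_Zc.2 ⟨?_, ?_⟩, ⟨hμ, MeasurableSet.empty, fun K hK hKΩ ε hε => ?_⟩,
    fun U _ => lm_le fun K hK hKU ε hε => ?_⟩
  · refine disjoint_compl_right_iff_subset.1 (disjoint_spt hc
      (le_zero_iff.1 (lm_le fun K _ hK ε hε => ?_)))
    obtain ⟨P, -, -, a1, a2, -⟩ := h0 ε hε
    exact ⟨P, a1, (pm_of_disjoint
      (disjoint_compl_right.mono (a2.car.trans subset_closure) hK)).le⟩
  · rw [hΩ.frontier_eq]
    refine subset_sdiff.2 ⟨disjoint_compl_right_iff_subset.1 (disjoint_spt hc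
      (le_zero_iff.1 (lm_le fun K _ hK ε hε => ?_))),
      disjoint_spt hΩ (le_zero_iff.1 (lm_le fun K hK hKΩ ε hε => ?_))⟩
    · obtain ⟨P, -, -, a1, a2, -⟩ := h0 ε hε
      exact ⟨pbd P, hb a1, (pm_of_disjoint
        (disjoint_compl_right.mono (a2.pbd.car.trans subset_closure) hK)).le⟩
    · obtain ⟨P, ν, κ, a1, -, -, a4, a5, a6⟩ := hr K hK hKΩ ε hε
      refine ⟨pbd P, hb a1, (pm_of_disjoint (noB_ms.1 ?_)).le⟩
      refine ((hn.mono hKΩ).add a4.noB hμ a4.poly).eq2 ?_ (hμ.add a4.poly) (ms_poly P)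
      rw [a5]
      exact (Eq2.cancel ν a4.poly).trans a6.symm
  · obtain ⟨P, ν, κ, a1, -, a3, ⟨m, a, b, e, hd⟩, a5, a6⟩ := hr K hK hKΩ ε hε
    have hV : Out (Ω \ ⋃ i, segment ℝ (a i) (b i)) κ :=
      ⟨m, a, b, e, fun i => disjoint_left.2 fun x hx hx' => hx'.2 (mem_iUnion.2 ⟨i, hx⟩)⟩
    have e2 : Eq2 κ (ms P + μ) := by
      refine ((a6.add (Eq2.refl μ)).trans ((Eq2.of_eq ?_).trans (Eq2.cancel κ a3))).symm
      rw [a5]
      abel
    have hp := (ms_poly P).add hμ
    refine ⟨P, _, ∅, hΩ.sdiff (isClosed_iUnion_of_finite fun i => ?_), ?_, a1,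
      hV.noB.eq2 e2 hV.poly hp, e2.side hp hV.side, by simpa using hε⟩
    · have := (hl_compact ![a i, b i]).isClosed
      rwa [hl_two] at this
    · exact subset_sdiff.2 ⟨hKΩ, disjoint_iUnion_right.2 fun i => (hd i).symm⟩
  · obtain ⟨P, ν, κ, a1, -, a3, -, a5, a6⟩ := h0 ε hε
    refine ⟨P, a1, (h P ν a3 a6 K hK.measurableSet).trans (le_trans ?_ (measure_mono hKU))⟩
    rw [a5, Measure.add_apply]
    exact le_self_add

end Pool.Agent.MP_20201c_gt.H42
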