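import Pool.Agent.MP_20201c_gt.H42.Spec

/-! The limit set of a sequence of polygonal approximations. -/

open MeasureTheory Set Filter Topology Metric
open scoped ENNReal

namespace Pool.Agent.MP_20201c_gt.H42

open Pool.Agent.MP_20201c_gt.H91

namespace RSeq

theorem lim_sub (E U : ℕ → Set ℂ) (hU : Monotone U) (n : ℕ) :
    symmDiff (E n) (⋃ m, ⋂ i, ⋂ (_ : m ≤ i), E i) ∩ U n ⊆
      ⋃ i, symmDiff (E (n + i + 1)) (E (n + i)) ∩ U (n + i) := by
  intro z hz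
  by_contra h
  have h1 : ∀ i, (z ∈ E (n + i) ↔ z ∈ E n) := fun i => by
    induction i with
    | zero => rfl
    | succ i ih =>
      have h2 : z ∉ symmDiff (E (n + i + 1)) (E (n + i)) := fun h3 =>
        h (mem_iUnion.2 ⟨i, h3, hU (Nat.le_add_right n i) hz.2⟩)
      rw [mem_symmDiff] at h2
      rw [← add_assoc]
      tauto
  have h4 : z ∈ (⋃ m, ⋂ i, ⋂ (_ : m ≤ i), E i) ↔ z ∈ E n := by
    simp only [mem_iUnion, mem_iInter]
    constructor
    · rintro ⟨m, hm⟩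
      exact (h1 m).1 (hm _ (Nat.le_add_left m n))
    · intro h5
      refine ⟨n, fun i hi => ?_⟩
      obtain ⟨j, rfl⟩ := Nat.exists_eq_add_of_le hi
      exact (h1 j).2 h5
  have h5 := hz.1
  rw [mem_symmDiff] at h5
  tauto

theorem lim_vol (E U : ℕ → Set ℂ) (hU : Monotone U) (c : ℝ) (hc : 0 ≤ c)
    (h : ∀ i, volume (symmDiff (E (i + 1)) (E i) ∩ U i) ≤ ENNReal.ofReal (c / 2 ^ i)) (n : ℕ) :
    volume (symmDiff (E n) (⋃ m, ⋂ i, ⋂ (_ : m ≤ i), E i) ∩ U n) ≤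
      ENNReal.ofReal (2 * c / 2 ^ n) := by
  refine (measure_mono (lim_sub E U hU n)).trans ((measure_iUnion_le _).trans ?_)
  refine (ENNReal.tsum_le_tsum fun i => h (n + i)).trans (le_of_eq ?_)
  have e : ∀ i : ℕ, c / 2 ^ (n + i) = (2 * c / 2 ^ n) / 2 / 2 ^ i := fun i => by
    rw [pow_add]; field_simp
  simp only [e]
  rw [← ENNReal.ofReal_tsum_of_nonneg (fun i => by positivity) (summable_geometric_two' _),
    tsum_geometric_two']

theorem step {ρ : ℂ → ℝ} {a b b' c : ℝ} {P P' : PC 1} {μ : Ms} {E : Set ℂ} (hb : 0 ≤ b)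
    (hab : b ≤ a) (hb' : 0 < b') (hμ : Poly univ μ) (hn : NoB {z | 0 < ρ z} μ)
    (h1 : ∃ D, Side {z | a < ρ z} (ms (P + P')) D ∧ volume D ≤ ENNReal.ofReal c)
    (h2 : ∃ ν, Out {z | b < ρ z} ν ∧ NoB {z | -b' < ρ z} (ms P' + ν))
    (h3 : ∀ (ν : Ms) (A : Set ℂ), NoB {z | 0 < ρ z} ν → Side {z | a < ρ z} ν A →
      ∃ A', Side {z | 0 < ρ z} ν A' ∧ volume (symmDiff A' A ∩ {z | a < ρ z}) = 0)
    (hE : Side {z | a < ρ z} (ms P + μ) E) :
    ∃ E', Side {z | b < ρ z} (ms P' + μ) E' ∧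
      volume (symmDiff E' E ∩ {z | a < ρ z}) ≤ ENNReal.ofReal c := by
  obtain ⟨D, hD, hv⟩ := h1
  obtain ⟨ν, hν, hN⟩ := h2
  have hs : {z | a < ρ z} ⊆ {z | b < ρ z} := fun z hz => lt_of_le_of_lt hab hz
  have p1 : Poly univ (ms P' + ν) := (ms_poly P').add hν.poly
  have e1 : Eq2 (ms P + μ + ms (P + P') + ν) (ms P' + ν + μ) := by
    refine (((Eq2.refl _).add (ms_add P P')).add (Eq2.refl ν)).trans
      ((Eq2.of_eq ?_).trans (Eq2.cancel _ (ms_poly P)))
    abel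
  have s1 := e1.side (p1.add hμ) ((hE.add hD).add (hν.mono hs).side)
  obtain ⟨A, hA, hz⟩ := h3 _ _
    ((hN.mono fun z (hz : 0 < ρ z) => (show -b' < ρ z by linarith)).add hn p1 hμ) s1
  have e2 : Eq2 (ms P' + ν + μ + ν) (ms P' + μ) := by
    refine (Eq2.of_eq ?_).trans (Eq2.cancel _ hν.poly)
    abel
  refine ⟨symmDiff A ∅, e2.side ((ms_poly P').add hμ)
    ((hA.mono fun z (hz : b < ρ z) => lt_of_le_of_lt hb hz).add hν.side), ?_⟩
  refine le_trans ?_ hv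
  rw [← zero_add (volume D), ← hz]
  refine (measure_mono fun z hz => ?_).trans (measure_union_le _ _)
  simp only [mem_inter_iff, mem_symmDiff, mem_union, mem_empty_iff_false] at hz ⊢
  tauto

end RSeq

open RSeq in
theorem sSeq (h1 : SGlue) (h2 : SNear) (h3 : SNrm) (h4 : SExt) : SSeq := by
  intro ρ gr L c₀ β R hG hconn
  obtain ⟨δ₀, C, hδ₀, hC, hnear⟩ := h2 ρ gr L c₀ β R hG
  obtain ⟨η₁, hη₁, hnrm⟩ := h3 ρ gr L c₀ β R hG
  obtain ⟨η₂, hη₂, hext⟩ := h4 ρ gr L c₀ β R hG hconn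
  have hβ := hG.hβ
  refine ⟨min (β / 4) (min η₁ η₂), by positivity, fun η hη ε hε => ?_⟩
  obtain ⟨hη0, hη⟩ := hη
  simp only [le_min_iff] at hη
  obtain ⟨δ, hδ, hδ1, hδ2⟩ : ∃ δ : ℝ, 0 < δ ∧ 2 * δ ≤ δ₀ ∧ 4 * C * δ ≤ ε := by
    refine ⟨min (δ₀ / 2) (ε / (4 * C)), by positivity, ?_, ?_⟩
    · linarith [min_le_left (δ₀ / 2) (ε / (4 * C))]
    · rw [mul_comm, ← le_div_iff₀ (by positivity)]
      exact min_le_right _ _
  refine ⟨δ, hδ, fun T P μ hT hP hn hμ hnμ hs => ?_⟩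
  have hpow : ∀ (x : ℝ) (i : ℕ), 0 < x → 0 < x / 2 ^ i ∧ x / 2 ^ i ≤ x := fun x i hx =>
    ⟨by positivity, div_le_self hx.le (one_le_pow₀ one_le_two)⟩
  have hmono : ∀ i j : ℕ, i ≤ j → η / 2 ^ j ≤ η / 2 ^ i := fun i j h =>
    div_le_div_of_nonneg_left hη0.le (by positivity) (pow_le_pow_right₀ one_le_two h)
  have hex : ∀ i : ℕ, ∃ Q : PC 1, dist (Q : FC 1) T < δ / 2 ^ i ∧
      NoB {z | η / 2 ^ i < ρ z} (ms Q) ∧ (i = 0 → Q = P) := fun i => by
    rcases Nat.eq_zero_or_pos i with rfl | hi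
    · exact ⟨P, by simpa using hP, by simpa using hn, fun _ => rfl⟩
    · have hK : IsCompact {z | η / 2 ^ i ≤ ρ z} := by
        refine Metric.isCompact_of_isClosed_isBounded
          (isClosed_le continuous_const hG.continuous) ?_
        refine (isBounded_closedBall (x := (0 : ℂ)) (r := R)).subset fun z hz => ?_
        have h5 := hG.ball z (by linarith [(hpow η i hη0).1, show η / 2 ^ i ≤ ρ z from hz])
        rw [mem_closedBall, dist_zero_right]
        linarith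
      obtain ⟨Q, hQ, hd⟩ := h1 T _ hK
        (hT.mono_right fun z (hz : η / 2 ^ i ≤ ρ z) => lt_of_lt_of_le (hpow η i hη0).1 hz) _
        (hpow δ i hδ).1
      exact ⟨Q, hQ, noB_ms.2 (hd.mono_right fun z (hz : η / 2 ^ i < ρ z) => hz.le),
        fun h => absurd h hi.ne'⟩
  choose Q hQ hQn hQ0 using hex
  have hU : Monotone fun i : ℕ => {z | η / 2 ^ i < ρ z} := fun i j h z hz =>
    lt_of_le_of_lt (hmono i j h) hz
  have hst : ∀ (i : ℕ) (E : Set ℂ), Side {z | η / 2 ^ i < ρ z} (ms (Q i) + μ) E →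
      ∃ E', Side {z | η / 2 ^ (i + 1) < ρ z} (ms (Q (i + 1)) + μ) E' ∧
        volume (symmDiff E' E ∩ {z | η / 2 ^ i < ρ z}) ≤ ENNReal.ofReal (2 * C * δ / 2 ^ i) := by
    intro i E hE
    have a1 := hpow η i hη0
    have a2 := hpow η (i + 1) hη0
    have a3 := hpow (2 * δ) i (by positivity)
    refine step a2.1.le (hmono _ _ i.le_succ) hη₁ hμ hnμ ?_
      (hnrm _ ⟨a2.1.le, a2.2.trans hη.2.1⟩ _ (ms_poly _) (hQn _))
      (hext _ ⟨a1.1, a1.2.trans hη.2.2⟩) hE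
    have e : 2 * C * δ / 2 ^ i = C * (2 * δ / 2 ^ i) := by ring
    rw [e]
    refine hnear _ ⟨a1.1.le, a1.2.trans hη.1⟩ _ ⟨a3.1, a3.2.trans hδ1⟩ _ ?_ ?_
    · rw [← pc_sub, ← dist_eq_norm, ← UniformSpace.Completion.dist_eq]
      refine (dist_triangle_right _ _ T).trans_lt ?_
      have b1 := hQ i
      have b2 := hQ (i + 1)
      have b3 : δ / 2 ^ (i + 1) ≤ δ / 2 ^ i :=
        div_le_div_of_nonneg_left hδ.le (by positivity) (pow_le_pow_right₀ one_le_two i.le_succ)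
      have b4 : 2 * δ / 2 ^ i = δ / 2 ^ i + δ / 2 ^ i := by ring
      linarith
    · exact ((hQn i).add ((hQn (i + 1)).mono (hU i.le_succ)) (ms_poly _) (ms_poly _)).eq2
        (ms_add _ _).symm ((ms_poly _).add (ms_poly _)) (ms_poly _)
  choose! F hF hFv using hst
  let E : ℕ → Set ℂ := fun i => Nat.rec ∅ F i
  have hE : ∀ i, Side {z | η / 2 ^ i < ρ z} (ms (Q i) + μ) (E i) := fun i => by
    induction i with
    | zero => rw [hQ0 0 rfl, pow_zero, div_one]; exact hs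
    | succ i ih => exact hF i _ ih
  have hv := lim_vol E _ hU (2 * C * δ) (by positivity) fun i => hFv i _ (hE i)
  refine ⟨⋃ m, ⋂ i, ⋂ (_ : m ≤ i), E i, ⟨hμ, MeasurableSet.iUnion fun m =>
    MeasurableSet.iInter fun i => MeasurableSet.iInter fun _ => (hE i).1, ?_⟩, ?_⟩
  · intro K hK hΩ ε' hε'
    have t : ∀ x : ℝ, Tendsto (fun n : ℕ => x / 2 ^ n) atTop (𝓝 0) := fun x =>
      tendsto_const_nhds.div_atTop (tendsto_pow_atTop_atTop_of_one_lt one_lt_two)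
    have k1 : ∀ᶠ n : ℕ in atTop, K ⊆ {z | η / 2 ^ n < ρ z} := by
      rcases K.eq_empty_or_nonempty with rfl | hne
      · exact Eventually.of_forall fun _ => empty_subset _
      · obtain ⟨x, hx, hm⟩ := hK.exists_isMinOn hne hG.continuous.continuousOn
        filter_upwards [(t η).eventually (gt_mem_nhds (show 0 < ρ x from hΩ hx))] with n hn z hz
        exact lt_of_lt_of_le hn (hm hz)
    obtain ⟨n, n1, n2, n3⟩ := (k1.and (((t δ).eventually (gt_mem_nhds hε')).and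
      ((t (2 * (2 * C * δ))).eventually (gt_mem_nhds hε')))).exists
    refine ⟨Q n, _, E n, isOpen_lt continuous_const hG.continuous, n1, (hQ n).trans n2,
      (hQn n).add (hnμ.mono fun z (hz : η / 2 ^ n < ρ z) => lt_trans (hpow η n hη0).1 hz)
        (ms_poly _) hμ, hE n, (hv n).trans_lt ((ENNReal.ofReal_lt_ofReal_iff hε').2 n3)⟩
  · have h5 := hv 0
    have e : E 0 = ∅ := rfl
    rw [e, ← bot_eq_empty, bot_symmDiff] at h5
    simp only [pow_zero, div_one] at h5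
    exact h5.trans (ENNReal.ofReal_le_ofReal (by linarith))

end Pool.Agent.MP_20201c_gt.H42
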