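import Pool.Agent.MP_20201c_gt.H42.Spec
import Pool.Agent.MP_20201c_gt.H91.Mesh
import Pool.Agent.MP_20201c_gt.H91.SideU

/-! Signs that compare the charts of the vertices. -/

open MeasureTheory Set Filter Topology Metric
open scoped ENNReal

namespace Pool.Agent.MP_20201c_gt.H42

open Pool.Agent.MP_20201c_gt.H91

namespace RSigns

open Classical in
/-- The sign of the chart at `x` relative to the chart at `q`. -/
noncomputable def sgn (B : ℂ → Set ℂ) (a : ℝ) (q x : ℂ) : ℝ :=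
  if volume (symmDiff (B x) (B q) ∩ ball x a) = 0 then 1 else -1

theorem sgn_cases (B : ℂ → Set ℂ) (a : ℝ) (q x : ℂ) : sgn B a q x = 1 ∨ sgn B a q x = -1 := by
  unfold sgn
  split_ifs
  · exact Or.inl rfl
  · exact Or.inr rfl

theorem sgn_pos {B : ℂ → Set ℂ} {a : ℝ} {q x : ℂ} (h : sgn B a q x = 1) :
    volume (symmDiff (B x) (B q) ∩ ball x a) = 0 := by
  unfold sgn at h
  split_ifs at h with h1
  · exact h1
  · norm_num at h

theorem sgn_neg {Ω : Set ℂ} {μ : Ms} {B : ℂ → Set ℂ} {a r : ℝ} {q x : ℂ}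
    (hB : ∀ q, Side (ball q r ∩ Ω) μ (B q)) (hx : ball x a ⊆ Ω) (hq : ‖x - q‖ + a ≤ r)
    (h : sgn B a q x = -1) : volume (symmDiff (B x) (B q)ᶜ ∩ ball x a) = 0 := by
  unfold sgn at h
  split_ifs at h with h1
  · norm_num at h
  · have h2 : ball x a ⊆ ball x r := ball_subset_ball (by linarith [norm_nonneg (x - q)])
    have h3 : ball x a ⊆ ball q r := ball_subset_ball' (by rw [dist_eq_norm]; linarith)
    have h4 := side_uniq isOpen_ball (convex_ball x a).isPreconnected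
      ((hB x).mono (subset_inter h2 hx)) ((hB q).mono (subset_inter h3 hx))
    rcases min_eq_iff.1 h4 with h5 | h5
    · exact absurd h5.1 h1
    · exact h5.1

theorem sgn_ae {Ω : Set ℂ} {μ : Ms} {B : ℂ → Set ℂ} {a r : ℝ} {q x : ℂ}
    (hB : ∀ q, Side (ball q r ∩ Ω) μ (B q)) (hx : ball x a ⊆ Ω) (hq : ‖x - q‖ + a ≤ r) :
    ∀ᵐ z : ℂ, z ∈ ball x a → (sgn B a q x = 1 ↔ (z ∈ B x ↔ z ∈ B q)) := by
  rcases sgn_cases B a q x with h | h
  · filter_upwards [measure_eq_zero_iff_ae_notMem.1 (sgn_pos h)] with z hz hb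
    simp only [mem_inter_iff, mem_symmDiff, hb, and_true] at hz
    tauto
  · filter_upwards [measure_eq_zero_iff_ae_notMem.1 (sgn_neg hB hx hq h)] with z hz hb
    simp only [mem_inter_iff, mem_symmDiff, hb, and_true, mem_compl_iff] at hz
    have h1 : ¬ sgn B a q x = 1 := by
      rw [h]
      norm_num
    tauto

theorem alg {a b c : ℝ} {X Y Q : Prop} (ha : a = 1 ∨ a = -1) (hb : b = 1 ∨ b = -1)
    (hc : c = 1 ∨ c = -1) (k0 : a = 1 ↔ (Y ↔ X)) (k1 : b = 1 ↔ (X ↔ Q))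
    (k2 : c = 1 ↔ (Y ↔ Q)) : a = b * c := by
  have n : ¬ (-1 : ℝ) = 1 := by norm_num
  rcases ha with rfl | rfl <;> rcases hb with rfl | rfl <;> rcases hc with rfl | rfl <;>
    simp only [n, true_iff, false_iff] at k0 k1 k2 <;>
    first | (norm_num; done) | (exfalso; clear n; tauto)

theorem sgn_mul {Ω : Set ℂ} {μ : Ms} {B : ℂ → Set ℂ} {a r : ℝ} {q x y : ℂ}
    (hB : ∀ q, Side (ball q r ∩ Ω) μ (B q)) (hx : ball x a ⊆ Ω) (hy : ball y a ⊆ Ω)
    (hxy : ‖y - x‖ < a) (h0 : ‖y - x‖ + a ≤ r) (h1 : ‖x - q‖ + a ≤ r) (h2 : ‖y - q‖ + a ≤ r) :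
    sgn B a x y = sgn B a q x * sgn B a q y := by
  have ha : 0 < a := (norm_nonneg _).trans_lt hxy
  have hv : volume (ball x a ∩ ball y a) ≠ 0 :=
    ((isOpen_ball.inter isOpen_ball).measure_pos volume
      ⟨y, by rwa [mem_ball, dist_eq_norm], mem_ball_self ha⟩).ne'
  obtain ⟨z, hz, k0, k1, k2⟩ := Measure.exists_mem_of_measure_ne_zero_of_ae hv
    (ae_restrict_of_ae ((sgn_ae hB hy h0).and ((sgn_ae hB hx h1).and (sgn_ae hB hy h2))))
  exact alg (sgn_cases B a x y) (sgn_cases B a q x) (sgn_cases B a q y) (k0 hz.2) (k1 hz.1)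
    (k2 hz.2)

end RSigns

open RSigns in
theorem sSigns : SSigns := by
  intro Ω μ B h h' r 𝒯 hh hh' hr hB hT
  have hb : ∀ τ ∈ 𝒯, ball (gp h τ.1) (4 * h') ⊆ Ω :=
    fun τ hτ => ball_subset_closedBall.trans (hT τ hτ)
  refine ⟨fun e => sgn B (4 * h') (gp h (eT1 e).1) (gp h (eT2 e).1),
    fun q τ => sgn B (4 * h') q (gp h τ.1), fun e => sgn_cases _ _ _ _,
    fun q τ => sgn_cases _ _ _ _, fun q τ _ _ h1 => sgn_pos h1,
    fun q τ hτ h1 h2 => sgn_neg hB (hb τ hτ) h1 h2, fun q e he h1 h2 => ?_⟩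
  obtain ⟨k1, k2⟩ := StM.mem_inE.1 he
  obtain ⟨e1, ⟨e2, e3⟩, -⟩ := Msh.edge_off e
  have h3 : ‖gp h (eT2 e).1 - gp h (eT1 e).1‖ ≤ 2 * h := by
    have := Msh.gp_near hh e2 e3
    rw [e1]
    simpa using this
  exact sgn_mul hB (hb _ k1) (hb _ k2) (by linarith) (by linarith) h1 h2

end Pool.Agent.MP_20201c_gt.H42
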