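import Pool.Agent.MP_20201c_gt.H42.Spec

/-! Polygonal measures without boundary bound a set in star shaped regions; bounding is local. -/

open MeasureTheory Set Filter Topology Metric
open scoped ENNReal

namespace Pool.Agent.MP_20201c_gt.H42

open Pool.Agent.MP_20201c_gt.H91

namespace RStar

theorem seg_cpt (a b : ℂ) : IsCompact (segment ℝ a b) := by
  rw [← convexHull_pair]
  exact (toFinite _).isCompact_convexHull ℝ

theorem off {O : Set ℂ} (hO : IsOpen O) (hne : O.Nonempty) {m : ℕ} (a b : Fin m → ℂ) :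
    ∃ o ∈ O, ∃ δ : ℝ, 0 < δ ∧ ∀ i, ∀ w ∈ segment ℝ (a i) (b i), δ ≤ ‖w - o‖ := by
  obtain ⟨o, ho, hoff⟩ : ∃ o ∈ O, o ∉ ⋃ i, segment ℝ (a i) (b i) := by
    by_contra hc
    push Not at hc
    exact (hO.measure_pos volume hne).ne'
      (measure_mono_null hc (measure_iUnion_null fun i => sp_seg_null _ _))
  have hcl : IsClosed (⋃ i, segment ℝ (a i) (b i)) :=
    isClosed_iUnion_of_finite fun i => (seg_cpt _ _).isClosed
  obtain ⟨δ, hδ, hball⟩ := Metric.isOpen_iff.1 hcl.isOpen_compl o hoff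
  refine ⟨o, ho, δ, hδ, fun i w hw => ?_⟩
  by_contra hlt
  exact hball (mem_ball_iff_norm.2 (not_le.1 hlt)) (mem_iUnion.2 ⟨i, hw⟩)

theorem far {o a b : ℂ} {δ l : ℝ} (hl : 0 ≤ l) (h : ∀ w ∈ segment ℝ a b, δ ≤ ‖w - o‖) {z : ℂ}
    (hz : z ∈ segment ℝ (o + l • (a - o)) (o + l • (b - o))) : l * δ ≤ ‖z - o‖ := by
  obtain ⟨s, t, hs, ht, hst, rfl⟩ := hz
  have h1 := h (s • a + t • b) ⟨s, t, hs, ht, hst, rfl⟩
  have h2 : s • (o + l • (a - o)) + t • (o + l • (b - o)) - o = l • (s • a + t • b - o) := by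
    obtain rfl : t = 1 - s := by linarith
    module
  rw [h2, norm_smul, Real.norm_of_nonneg hl]
  exact mul_le_mul_of_nonneg_left h1 hl

theorem glob {V A E : Set ℂ} {ν : Ms} (ho : IsOpen V) (hc : IsPreconnected V)
    (hE : MeasurableSet E) (hA : Side V ν A) (h : ∀ x ∈ V, ∃ r, 0 < r ∧ Side (ball x r) ν E) :
    Side V ν E := by
  have hcov : V ⊆ spCore V (symmDiff A E) ∪ spCore V (symmDiff A E)ᶜ := by
    intro x hx
    obtain ⟨r, hr, h1⟩ := h x hx
    obtain ⟨s, hs, h2⟩ := Metric.isOpen_iff.1 ho x hx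
    have h3 := side_uniq (Ω := ball x (min r s)) isOpen_ball (convex_ball _ _).isPreconnected
      (hA.mono ((ball_subset_ball (min_le_right _ _)).trans h2))
      (h1.mono (ball_subset_ball (min_le_left _ _)))
    have h4 : symmDiff A Eᶜ = (symmDiff A E)ᶜ := by
      ext z; simp only [mem_symmDiff, mem_compl_iff]; tauto
    rw [fdist, h4, min_eq_iff] at h3
    rcases h3 with ⟨h3, -⟩ | ⟨h3, -⟩
    · refine Or.inr ⟨hx, min r s, lt_min hr hs, ?_⟩
      filter_upwards [measure_eq_zero_iff_ae_notMem.1 h3] with y hy hy' h5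
      exact hy ⟨h5, hy'⟩
    · refine Or.inl ⟨hx, min r s, lt_min hr hs, ?_⟩
      filter_upwards [measure_eq_zero_iff_ae_notMem.1 h3] with y hy hy'
      by_contra h5
      exact hy ⟨h5, hy'⟩
  rcases hc.subset_or_subset (sp_core_open ho _) (sp_core_open ho _) (sp_core_disj _ _) hcov with
    h1 | h1
  · refine side_congr hA.compl hE (measure_eq_zero_iff_ae_notMem.2 ?_)
    filter_upwards [sp_core_ae V (symmDiff A E)] with y hy h2
    have h3 := hy (h1 h2.2)
    have h4 := h2.1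
    simp only [mem_symmDiff, mem_compl_iff] at h3 h4
    tauto
  · refine side_congr hA hE (measure_eq_zero_iff_ae_notMem.2 ?_)
    filter_upwards [sp_core_ae V (symmDiff A E)ᶜ] with y hy h2
    exact hy (h1 h2.2) h2.1

end RStar

theorem sStar : SStar := by
  intro V V' O μ hV hb hcl hO hne hst hp hn
  obtain ⟨m, a, b, hab, rfl⟩ := hp
  obtain ⟨o, ho, δ, hδ, hoff⟩ := RStar.off hO hne a b
  obtain ⟨R, hR⟩ := hb.subset_ball o
  have h1 : (1 : ℝ) ≤ max 1 (R / δ) := le_max_left _ _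
  have h2 : R ≤ max 1 (R / δ) * δ := (div_le_iff₀ hδ).1 (le_max_right _ _)
  generalize max 1 (R / δ) = L at h1 h2
  have : PreconnectedSpace (Icc (1 : ℝ) L) := Subtype.preconnectedSpace isPreconnected_Icc
  have hu : Fam univ fun x : Icc (1 : ℝ) L => scl o x (msr a b) :=
    ⟨m, fun i x => o + (x : ℝ) • (a i - o), fun i x => o + (x : ℝ) • (b i - o),
      fun i => ⟨by fun_prop, by fun_prop⟩, fun _ _ => ⟨trivial, trivial⟩,
      fun x => scl_msr o (zero_le_one.trans x.2.1) a b⟩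
  have hpar : ∀ x : Icc (1 : ℝ) L, Par V univ 0 (scl o x (msr a b)) := by
    rintro ⟨l, hl, -⟩ z - hz
    have h0 : 0 < l := zero_lt_one.trans_le hl
    have h3 : z = o + l • (o + l⁻¹ • (z - o) - o) := by
      rw [add_sub_cancel_left, smul_smul, mul_inv_cancel₀ h0.ne', one_smul, add_sub_cancel]
    have h4 : o + l⁻¹ • (z - o) ∈ segment ℝ o z :=
      ⟨1 - l⁻¹, l⁻¹, sub_nonneg.2 (inv_le_one_of_one_le₀ hl), inv_nonneg.2 h0.le, by ring,
        by module⟩
    have h5 := bdy_scl (W := univ) ⟨m, a, b, hab, rfl⟩ o h0 (o + l⁻¹ • (z - o))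
    rw [← h3] at h5
    exact h5.trans (hn _ (hst o ho z hz h4))
  have h6 := side_all hV hcl convex_univ hu hpar (x₀ := ⟨L, h1, le_rfl⟩) ⟨∅, by
    change Side V' (scl o L (msr a b)) ∅
    rw [scl_msr o (zero_le_one.trans h1)]
    refine side_out fun i => disjoint_left.2 fun z hz hz' => ?_
    have h7 := RStar.far (zero_le_one.trans h1) (hoff i) hz
    have h8 := mem_ball_iff_norm.1 (hR (hcl (subset_closure hz')))
    linarith⟩ ⟨1, le_rfl, h1⟩
  simpa only [scl_one] using h6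

theorem sLoc (h : SStar) : SLoc := by
  intro U E ν hU hp hE hn hloc
  obtain ⟨m, a, b, -, hν⟩ := id hp
  refine ⟨hE, m, a, b, hν, ?_⟩
  unfold SideR
  rw [ae_iff]
  refine measure_null_of_locally_null _ fun q hq => ?_
  rw [mem_ofPred_eq, Classical.not_imp] at hq
  obtain ⟨ε, hε, hsub⟩ := (RStar.seg_cpt q.1 q.2).exists_thickening_subset_open hU hq.1
  have hcv : ∀ δ : ℝ, Convex ℝ (thickening δ (segment ℝ q.1 q.2)) := fun δ =>
    (convex_segment _ _).thickening δ
  have hlt : thickening (ε / 2) (segment ℝ q.1 q.2) ⊆ thickening ε (segment ℝ q.1 q.2) :=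
    thickening_mono (by linarith) _
  obtain ⟨A, hA⟩ := h (thickening ε (segment ℝ q.1 q.2)) (thickening (ε / 2) (segment ℝ q.1 q.2))
    (thickening ε (segment ℝ q.1 q.2)) ν isOpen_thickening
    (RStar.seg_cpt q.1 q.2).isBounded.thickening
    ((closure_thickening_subset_cthickening _ _).trans
      (cthickening_subset_thickening' hε (by linarith) _))
    isOpen_thickening ⟨q.1, self_subset_thickening hε _ (left_mem_segment _ _ _)⟩
    (fun o ho x hx => (hcv ε).segment_subset ho hx) hp fun z hz => hn z (hsub hz)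
  have h1 := (RStar.glob isOpen_thickening (hcv _).isPreconnected hE hA
    fun x hx => hloc x (hsub (hlt hx))).rep hν
  refine ⟨_, ?_, ae_iff.1 h1⟩
  have h2 : ball q.1 (ε / 2) ×ˢ ball q.2 (ε / 2) ∈ 𝓝 q :=
    prod_mem_nhds (ball_mem_nhds _ (by linarith)) (ball_mem_nhds _ (by linarith))
  filter_upwards [mem_nhdsWithin_of_mem_nhds h2, self_mem_nhdsWithin] with p hp1 hp2
  intro h3
  refine hp2 fun _ => h3 ((hcv _).segment_subset ?_ ?_)
  · exact ball_subset_thickening (left_mem_segment _ _ _) _ hp1.1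
  · exact ball_subset_thickening (right_mem_segment _ _ _) _ hp1.2

end Pool.Agent.MP_20201c_gt.H42
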