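import Pool.Agent.MP_20201c_gt.H42.Spec2

/-! Uncertain triangles, areas and compatibility of the mollified charts with the signs. -/

open MeasureTheory Set Filter Topology Metric
open scoped ENNReal

namespace Pool.Agent.MP_20201c_gt.H42

open Pool.Agent.MP_20201c_gt.H91

namespace RTArea

theorem mol_eq {ψ : ℂ → ℝ} {h h' : ℝ} (hψ : Bump ψ h') (hh : 0 < h) (hhh : h ≤ h') {F F' : Set ℂ}
    (hF : MeasurableSet F) (hF' : MeasurableSet F') {x : ℂ} {v : Vt}
    (h0 : volume (symmDiff F F' ∩ ball x (4 * h')) = 0) (hv : ‖gp h v - x‖ ≤ 2 * h) :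
    mol ψ h F v = mol ψ h F' v := by
  refine eq_of_forall_dist_le fun ζ hζ => ?_
  obtain ⟨δ, -, hδ⟩ := mol_close hψ hζ
  refine hδ (ball x (4 * h')) F F' h v hF hF' (h0.trans_le zero_le) ?_
  exact closedBall_subset_ball' (by rw [dist_eq_norm]; linarith)

theorem sd (E A B : Set ℂ) : symmDiff (symmDiff E A) (symmDiff E B) = symmDiff A B := by
  ext x; simp only [mem_symmDiff]; tauto

theorem sdc (E A B : Set ℂ) : symmDiff (symmDiff E A) (symmDiff E B)ᶜ = symmDiff A Bᶜ := by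
  ext x; simp only [mem_symmDiff, mem_compl_iff]; tauto

end RTArea

theorem pUnc : PUnc := by
  intro 𝒯 ψ h z a y F hh hy hz hnb hb
  have h1 := sq_count hh (UncW 𝒯 (fun τ => mol ψ h (F τ)) (a / 2)) (B := BadW 𝒯 ψ h z F) (by
    intro τ hτ x hx
    simp only [UncW, Finset.mem_filter] at hτ
    obtain ⟨hτ, hu⟩ := hτ
    push Not at hu
    obtain ⟨⟨i, hi⟩, j, hj⟩ := hu
    have a1 := abs_le.1 (hnb τ i)
    have a2 := abs_le.1 (hnb τ j)
    refine ⟨τ, hτ, hx.symm, ?_⟩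
    rw [le_abs]
    by_cases hE : x ∈ F τ
    · left; rw [indicator_of_mem hE]; linarith
    · right; rw [indicator_of_notMem hE]; linarith)
  have h2 : (2 : ℝ≥0∞) * ENNReal.ofReal y = ENNReal.ofReal (2 * y) := by
    rw [ENNReal.ofReal_mul (by norm_num)]; simp
  have h3 := h1.trans ((mul_le_mul_right hb 2).trans h2.le)
  exact (ENNReal.ofReal_le_ofReal_iff (by linarith)).1 h3

theorem pArea : PArea := by
  intro U D E' 𝒯 ψ h z a y y' pos F S hh hy hy' hz ha hb hu hae hS hE' hD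
  classical
  have h1 := sq_cover hh (UncW 𝒯 (fun τ => mol ψ h (F τ)) (a / 2))
    (B := {x | ∃ τ ∈ UncW 𝒯 (fun τ => mol ψ h (F τ)) (a / 2), τ.1 = vtx h x})
    (ae_of_all _ fun x hx => hx)
  have h2 : volume (symmDiff E' D ∩ U) ≤ volume (BadW 𝒯 ψ h z F ∪
      {x | ∃ τ ∈ UncW 𝒯 (fun τ => mol ψ h (F τ)) (a / 2), τ.1 = vtx h x}) := by
    refine measure_mono_ae ?_
    filter_upwards [hae, hD] with x hx hx'
    rintro ⟨hd, hΩ⟩
    obtain ⟨τ, hτ, e1, e2, e3⟩ := hx hΩ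
    by_cases h4 : τ ∈ UncW 𝒯 (fun τ => mol ψ h (F τ)) (a / 2)
    · exact Or.inr ⟨τ, h4, e1⟩
    refine Or.inl ⟨τ, hτ, e1, ?_⟩
    simp only [UncW, Finset.mem_filter, hτ, true_and, not_not] at h4
    obtain ⟨p1, p2⟩ := hE' x τ hτ e2 e3
    have p3 := hx' hΩ τ hτ e1
    rw [le_abs]
    rcases h4 with h4 | h4
    · have q1 := p1 fun i => (hS.2 τ hτ i).2.1 (h4 i)
      have q2 : x ∉ F τ := by
        rcases mem_symmDiff.1 hd with q | q
        · exact fun k => q.2 (p3.2 k)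
        · exact absurd q1 q.2
      have := h4 0
      rw [DS.tv_zero] at this
      right; rw [indicator_of_notMem q2]; linarith
    · have q1 := p2 fun i => (hS.2 τ hτ i).2.2 (h4 i)
      have q2 : x ∈ F τ := by
        rcases mem_symmDiff.1 hd with q | q
        · exact absurd q.1 q1
        · exact p3.1 q.1
      have := h4 0
      rw [DS.tv_zero] at this
      left; rw [indicator_of_mem q2]; linarith
  refine h2.trans ((measure_union_le _ _).trans ?_)
  rw [ENNReal.ofReal_add hy hy']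
  exact add_le_add hb (h1.trans (ENNReal.ofReal_le_ofReal hu))

open RTArea in
theorem pCpt : PCpt := by
  intro Ω E B ψ h h' r 𝒯 w s hψ hh hhh hr hE hB hs
  have key : ∀ q, ∀ τ ∈ 𝒯, ‖gp h τ.1 - q‖ + 4 * h' ≤ r →
      (s q τ = 1 ∧ ∀ i, mol ψ h (symmDiff E (B (gp h τ.1))) (tv τ i) =
        mol ψ h (symmDiff E (B q)) (tv τ i)) ∨
      (s q τ = -1 ∧ ∀ i, mol ψ h (symmDiff E (B (gp h τ.1))) (tv τ i) =
        1 - mol ψ h (symmDiff E (B q)) (tv τ i)) := by
    intro q τ hτ hq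
    refine (hs.hs q τ).imp (fun k => ⟨k, fun i => ?_⟩) fun k => ⟨k, fun i => ?_⟩
    · exact mol_eq hψ hh hhh (hE.symmDiff (hB _)) (hE.symmDiff (hB _))
        (by rw [sd]; exact hs.pos q τ hτ hq k) (DS.tv_near hh τ i)
    · rw [← mol_compl hψ h (hE.symmDiff (hB _))]
      exact mol_eq hψ hh hhh (hE.symmDiff (hB _)) (hE.symmDiff (hB _)).compl
        (by rw [sdc]; exact hs.neg q τ hτ hq k) (DS.tv_near hh τ i)
  refine ⟨fun e he => ?_, fun q A hA hq => ⟨s q, mol ψ h (symmDiff E (B q)),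
    fun τ hτ => key q τ (hA hτ) (hq τ hτ),
    fun e h1 h2 => hs.mul q e (StM.mem_inE.2 ⟨hA h1, hA h2⟩) (hq _ h1) (hq _ h2)⟩⟩
  obtain ⟨m1, m2⟩ := StM.mem_inE.1 he
  have a1 : ‖gp h (eT1 e).1 - gp h (eT1 e).1‖ + 4 * h' ≤ r := by
    rw [sub_self, norm_zero]; linarith
  have a2 : ‖gp h (eT2 e).1 - gp h (eT1 e).1‖ + 4 * h' ≤ r := by
    obtain ⟨e1, ⟨e2, e3⟩, -⟩ := Msh.edge_off e
    have := Msh.gp_near hh e2 e3
    rw [e1]
    push_cast at this
    linarith
  have a3 : s (gp h (eT1 e).1) (eT1 e) = 1 := (hs.hs _ _).resolve_right fun k => by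
    have := hs.neg _ _ m1 a1 k
    rw [symmDiff_compl_self, top_eq_univ, univ_inter] at this
    exact (measure_ball_pos volume _ (by linarith)).ne' this
  have a4 := hs.mul _ e he a1 a2
  rw [a3, one_mul] at a4
  obtain ⟨-, -, ⟨i, hi⟩, j, hj⟩ := edge_tv e
  refine (key _ _ m2 a2).imp (fun k => ⟨a4.trans k.1, ?_, ?_⟩) fun k => ⟨a4.trans k.1, ?_, ?_⟩
  · simpa only [hi] using k.2 i
  · simpa only [hj] using k.2 j
  · simpa only [hi] using k.2 i
  · simpa only [hj] using k.2 j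

end Pool.Agent.MP_20201c_gt.H42
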