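import Pool.Agent.MP_20201c_gt.H42.Spec2
import Pool.Agent.MP_20201c_gt.H91.Disc

/-! Discretisation of a detecting cycle relative to a reference polygon. -/

open MeasureTheory Set Filter Topology
open scoped ENNReal

namespace Pool.Agent.MP_20201c_gt.H42

open Pool.Agent.MP_20201c_gt.H91

namespace RTDisc

theorem near2 {Ω G W : Set ℂ} (hΩ : Ω ⊆ G) (hW : Convex ℝ W) {ν ν' μ : Ms} (h : Poly W ν)
    (h' : Poly W ν') (hp : Par G W 0 ν) (hp' : Par G W 0 ν') {A : ℕ} {Rm : ℝ}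
    (hA : Agree G W A Rm ν' ν) (hμ : Poly univ μ) {E : Set ℂ} (hE : Side Ω (ν + μ) E) :
    ∃ E', Side Ω (ν' + μ) E' ∧ volume (symmDiff E E') ≤ ENNReal.ofReal (A * (4 * Rm ^ 2)) := by
  have hA' : Agree G W A Rm (ν' + ν) (ν + ν) := by
    obtain ⟨𝓑, h1, h2, h3⟩ := hA
    exact ⟨𝓑, h1, h2, by rw [Measure.restrict_add, Measure.restrict_add, h3]⟩
  obtain ⟨D, hD, hv⟩ := near hΩ hW (h.add h) (h'.add h)
    (fun z hz hG => by rw [bdy_add h h, hp z hz hG]; simp)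
    (fun z hz hG => by rw [bdy_add h' h, hp z hz hG, hp' z hz hG]; simp) hA' (side_double h)
  have h1 := hD.add hE
  have e : ν' + ν + (ν + μ) = ν' + μ + ν + ν := by abel
  rw [e] at h1
  refine ⟨_, Side.cancel ((h'.mono (subset_univ _)).add hμ) h h1, le_trans (le_of_eq ?_) hv⟩
  rw [symmDiff_comm D E, symmDiff_symmDiff_cancel_left, ← bot_eq_empty, bot_symmDiff]

theorem rz_cont2 {X : Type} [TopologicalSpace X] {Ω G G' W : Set ℂ} {u : X → Ms} {μ : Ms}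
    (ho : IsOpen Ω) (hc : IsPreconnected Ω) (hG : IsOpen G) (hG' : IsOpen G')
    (hΩ : closure Ω ⊆ G ∩ G') (hu : Fam W u) (hp : ∀ x, Par G W 0 (u x)) (hμ : Poly univ μ)
    (hb : NoB G' μ) (h : ∀ x, ∃ E, Side Ω (u x + μ) E) :
    Continuous fun x => Rz Ω (u x + μ) := by
  refine rz_cont ho hc (hG.inter hG') hΩ convex_univ
    ((hu.mono (subset_univ _)).add (Fam.const hμ)) (fun x z _ hz => ?_) h
  rw [bdy_add (hu.poly x) hμ, hb z hz.2, add_zero]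
  by_cases hzW : z ∈ W
  · exact hp x z hzW hz.1
  · exact (hu.poly x).bdy_of_notMem hzW

end RTDisc

open RTDisc in
theorem pDisc (hDS : PDiscS) : PDisc := by
  intro ρ gr L c₀ β R hG hc μ βμ hβμ hμ hμb p lam 𝒦 c t₀ t hlam h𝒦 ht₀ htt hcm hb₀ hcup hT1 hT2
  have ho : IsOpen {z | 0 < ρ z} := isOpen_lt continuous_const hG.continuous
  have hb : Bornology.IsBounded {z | 0 < ρ z} := by
    refine (Metric.isBounded_closedBall (x := (0 : ℂ)) (r := R)).subset fun z hz => ?_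
    have h1 : 0 < ρ z := hz
    have h2 := hG.ball z (by linarith [hG.hβ])
    rw [mem_closedBall_zero_iff]
    linarith
  have hv : volume {z | 0 < ρ z} ≠ 0 := (ho.measure_pos volume hc.nonempty).ne'
  have hW : Convex ℝ (cb 0 R) := convex_closedBall _ _
  obtain ⟨A, κ, hκ, hreal⟩ := realL (p + 1) (p + 1)
  obtain ⟨rs, hrs, hstar⟩ := hG.star
  obtain ⟨K, hK⟩ : ∃ K : ℕ, 13 * κ ≤ K := ⟨_, Nat.le_ceil _⟩
  have hK0 : (0 : ℝ) < K := lt_of_lt_of_le (by positivity) hK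
  obtain ⟨δ, hδ, hδv⟩ : ∃ δ : ℝ≥0∞, 0 < δ ∧
      4 * (2 * ((p + 1 : ℕ) : ℝ≥0∞) * (δ + δ)) ≤ volume {z | 0 < ρ z} := by
    refine ⟨volume {z | 0 < ρ z} / (16 * ((p + 1 : ℕ) : ℝ≥0∞)), ENNReal.div_pos hv
      (ENNReal.mul_ne_top (by norm_num) (ENNReal.natCast_ne_top _)), ?_⟩
    refine le_trans (le_of_eq ?_) (ENNReal.mul_div_le (a := 16 * ((p + 1 : ℕ) : ℝ≥0∞)))
    ring
  obtain ⟨d, -, hd, hdδ⟩ := ENNReal.lt_iff_exists_real_btwn.1 hδ
  have hd0 := ENNReal.ofReal_pos.1 hd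
  have hA0 : (0 : ℝ) ≤ A := Nat.cast_nonneg A
  obtain ⟨u, hu, hur, huA⟩ : ∃ u : ℝ, 0 < u ∧ u ≤ rs ∧ A * (4 * u ^ 2) ≤ d := by
    refine ⟨min rs (min 1 (d / (4 * A + 1))), by positivity, min_le_left _ _, ?_⟩
    have h0 : 0 < min rs (min 1 (d / (4 * A + 1))) := by positivity
    have h1 := (min_le_right rs _).trans (min_le_left 1 (d / (4 * A + 1)))
    have h2 := (le_div_iff₀ (by positivity)).1
      ((min_le_right rs _).trans (min_le_right 1 (d / (4 * A + 1))))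
    generalize min rs (min 1 (d / (4 * A + 1))) = u at h0 h1 h2
    nlinarith [mul_nonneg hA0 (mul_nonneg h0.le (sub_nonneg.2 h1))]
  have hζ : 0 < (t - t₀) / (2 * (A + 1)) := by
    have := sub_pos.2 htt
    positivity
  obtain ⟨β₀, r, δ₀, hβ₀, hβ₁, hr, hr₁, hδ₀, hst⟩ := hDS ρ gr L c₀ β R hG hc μ βμ hβμ hμ hμb 𝒦 t₀
    h𝒦 ht₀ hT1 hT2 (p + 1) K _ _ _ δ (half_pos (sub_pos.2 htt)) hζ (div_pos hu hK0) hδ
  have hKr : K * r ≤ u := by
    rw [mul_comm]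
    exact (le_div_iff₀ hK0).1 hr₁
  have hKr0 : 0 < K * r := mul_pos hK0 hr
  obtain ⟨φ, hφ0, hφ⟩ := hreal {z | -β₀ < ρ z} (cb 0 R) (t₀ + (t - t₀) / 2)
    ((t - t₀) / (2 * (A + 1))) (13 * r) (K * r) hW
    (fun q hq R' hR' => hstar β₀ ⟨hβ₀.le, hβ₁⟩ q hq R' ⟨hR'.1, hR'.2.trans (hKr.trans hur)⟩)
    (by positivity) (by nlinarith) hζ
  obtain ⟨c', hc', hb', hcup'⟩ := DiscA.small_cycle (𝒦 := 𝒦) hlam p hcm hb₀
    (lt_min hδ₀ (lt_of_lt_of_le hδ (le_add_self (b := δ))))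
  set 𝒮 : Set (Sx (Cyc {z | 0 < ρ z})) := {s | Continuous s.2 ∧ s.1 ≤ p + 1 ∧
    ∀ x, s.2 x ∈ 𝒦 ∧ ∀ x', edist (s.2 x) (s.2 x') < min δ₀ (δ + δ)} with h𝒮
  have hF : FaceCl 𝒮 := fun n f i hf =>
    ⟨hf.1.comp (continuous_fc n i), (Nat.le_succ n).trans hf.2.1, fun x =>
      ⟨(hf.2.2 _).1, fun x' => (hf.2.2 _).2 _⟩⟩
  obtain ⟨σ, hσ0, hσ⟩ := hst 𝒮 hF (fun s hs => hs.2.1) fun s hs x =>
    ⟨(hs.2.2 x).1, fun x' => ((hs.2.2 x).2 x').trans_le (min_le_left _ _)⟩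
  have hsub : {z | 0 < ρ z} ⊆ {z | -β₀ < ρ z} := fun z hz => by
    have h1 : 0 < ρ z := hz
    show -β₀ < ρ z
    linarith
  have hcl : closure {z | 0 < ρ z} ⊆ {z | -β₀ < ρ z} ∩ {z | -βμ < ρ z} := by
    rw [hG.closure]
    intro z hz
    have h1 : 0 ≤ ρ z := hz
    exact ⟨show -β₀ < ρ z by linarith, show -βμ < ρ z by linarith⟩
  have hlev : t₀ + (t - t₀) / 2 + A * ((t - t₀) / (2 * (A + 1))) ≤ t := by
    have e : (A + 1) * ((t - t₀) / (2 * (A + 1))) = (t - t₀) / 2 := by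
      field_simp
    nlinarith
  have key : ∀ s ∈ 𝒮, bd (lift φ (σ s)) = lift φ (lift σ (bdS s)) ∧
      lift φ (σ s) ∈ Sp {s' : Sx Ms | s' ∈ Nice {z | -β₀ < ρ z} (cb 0 R) 0 t ∧ s'.1 = s.1 ∧
        ∀ x', ∃ (E : Set ℂ) (hE : Side {z | 0 < ρ z} (s'.2 x' + μ) E),
          ∀ x, edist (cyc _ E hE.1) (s.2 x) < δ + δ} := by
    intro s hs
    obtain ⟨h1, h2⟩ := hσ s hs
    refine ⟨?_, lift_mem _ _ (fun l hl => ?_) h2⟩
    · rw [← h1]
      refine lin_congr (bd.comp (lift φ)) ((lift φ).comp bdL) (fun l hl => ?_) h2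
      simp only [LinearMap.comp_apply, lift_one, bdL_one]
      exact (hφ l hl.2.1 (hl.1.le.trans hs.2.1)).1
    · refine sp_mono ?_ (hφ l hl.2.1 (hl.1.le.trans hs.2.1)).2
      rintro ⟨n, g⟩ ⟨a1, a2, a3⟩
      refine ⟨⟨a1.1, fun x => ⟨(a1.2 x).1, (a1.2 x).2.trans_le hlev⟩⟩, a2.trans hl.1, fun x' => ?_⟩
      obtain ⟨ν, hν⟩ : ∃ ν, ν ∈ l := by
        refine List.exists_mem_of_length_pos (Nat.pos_of_ne_zero fun h0 => ?_)
        have : n = 0 := a2.trans h0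
        subst this
        exact isEmptyElim x'
      obtain ⟨E, hE, hE'⟩ := hl.2.2 ν hν
      obtain ⟨b1, b2, -⟩ := hl.2.1.1 ν hν
      obtain ⟨E', c1, c2⟩ := near2 hsub hW b1 (a1.1.poly x') b2 (a1.2 x').1 (a3 x' ν hν) hμ hE
      refine ⟨E', c1, fun x => lt_of_le_of_lt (edist_triangle _ (cyc _ E hE.1) _)
        (ENNReal.add_lt_add (lt_of_le_of_lt ?_ hdδ) (hE' x))⟩
      rw [edist_comm, edist_cyc]
      refine (min_le_left _ _).trans ((measure_mono inter_subset_left).trans (c2.trans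
        (ENNReal.ofReal_le_ofReal (le_trans ?_ huA))))
      gcongr
  have hc1 := (sp_inter.1 hc').1
  obtain ⟨h, hh, hbh⟩ := comp_hom (δ := δ + δ) (p + 1)
    (fun z₀ d h0 hd => zball ho.measurableSet hb z₀ h0 (le_trans (by gcongr) hδv)) hF
    (fun s hs => ⟨hs.1, hs.2.1⟩)
    (fun s hs x x' => ((hs.2.2 x).2 x').trans_le (min_le_right _ _))
    (fun s => mp (fun ν => Rz {z | 0 < ρ z} (ν + μ)) (lift φ (σ s)))
    (fun s hs => by
      rw [bd_mp, (key s hs).1]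
      exact lin_lift ((mp (fun ν => Rz {z | 0 < ρ z} (ν + μ))).comp (lift φ)) σ _)
    (by
      rw [hσ0, lift_one, hφ0, mp_one]
      exact congrArg one (sx_zero _))
    (fun s hs => mp_mem _ (fun s' hs' => by
      exact ⟨rz_cont2 ho hc.isPreconnected
        (isOpen_lt continuous_const hG.continuous) (isOpen_lt continuous_const hG.continuous)
        hcl hs'.1.1 (fun x => (hs'.1.2 x).1) hμ hμb fun x => ⟨_, (hs'.2.2 x).choose_spec.choose⟩, fun x' x => by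
          obtain ⟨E, hE, hE'⟩ := hs'.2.2 x'
          show edist (Rz _ (s'.2 x' + μ)) _ < _
          rw [rz_eq ho hc.isPreconnected hE]
          exact hE' x⟩) (key s hs).2) hc1 hb'
  refine ⟨β₀, hβ₀, lift (fun s => lift φ (σ s)) c',
    lift_mem _ _ (fun s hs => sp_mono (fun s' hs' => by
      exact ⟨⟨hs'.1, fun x => ⟨_, (hs'.2.2 x).choose_spec.choose⟩⟩, hs'.2.1.trans hs.2⟩)
      (key s hs.1).2) hc', ?_, ?_⟩
  · rw [lin_lift, lift_congr _ _ (fun s hs => (key s hs).1) hc1]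
    refine (lin_lift ((lift φ).comp (lift σ)) bdS c').symm.trans ?_
    show ((lift φ).comp (lift σ)) (bd c') = 0
    rw [hb', map_zero]
  · have e2 := cup_bd hlam p hh
    rw [hbh, map_add, add_eq_zero2, hcup'] at e2
    rw [lin_lift (mp _), ← e2]
    exact hcup

end Pool.Agent.MP_20201c_gt.H42
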