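import Pool.Agent.MP_20201c_gt.H42.Spec2
import Pool.Agent.MP_20201c_gt.H91.Vst

/-! The state of a vertex and the cellwise minimum, with signs on the edges. -/

open MeasureTheory Set Filter Topology
open scoped ENNReal

namespace Pool.Agent.MP_20201c_gt.H42

open Pool.Agent.MP_20201c_gt.H91

namespace RTVst

/-- The part of the polygon inside the cell `c`. -/
noncomputable def cellW (w : Ed → ℝ) (𝒯 : Finset Tri) (pos : Vt → ℂ) (cell : Tri → ℤ × ℤ)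
    (c : ℤ × ℤ) (S : St) : Ms :=
  ∑ τ ∈ 𝒯.filter (fun τ => cell τ = c), levT pos S τ +
    ∑ e ∈ (inE 𝒯).filter (fun e => cell (eT1 e) = c ∧ cell (eT2 e) = c), edgW w pos S e

variable {w : Ed → ℝ} {𝒯 : Finset Tri} {pos : Vt → ℂ} {h ε : ℝ} {m : ℕ}

theorem ce_sumW (cell : Tri → ℤ × ℤ) (C : Finset (ℤ × ℤ)) (S : St) :
    ∑ c ∈ C, cellW w 𝒯 pos cell c S = ∑ τ ∈ 𝒯.filter (fun τ => cell τ ∈ C), levT pos S τ +
      ∑ e ∈ ((inE 𝒯).filter fun e => cell (eT1 e) = cell (eT2 e)).filter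
        (fun e => cell (eT1 e) ∈ C), edgW w pos S e := by
  unfold cellW
  rw [Finset.sum_add_distrib, Finset.sum_fiberwise_eq_sum_filter,
    ← Finset.sum_fiberwise_eq_sum_filter _ C (fun e => cell (eT1 e))]
  refine congrArg _ (Finset.sum_congr rfl fun c _ => Finset.sum_congr ?_ fun _ _ => rfl)
  ext e
  simp only [Finset.mem_filter]
  constructor
  · rintro ⟨h1, h2, h3⟩; exact ⟨⟨h1, h2.trans h3.symm⟩, h2⟩
  · rintro ⟨⟨h1, h2⟩, h3⟩; exact ⟨h1, h3, h2.symm.trans h3⟩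

theorem sum_cellW_le (cell : Tri → ℤ × ℤ) (C : Finset (ℤ × ℤ)) (S : St) :
    ∑ c ∈ C, cellW w 𝒯 pos cell c S ≤ stW w 𝒯 pos S := by
  rw [ce_sumW]
  exact add_le_add (ce_le (Finset.filter_subset _ _) _)
    (ce_le ((Finset.filter_subset _ _).trans (Finset.filter_subset _ _)) _)

theorem cellW_congr (cell : Tri → ℤ × ℤ) (c : ℤ × ℤ) {S S' : St}
    (hS : ∀ τ ∈ 𝒯, cell τ = c → S τ = S' τ) : cellW w 𝒯 pos cell c S = cellW w 𝒯 pos cell c S' := by
  unfold cellW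
  refine congrArg₂ _ (Finset.sum_congr rfl fun τ hτ => ?_) (Finset.sum_congr rfl fun e he => ?_)
  · rw [Finset.mem_filter] at hτ
    unfold levT
    rw [hS τ hτ.1 hτ.2]
  · rw [Finset.mem_filter] at he
    unfold edgW
    rw [hS _ (ce_mem he.1).1 he.2.1, hS _ (ce_mem he.1).2 he.2.2]

/-- A disc meets at most four cells. -/
theorem four_cellsW (hh : 0 < h) (hp : PosOK h ε pos) {r : ℝ} (hm : 2 * r + 2 * ε < m * h)
    (θ : ℤ × ℤ) (q : ℂ) : ∃ C : Finset (ℤ × ℤ), C.card ≤ 4 ∧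
      ∀ c, c ∉ C → ∀ S, cellW w 𝒯 pos (cellOf m θ) c S (cb q r) = 0 := by
  rcases lt_or_ge r 0 with hr | hr
  · exact ⟨∅, by simp, fun c _ S => by rw [cb, Metric.closedBall_eq_empty.2 hr, measure_empty]⟩
  have hε : 0 ≤ ε := (norm_nonneg _).trans (hp 0).1
  have hm0 : 0 < m := by
    rcases Nat.eq_zero_or_pos m with rfl | h0
    · simp at hm; linarith
    · exact h0
  refine ⟨({⌊(q.re + r + ε - h * θ.1) / (m * h)⌋, ⌊(q.re + r + ε - h * θ.1) / (m * h)⌋ - 1} :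
      Finset ℤ) ×ˢ ({⌊(q.im + r + ε - h * θ.2) / (m * h)⌋,
        ⌊(q.im + r + ε - h * θ.2) / (m * h)⌋ - 1} : Finset ℤ), ?_, fun c hc S => ?_⟩
  · rw [Finset.card_product]
    exact Nat.mul_le_mul Finset.card_le_two Finset.card_le_two
  have key : ∀ τ, cellOf m θ τ = c → cb q r ⊆ (hull pos τ)ᶜ := by
    rintro τ rfl z hz hz'
    obtain ⟨⟨a1, a2⟩, a3, a4⟩ := ce_hull hh hp τ hz'
    have hn : ‖z - q‖ ≤ r := by simpa [dist_eq_norm] using hz
    exact hc (Finset.mem_product.2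
      ⟨ce_strip hh hm0 hm a1 a2 ((Complex.abs_re_le_norm (z - q)).trans hn),
        ce_strip hh hm0 hm a3 a4 ((Complex.abs_im_le_norm (z - q)).trans hn)⟩)
  unfold cellW
  rw [Measure.add_apply, Measure.finsetSum_apply, Measure.finsetSum_apply,
    Finset.sum_eq_zero, Finset.sum_eq_zero, add_zero]
  · intro e he
    refine measure_mono_null ((key _ (Finset.mem_filter.1 he).2.1).trans
      (compl_subset_compl.2 ((edge_hull pos e).trans inter_subset_left))) ?_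
    exact (sgOn_tr_add _ _ _ _ _ _).1.compl_null (convex_segment _ _)
  · intro τ hτ
    exact measure_mono_null (key _ (Finset.mem_filter.1 hτ).2)
      ((lev_poly _ _).compl_null (convex_convexHull _ _))

theorem ce_edg_zeroW {f : St} {η₂ η : ℝ} (hw : Cpt w 𝒯 f) (hη : η₂ ≤ η) {S : St}
    (hS : SandW 𝒯 f η S) {e : Ed}
    (he : e ∈ inE 𝒯) (hu : eT1 e ∉ UncW 𝒯 f η₂) : edgW w pos S e = 0 := by
  obtain ⟨m1, m2⟩ := ce_mem he
  obtain ⟨⟨i1, e1⟩, ⟨i2, e2⟩, ⟨i3, e3⟩, i4, e4⟩ := edge_tv e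
  have a1 := (hS.2 _ m1 i1).2
  have a2 := (hS.2 _ m1 i2).2
  have a3 := (hS.2 _ m2 i3).2
  have a4 := (hS.2 _ m2 i4).2
  have hc : (∀ i, 1 - η₂ ≤ f (eT1 e) (tv (eT1 e) i)) ∨ ∀ i, f (eT1 e) (tv (eT1 e) i) ≤ η₂ := by
    by_contra h0
    exact hu (by unfold UncW; exact Finset.mem_filter.2 ⟨m1, h0⟩)
  have pos' : ∀ u α α' : ℝ, u ∈ Icc (0 : ℝ) 1 → 0 < α → 0 < α' → u ∈ tr α α' := by
    intro u α α' hu h1 h2
    change 0 < (1 - u) * α + u * α'
    rcases hu.1.eq_or_lt with rfl | h3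
    · simpa using h1
    · nlinarith [mul_pos h3 h2, mul_nonneg (sub_nonneg.2 hu.2) h1.le]
  have neg' : ∀ u α α' : ℝ, u ∈ Icc (0 : ℝ) 1 → α < 0 → α' < 0 → u ∉ tr α α' := by
    intro u α α' hu h1 h2 h3
    change 0 < (1 - u) * α + u * α' at h3
    nlinarith [mul_nonneg hu.1 (neg_nonneg.2 h2.le),
      mul_nonneg (sub_nonneg.2 hu.2) (neg_nonneg.2 h1.le)]
  unfold edgW
  rw [← sgOn_empty (pos e.1) (pos (eEnd e))]
  refine sgOn_congr _ _ (ae_of_all _ fun u hu => ?_)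
  rw [mem_empty_iff_false, iff_false, Set.mem_symmDiff]
  rw [e1] at a1; rw [e2] at a2; rw [e3] at a3; rw [e4] at a4
  rcases hc with hc | hc
  · have b1 := hc i1
    have b2 := hc i2
    rw [e1] at b1; rw [e2] at b2
    have c1 := pos' u _ _ hu (a1.1 (by linarith)) (a2.1 (by linarith))
    have c2 : u ∈ tr (w e * S (eT2 e) e.1) (w e * S (eT2 e) (eEnd e)) := by
      rcases hw e he with ⟨d1, d2, d3⟩ | ⟨d1, d2, d3⟩ <;> rw [d1]
      · exact pos' u _ _ hu (by linarith [a3.1 (by linarith)]) (by linarith [a4.1 (by linarith)])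
      · exact pos' u _ _ hu (by linarith [a3.2 (by linarith)]) (by linarith [a4.2 (by linarith)])
    tauto
  · have b1 := hc i1
    have b2 := hc i2
    rw [e1] at b1; rw [e2] at b2
    have c1 := neg' u _ _ hu (a1.2 (by linarith)) (a2.2 (by linarith))
    have c2 : u ∉ tr (w e * S (eT2 e) e.1) (w e * S (eT2 e) (eEnd e)) := by
      rcases hw e he with ⟨d1, d2, d3⟩ | ⟨d1, d2, d3⟩ <;> rw [d1]
      · exact neg' u _ _ hu (by linarith [a3.2 (by linarith)]) (by linarith [a4.2 (by linarith)])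
      · exact neg' u _ _ hu (by linarith [a3.1 (by linarith)]) (by linarith [a4.1 (by linarith)])
    tauto

/-- A grid of cells on which all sandwiched states have little mass. -/
theorem good_shiftW (hh : 0 < h) (hp : PosOK h ε pos) (hε : ε ≤ 1) (hm : 0 < m) (f : St)
    (hw : Cpt w 𝒯 f) {η₂ ξ : ℝ} (hU : 4 * h * (UncW 𝒯 f η₂).card ≤ ξ * m) :
    ∃ θ : ℤ × ℤ, ∀ η, η₂ ≤ η → ∀ S, SandW 𝒯 f η S → ∃ κ : Ms, κ univ ≤ ENNReal.ofReal ξ ∧
      stW w 𝒯 pos S = ∑ c ∈ 𝒯.image (cellOf m θ), cellW w 𝒯 pos (cellOf m θ) c S + κ := by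
  have hmr : (0 : ℝ) < m := by exact_mod_cast hm
  obtain ⟨k, hk, hcard⟩ := Finset.exists_card_fiber_le_of_card_le_nsmul (s := UncW 𝒯 f η₂)
    (t := Finset.Ico (0 : ℤ) m) (f := ceG m) (b := ((UncW 𝒯 f η₂).card : ℝ) / m)
    ⟨0, by simpa using hm⟩ (by
      rw [Int.card_Ico, sub_zero, Int.toNat_natCast, nsmul_eq_mul, mul_div_cancel₀ _ hmr.ne'])
  obtain ⟨k0, k1⟩ := Finset.mem_Ico.1 hk
  refine ⟨(k, k), fun η hη S hS => ⟨∑ e ∈ (inE 𝒯).filter
    (fun e => ¬ cellOf m (k, k) (eT1 e) = cellOf m (k, k) (eT2 e)), edgW w pos S e, ?_, ?_⟩⟩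
  · set B := ((inE 𝒯).filter
      (fun e => ¬ cellOf m (k, k) (eT1 e) = cellOf m (k, k) (eT2 e))) with hB
    have hbad : ∀ e ∈ B, e.2 ≠ 2 ∧ ceG m (eT1 e) = k := fun e he =>
      ce_bad hm k0 k1 (Finset.mem_filter.1 he).2
    rw [← Finset.sum_filter_of_ne (p := fun e => eT1 e ∈ UncW 𝒯 f η₂) fun e he hne => by
      by_contra hu
      exact hne (ce_edg_zeroW hw hη hS (Finset.mem_filter.1 he).1 hu), Measure.finsetSum_apply]
    have hc : (B.filter fun e => eT1 e ∈ UncW 𝒯 f η₂).card ≤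
        ((UncW 𝒯 f η₂).filter fun τ => ceG m τ = k).card := by
      refine Finset.card_le_card_of_injOn eT1 (fun e he => ?_) fun e he e' he' hee => ?_
      · have he' := Finset.mem_filter.1 (Finset.mem_coe.1 he)
        exact Finset.mem_coe.2 (Finset.mem_filter.2 ⟨he'.2, (hbad e he'.1).2⟩)
      · exact ce_inj (hbad e (Finset.mem_filter.1 (Finset.mem_coe.1 he)).1).1
          (hbad e' (Finset.mem_filter.1 (Finset.mem_coe.1 he')).1).1 hee
    have hc' : ((B.filter fun e => eT1 e ∈ UncW 𝒯 f η₂).card : ℝ) ≤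
        ((UncW 𝒯 f η₂).card : ℝ) / m := (Nat.cast_le.2 hc).trans hcard
    refine (Finset.sum_le_card_nsmul _ _ (ENNReal.ofReal (2 * h)) fun e he => ?_).trans ?_
    · exact (sgOn_univ_le _ _ _).trans (ENNReal.ofReal_le_ofReal
        (ce_len hh hp hε (hbad e (Finset.mem_filter.1 he).1).1))
    · rw [nsmul_eq_mul, ← ENNReal.ofReal_natCast, ← ENNReal.ofReal_mul (Nat.cast_nonneg _)]
      refine ENNReal.ofReal_le_ofReal ?_
      rw [le_div_iff₀ hmr] at hc'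
      have h0 : (0 : ℝ) ≤ (B.filter fun e => eT1 e ∈ UncW 𝒯 f η₂).card := Nat.cast_nonneg _
      refine le_of_mul_le_mul_right ?_ hmr
      nlinarith [mul_le_mul_of_nonneg_left hc' hh.le, mul_nonneg (mul_nonneg h0 hmr.le) hh.le]
  · rw [ce_sumW, Finset.filter_true_of_mem fun τ hτ => Finset.mem_image_of_mem _ hτ,
      Finset.filter_true_of_mem fun e he =>
        Finset.mem_image_of_mem _ (ce_mem (Finset.mem_filter.1 he).1).1,
      add_assoc, Finset.sum_filter_add_sum_filter_not]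
    rfl

theorem vst_coreW (hh : 0 < h) (hp : PosOK h ε pos) {r : ℝ} (hm : 2 * r + 2 * ε < m * h)
    (θ : ℤ × ℤ) {S : St} {κ : Ms} {I : Finset (ℤ × ℤ)} {ξ t ζ : ℝ} (hξ : 0 ≤ ξ) (ht : 0 ≤ t)
    (hζ : 0 ≤ ζ) (hκ : κ univ ≤ ENNReal.ofReal ξ)
    (hd : stW w 𝒯 pos S = ∑ c ∈ I, cellW w 𝒯 pos (cellOf m θ) c S + κ)
    (h1 : ∑ c ∈ I, cellW w 𝒯 pos (cellOf m θ) c S univ ≤ ENNReal.ofReal t)
    (h2 : ∀ c q, cellW w 𝒯 pos (cellOf m θ) c S (cb q r) ≤ ENNReal.ofReal ζ) :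
    (stW w 𝒯 pos S).real univ ≤ t + ξ ∧ ∀ q, (stW w 𝒯 pos S).real (cb q r) ≤ 4 * ζ + ξ := by
  refine ⟨ENNReal.toReal_le_of_le_ofReal (add_nonneg ht hξ) ?_, fun q =>
    ENNReal.toReal_le_of_le_ofReal (by positivity) ?_⟩
  · rw [hd, Measure.add_apply, Measure.finsetSum_apply, ENNReal.ofReal_add ht hξ]
    exact add_le_add h1 hκ
  · obtain ⟨C, hC, h0⟩ := four_cellsW (w := w) (𝒯 := 𝒯) hh hp hm θ q
    rw [hd, Measure.add_apply, Measure.finsetSum_apply, ENNReal.ofReal_add (by positivity) hξ]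
    refine add_le_add ?_ ((measure_mono (subset_univ _)).trans hκ)
    calc ∑ c ∈ I, cellW w 𝒯 pos (cellOf m θ) c S (cb q r)
        ≤ ∑ c ∈ C, cellW w 𝒯 pos (cellOf m θ) c S (cb q r) :=
          Finset.sum_le_sum_of_ne_zero fun c _ hc => by
            by_contra hn
            exact hc (h0 c hn S)
      _ ≤ C.card • ENNReal.ofReal ζ := Finset.sum_le_card_nsmul _ _ _ fun c _ => h2 c q
      _ ≤ 4 • ENNReal.ofReal ζ := nsmul_le_nsmul_left bot_le hC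
      _ = ENNReal.ofReal (4 * ζ) := by
          rw [ENNReal.ofReal_mul (by norm_num), nsmul_eq_mul]
          norm_num

theorem vst_le_ofRealW (S : St) {A : Set ℂ} {t : ℝ} (h : (stW w 𝒯 pos S).real A ≤ t) :
    stW w 𝒯 pos S A ≤ ENNReal.ofReal t := by
  have := (stW_poly (w := w) (𝒯 := 𝒯) (pos := pos) convex_univ (fun _ _ _ => mem_univ _) S).finite
  rw [← ofReal_measureReal (measure_ne_top _ _)]
  exact ENNReal.ofReal_le_ofReal h

theorem nt_neg (q : Fin 3 → ℂ) {α β : Fin 3 → ℝ} (h : ∀ i, α i = 1 - β i) :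
    ‖Nt q α‖ = ‖Nt q β‖ := by
  rw [← norm_neg (Nt q β)]
  congr 1
  simp only [Nt, h, Complex.real_smul]
  push_cast
  ring

end RTVst

open RTVst

theorem pVst : PVst := by
  intro w 𝒯 pos h ε r m f η η₂ ξ t₀ ζ₀ hh hp hε hr hm hη₂ hη hξ hζ hw hT hU ht hc
  have hε0 : 0 ≤ ε := (norm_nonneg _).trans (hp 0).1
  have hl : 0 < 1 - 2 * η := by linarith
  have hK : 0 ≤ (1 + 2 * ε) / (1 - 2 * η) := by positivity
  have ht0 : 0 ≤ t₀ := (Finset.sum_nonneg fun τ _ => by positivity).trans ht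
  obtain ⟨θ, hθ⟩ := good_shiftW hh hp hε (vst_mpos hp hr hm) f hw hU
  choose σ g hσ hedge using hT θ
  choose s hs hne hle using fun c : ℤ × ℤ =>
    vst_level pos (g c) hη (𝒯.filter fun τ => cellOf m θ τ = c)
  obtain ⟨S, hS⟩ : ∃ S : St, S = fun τ => if τ ∈ 𝒯 then fun v =>
      σ (cellOf m θ τ) τ * (g (cellOf m θ τ) v - s (cellOf m θ τ)) else 0 := ⟨_, rfl⟩
  have hin : ∀ τ ∈ 𝒯, S τ = fun v =>
      σ (cellOf m θ τ) τ * (g (cellOf m θ τ) v - s (cellOf m θ τ)) := fun τ hτ => by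
    simp only [hS, if_pos hτ]
  have hsand : SandW 𝒯 f η S := by
    refine ⟨fun τ hτ => by simp only [hS, if_neg hτ], fun τ hτ i => ?_⟩
    have h1 := hs (cellOf m θ τ)
    have h3 := sub_ne_zero.2 (hne _ τ (Finset.mem_filter.2 ⟨hτ, rfl⟩) i)
    rw [hin τ hτ]
    rcases hσ _ τ (Finset.mem_filter.2 ⟨hτ, rfl⟩) with ⟨d1, d2⟩ | ⟨d1, d2⟩ <;>
      simp only [d1, d2 i]
    · exact ⟨mul_ne_zero one_ne_zero h3, fun h2 => by linarith [h1.2], fun h2 => by linarith [h1.1]⟩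
    · exact ⟨mul_ne_zero (by norm_num) h3, fun h2 => by linarith [h1.1],
        fun h2 => by linarith [h1.2]⟩
  have hcell : ∀ c, cellW w 𝒯 pos (cellOf m θ) c S univ ≤
      ENNReal.ofReal ((1 + 2 * ε) / (1 - 2 * η) * ∑ τ ∈ 𝒯.filter (fun τ => cellOf m θ τ = c),
        ‖Nt (gp h ∘ tv τ) (f τ ∘ tv τ)‖ / 2) := fun c => by
    have e1 : ∑ e ∈ (inE 𝒯).filter (fun e => cellOf m θ (eT1 e) = c ∧ cellOf m θ (eT2 e) = c),
        edgW w pos S e = 0 := by
      refine Finset.sum_eq_zero fun e he => ?_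
      obtain ⟨h1, h2, h3⟩ := Finset.mem_filter.1 he
      obtain ⟨-, h4, h5⟩ := Finset.mem_filter.1 h1
      have h6 := hedge c e (Finset.mem_filter.2 ⟨h4, h2⟩) (Finset.mem_filter.2 ⟨h5, h3⟩)
      have h7 : ∀ v, w e * S (eT2 e) v = S (eT1 e) v := fun v => by
        rw [hin _ h4, hin _ h5, h2, h3, h6]
        rcases hσ c _ (Finset.mem_filter.2 ⟨h5, h3⟩) with ⟨d1, -⟩ | ⟨d1, -⟩ <;>
          simp only [d1] <;> ring
      rw [edgW, h7, h7, symmDiff_self]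
      exact sgOn_empty _ _
    have e2 : ∑ τ ∈ 𝒯.filter (fun τ => cellOf m θ τ = c), levT pos S τ =
        ∑ τ ∈ 𝒯.filter (fun τ => cellOf m θ τ = c),
          lev (pos ∘ tv τ) (fun i => (g c ∘ tv τ) i - s c) := by
      refine Finset.sum_congr rfl fun τ hτ => ?_
      obtain ⟨h1, h2⟩ := Finset.mem_filter.1 hτ
      rw [levT, hin _ h1, h2]
      rcases hσ c τ hτ with ⟨d1, -⟩ | ⟨d1, -⟩
      · refine congrArg _ (funext fun i => ?_)
        simp [d1]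
      · rw [← lev_neg]
        refine congrArg _ (funext fun i => ?_)
        simp [d1]
    rw [cellW, e1, e2, add_zero, Measure.finsetSum_apply]
    refine (hle c).trans (ENNReal.ofReal_le_ofReal ?_)
    rw [div_mul_eq_mul_div]
    refine div_le_div_of_nonneg_right ?_ hl.le
    rw [Finset.mul_sum]
    refine Finset.sum_le_sum fun τ hτ => ?_
    have e3 : ‖Nt (gp h ∘ tv τ) (f τ ∘ tv τ)‖ = ‖Nt (gp h ∘ tv τ) (g c ∘ tv τ)‖ := by
      rcases hσ c τ hτ with ⟨-, d2⟩ | ⟨-, d2⟩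
      · rw [show f τ ∘ tv τ = g c ∘ tv τ from funext d2]
      · exact nt_neg _ d2
    rw [e3]
    linarith [Nt_pos hh hp (g c) τ]
  obtain ⟨κ, hκ, hd⟩ := hθ η hη₂ S hsand
  refine ⟨S, hsand, vst_coreW hh hp hm θ hξ (mul_nonneg hK ht0) (mul_nonneg hK hζ) hκ hd ?_
    fun c q => ?_⟩
  · refine (Finset.sum_le_sum fun c _ => hcell c).trans ?_
    rw [← ENNReal.ofReal_sum_of_nonneg fun c _ =>
      mul_nonneg hK (Finset.sum_nonneg fun τ _ => by positivity), ← Finset.mul_sum,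
      Finset.sum_fiberwise_of_maps_to fun τ hτ => Finset.mem_image_of_mem _ hτ]
    exact ENNReal.ofReal_le_ofReal (mul_le_mul_of_nonneg_left ht hK)
  · exact ((measure_mono (subset_univ _)).trans (hcell c)).trans
      (ENNReal.ofReal_le_ofReal (mul_le_mul_of_nonneg_left (hc θ c) hK))

theorem pMix : PMix := by
  intro w 𝒯 pos h ε r m f η η₂ ξ t ζ 𝒮 hh hp hε hr hm hη₂ hξ hw hU hf hne hA
  obtain ⟨θ, hθ⟩ := good_shiftW hh hp hε (vst_mpos hp hr hm) f hw hU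
  choose M hM hmin using fun c : ℤ × ℤ =>
    exists_min_image 𝒮 (fun S => cellW w 𝒯 pos (cellOf m θ) c S univ) hf hne
  have key : ∀ S ∈ 𝒮, ∀ S' : St, (∀ c, ∃ S'' ∈ 𝒮, (∀ τ, cellOf m θ τ = c → S' τ = S'' τ) ∧
      cellW w 𝒯 pos (cellOf m θ) c S'' univ ≤ cellW w 𝒯 pos (cellOf m θ) c S univ) →
      AdmW w 𝒯 pos f η (t + ξ) (4 * ζ + ξ) r S' := fun S hS S' h' => by
    have hsand : SandW 𝒯 f η S' := by
      refine ⟨fun τ hτ => ?_, fun τ hτ => ?_⟩
      · obtain ⟨S'', h1, h2, -⟩ := h' (cellOf m θ τ)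
        rw [h2 τ rfl]
        exact (hA S'' h1).1.1 τ hτ
      · obtain ⟨S'', h1, h2, -⟩ := h' (cellOf m θ τ)
        rw [h2 τ rfl]
        exact (hA S'' h1).1.2 τ hτ
    obtain ⟨κ, hκ, hd⟩ := hθ η hη₂ S' hsand
    refine ⟨hsand, vst_coreW hh hp hm θ hξ (measureReal_nonneg.trans (hA S hS).2.1)
      (measureReal_nonneg.trans ((hA S hS).2.2 0)) hκ hd ?_ fun c q => ?_⟩
    · refine le_trans ?_ (vst_le_ofRealW S (hA S hS).2.1)
      refine le_trans ?_ (sum_cellW_le (cellOf m θ) (𝒯.image (cellOf m θ)) S univ)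
      rw [Measure.finsetSum_apply]
      refine Finset.sum_le_sum fun c _ => ?_
      obtain ⟨S'', -, h2, h3⟩ := h' c
      rw [cellW_congr _ c fun τ _ hτ => h2 τ hτ]
      exact h3
    · obtain ⟨S'', h1, h2, -⟩ := h' c
      rw [cellW_congr _ c fun τ _ hτ => h2 τ hτ]
      refine le_trans ?_ (vst_le_ofRealW S'' ((hA S'' h1).2.2 q))
      have := sum_cellW_le (w := w) (𝒯 := 𝒯) (pos := pos) (cellOf m θ) {c} S'' (cb q r)
      rwa [Finset.sum_singleton] at this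
  refine ⟨θ, fun τ => M (cellOf m θ τ) τ, ?_, fun S hS J => key S hS _ fun c => ?_⟩
  · obtain ⟨S, hS⟩ := hne
    exact key S hS _ fun c => ⟨M c, hM c, fun τ hτ => by rw [hτ], hmin c S hS⟩
  · by_cases hc : c ∈ J
    · exact ⟨M c, hM c, fun τ hτ => by simp only [mix, hτ, if_pos hc], hmin c S hS⟩
    · exact ⟨S, hS, fun τ hτ => by simp only [mix, hτ, if_neg hc], le_rfl⟩

end Pool.Agent.MP_20201c_gt.H42
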