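import Pool.Agent.MP_20201c_gt.H42.Spec

/-! In an open triangle a set bounded by a polygon is polyhedral. -/

open MeasureTheory Set Filter Topology Metric
open scoped ENNReal

namespace Pool.Agent.MP_20201c_gt.H42

open Pool.Agent.MP_20201c_gt.H91

namespace RTri

theorem out_zero (U : Set ℂ) : Out U 0 :=
  ⟨0, Fin.elim0, Fin.elim0, by simp [msr], fun i => i.elim0⟩

theorem out_sg {U : Set ℂ} {a b : ℂ} (h : Disjoint (segment ℝ a b) U) : Out U (sg a b) :=
  ⟨1, fun _ => a, fun _ => b, (msr_single a b).symm, fun _ => h⟩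

theorem out_add {U : Set ℂ} {μ ν : Ms} (h : Out U μ) (h' : Out U ν) : Out U (μ + ν) := by
  obtain ⟨m, a, b, rfl, h⟩ := h
  obtain ⟨n, a', b', rfl, h'⟩ := h'
  refine ⟨m + n, Fin.append a a', Fin.append b b', (msr_append a b a' b').symm, fun i => ?_⟩
  refine Fin.addCases (fun j => ?_) (fun j => ?_) i
  · simpa only [Fin.append_left] using h j
  · simpa only [Fin.append_right] using h' j

theorem out_sum {U : Set ℂ} {ι : Type} (s : Finset ι) {μ : ι → Ms} (h : ∀ i ∈ s, Out U (μ i)) :
    Out U (∑ i ∈ s, μ i) :=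
  Finset.sum_induction _ (Out U) (fun _ _ => out_add) (out_zero U) h

theorem side_drop {U E : Set ℂ} {μ ν : Ms} (hμ : Poly univ μ) (hν : Out U ν)
    (h : Side U (μ + ν) E) : Side U μ E := by
  have h1 := h.add hν.side
  rw [show symmDiff E ∅ = E from symmDiff_bot E] at h1
  exact Side.cancel hμ hν.poly h1

theorem first {T : Set ℂ} (hT : IsClosed T) {a b : ℂ} (h : (segment ℝ a b ∩ T).Nonempty) :
    ∃ a' ∈ segment ℝ a b ∩ T, Out (interior T) (sg a a') := by
  have hc : IsCompact (segment ℝ a b ∩ T) := by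
    refine IsCompact.inter_right ?_ hT
    rw [← convexHull_pair]
    exact (toFinite _).isCompact_convexHull ℝ
  obtain ⟨a', ha', hm⟩ := hc.exists_isMinOn h (f := fun x => ‖x - a‖) (by fun_prop)
  refine ⟨a', ha', ?_⟩
  by_cases e : a' = a
  · rw [e, sg_self]; exact out_zero _
  refine out_sg (disjoint_left.2 fun x hx hI => ?_)
  obtain ⟨t, ht, rfl⟩ := m1_seg_ex hx
  have key : ∃ s ∈ Ico (0 : ℝ) 1, a + s • (a' - a) ∈ T := by
    rcases ht.2.lt_or_eq with h1 | h1
    · exact ⟨t, ⟨ht.1, h1⟩, interior_subset hI⟩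
    · subst h1
      have c : Continuous fun s : ℝ => a + s • (a' - a) := by fun_prop
      have e1 : ∀ᶠ s in 𝓝[<] (1 : ℝ), a + s • (a' - a) ∈ interior T :=
        (c.continuousAt.eventually (isOpen_interior.mem_nhds hI)).filter_mono nhdsWithin_le_nhds
      obtain ⟨s, h2, h3⟩ := (e1.and (Ioo_mem_nhdsLT zero_lt_one)).exists
      exact ⟨s, ⟨h3.1.le, h3.2⟩, interior_subset h2⟩
  obtain ⟨s, hs, hsT⟩ := key
  have h1 : a + s • (a' - a) ∈ segment ℝ a b :=
    (convex_segment a b).segment_subset (left_mem_segment _ _ _) ha'.1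
      (m1_seg_mem a a' ⟨hs.1, hs.2.le⟩)
  have h2 : ‖a' - a‖ ≤ ‖a + s • (a' - a) - a‖ := hm ⟨h1, hsT⟩
  rw [add_sub_cancel_left, norm_smul, Real.norm_eq_abs, abs_of_nonneg hs.1] at h2
  have h3 : 0 < ‖a' - a‖ := norm_pos_iff.2 (sub_ne_zero.2 e)
  nlinarith [hs.2]

theorem split {T : Set ℂ} (hT : IsClosed T) {o : ℂ} (ho : o ∈ T) (a b : ℂ) :
    ∃ a' b' ν, a' ∈ T ∧ b' ∈ T ∧ Out (interior T) ν ∧ sg a b = sg a' b' + ν := by
  by_cases h : (segment ℝ a b ∩ T).Nonempty
  · obtain ⟨a', ha', h1⟩ := first hT h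
    obtain ⟨b', hb', h2⟩ := first hT (a := b) (b := a') ⟨a', right_mem_segment _ _ _, ha'.2⟩
    refine ⟨a', b', _, ha'.2, hb'.2, out_add h1 h2, ?_⟩
    rw [sg_split ha'.1, sg_comm a' b, sg_split hb'.1, sg_comm b' a']
    abel
  · refine ⟨o, o, _, ho, ho, out_sg (a := a) (b := b) ?_, by rw [sg_self, zero_add]⟩
    exact (disjoint_iff_inter_eq_empty.2 (not_nonempty_iff_eq_empty.1 h)).mono_right
      interior_subset

theorem edge (a b c : ℂ) :
    Disjoint (segment ℝ a b) (interior (convexHull ℝ ({a, b, c} : Set ℂ))) := by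
  obtain ⟨v, hv, h1⟩ : ∃ v : ℂ, v ≠ 0 ∧ dt v (b - a) = 0 := by
    by_cases e : b = a
    · exact ⟨1, one_ne_zero, by simp [e, dt]⟩
    · exact ⟨b - a, sub_ne_zero.2 e, by simp only [dt]; ring⟩
  obtain ⟨v, hv, h1, h2⟩ : ∃ v : ℂ, v ≠ 0 ∧ dt v (b - a) = 0 ∧ 0 ≤ dt v (c - a) := by
    rcases le_total 0 (dt v (c - a)) with h | h
    · exact ⟨v, hv, h1, h⟩
    · refine ⟨-v, neg_ne_zero.2 hv, ?_, ?_⟩
      · simp only [dt, Complex.neg_re, Complex.neg_im] at h1 ⊢; linarith
      · simp only [dt, Complex.neg_re, Complex.neg_im] at h ⊢; linarith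
  refine disjoint_left.2 fun x hx hI => ?_
  obtain ⟨t, -, rfl⟩ := m1_seg_ex hx
  have c0 : Continuous fun s : ℝ => a + t • (b - a) - s • (Complex.I * v) := by fun_prop
  have e1 : ∀ᶠ s in 𝓝[>] (0 : ℝ), a + t • (b - a) - s • (Complex.I * v) ∈
      interior (convexHull ℝ ({a, b, c} : Set ℂ)) :=
    (c0.continuousAt.eventually (isOpen_interior.mem_nhds (by simpa using hI))).filter_mono
      nhdsWithin_le_nhds
  obtain ⟨s, h3, h4⟩ := (e1.and self_mem_nhdsWithin).exists
  have h4 : 0 < s := h4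
  obtain ⟨p, q, -, hq, -, h5⟩ := stMemHull.1 (interior_subset h3)
  have h6 : 0 < v.re ^ 2 + v.im ^ 2 := by
    have := Complex.normSq_pos.2 hv
    rw [Complex.normSq_apply] at this
    nlinarith
  have r1 := congrArg Complex.re h5
  have r2 := congrArg Complex.im h5
  simp only [dt, Complex.add_re, Complex.sub_re, Complex.add_im, Complex.sub_im,
    Complex.real_smul, Complex.mul_re, Complex.mul_im, Complex.ofReal_re, Complex.ofReal_im,
    Complex.I_re, Complex.I_im] at r1 r2 h1 h2
  have h7 : -(s * (v.re ^ 2 + v.im ^ 2)) =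
      q * (v.re * (c.im - a.im) - v.im * (c.re - a.re)) := by
    linear_combination v.re * r2 - v.im * r1 + (p - t) * h1
  nlinarith [mul_pos h4 h6, mul_nonneg hq h2]

theorem inner {a b c : ℂ} (hne : (interior (convexHull ℝ ({a, b, c} : Set ℂ))).Nonempty)
    {s t : ℝ} (hs : 0 < s) (ht : 0 < t) (hst : s + t < 1) :
    a + s • (b - a) + t • (c - a) ∈ interior (convexHull ℝ ({a, b, c} : Set ℂ)) := by
  obtain ⟨x, hx⟩ := hne
  obtain ⟨p, q, hp, hq, hpq, e⟩ := stMemHull.1 (interior_subset hx)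
  obtain ⟨ε, h0, h1, h2, h3⟩ : ∃ ε : ℝ, 0 < ε ∧ ε ≤ s ∧ ε ≤ t ∧ ε ≤ 1 - s - t :=
    ⟨min s (min t (1 - s - t)), lt_min hs (lt_min ht (by linarith)), min_le_left _ _,
      (min_le_right _ _).trans (min_le_left _ _), (min_le_right _ _).trans (min_le_right _ _)⟩
  have h4 : 0 < 1 - ε := by linarith
  have hy : a + ((s - ε * p) / (1 - ε)) • (b - a) + ((t - ε * q) / (1 - ε)) • (c - a) ∈
      convexHull ℝ ({a, b, c} : Set ℂ) := by
    refine stMemHull.2 ⟨_, _, div_nonneg (by nlinarith) h4.le, div_nonneg (by nlinarith) h4.le,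
      ?_, rfl⟩
    rw [← add_div, div_le_one h4]
    nlinarith
  have h5 := (convex_convexHull ℝ _).combo_interior_self_mem_interior hx hy h0 h4.le (by ring)
  convert h5 using 1
  rw [e]
  have h6 : ((1 - ε : ℝ) : ℂ) ≠ 0 := by exact_mod_cast h4.ne'
  simp only [Complex.real_smul, Complex.ofReal_div]
  push_cast at h6 ⊢
  field_simp
  ring

theorem spoke {a b c z : ℂ} (hne : (interior (convexHull ℝ ({a, b, c} : Set ℂ))).Nonempty)
    (hz : z ∈ convexHull ℝ ({a, b, c} : Set ℂ))
    (hI : z ∉ interior (convexHull ℝ ({a, b, c} : Set ℂ))) :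
    ∃ Q : PC 2, Ins (convexHull ℝ ({a, b, c} : Set ℂ)) Q ∧
      Side (interior (convexHull ℝ ({a, b, c} : Set ℂ))) (sg a z) (car Q) := by
  obtain ⟨s, t, hs, ht, hst, e⟩ := stMemHull.1 hz
  have e1 := edge a b c
  have e2 := edge a c b
  have e3 := edge b c a
  rw [pair_comm c b] at e2
  rw [show ({b, c, a} : Set ℂ) = {a, b, c} by ext w; simp only [mem_insert_iff, mem_singleton_iff]; tauto]
    at e3
  rcases hs.eq_or_lt with h1 | h1
  · refine ⟨0, Ins.zero _, ?_⟩
    rw [car_zero]
    refine (out_sg (e2.mono_left ((convex_segment a c).segment_subset (left_mem_segment _ _ _)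
      ?_))).side
    rw [e, ← h1, zero_smul, add_zero]
    exact m1_seg_mem a c ⟨ht, by linarith⟩
  rcases ht.eq_or_lt with h2 | h2
  · refine ⟨0, Ins.zero _, ?_⟩
    rw [car_zero]
    refine (out_sg (e1.mono_left ((convex_segment a b).segment_subset (left_mem_segment _ _ _)
      ?_))).side
    rw [e, ← h2, zero_smul, add_zero]
    exact m1_seg_mem a b ⟨hs, by linarith⟩
  rcases hst.eq_or_lt with h3 | h3
  · have hzs : z ∈ segment ℝ b c := by
      have := m1_seg_mem b c (t := t) ⟨ht, by linarith⟩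
      convert this using 1
      rw [e, show s = 1 - t by linarith]
      simp only [Complex.real_smul]
      push_cast
      ring
    refine ⟨sx ![a, z, b], Ins.sx ?_, ?_⟩
    · rw [hl_three]
      refine convexHull_min ?_ (convex_convexHull ℝ _)
      rintro w (rfl | rfl | rfl)
      · exact subset_convexHull ℝ _ (by simp)
      · exact hz
      · exact subset_convexHull ℝ _ (by simp)
    · rw [car_sx, hl_three]
      have h4 := side_tri (interior (convexHull ℝ ({a, b, c} : Set ℂ))) a z b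
      rw [add_assoc] at h4
      refine side_drop (Poly.sg (mem_univ _) (mem_univ _)) (out_add (out_sg ?_) (out_sg ?_)) h4
      · exact e3.mono_left ((convex_segment b c).segment_subset hzs (left_mem_segment _ _ _))
      · rwa [segment_symm]
  · exact absurd (e ▸ inner hne h1 h2 h3) hI

theorem side_car_sum {U : Set ℂ} {ι : Type} (s : Finset ι) {μ : ι → Ms} {Q : ι → PC 2}
    (h : ∀ i ∈ s, Side U (μ i) (car (Q i))) : Side U (∑ i ∈ s, μ i) (car (∑ i ∈ s, Q i)) := by
  classical
  induction s using Finset.induction_on with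
  | empty => rw [Finset.sum_empty, Finset.sum_empty, car_zero]; exact side_zero U
  | insert i s hi ih =>
    rw [Finset.sum_insert hi, Finset.sum_insert hi, car_add]
    exact (h i (Finset.mem_insert_self _ _)).add
      (ih fun j hj => h j (Finset.mem_insert_of_mem hj))

theorem cone {T : Set ℂ} (hT : Convex ℝ T) {o : ℂ} (ho : o ∈ T)
    (hsp : ∀ z ∈ T, z ∉ interior T → ∃ Q : PC 2, Ins T Q ∧ Side (interior T) (sg o z) (car Q))
    {m : ℕ} {a b : Fin m → ℂ} (ha : ∀ i, a i ∈ T) (hb : ∀ i, b i ∈ T)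
    (hn : NoB (interior T) (msr a b)) :
    ∃ Q : PC 2, Ins T Q ∧ Side (interior T) (msr a b) (car Q) := by
  classical
  let g : ℂ → ℂ := fun z => if z ∈ interior T then o else z
  have pl : ∀ x y : ℂ, Poly univ (sg x y) := fun _ _ => Poly.sg (mem_univ _) (mem_univ _)
  have h1 : ∀ z, ∃ Q : PC 2, z ∈ T →
      Ins T Q ∧ Side (interior T) (sg o z + sg (g z) z) (car Q) := by
    intro z
    by_cases hz : z ∈ T
    · by_cases hI : z ∈ interior T
      · refine ⟨0, fun _ => ⟨Ins.zero _, ?_⟩⟩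
        simp only [g, if_pos hI, car_zero]
        exact side_double (pl o z)
      · obtain ⟨Q, h2, h3⟩ := hsp z hz hI
        refine ⟨Q, fun _ => ⟨h2, ?_⟩⟩
        simp only [g, if_neg hI, sg_self, add_zero]
        exact h3
    · exact ⟨0, fun h => absurd h hz⟩
  choose t ht using h1
  have h2 : ∀ i, Side (interior T) (sg (a i) (b i) + (sg (g (a i)) (a i) + sg (g (b i)) (b i)))
      (car (sx ![o, a i, b i] + t (a i) + t (b i))) := by
    intro i
    rw [car_add, car_add, car_sx, hl_three]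
    have h3 := ((side_tri (interior T) o (a i) (b i)).add (ht _ (ha i)).2).add (ht _ (hb i)).2
    refine Eq2.side ?_ ((pl _ _).add ((pl _ _).add (pl _ _))) h3
    refine (Eq2.of_eq ?_).trans (Eq2.cancel _ ((pl o (a i)).add (pl o (b i))))
    rw [sg_comm (b i) o]
    abel
  have h3 := side_car_sum Finset.univ fun i _ => h2 i
  have h4 : Side (interior T) (∑ j, sg (g (Sum.elim a b j)) (Sum.elim a b j)) ∅ := by
    refine SM.side_even (fun j => g (Sum.elim a b j)) (Sum.elim a b) fun z w h => ?_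
    obtain ⟨j, -, hj⟩ := Finset.exists_ne_zero_of_sum_ne_zero h
    have hj' : g (Sum.elim a b j) = z ∧ Sum.elim a b j = w := by
      by_contra h0
      exact hj (if_neg h0)
    by_cases hw : w ∈ interior T
    · exfalso
      have hz : g w = z := by rw [← hj'.2]; exact hj'.1
      have e : ∀ j, (g (Sum.elim a b j) = z ∧ Sum.elim a b j = w) ↔ Sum.elim a b j = w :=
        fun j => ⟨fun h => h.2, fun h => ⟨by rw [h]; exact hz, h⟩⟩
      simp only [e] at h
      rw [Fintype.sum_sum_type] at h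
      have h5 := hn w hw
      rw [bdy_msr] at h5
      simp only [ind] at h5
      simp only [Sum.elim_inl, Sum.elim_inr] at h
      exact h (by convert h5)
    · have hz : z = w := by
        rw [← hj'.1, hj'.2]
        exact if_neg hw
      rw [hz, segment_same]
      exact disjoint_singleton_left.2 hw
  refine ⟨∑ i, (sx ![o, a i, b i] + t (a i) + t (b i)),
    Ins.sum _ fun i _ => ((Ins.sx ?_).add (ht _ (ha i)).1).add (ht _ (hb i)).1, ?_⟩
  rotate_left
  · have h5 := h3.add h4
    rw [show symmDiff (car (∑ i, (sx ![o, a i, b i] + t (a i) + t (b i)))) ∅ = _ from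
      symmDiff_bot _] at h5
    refine Side.cancel (W := univ) (W' := univ) ⟨m, a, b, fun _ => ⟨mem_univ _, mem_univ _⟩, rfl⟩
      (Poly.of_fintype (fun j => g (Sum.elim a b j)) (Sum.elim a b)
        fun _ => ⟨mem_univ _, mem_univ _⟩) ?_
    convert h5 using 2
    rw [Fintype.sum_sum_type, Finset.sum_add_distrib, Finset.sum_add_distrib, msr]
    simp only [Sum.elim_inl, Sum.elim_inr]
  · rw [hl_three]
    refine convexHull_min ?_ hT
    rintro w (rfl | rfl | rfl)
    · exact ho
    · exact ha i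
    · exact hb i

end RTri

open RTri in
theorem sTri : STri := by
  intro σ E μ hn hs
  have hc : Convex ℝ (hl σ) := convex_convexHull ℝ _
  have hcl : IsClosed (hl σ) := (hl_compact σ).isClosed
  have hv : ∀ S : Set ℂ, volume (S ∩ interior (hl σ)) = 0 → volume (S ∩ hl σ) = 0 := by
    intro S h
    refine measure_mono_null (fun z hz => ?_) (measure_union_null h (hc.addHaar_frontier volume))
    by_cases hI : z ∈ interior (hl σ)
    · exact Or.inl ⟨hz.1, hI⟩
    · exact Or.inr ⟨subset_closure hz.2, hI⟩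
  rcases (interior (hl σ)).eq_empty_or_nonempty with he | hne
  · exact ⟨0, Ins.zero _, hv _ (by rw [he, inter_empty, measure_empty])⟩
  have ho : σ 0 ∈ hl σ := subset_convexHull ℝ _ (mem_range_self 0)
  obtain ⟨m, a, b, -, rfl⟩ := hs.poly
  choose a' b' ν h1 h2 h3 h4 using fun i => split hcl ho (a i) (b i)
  have e : msr a b = msr a' b' + ∑ i, ν i := by
    rw [msr, msr, ← Finset.sum_add_distrib]
    exact Finset.sum_congr rfl fun i _ => h4 i
  have p' : Poly univ (msr a' b') := ⟨m, a', b', fun _ => ⟨mem_univ _, mem_univ _⟩, rfl⟩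
  have hO := out_sum Finset.univ fun i _ => h3 i
  rw [e] at hs hn
  have hs' := side_drop p' hO hs
  have hn' : NoB (interior (hl σ)) (msr a' b') := fun z hz => by
    have h5 := hn z hz
    rwa [bdy_add p' hO.poly, hO.noB z hz, add_zero] at h5
  obtain ⟨Q, hQ, hS⟩ := cone hc ho (fun z hz hI => by
    rw [hl_three] at hne hz hI ⊢
    exact spoke hne hz hI) h1 h2 hn'
  have hu := side_uniq isOpen_interior hc.interior.isPreconnected hS hs'
  rcases min_eq_bot.1 hu with h | h
  · exact ⟨Q, hQ, hv _ h⟩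
  · refine ⟨Q + sx σ, hQ.add (Ins.sx Subset.rfl), hv _ (measure_mono_null (fun z hz => ?_) h)⟩
    have h5 : z ∈ hl σ := interior_subset hz.2
    rw [car_add, car_sx] at hz
    simp only [mem_inter_iff, mem_symmDiff, mem_compl_iff, h5] at hz ⊢
    tauto

end Pool.Agent.MP_20201c_gt.H42
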