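import Pool.Agent.MP_20201c_gt.H42.Spec

/-! Flat chains that vanish in a domain, and polygonal representatives of small mass. -/

open MeasureTheory Set Filter Topology Metric
open scoped ENNReal

namespace Pool.Agent.MP_20201c_gt.H42

open Pool.Agent.MP_20201c_gt.H91

namespace RVan

theorem dist_add (P R : PC 1) (T : FC 1) :
    dist ((P + R : PC 1) : FC 1) T ≤ ‖R‖ + dist (P : FC 1) T := by
  refine (dist_triangle _ (P : FC 1) _).trans (add_le_add (le_of_eq ?_) le_rfl)
  rw [dist_pc, add_right_comm, pc_add_self, zero_add]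

end RVan

theorem sVan (h1 : SApx) (h2 : SConv) : SVan := by
  intro Ω T ho hR
  refine disjoint_spt ho (le_zero_iff.1 (lm_le fun K hK hΩ ε hε => ?_))
  obtain ⟨P, V, E, a1, a2, a3, a4, a5, a6⟩ := hR.2.2 K hK hΩ _ (half_pos hε)
  rw [add_zero] at a4 a5
  obtain ⟨Q, V', b1, b2, b3, b4, b5, b6⟩ := h1 V K E _ a1 hK a2 a4 a5
  have hQ : volume (car Q) ≤ ENNReal.ofReal (ε / 2) := by
    refine le_trans ?_ a6.le
    rw [← zero_add (volume (symmDiff E ∅ ∩ V)), ← b6]
    refine (measure_mono fun z hz => ?_).trans (measure_union_le _ _)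
    have := b1.car hz
    simp only [mem_inter_iff, mem_symmDiff, mem_union, Set.mem_sdiff,
      mem_empty_iff_false]
    tauto
  refine ⟨P + pbd Q, ?_, ?_⟩
  · have := norm_pbd_le (half_pos hε).le hQ
    have := RVan.dist_add P (pbd Q) T
    linarith
  · have hs : Side V' (ms (P + pbd Q)) (symmDiff E (car Q)) :=
      (ms_add _ _).symm.side (ms_poly _) ((a5.mono b4).add (side_pbd _ Q))
    refine (pm_mono _ b3).trans (h2 V' _ b2 (side_congr hs MeasurableSet.empty ?_)).le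
    rwa [← bot_eq_empty, symmDiff_bot, symmDiff_comm]

theorem sCore (h : SRed) : SCore := by
  intro Ω U K S T μ c hR hK hU hΩ hc ε hε
  obtain ⟨c', hc1, hc2⟩ := exists_between hc
  obtain ⟨r, hr, hr2⟩ := ENNReal.lt_iff_exists_add_pos_lt.1 hc2
  have hr' : (0 : ℝ) < r := hr
  obtain ⟨δ, hδ, hδ1, hδ2⟩ : ∃ δ : ℝ, 0 < δ ∧ 2 * δ ≤ r ∧ 3 * δ ≤ ε :=
    ⟨min (r / 2) (ε / 3), lt_min (by positivity) (by positivity),
      by linarith [min_le_left ((r : ℝ) / 2) (ε / 3)],
      by linarith [min_le_right ((r : ℝ) / 2) (ε / 3)]⟩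
  obtain ⟨P₁, p1, p2⟩ := exists_of_lm_lt hc1 hK hU hδ
  obtain ⟨P₂, V, E, a1, a2, a3, -, a5, a6⟩ := hR.2.2 K hK (hU.trans hΩ) _ hδ
  have hn : ‖P₁ + P₂‖ < 2 * δ := by
    rw [← dist_pc]
    exact (dist_triangle_right _ _ T).trans_lt (by linarith)
  obtain ⟨Q, hQ⟩ := exists_fill hn
  obtain ⟨ν, n1, n2, n3⟩ := h (P₂ + pbd Q)
  refine ⟨ν, V, symmDiff E (car Q), n1, a1, a2, ?_, ?_, ?_⟩
  · rw [n3 K hK.measurableSet]
    have e : P₂ + pbd Q = P₁ + (P₁ + P₂ + pbd Q) := by
      rw [← add_assoc, ← add_assoc, pc_add_self, zero_add]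
    rw [e]
    refine (pm_add _ _ _).trans_lt (lt_of_le_of_lt (add_le_add p2.le ?_) hr2)
    refine (pm_mono _ (subset_univ _)).trans ((le_self_add.trans hQ.le).trans ?_)
    rw [← ENNReal.ofReal_coe_nnreal]
    exact ENNReal.ofReal_le_ofReal hδ1
  · refine Eq2.side ?_ (n1.add hR.1) (a5.add (side_pbd V Q))
    exact (Eq2.of_eq (add_right_comm _ _ _)).trans
      (((ms_add _ _).symm.trans n2).add (Eq2.refl μ))
  · have hv : volume (car Q) < ENNReal.ofReal (2 * δ) := by
      have := le_add_self.trans_lt hQ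
      rwa [pm_two, inter_univ] at this
    refine lt_of_le_of_lt ((measure_mono fun z hz => ?_).trans (measure_union_le _ _))
      ((ENNReal.add_lt_add a6 hv).trans_le ?_)
    · simp only [mem_inter_iff, mem_symmDiff, mem_union] at hz ⊢
      tauto
    · rw [← ENNReal.ofReal_add hδ.le (by positivity)]
      exact ENNReal.ofReal_le_ofReal (by linarith)

end Pool.Agent.MP_20201c_gt.H42
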