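import Pool.Agent.MP_20201c_gt.H42.Spec
import Pool.Agent.MP_20201c_gt.H27.Iso

/-! The weighted form of the perimeter bound. -/

open MeasureTheory Set Filter Topology Metric
open scoped ENNReal

namespace Pool.Agent.MP_20201c_gt.H42

open Pool.Agent.MP_20201c_gt.H91

namespace RW

/-- A primitive of the smooth transition function. -/
noncomputable def Ph (s : ℝ) : ℝ := ∫ u in (0 : ℝ)..s, Real.smoothTransition u

theorem Ph_deriv (s : ℝ) : HasDerivAt Ph (Real.smoothTransition s) s :=
  (Real.smoothTransition.continuous.integral_hasStrictDerivAt 0 s).hasDerivAt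

theorem Ph_c1 : ContDiff ℝ 1 Ph := by
  refine contDiff_one_iff_deriv.2 ⟨fun s => (Ph_deriv s).differentiableAt, ?_⟩
  rw [show deriv Ph = Real.smoothTransition from funext fun s => (Ph_deriv s).deriv]
  exact Real.smoothTransition.continuous

theorem Ph_sub (a b : ℝ) : Ph b - Ph a = ∫ u in a..b, Real.smoothTransition u :=
  intervalIntegral.integral_interval_sub_left
    (Real.smoothTransition.continuous.intervalIntegrable _ _)
    (Real.smoothTransition.continuous.intervalIntegrable _ _)

theorem Ph_zero {s : ℝ} (h : s ≤ 0) : Ph s = 0 := by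
  rw [Ph, intervalIntegral.integral_congr (g := fun _ => 0) fun u hu => ?_]
  · simp
  · rw [uIcc_of_ge h] at hu
    exact Real.smoothTransition.zero_of_nonpos hu.2

theorem Ph_lin {s : ℝ} (h : 0 ≤ s) : Ph (s + 1) - Ph 1 = s := by
  rw [Ph_sub, intervalIntegral.integral_congr (g := fun _ => 1) fun u hu => ?_]
  · simp
  · rw [uIcc_of_le (by linarith)] at hu
    exact Real.smoothTransition.one_of_one_le hu.1

theorem Ph_step (s : ℝ) : 0 ≤ Ph s - Ph (s - 1) ∧ Ph s - Ph (s - 1) ≤ 1 := by
  rw [Ph_sub]
  refine ⟨intervalIntegral.integral_nonneg (by linarith) fun u _ =>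
    Real.smoothTransition.nonneg u, ?_⟩
  have h := intervalIntegral.integral_mono_on (μ := volume) (a := s - 1) (b := s) (by linarith)
    (Real.smoothTransition.continuous.intervalIntegrable _ _)
    (intervalIntegrable_const (c := (1 : ℝ))) fun u _ => Real.smoothTransition.le_one u
  simpa using h

/-- The slices of the identity. -/
noncomputable def F (k : ℕ) (s : ℝ) : ℝ :=
  (Ph (s + 1 - k) - Ph (1 - k)) - (Ph (s + 1 - (k + 1 : ℕ)) - Ph (1 - (k + 1 : ℕ)))

theorem F_c1 (k : ℕ) : ContDiff ℝ 1 (F k) := by
  have h : ∀ c : ℝ, ContDiff ℝ 1 fun s : ℝ => Ph (s + 1 - c) := fun c =>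
    Ph_c1.comp (by fun_prop)
  exact ((h _).sub contDiff_const).sub ((h _).sub contDiff_const)

theorem F_zero (k : ℕ) : F k 0 = 0 := by simp [F]

theorem F_abs (k : ℕ) (s : ℝ) : |F k s| ≤ 1 := by
  have h1 := Ph_step (s + 1 - k)
  have h2 := Ph_step (1 - k)
  have e1 : s + 1 - ((k + 1 : ℕ) : ℝ) = s + 1 - k - 1 := by push_cast; ring
  have e2 : 1 - ((k + 1 : ℕ) : ℝ) = 1 - k - 1 := by push_cast; ring
  rw [F, e1, e2, abs_le]
  constructor <;> linarith [h1.1, h1.2, h2.1, h2.2]

theorem F_low (k : ℕ) {s : ℝ} (h0 : 0 ≤ s) (h : s ≤ (k : ℝ) - 1) : F k s = 0 := by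
  rw [F, Ph_zero (by linarith), Ph_zero (by linarith), Ph_zero (by push_cast; linarith),
    Ph_zero (by push_cast; linarith)]
  simp

theorem F_sum (N : ℕ) {s : ℝ} (h0 : 0 ≤ s) (h : s ≤ N) : ∑ k ∈ Finset.range (N + 1), F k s = s := by
  rw [show (fun k => F k s) = fun k : ℕ => (fun k : ℕ => Ph (s + 1 - k) - Ph (1 - k)) k -
    (fun k : ℕ => Ph (s + 1 - k) - Ph (1 - k)) (k + 1) from rfl, Finset.sum_range_sub']
  have hN : (0 : ℝ) ≤ N := Nat.cast_nonneg N
  rw [Ph_zero (s := s + 1 - (N + 1 : ℕ)) (by push_cast; linarith),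
    Ph_zero (s := 1 - (N + 1 : ℕ)) (by push_cast; linarith)]
  simpa using Ph_lin h0

theorem count (τ x : ℝ) (hτ : 0 < τ) (hx : 0 ≤ x) (M : ℕ) :
    ∑ k ∈ Finset.range M, (if ((k : ℝ) - 2) * τ < x then τ else 0) ≤ x + 3 * τ := by
  have h1 : ∀ M : ℕ, ∑ k ∈ Finset.range M, (if ((k : ℝ) - 2) * τ < x then τ else 0) ≤ M * τ := by
    intro M
    refine (Finset.sum_le_card_nsmul _ _ τ fun k _ => ?_).trans (by simp)
    split_ifs
    · exact le_rfl
    · exact hτ.le
  induction M with
  | zero => simp; linarith
  | succ M ih =>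
    rw [Finset.sum_range_succ]
    split_ifs with h
    · have := h1 M
      linarith
    · linarith

end RW

open RW in
theorem sW : SW := by
  intro V E ν g w hV hs hg hc hsub h0 hw
  have hfin : IsFiniteMeasure ν := by
    obtain ⟨-, m, a, b, rfl, -⟩ := hs
    infer_instance
  have hgi : Integrable g ν := hg.continuous.integrable_of_hasCompactSupport hc
  obtain ⟨B, hB⟩ := hg.continuous.bounded_above_of_compact_support hc
  have key : ∀ τ : ℝ, 0 < τ →
      ∫ z in E, dvg (fun y => g y • w) z ≤ ∫ z, g z ∂ν + 3 * τ * ν.real univ := by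
    intro τ hτ
    obtain ⟨N, hN⟩ := exists_nat_ge (B / τ)
    let f : ℕ → ℂ → ℝ := fun k y => F k (g y / τ)
    let U : ℕ → Set ℂ := fun k => {z | ((k : ℝ) - 2) * τ < g z}
    have hU : ∀ k, IsOpen (U k) := fun k => isOpen_lt continuous_const hg.continuous
    have hf : ∀ k, ContDiff ℝ 1 (f k) := fun k => (F_c1 k).comp (hg.div_const τ)
    have hφ : ∀ k, ContDiff ℝ 1 fun y => f k y • w := fun k => (hf k).smul contDiff_const
    have hsupp : ∀ k, Function.support (fun y => f k y • w) ⊆ Function.support g := by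
      intro k y hy e
      exact hy (by simp [f, e, F_zero])
    have hcφ : ∀ k, HasCompactSupport fun y => f k y • w := fun k => hc.mono (hsupp k)
    have hts : ∀ k, tsupport (fun y => f k y • w) ⊆ U k ∩ V := by
      intro k
      refine subset_inter ?_ ((closure_mono (hsupp k)).trans hsub)
      refine (closure_minimal (t := {z | ((k : ℝ) - 1) * τ ≤ g z}) (fun y hy => ?_)
        (isClosed_le continuous_const hg.continuous)).trans fun z hz => ?_
      · by_contra hlt
        refine hy ?_
        have h1 : g y / τ ≤ (k : ℝ) - 1 := by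
          rw [div_le_iff₀ hτ]; exact (not_le.1 hlt).le
        simp [f, F_low k (div_nonneg (h0 y) hτ.le) h1]
      · change ((k : ℝ) - 2) * τ < g z
        have : ((k : ℝ) - 1) * τ ≤ g z := hz
        linarith
    have hb : ∀ k, ∫ z in E, dvg (fun y => f k y • w) z ≤ ν.real (U k) := by
      intro k
      refine H27.int_le_of_per measureReal_nonneg ?_ (hφ k) (hcφ k) (hts k) fun z => ?_
      · rw [ofReal_measureReal]
        exact side_per hV hs (hU k)
      · rw [norm_smul, Real.norm_eq_abs]
        exact mul_le_one₀ (F_abs _ _) (norm_nonneg _) hw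
    have hgsum : g = fun y => ∑ k ∈ Finset.range (N + 1), τ * f k y := by
      funext y
      have h1 : g y / τ ≤ N :=
        (div_le_div_of_nonneg_right ((le_abs_self _).trans (hB y)) hτ.le).trans hN
      rw [← Finset.mul_sum, F_sum N (div_nonneg (h0 y) hτ.le) h1]
      field_simp
    have hd : ∀ z, dvg (fun y => g y • w) z =
        ∑ k ∈ Finset.range (N + 1), τ * dvg (fun y => f k y • w) z := by
      intro z
      have h1 : HasFDerivAt (fun y => ∑ k ∈ Finset.range (N + 1), τ * f k y)
          (∑ k ∈ Finset.range (N + 1), τ • fderiv ℝ (f k) z) z :=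
        HasFDerivAt.fun_sum fun k _ =>
          (((hf k).differentiable one_ne_zero z).hasFDerivAt).const_mul τ
      rw [← hgsum] at h1
      rw [H27.dvg_smul (hg.differentiable one_ne_zero z), h1.fderiv]
      simp only [sum_apply, smul_apply, smul_eq_mul]
      exact Finset.sum_congr rfl fun k _ => by
        rw [H27.dvg_smul ((hf k).differentiable one_ne_zero z)]
    have hi : ∀ k, Integrable ((U k).indicator fun _ => τ) ν := fun k =>
      (integrable_const τ).indicator (hU k).measurableSet
    calc ∫ z in E, dvg (fun y => g y • w) z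
        = ∑ k ∈ Finset.range (N + 1), τ * ∫ z in E, dvg (fun y => f k y • w) z := by
          simp only [hd]
          rw [integral_finsetSum _ fun k _ =>
            ((sp_dvg_int (hφ k) (hcφ k)).integrableOn.const_mul τ)]
          simp only [integral_const_mul]
      _ ≤ ∑ k ∈ Finset.range (N + 1), ∫ z, (U k).indicator (fun _ => τ) z ∂ν := by
          refine Finset.sum_le_sum fun k _ => ?_
          rw [integral_indicator_const _ (hU k).measurableSet, smul_eq_mul, mul_comm _ τ]
          exact mul_le_mul_of_nonneg_left (hb k) hτ.le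
      _ = ∫ z, ∑ k ∈ Finset.range (N + 1), (U k).indicator (fun _ => τ) z ∂ν :=
          (integral_finsetSum _ fun k _ => hi k).symm
      _ ≤ ∫ z, (g z + 3 * τ) ∂ν := by
          refine integral_mono (integrable_finsetSum _ fun k _ => hi k)
            (hgi.add (integrable_const _)) fun z => ?_
          refine le_trans (le_of_eq (Finset.sum_congr rfl fun k _ => ?_))
            (count τ (g z) hτ (h0 z) (N + 1))
          simp only [U, indicator, mem_ofPred_eq]
      _ = ∫ z, g z ∂ν + 3 * τ * ν.real univ := by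
          rw [integral_add hgi (integrable_const _), integral_const, smul_eq_mul, mul_comm]
  refine le_of_forall_pos_le_add fun ε hε => ?_
  have hm : 0 ≤ ν.real univ := measureReal_nonneg
  refine (key (ε / (3 * (ν.real univ + 1))) (by positivity)).trans (add_le_add le_rfl ?_)
  rw [show 3 * (ε / (3 * (ν.real univ + 1))) * ν.real univ =
    ε * (ν.real univ / (ν.real univ + 1)) by field_simp]
  exact mul_le_of_le_one_right hε.le ((div_le_one (by positivity)).2 (by linarith))

end Pool.Agent.MP_20201c_gt.H42
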