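import Pool.Agent.MP_20201c_gt.H42.Spec2

/-! Chains of polygonal states over small simplices of cycles, with signs. -/

open MeasureTheory Set Filter Topology Metric
open scoped ENNReal

namespace Pool.Agent.MP_20201c_gt.H42

open Pool.Agent.MP_20201c_gt.H91

theorem pChart (h1 : SStar) (h2 : SInS) : PChart := by
  intro ρ gr L c₀ β R hG
  obtain ⟨r₀, hr₀, h⟩ := h2 ρ gr L c₀ β R hG
  refine ⟨r₀, hr₀, fun μ β₀ hβ₀ hμ hn q => ?_⟩
  rcases (ball q r₀ ∩ {z | 0 < ρ z}).eq_empty_or_nonempty with e | hne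
  · obtain ⟨m, a, b, -, rfl⟩ := hμ
    exact ⟨∅, side_out fun i => by rw [e]; exact disjoint_empty _⟩
  obtain ⟨V, O, a1, a2, a3, a4, a5, a6, a7⟩ := h (min β₀ (β / 2))
    ⟨lt_min hβ₀ (half_pos hG.hβ), min_le_right _ _⟩ r₀ ⟨hr₀, le_rfl⟩ q hne
  refine h1 V _ O μ a1 a2 a3 a5 a6 a7 hμ (hn.mono (a4.trans fun z hz => ?_))
  have := min_le_left β₀ (β / 2)
  simp only [mem_ofPred_eq] at hz ⊢
  linarith

theorem unc_neW {ρ : ℂ → ℝ} {d h η : ℝ} {f : St} {𝒯 : Finset Tri} {U : Set ℂ} (hh : 0 < h)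
    (hd : 0 < d) (hv : ENNReal.ofReal (5 * d) ≤ volume {x | 0 < ρ x})
    (hs : volume ({x | 0 < ρ x} \ U) ≤ ENNReal.ofReal d)
    (hu : (UncW 𝒯 f η).card * h ^ 2 ≤ 2 * d)
    (hae : ∀ᵐ x : ℂ, x ∈ U → ∃ τ₀ ∈ 𝒯, τ₀.1 = vtx h x) : UncW 𝒯 f η ≠ 𝒯 := by
  intro he
  rw [he] at hu
  have h1 := sq_cover hh 𝒯 (B := U) hae
  have h2 : volume {x | 0 < ρ x} ≤ volume (({x | 0 < ρ x} \ U) ∪ U) :=
    measure_mono (subset_sdiff_union _ _)
  have h3 := hv.trans (h2.trans ((measure_union_le _ _).trans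
    (add_le_add hs (h1.trans (ENNReal.ofReal_le_ofReal hu)))))
  rw [← ENNReal.ofReal_add hd.le (by linarith), ENNReal.ofReal_le_ofReal_iff (by linarith)] at h3
  linarith

theorem ds_1 {h x z r a m : ℝ} (hh : 0 < h) (ha : 0 < a) (h1 : x * h ^ 2 ≤ 2 * (2 * z))
    (h2 : z ≤ 3 * r * a / 16) (h3 : 3 * r < m * h) : 4 * h * x ≤ a * m := by
  refine le_of_mul_le_mul_right ?_ hh
  nlinarith

theorem ds_2 {a : ℝ} (ha : 0 < a) (N : ℕ) : N * (a / (2 * (N + 1))) ≤ a / 2 := by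
  rw [mul_div_assoc', div_le_div_iff₀ (by positivity) (by norm_num)]
  nlinarith

theorem ds_3 (X Y Z : Set ℂ) : symmDiff (symmDiff X Z) (symmDiff Y Z) = symmDiff X Y := by
  ext y
  simp only [mem_symmDiff]
  tauto

theorem ds_4 {A₀ A₁ B E U : Set ℂ} {y : ℂ} (hy : y ∈ U) (h : y ∈ A₀ ↔ y ∈ B)
    (h' : y ∉ symmDiff A₁ A₀ ∩ U) : y ∈ symmDiff E A₁ ↔ y ∈ symmDiff E B := by
  simp only [mem_inter_iff, mem_symmDiff] at h' ⊢
  tauto

theorem ds_5 (E E' A Ω U : Set ℂ) :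
    symmDiff (symmDiff E' A) E ∩ Ω ⊆ (Ω \ U) ∪ (symmDiff E' (symmDiff E A) ∩ U) := by
  intro y hy
  simp only [mem_inter_iff, mem_symmDiff, mem_union, Set.mem_sdiff] at hy ⊢
  tauto

open DS in
theorem pDiscS (pV : PVst) (pD : PDI) (pM : PMol) (pB : PBad) (pU : PUnc) (pA : PArea)
    (pC : PCpt) (pH : PChart) (sS : SSigns) (sD : SD) (sE : SExt) : PDiscS := by
  classical
  intro ρ gr L c₀ β R hG hc μ βμ hβμ hμ hnμ 𝒦 t₀ hK ht₀ hm hn N K ε₁ ζ r₁ δ hε₁ hζ hr₁ hδ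
  have hne := hc.nonempty
  have hL := hG.hL
  have ho : IsOpen {z | 0 < ρ z} := isOpen_lt continuous_const hG.continuous
  have hΩR : ∀ z, 0 < ρ z → z ∈ cb 0 R := fun z hz => by
    have := hG.ball z (by linarith [hG.hβ])
    simp only [mem_closedBall_zero_iff]; linarith
  have hbd : Bornology.IsBounded {z | 0 < ρ z} := Metric.isBounded_closedBall.subset hΩR
  have hvt : volume {z | 0 < ρ z} ≠ ⊤ := hbd.measure_lt_top.ne
  have hv0 : 0 < volume {z | 0 < ρ z} := ho.measure_pos _ hne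
  have hnΩ : NoB {z | 0 < ρ z} μ := hnμ.mono fun x hx => by
    simp only [mem_ofPred_eq] at hx ⊢; linarith
  obtain ⟨V, hVdef⟩ : ∃ V : ℝ, V = 2 * (volume {z | 0 < ρ z}).toReal := ⟨_, rfl⟩
  have hV0 : 0 ≤ V := by rw [hVdef]; positivity
  obtain ⟨rc, hrc, hB⟩ := pH ρ gr L c₀ β R hG
  choose B hB using hB μ βμ hβμ hμ hnμ
  obtain ⟨ηE, hηE, hext⟩ := sE ρ gr L c₀ β R hG hc
  -- (1)
  obtain ⟨a, ha0, ha1, hA1, hA2⟩ := exists_a t₀ V N ((2 * K + 1) ^ 2 * 5 ^ N) hε₁ hζ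
  -- (2)
  obtain ⟨r₀, hr₀, hr₀'⟩ := hn (ENNReal.ofReal a) (ENNReal.ofReal_pos.2 ha0)
  obtain ⟨r, hr0, hr1, hr2, hr3⟩ : ∃ r : ℝ, 0 < r ∧ r ≤ r₁ ∧ 20 * r ≤ r₀ ∧ 20 * r ≤ rc :=
    ⟨min r₁ (min r₀ rc / 20), lt_min hr₁ (by positivity), min_le_left _ _,
      by linarith [min_le_right r₁ (min r₀ rc / 20), min_le_left r₀ rc],
      by linarith [min_le_right r₁ (min r₀ rc / 20), min_le_right r₀ rc]⟩
  -- (3)
  obtain ⟨d, hd0, hd1, hd2⟩ : ∃ d : ℝ, 0 < d ∧ ENNReal.ofReal (5 * d) ≤ δ ∧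
      ENNReal.ofReal (5 * d) ≤ volume {z | 0 < ρ z} := by
    obtain ⟨x, -, h1, h2⟩ := ENNReal.lt_iff_exists_real_btwn.1 (lt_min hδ hv0)
    have h3 : 5 * (x / 5) = x := by ring
    refine ⟨x / 5, by have := ENNReal.ofReal_pos.1 h1; positivity, ?_, ?_⟩
    · rw [h3]; exact h2.le.trans (min_le_left _ _)
    · rw [h3]; exact h2.le.trans (min_le_right _ _)
  obtain ⟨β₂, hβ₂, hstrip⟩ := hG.strip (ENNReal.ofReal_pos.2 hd0)
  obtain ⟨β₁, hβ₁, hb1, hb2⟩ : ∃ β₁ : ℝ, 0 < β₁ ∧ β₁ < β₂ ∧ 2 * β₁ ≤ ηE :=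
    ⟨min β₂ ηE / 2, by positivity, by linarith [min_le_left β₂ ηE],
      by linarith [min_le_right β₂ ηE]⟩
  replace hstrip : volume ({z | 0 < ρ z} \ {z | 2 * β₁ < ρ z}) ≤ ENNReal.ofReal d := by
    refine le_trans (measure_mono ?_) hstrip
    intro x hx
    refine ⟨hx.1, ?_⟩
    have := hx.2
    simp only [mem_ofPred_eq, not_lt] at this
    linarith
  -- (4)
  obtain ⟨e, he0, he1, he2, he3⟩ : ∃ e : ℝ, 0 < e ∧ e ≤ a ∧ e ≤ r / 2 ∧ L * e ≤ β₁ / 2 := by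
    refine ⟨min a (min (r / 2) (β₁ / 2 / L)), lt_min ha0 (lt_min (by positivity) (by positivity)),
      min_le_left _ _, (min_le_right _ _).trans (min_le_left _ _), ?_⟩
    rw [← le_div_iff₀' hL]
    exact (min_le_right _ _).trans (min_le_right _ _)
  obtain ⟨β₀, F, hβ₀, hβ₀', hF1, hF2, hF3, hF4⟩ := hG.push he0 hβ₁
  -- (5)
  obtain ⟨z, hz0, hz1, hz2, hz3⟩ : ∃ z : ℝ, 0 < z ∧ z ≤ a / 4 ∧ z ≤ 3 * r * a / 16 ∧ z ≤ d / 2 :=
    ⟨min (a / 4) (min (3 * r * a / 16) (d / 2)),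
      lt_min (by positivity) (lt_min (by positivity) (by positivity)),
      min_le_left _ _, (min_le_right _ _).trans (min_le_left _ _),
      (min_le_right _ _).trans (min_le_right _ _)⟩
  obtain ⟨h₁, hh₁, hl1⟩ := mol_l1 ho.measurableSet hbd hK hz0
  obtain ⟨h₅, hh₅, hl5⟩ := pB μ z hμ hz0
  obtain ⟨h', hh'0, hh'1, hh'5, hh'2, hh'3, hh'4⟩ : ∃ h' : ℝ, 0 < h' ∧ h' ≤ h₁ ∧ h' ≤ h₅ ∧
      h' ≤ r ∧ 10 * L * h' ≤ β₀ ∧ 10 * L * h' ≤ β₁ / 2 := by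
    have h10 : 0 < 10 * L := by positivity
    refine ⟨min (min (min h₁ h₅) r) (min (β₀ / (10 * L)) (β₁ / 2 / (10 * L))),
      lt_min (lt_min (lt_min hh₁ hh₅) hr0) (lt_min (by positivity) (by positivity)),
      (min_le_left _ _).trans ((min_le_left _ _).trans (min_le_left _ _)),
      (min_le_left _ _).trans ((min_le_left _ _).trans (min_le_right _ _)),
      (min_le_left _ _).trans (min_le_right _ _), ?_, ?_⟩
    · rw [← le_div_iff₀' h10]; exact (min_le_right _ _).trans (min_le_left _ _)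
    · rw [← le_div_iff₀' h10]; exact (min_le_right _ _).trans (min_le_right _ _)
  obtain ⟨ψ, hψ⟩ := exists_bump hh'0
  obtain ⟨h₂, hh₂, hl1⟩ := hl1 h' ⟨hh'0, hh'1⟩ ψ hψ
  obtain ⟨h₃, hh₃, hnb⟩ := mol_nb hψ (ζ := a / 4) (by positivity)
  obtain ⟨h₄, hh₄, hper⟩ := pM ψ h' a hψ ha0
  obtain ⟨h, hh, k2, k3, k4, hhh⟩ : ∃ h : ℝ, 0 < h ∧ h ≤ h₂ ∧ h ≤ h₃ ∧ h ≤ h₄ ∧ h ≤ h' :=
    ⟨min (min h₂ h₃) (min h₄ h'), lt_min (lt_min hh₂ hh₃) (lt_min hh₄ hh'0),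
      (min_le_left _ _).trans (min_le_left _ _), (min_le_left _ _).trans (min_le_right _ _),
      (min_le_right _ _).trans (min_le_left _ _), (min_le_right _ _).trans (min_le_right _ _)⟩
  replace hl1 := hl1 h ⟨hh, k2⟩
  replace hnb := hnb h ⟨hh, k3⟩
  replace hper := hper h ⟨hh, k4⟩
  replace hl5 := hl5 h' ⟨hh'0, hh'5⟩ ψ hψ h ⟨hh, hhh⟩
  obtain ⟨m, hm1, hm2⟩ : ∃ m : ℕ, 3 * r < m * h ∧ m * h ≤ 4 * r := by
    refine ⟨⌊3 * r / h⌋₊ + 1, ?_, ?_⟩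
    · rw [← div_lt_iff₀ hh]; push_cast; exact Nat.lt_floor_add_one _
    · have := Nat.floor_le (a := 3 * r / h) (by positivity)
      rw [le_div_iff₀ hh] at this
      push_cast; linarith
  have hm0 : 0 < m := by
    rcases Nat.eq_zero_or_pos m with rfl | h0
    · simp at hm1; linarith
    · exact h0
  have i1 : h' < 4 * h' := by linarith
  have i2 : 10 * h' ≤ rc := by linarith
  have i3 : 4 * h' + 8 * r ≤ 12 * r := by linarith
  have i4 : 12 * r < r₀ := by linarith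
  have i5 : e ≤ 1 := by linarith
  have i6 : 2 * r + 2 * e < m * h := by linarith
  have i7 : a < 1 / 2 := by linarith
  have i8 : a / 2 ≤ a := by linarith
  have i9 : 2 * (2 * z) ≤ 2 * d := by linarith
  have i10 : 8 * r + 4 * h' ≤ rc := by linarith
  have i11 : h' + 2 * h ≤ 4 * h' := by linarith
  have i12 : 2 * (m * h) ≤ 8 * r := by linarith
  have i13 : 0 ≤ 4 * h' := by linarith
  have i14 : 3 * m * h + e ≤ 13 * r := by linarith
  have i15 : 0 ≤ 2 * z := by linarith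
  have i16 : 0 ≤ 2 * (2 * z) := by linarith
  have i17 : d + (2 * z + 2 * (2 * z)) ≤ 4 * d := by linarith
  have i18 : 0 ≤ 4 * d := by linarith
  have i19 : 4 * d + d ≤ 5 * d := by linarith
  have i20 : 0 ≤ (1 + a) * a + a * V := by positivity
  obtain ⟨𝒯, hpos, hT, hout, hae, hhull⟩ := mesh hG (by linarith : e ≤ 1) hF1 hF2 hF3 hF4 hh hhh
    hh'3 (by linarith)
  replace hae : ∀ᵐ x : ℂ, x ∈ {z | 2 * β₁ < ρ z} → ∃ τ₀ ∈ 𝒯, τ₀.1 = vtx h x ∧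
      x ∈ hull (F ∘ gp h) τ₀ ∧ ∀ τ ∈ 𝒯, τ ≠ τ₀ → x ∉ hull (F ∘ gp h) τ := by
    filter_upwards [hae] with x hx h1
    exact hx (le_of_lt h1)
  have hcard : ∀ A ⊆ 𝒯, (A.card : ℝ) * h ^ 2 ≤ V := by
    intro A hA
    have h1 := sq_count hh A (B := {z | 0 < ρ z}) fun τ hτ x hx =>
      sq_in hh hhh (hT τ (hA hτ)).1 hx.symm (Metric.mem_closedBall_self (by linarith))
    rw [← ENNReal.ofReal_le_ofReal_iff hV0, hVdef, ENNReal.ofReal_mul (p := 2) (by norm_num),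
      ENNReal.ofReal_toReal hvt]
    simpa using h1
  have hsub : {z | 0 < ρ z} ⊆ {z | -β₀ < ρ z} := fun x hx => by
    simp only [mem_ofPred_eq] at hx ⊢; linarith
  have hsub' : {z | 2 * β₁ < ρ z} ⊆ {z | 0 < ρ z} := fun x hx => by
    simp only [mem_ofPred_eq] at hx ⊢; linarith
  obtain ⟨w, sg, hsg⟩ := sS _ μ B h h' rc 𝒯 hh hhh (by linarith) hB fun τ hτ => (hT τ hτ).1
  obtain ⟨hdW, A₀, hA₀, hA₀'⟩ := sD _ {z | -β₀ < ρ z} {z | 2 * β₁ < ρ z} μ B h h' rc e 𝒯 w sg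
    (F ∘ gp h) hh hhh (by linarith) (by linarith) (isOpen_lt continuous_const hG.continuous)
    (isOpen_lt continuous_const hG.continuous) hsub' hsub hμ hnΩ hpos hB hsg hout hae
  obtain ⟨A₁, hA₁, hA₁'⟩ := hext (2 * β₁) ⟨by linarith, hb2⟩ _ A₀
    ((hdW.mono hsub).add hnΩ (dW_poly _ _ _) hμ) hA₀
  have hch : ∀ τ ∈ 𝒯, Side (ball (gp h τ.1) (4 * h')) μ (B (gp h τ.1)) := fun τ hτ =>
    (hB _).mono (subset_inter (ball_subset_ball (by linarith))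
      (ball_subset_closedBall.trans (hT τ hτ).1))
  -- (6)
  obtain ⟨δ₁, hδ₁, hcl⟩ := mol_close hψ (ζ := a / (2 * (N + 1))) (by positivity)
  refine ⟨β₀, r, min (ENNReal.ofReal δ₁) (ENNReal.ofReal d), hβ₀, hβ₀', hr0, hr1,
    lt_min (ENNReal.ofReal_pos.2 hδ₁) (ENNReal.ofReal_pos.2 hd0), fun 𝒮 hS hN h𝒮 => ?_⟩
  obtain ⟨E, hE, hEs⟩ := choose_rep {z | 0 < ρ z}
  have hEK : ∀ s ∈ 𝒮, 0 < s.1 → cyc _ (E s) (hE s) ∈ 𝒦 := fun s hs h0 => by
    obtain ⟨x, hx⟩ := hEs s h0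
    exact hx ▸ (h𝒮 s hs x).1
  have hbad : ∀ s ∈ 𝒮, 0 < s.1 →
      volume (BadW 𝒯 ψ h z fun τ => symmDiff (E s) (B (gp h τ.1))) ≤ ENNReal.ofReal (2 * z) := by
    intro s hs h0
    rw [two_mul, ENNReal.ofReal_add hz0.le hz0.le]
    exact (hl5 _ (E s) 𝒯 (fun τ => B (gp h τ.1)) (hE s) fun τ hτ =>
      ⟨(hT τ hτ).1, hch τ hτ⟩).trans (add_le_add (hl1 (E s) (hE s) (hEK s hs h0)) le_rfl)
  have hunc : ∀ s ∈ 𝒮, 0 < s.1 → (UncW 𝒯 (fun τ => mol ψ h (symmDiff (E s) (B (gp h τ.1))))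
      (a / 2)).card * h ^ 2 ≤ 2 * (2 * z) := fun s hs h0 =>
    pU 𝒯 ψ h z a _ _ hh i15 hz1 (fun τ i => hnb _ τ i) (hbad s hs h0)
  have hU : ∀ s ∈ 𝒮, 0 < s.1 → 4 * h * (UncW 𝒯
      (fun τ => mol ψ h (symmDiff (E s) (B (gp h τ.1)))) (a / 2)).card ≤ a * m := by
    exact fun s hs h0 => ds_1 hh ha0 (hunc s hs h0) hz2 hm1
  have hden : 0 < 1 - 2 * a := by linarith
  have hq0 : 0 ≤ (1 + 2 * e) / (1 - 2 * a) := by positivity
  have hq1 : (1 + 2 * e) / (1 - 2 * a) ≤ (1 + 2 * a) / (1 - 2 * a) := by gcongr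
  have hnear : ∀ θ (τ τ' : Tri), cellOf m θ τ = cellOf m θ τ' → ‖gp h τ.1 - gp h τ'.1‖ ≤ 8 * r :=
    fun θ τ τ' h2 => (gp_near hh (ediv_near hm0 (congrArg Prod.fst h2))
      (ediv_near hm0 (congrArg Prod.snd h2))).trans i12
  obtain ⟨σ, hσ0, hσ⟩ := pD _ w 𝒯 (F ∘ gp h) h e r m N 𝒮
    (fun s τ => mol ψ h (symmDiff (E s) (B (gp h τ.1)))) a (a / (2 * (N + 1))) a
    ((1 + 2 * e) / (1 - 2 * a) * ((1 + a) * t₀ + a * V) + a)
    (4 * ((1 + 2 * e) / (1 - 2 * a) * ((1 + a) * a + a * V)) + a) hh hpos i5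
    hr0.le i6 hsg.hw hS hN i7 (by positivity)
    (ds_2 ha0 N) ha0.le (by positivity)
    (by
      intro n g i hg
      obtain ⟨x, hx⟩ := hEs ⟨n + 2, g⟩ (Nat.succ_pos _)
      obtain ⟨x', hx'⟩ := hEs ⟨n + 1, g ∘ fc (n + 1) i⟩ (Nat.succ_pos _)
      have h1 := ((h𝒮 _ hg (fc (n + 1) i x')).2 x).le.trans (min_le_left _ _)
      have hx'' : g (fc (n + 1) i x') = _ := hx'
      simp only at hx h1
      rw [hx, hx'', edist_cyc, fdist, min_le_iff] at h1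
      have hin : ∀ τ ∈ 𝒯, ∀ j, cb (gp h (tv τ j)) h' ⊆ {z | 0 < ρ z} := fun τ hτ j =>
        (cb_sub (tv_near hh τ j) i11).trans (hT τ hτ).1
      rcases h1 with h1 | h1
      · exact Or.inl fun τ hτ j => hcl _ _ _ h _ ((hE _).symmDiff (hB _).1)
          ((hE _).symmDiff (hB _).1) (by rwa [ds_3]) (hin τ hτ j)
      · refine Or.inr fun τ hτ j => ?_
        have := hcl _ _ _ h _ ((hE ⟨n + 1, g ∘ fc (n + 1) i⟩).symmDiff (hB (gp h τ.1)).1)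
          ((hE ⟨n + 2, g⟩).symmDiff (hB (gp h τ.1)).1).compl
          (by rwa [SideUA.symmDiff_compl', ds_3, ← SideUA.symmDiff_compl']) (hin τ hτ j)
        rw [mol_compl hψ h ((hE _).symmDiff (hB _).1), abs_sub_comm] at this
        rw [sub_right_comm]; exact this)
    (by
      intro s hs h0
      obtain ⟨c1, c2⟩ := pC _ (E s) B ψ h h' rc 𝒯 w sg hψ hh hhh i2 (hE s)
        (fun q => (hB q).1) hsg
      refine ⟨pV w 𝒯 _ h e r m _ a (a / 2) a _ _ hh hpos i5 hr0.le i6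
        i8 i7 ha0.le i20 c1 (fun θ c => ?_) (hU s hs h0) ?_ ?_,
        c1, hU s hs h0, unc_neW hh hd0 hd2 hstrip
          ((hunc s hs h0).trans i9) ?_⟩
      · rcases (𝒯.filter fun τ => cellOf m θ τ = c).eq_empty_or_nonempty with h1 | ⟨τ', h1⟩
        · exact c2 0 _ (Finset.filter_subset _ _) fun τ hτ =>
            absurd (h1 ▸ hτ) (Finset.notMem_empty τ)
        · refine c2 (gp h τ'.1) _ (Finset.filter_subset _ _) fun τ hτ => ?_
          rw [Finset.mem_filter] at hτ h1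
          exact (add_le_add (hnear θ τ τ' (hτ.2.trans h1.2.symm)) le_rfl).trans i10
      · exact real_of_per ha0.le ht₀ (by positivity) (hcard 𝒯 subset_rfl) le_rfl
          (hper μ (E s) {z | 0 < ρ z} 𝒯 (fun τ => ball (gp h τ.1) (4 * h'))
            (fun τ => B (gp h τ.1)) _ (hm _ _ (hEK s hs h0)) fun τ hτ => ⟨isOpen_ball,
              ball_subset_closedBall.trans (hT τ hτ).1, hch τ hτ,
              closedBall_subset_ball i1⟩)
      · intro θ c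
        rcases (𝒯.filter fun τ => cellOf m θ τ = c).eq_empty_or_nonempty with h1 | ⟨τ', h1⟩
        · rw [h1, Finset.sum_empty]; positivity
        refine real_of_per ha0.le ha0.le (by positivity) (hcard _ (Finset.filter_subset _ _)) le_rfl
          (hper μ (E s) _ _ (fun τ => ball (gp h τ.1) (4 * h')) (fun τ => B (gp h τ.1)) _
            (hr₀' _ _ (hEK s hs h0) (gp h τ'.1)) fun τ hτ => ?_)
        rw [Finset.mem_filter] at hτ h1
        refine ⟨isOpen_ball, subset_inter (ball_subset_closedBall.trans ((cb_sub (t := 12 * r)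
          (hnear θ τ τ' (hτ.2.trans h1.2.symm)) i3).trans
          (closedBall_subset_ball i4))) (ball_subset_closedBall.trans (hT τ hτ.1).1),
          hch τ hτ.1, closedBall_subset_ball i1⟩
      · filter_upwards [hae] with x hx h1
        obtain ⟨τ, h2, h3, -⟩ := hx h1
        exact ⟨τ, h2, h3⟩)
  refine ⟨σ, hσ0, fun s hs => ⟨(hσ s hs).1, sp_mono ?_ (hσ s hs).2⟩⟩
  rintro l ⟨hlen, l₀, rfl, hadm, Q, hQ1, hQ2, hQ3⟩
  have hpoly : ∀ S, Poly (cb 0 R) (stW w 𝒯 (F ∘ gp h) S) :=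
    stW_poly (convex_closedBall _ _) fun τ hτ i => (hT τ hτ).2 i
  have hside := fun S (hS : S ∈ l₀) => stM_side (W := univ) (pos := F ∘ gp h) hsub
    (fun τ hτ i => ((hadm S hS).1.2 τ hτ i).1) hout
  have heq := fun S (hS : S ∈ l₀) => stW_eq2 (pos := F ∘ gp h) hsg.hw
    (fun τ hτ i => ((hadm S hS).1.2 τ hτ i).1)
  have hpM : ∀ S, Poly univ (H91.stM 𝒯 (F ∘ gp h) S) :=
    stM_poly convex_univ fun _ _ _ => mem_univ _
  refine ⟨hlen, ⟨?_, Q.image fun τ => gp h τ.1, Finset.card_image_le.trans hQ1, ?_, ?_⟩, ?_⟩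
  · intro ν hν
    obtain ⟨S, hS, rfl⟩ := List.mem_map.1 hν
    refine ⟨hpoly S, fun y _ hy => ?_, (hadm S hS).2.1.trans ?_, fun q => ?_⟩
    · exact (NoB.add (fun y hy => (hside S hS).1 y (mem_univ _) hy) hdW (hpM S)
        (dW_poly _ _ _)).eq2 (heq S hS).symm ((hpM S).add (dW_poly _ _ _))
        ((hpoly S).mono (subset_univ _)) y hy
    · refine le_trans ?_ hA1
      gcongr
    · have := (hpoly S).finite
      refine (cover_cb _ hr0 (hadm S hS).2.2 K q).trans (le_trans ?_ hA2)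
      rw [mul_assoc]
      gcongr
  · intro q hq
    obtain ⟨τ, hτ, rfl⟩ := Finset.mem_image.1 hq
    exact hΩR _ ((hT τ (hQ2 hτ)).1 (Metric.mem_closedBall_self i13))
  · intro ν hν ν' hν'
    obtain ⟨S, hS, rfl⟩ := List.mem_map.1 hν
    obtain ⟨S', hS', rfl⟩ := List.mem_map.1 hν'
    refine stW_local fun τ _ => ?_
    by_cases h1 : ∃ τ' ∈ Q, |τ.1.1 - τ'.1.1| < m ∧ |τ.1.2 - τ'.1.2| < m
    · obtain ⟨τ', h2, h3, h4⟩ := h1
      refine Or.inr (((hhull m τ τ' h3 h4).trans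
        (Metric.closedBall_subset_closedBall (ε₂ := 13 * r) i14)).trans ?_)
      exact subset_biUnion_of_mem (u := fun q => cb q (13 * r))
        (Finset.mem_coe.2 (Finset.mem_image_of_mem (fun τ : Tri => gp h τ.1) h2))
    · exact Or.inl (hQ3 S hS S' hS' τ fun τ' h2 h3 => h1 ⟨τ', h2, h3⟩)
  · intro ν hν
    obtain ⟨S, hS, rfl⟩ := List.mem_map.1 hν
    obtain ⟨E', hE', hE''⟩ := (hside S hS).2
    have h0 : 0 < s.1 := by
      rw [← hlen, List.length_map]; exact List.length_pos_of_mem hS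
    have hs2 : Side {z | 0 < ρ z} (stW w 𝒯 (F ∘ gp h) S + μ) (symmDiff E' A₁) :=
      ((Eq2.of_eq (add_assoc _ _ _).symm).trans ((heq S hS).symm.add (Eq2.refl μ))).side
        (((hpoly S).mono (subset_univ _)).add hμ) (hE'.add hA₁)
    refine ⟨_, hs2, fun x => ?_⟩
    obtain ⟨x₀, hx₀⟩ := hEs s h0
    have h1 := pA {z | 2 * β₁ < ρ z} (symmDiff (E s) A₁) E' 𝒯 ψ h z a _ _ (F ∘ gp h) _ S hh
      i15 i16 hz1 ha1 (hbad s hs h0) (hunc s hs h0) hae (hadm S hS).1 hE''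
      (by
        filter_upwards [hA₀', measure_eq_zero_iff_ae_notMem.1 hA₁'] with y h2 h3 hy τ _ h4
        rw [h4]
        exact ds_4 hy (h2 hy) h3)
    have h2 : edist (cyc _ _ hs2.1) (s.2 x₀) ≤ ENNReal.ofReal (4 * d) := by
      rw [hx₀, edist_cyc]
      refine (min_le_left _ _).trans ((measure_mono (ds_5 _ _ _ _ _)).trans
        ((measure_union_le _ _).trans ((add_le_add hstrip h1).trans ?_)))
      rw [← ENNReal.ofReal_add hd0.le (add_nonneg i15 i16)]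
      exact ENNReal.ofReal_le_ofReal i17
    have h3 := ((h𝒮 s hs x₀).2 x).trans_le (min_le_right _ _)
    refine (edist_triangle _ (s.2 x₀) _).trans_lt
      ((ENNReal.add_lt_add_of_le_of_lt (ne_top_of_le_ne_top ENNReal.ofReal_ne_top h2) h2 h3).trans_le
        (le_trans ?_ hd1))
    rw [← ENNReal.ofReal_add i18 hd0.le]
    exact ENNReal.ofReal_le_ofReal i19

end Pool.Agent.MP_20201c_gt.H42
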