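import Pool.Agent.MP_20201c_gt.H42.RRed
import Pool.Agent.MP_20201c_gt.H42.RConv
import Pool.Agent.MP_20201c_gt.H42.RDense
import Pool.Agent.MP_20201c_gt.H42.RTri
import Pool.Agent.MP_20201c_gt.H42.RApx
import Pool.Agent.MP_20201c_gt.H42.RGlue
import Pool.Agent.MP_20201c_gt.H42.RFill
import Pool.Agent.MP_20201c_gt.H42.RConn
import Pool.Agent.MP_20201c_gt.H42.RPush
import Pool.Agent.MP_20201c_gt.H42.RExt
import Pool.Agent.MP_20201c_gt.H42.RStar
import Pool.Agent.MP_20201c_gt.H42.RInS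
import Pool.Agent.MP_20201c_gt.H42.RBd
import Pool.Agent.MP_20201c_gt.H42.RRes
import Pool.Agent.MP_20201c_gt.H42.RVan
import Pool.Agent.MP_20201c_gt.H42.RLsc
import Pool.Agent.MP_20201c_gt.H42.RW
import Pool.Agent.MP_20201c_gt.H42.RLscW
import Pool.Agent.MP_20201c_gt.H42.RSeq
import Pool.Agent.MP_20201c_gt.H42.REx
import Pool.Agent.MP_20201c_gt.H42.RSigns
import Pool.Agent.MP_20201c_gt.H42.RD
import Pool.Agent.MP_20201c_gt.H42.RTVst
import Pool.Agent.MP_20201c_gt.H42.RTDI
import Pool.Agent.MP_20201c_gt.H42.RTMol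
import Pool.Agent.MP_20201c_gt.H42.RTArea
import Pool.Agent.MP_20201c_gt.H42.RTDisc
import Pool.Agent.MP_20201c_gt.H42.TDiscS

/-! All the steps, without hypotheses. -/

namespace Pool.Agent.MP_20201c_gt.H42

theorem aConv : SConv := sConv sRed
theorem aApx : SApx := sApx sTri
theorem aGlue : SGlue := sGlue sRed sLe
theorem aExt : SExt := sExt aApx (sCM sRed aConv) sPush sConn
theorem aLoc : SLoc := sLoc sStar
theorem aBd : SBd := sBd sDense
theorem aBd2 : SBd2 := sBd2 sDense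
theorem aRes : SRes := sRes sLe
theorem aRes2 : SRes2 := sRes2 sLe
theorem aVan : SVan := sVan aApx aConv
theorem aLsc : SLsc := sLsc (sCore sRed)
theorem aLscW : SLscW := sLscW (sCore sRed) sW
theorem aNear : SNear := sNear sRed sFill
theorem aSeq : SSeq := sSeq aGlue aNear sNrm aExt
theorem aEx : SEx := sEx aSeq aGlue sNrm
theorem aSm : SSm := sSm aSeq aGlue sNrm aNear aExt
theorem aDisc : PDisc := pDisc (pDiscS pVst (pDI pMix) pMol pBad pUnc pArea pCpt
  (pChart sStar sInS) sSigns (sD aLoc) aExt)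

end Pool.Agent.MP_20201c_gt.H42
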