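import Pool.Agent.MP_20201c_gt.H27.Dom

/-!
Flat chains mod `2` in the plane (Whitney, Fleming), relative flat cycles of a domain, sweepouts
and widths.
-/

open MeasureTheory Set UniformSpace
open scoped ENNReal

namespace Pool.Agent.MP_20201c_gt.H42

open Pool.Agent.MP_20201c_gt.H91

/-- Polyhedral `k`-chains mod `2`: formal sums of simplices, given by their vertices. -/
def PC (k : ℕ) : Type := (Fin (k + 1) → ℂ) →₀ ZMod 2

noncomputable instance instPC (k : ℕ) : AddCommGroup (PC k) := Finsupp.instAddCommGroup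

variable {k : ℕ}

open Classical in
/-- The multiplicity mod `2` of a chain at a point. -/
noncomputable def mult (z : ℂ) : PC k →+ ZMod 2 :=
  Finsupp.liftAddHom fun σ => if z ∈ convexHull ℝ (range σ) then AddMonoidHom.id _ else 0

/-- The set of points of odd multiplicity. -/
def car (P : PC k) : Set ℂ := {z | mult z P ≠ 0}

/-- The mass in `U`: the `k`-dimensional measure of the part of the chain in `U`. -/
noncomputable def pm (P : PC k) (U : Set ℂ) : ℝ≥0∞ := μHE[k] (car P ∩ U)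

/-- The boundary of a polyhedral chain. -/
noncomputable def pbd : PC (k + 1) →+ PC k :=
  Finsupp.liftAddHom fun σ => ∑ i : Fin (k + 2), Finsupp.singleAddHom (σ ∘ i.succAbove)

/-- The flat norm. -/
noncomputable def fl (P : PC k) : ℝ≥0∞ :=
  ⨅ Q : PC (k + 1), pm (P - pbd Q) univ + pm Q univ

theorem pm_add (P Q : PC k) (U : Set ℂ) : pm (P + Q) U ≤ pm P U + pm Q U := by
  refine le_trans (measure_mono fun z hz => ?_) (measure_union_le _ _)
  by_contra h
  simp only [car, mem_union, mem_inter_iff, mem_ofPred_eq, hz.2, and_true, not_or, not_not] at h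
  exact hz.1 (by rw [map_add, h.1, h.2, add_zero])

theorem pm_neg (P : PC k) (U : Set ℂ) : pm (-P) U = pm P U := by simp [pm, car]

theorem pm_zero (U : Set ℂ) : pm (0 : PC k) U = 0 := by simp [pm, car]

theorem hull_ne_top (σ : Fin (k + 1) → ℂ) : μHE[k] (convexHull ℝ (range σ)) ≠ ∞ := by
  let L : (Fin k → ℝ) →L[ℝ] ℂ := ∑ i, (ContinuousLinearMap.proj i).smulRight (σ i.succ - σ 0)
  have h1 : convexHull ℝ (range σ) ⊆ (fun x => σ 0 + L x) '' Icc 0 1 := by
    intro z hz
    obtain ⟨w, h0, h1, rfl⟩ : ∃ w : Fin (k + 1) → ℝ, (∀ i, 0 ≤ w i) ∧ ∑ i, w i = 1 ∧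
        ∑ i, w i • σ i = z := by
      rw [convexHull_range_eq_exists_affineCombination] at hz
      obtain ⟨s, w, h0, h1, rfl⟩ := hz
      refine ⟨indicator s w, fun i => indicator_nonneg h0 i, ?_, ?_⟩
      · rw [Finset.sum_indicator_subset _ (Finset.subset_univ s), h1]
      · rw [Finset.affineCombination_eq_linear_combination _ _ _ h1,
          Finset.sum_indicator_subset_of_eq_zero w (fun i c => c • σ i) (Finset.subset_univ s)
            fun i => zero_smul _ _]
    refine ⟨fun i => w i.succ, ⟨fun i => h0 _, fun i => ?_⟩, ?_⟩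
    · exact (Finset.single_le_sum (fun j _ => h0 j) (Finset.mem_univ i.succ)).trans h1.le
    · rw [Fin.sum_univ_succ] at h1 ⊢
      simp only [L, sum_apply, ContinuousLinearMap.smulRight_apply,
        ContinuousLinearMap.proj_apply, smul_sub, Finset.sum_sub_distrib, ← Finset.sum_smul]
      rw [← eq_sub_iff_add_eq'] at h1
      rw [h1, sub_smul, one_smul]
      abel
  have h2 : LipschitzWith ‖L‖₊ fun x => σ 0 + L x :=
    LipschitzWith.of_dist_le_mul fun x y => by simpa using L.lipschitz.dist_le_mul x y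
  have h3 := h2.hausdorffMeasure_image_le (d := k) (by positivity) (Icc 0 1)
  have h4 : (μH[k] : Measure (Fin k → ℝ)) = volume := by
    simpa using (hausdorffMeasure_pi_real (ι := Fin k))
  rw [h4] at h3
  refine ENNReal.mul_ne_top ENNReal.coe_ne_top (ne_top_of_le_ne_top ?_ ((measure_mono h1).trans h3))
  exact ENNReal.mul_ne_top (ENNReal.rpow_ne_top_of_nonneg (by positivity) ENNReal.coe_ne_top)
    isCompact_Icc.measure_lt_top.ne

theorem pm_ne_top (P : PC k) (U : Set ℂ) : pm P U ≠ ∞ := by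
  induction P using Finsupp.induction_linear with
  | zero => exact (pm_zero U).trans_ne ENNReal.zero_ne_top
  | add P Q h h' => exact ne_top_of_le_ne_top (ENNReal.add_ne_top.2 ⟨h, h'⟩) (pm_add P Q U)
  | single σ c =>
    refine ne_top_of_le_ne_top (hull_ne_top σ) (measure_mono fun z hz => ?_)
    by_contra h
    exact hz.1 ((Finsupp.liftAddHom_apply_single _ σ c).trans (by rw [if_neg h]; rfl))

theorem fl_le (P : PC k) : fl P ≤ pm P univ :=
  iInf_le_of_le 0 (by rw [map_zero, sub_zero, pm_zero, add_zero])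

theorem fl_ne_top (P : PC k) : fl P ≠ ∞ := ne_top_of_le_ne_top (pm_ne_top P _) (fl_le P)

theorem fl_add (P P' : PC k) : fl (P + P') ≤ fl P + fl P' := by
  refine ENNReal.le_iInf_add_iInf fun Q Q' => iInf_le_of_le (Q + Q') ?_
  rw [map_add, add_sub_add_comm, add_add_add_comm]
  exact add_le_add (pm_add _ _ _) (pm_add _ _ _)

theorem fl_neg (P : PC k) : fl (-P) ≤ fl P := by
  refine le_iInf fun Q => iInf_le_of_le (-Q) (le_of_eq ?_)
  rw [map_neg, pm_neg, neg_sub_neg, ← neg_sub, pm_neg]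

noncomputable instance instNormPC (k : ℕ) : SeminormedAddCommGroup (PC k) :=
  AddGroupSeminorm.toSeminormedAddCommGroup
    { toFun := fun P => (fl P).toReal
      map_zero' := by rw [le_zero_iff.1 ((fl_le 0).trans (pm_zero _).le), ENNReal.toReal_zero]
      add_le' := fun P P' => ENNReal.toReal_le_add (fl_add P P') (fl_ne_top P) (fl_ne_top P')
      neg' := fun P => congrArg _ (le_antisymm (fl_neg P) (by simpa using fl_neg (-P))) }

/-- Flat `k`-chains mod `2`: the completion of the polyhedral chains in the flat norm. -/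
abbrev FC (k : ℕ) : Type := Completion (PC k)

theorem pbd_pbd (Q : PC 2) : pbd (pbd Q) = 0 := by
  have h : ∀ (n : ℕ) (σ : Fin (n + 2) → ℂ) (c : ZMod 2), pbd (k := n) (Finsupp.single σ c) =
      ∑ i : Fin (n + 2), Finsupp.single (σ ∘ i.succAbove) c := fun n σ c =>
    (Finsupp.liftAddHom_apply_single _ σ c).trans (AddMonoidHom.finsetSum_apply _ _ _)
  refine DFunLike.congr_fun (?_ : (pbd (k := 0)).comp (pbd (k := 1)) = 0) Q
  refine Finsupp.addHom_ext fun σ c =>
    (congrArg (pbd (k := 0)) (h 1 σ c)).trans ((map_sum (pbd (k := 0)) _ _).trans ?_)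
  have e : ∀ (i : Fin 3) (j : Fin 2), (σ ∘ i.succAbove) ∘ j.succAbove =
      fun _ : Fin 1 => σ (i.succAbove (j.succAbove 0)) := fun i j =>
    funext fun x => by rw [Subsingleton.elim x 0]; rfl
  refine (Finset.sum_congr rfl fun i _ => h 0 _ c).trans (Finsupp.ext fun a => ?_)
  simp only [e, Fin.sum_univ_succ, Fin.sum_univ_zero, add_zero]
  obtain ⟨x, hx⟩ : ∃ x : Fin 3 → ZMod 2,
      ∀ i, (Finsupp.single (fun _ : Fin 1 => σ i) c) a = x i := ⟨_, fun _ => rfl⟩
  refine Eq.trans (b := x 2 + x 1 + (x 2 + x 0 + (x 1 + x 0))) (by simp only [← hx]; rfl) ?_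
  exact Eq.trans (b := 2 * (x 0 + x 1 + x 2)) (by ring) (mul_eq_zero_of_left rfl _)

theorem fl_pbd (P : PC 1) : fl (pbd P) ≤ fl P := by
  refine le_iInf fun Q => iInf_le_of_le (P - pbd Q) ?_
  rw [map_sub, pbd_pbd, sub_zero, sub_self, pm_zero, zero_add]
  exact le_self_add

/-- The boundary of a flat `1`-chain. -/
noncomputable def fbd : FC 1 →+ FC 0 :=
  AddMonoidHom.completion pbd (AddMonoidHomClass.continuous_of_bound pbd 1 fun P => by
    rw [one_mul]
    exact ENNReal.toReal_mono (fl_ne_top P) (fl_pbd P))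

/-- The mass of a flat chain in an open set `U`: the supremum over compact `K ⊆ U` of the lower
limit of the masses in `K` of polyhedral chains tending to `T`. -/
noncomputable def lm (T : FC k) (U : Set ℂ) : ℝ≥0∞ :=
  ⨆ (K : Set ℂ) (_ : IsCompact K) (_ : K ⊆ U) (ε : ℝ) (_ : 0 < ε),
    ⨅ (P : PC k) (_ : dist (P : FC k) T < ε), pm P K

theorem le_lm (T : FC k) {K U : Set ℂ} (h : IsCompact K) (h' : K ⊆ U) {ε : ℝ} (hε : 0 < ε) :
    ⨅ (P : PC k) (_ : dist (P : FC k) T < ε), pm P K ≤ lm T U :=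
  le_iSup₂_of_le K h (le_iSup₂_of_le h' ε (le_iSup_of_le hε le_rfl))

theorem lm_add (T T' : FC k) (U : Set ℂ) : lm (T + T') U ≤ lm T U + lm T' U := by
  refine iSup₂_le fun K hK => iSup₂_le fun hU ε => iSup_le fun hε => le_trans ?_
    (add_le_add (le_lm T hK hU (half_pos hε)) (le_lm T' hK hU (half_pos hε)))
  refine ENNReal.le_iInf₂_add_iInf₂ fun P hP P' hP' => iInf₂_le_of_le (P + P') ?_ (pm_add _ _ _)
  rw [Completion.coe_add]
  exact (dist_add_add_le _ _ _ _).trans_lt (by linarith)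

theorem lm_neg (T : FC k) (U : Set ℂ) : lm (-T) U ≤ lm T U := by
  refine iSup₂_le fun K hK => iSup₂_le fun hU ε => iSup_le fun hε => le_trans ?_ (le_lm T hK hU hε)
  refine le_iInf₂ fun P hP => iInf₂_le_of_le (-P) ?_ (pm_neg _ _).le
  rwa [Completion.coe_neg, dist_neg_neg]

theorem lm_zero (U : Set ℂ) : lm (0 : FC k) U = 0 := by
  refine le_zero_iff.1 (iSup₂_le fun K _ => iSup₂_le fun _ ε => iSup_le fun hε => ?_)
  exact iInf₂_le_of_le 0 (by rwa [Completion.coe_zero, dist_self]) (pm_zero _).le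

theorem lm_mono (T : FC k) {U V : Set ℂ} (h : U ⊆ V) : lm T U ≤ lm T V :=
  iSup₂_le fun _ hK => iSup₂_le fun hU _ => iSup_le fun hε => le_lm T hK (hU.trans h) hε

/-- The support of a flat chain. -/
def spt (T : FC k) : Set ℂ := {x | ∀ r, 0 < r → lm T (Metric.ball x r) ≠ 0}

/-- The flat chains supported in `A`. -/
def Supp (k : ℕ) (A : Set ℂ) : AddSubgroup (FC k) where
  carrier := {T | spt T ⊆ A}
  zero_mem' _ hx := absurd (lm_zero _) (hx 1 one_pos)
  neg_mem' h _ hx := h fun r hr h0 => hx r hr (le_zero_iff.1 (h0 ▸ lm_neg _ _))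
  add_mem' {T T'} h h' x hx := by
    by_contra hA
    obtain ⟨r, h1⟩ := not_forall.1 fun h0 => hA (h h0)
    obtain ⟨r', h2⟩ := not_forall.1 fun h0 => hA (h' h0)
    push Not at h1 h2
    refine hx _ (lt_min h1.1 h2.1) (le_zero_iff.1 ((lm_add _ _ _).trans ?_))
    rw [← add_zero 0]
    exact add_le_add (h1.2 ▸ lm_mono _ (Metric.ball_subset_ball (min_le_left _ _)))
      (h2.2 ▸ lm_mono _ (Metric.ball_subset_ball (min_le_right _ _)))

/-- Flat `1`-chains in the closure of `Ω` whose boundary lies in the boundary of `Ω`. -/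
noncomputable def Zc (Ω : Set ℂ) : AddSubgroup (FC 1) :=
  Supp 1 (closure Ω) ⊓ (Supp 0 (frontier Ω)).comap fbd

/-- Relative flat `1`-cycles mod `2`. -/
def RelCyc (Ω : Set ℂ) : Type := Zc Ω ⧸ (Supp 1 (frontier Ω)).addSubgroupOf (Zc Ω)

/-- The quotient of the flat norm. -/
noncomputable instance instRel (Ω : Set ℂ) : SeminormedAddCommGroup (RelCyc Ω) :=
  QuotientAddGroup.instSeminormedAddCommGroup _

/-- The class of a chain. -/
noncomputable def cls {Ω : Set ℂ} (T : Zc Ω) : RelCyc Ω := QuotientAddGroup.mk T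

/-- The mass in `U` of the part in `Ω` of a relative cycle. -/
noncomputable def mass {Ω : Set ℂ} (z : RelCyc Ω) (U : Set ℂ) : ℝ≥0∞ :=
  ⨅ (T : Zc Ω) (_ : cls T = z), lm (T : FC 1) (U ∩ Ω)

/-- `p`-sweepouts in a set `C` of relative cycles. -/
structure Sweep {Ω : Set ℂ} (C : Set (RelCyc Ω)) (p : ℕ) where
  N : ℕ
  K : Geometry.SimplicialComplex ℝ (EuclideanSpace ℝ (Fin N))
  fin : K.faces.Finite
  Φ : C(K.space, C)
  noConc : ∀ ε : ℝ≥0∞, 0 < ε → ∃ r : ℝ, 0 < r ∧ ∀ x q, mass (Φ x).1 (Metric.ball q r) ≤ ε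
  detect : ∃ lam : C(Sm 2, C) → ZMod 2, IsCocycle lam ∧
    ¬ IsCob p (fun σ : C(Sm (p + 1), K.space) => cupPow lam p (Φ.comp σ))

/-- The `p`-width. -/
noncomputable def wid {Ω : Set ℂ} (C : Set (RelCyc Ω)) (p : ℕ) : ℝ≥0∞ :=
  ⨅ S : Sweep C p, ⨆ x, mass (S.Φ x).1 univ

end Pool.Agent.MP_20201c_gt.H42
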