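import Pool.Agent.MP_20201c_gt.H42.All

/-! Relative flat cycles described by a polygon and a set. -/

open MeasureTheory Set Filter Topology Metric
open scoped ENNReal

namespace Pool.Agent.MP_20201c_gt.H42

open Pool.Agent.MP_20201c_gt.H91

theorem cls_add {Ω : Set ℂ} (T T' : Zc Ω) : cls (T + T') = cls T + cls T' := rfl

theorem cls_surj {Ω : Set ℂ} (z : RelCyc Ω) : ∃ T, cls T = z := QuotientAddGroup.mk_surjective z

theorem norm_cls_le {Ω : Set ℂ} (T : Zc Ω) : ‖cls T‖ ≤ ‖T‖ := QuotientAddGroup.norm_mk_le_norm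

theorem exists_cls {Ω : Set ℂ} {z : RelCyc Ω} {r : ℝ} (h : ‖z‖ < r) : ∃ T, cls T = z ∧ ‖T‖ < r :=
  QuotientAddGroup.norm_lt_iff.1 h

instance instNonemptyRel (Ω : Set ℂ) : Nonempty (RelCyc Ω) := ⟨0⟩

/-- The class `z` is `μ` plus the boundary of `S`. -/
def RelC {Ω : Set ℂ} (z : RelCyc Ω) (μ : Ms) (S : Set ℂ) : Prop :=
  ∃ T : Zc Ω, cls T = z ∧ Rel Ω (T : FC 1) μ S

/-- Translation by `μ` of the boundaries. -/
noncomputable def jm {Ω : Set ℂ} (μ : Ms) (y : Cyc Ω) : RelCyc Ω :=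
  Classical.epsilon fun z => ∃ S hS, y = cyc Ω S hS ∧ RelC z μ S

/-- The class of a polygon. -/
noncomputable def Rr (Ω : Set ℂ) (ν : Ms) : RelCyc Ω := jm ν (cyc Ω ∅ MeasurableSet.empty)

section Gen

variable {Ω S S' : Set ℂ} {μ μ' ν : Ms} {T T' : FC 1} {z z' : RelCyc Ω}

theorem sd_empty (S : Set ℂ) : symmDiff S ∅ = S := symmDiff_bot S

theorem empty_sd (S : Set ℂ) : symmDiff ∅ S = S := bot_symmDiff S

theorem sd_self (S : Set ℂ) : symmDiff S S = ∅ := symmDiff_self S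

theorem fdist_zero {E F : Set ℂ} (h : fdist Ω E F = 0) :
    volume (symmDiff E F ∩ Ω) = 0 ∨ volume (symmDiff Eᶜ F ∩ Ω) = 0 := by
  rcases min_eq_iff.1 h with h | h
  · exact Or.inl h.1
  · refine Or.inr ?_
    rw [symmDiff_comm, SideUA.symmDiff_compl', symmDiff_comm, ← SideUA.symmDiff_compl']
    exact h.1

theorem fdist_of {E F : Set ℂ}
    (h : volume (symmDiff E F ∩ Ω) = 0 ∨ volume ((symmDiff E F)ᶜ ∩ Ω) = 0) : fdist Ω E F = 0 := by
  rw [← le_zero_iff, fdist, SideUA.symmDiff_compl']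
  rcases h with h | h
  · exact (min_le_left _ _).trans h.le
  · exact (min_le_right _ _).trans h.le

theorem Rel.fd (h : Rel Ω T μ S) (ho : IsOpen Ω) (hS : MeasurableSet S') (he : fdist Ω S S' = 0) :
    Rel Ω T μ S' := by
  rcases fdist_zero he with e | e
  · exact h.congr ho hS e
  · exact (h.compl ho).congr ho hS e

theorem side_fd {U E F : Set ℂ} (h : Side U μ E) (hF : MeasurableSet F) (he : fdist U E F = 0) :
    Side U μ F := by
  rcases fdist_zero he with e | e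
  · exact side_congr h hF e
  · exact side_congr h.compl hF e

theorem side_of_rel (ho : IsOpen Ω) (h : Rel Ω T ν S) (hd : Disjoint (spt T) Ω) (hn : NoB Ω ν) :
    Side Ω ν S := by
  refine aLoc Ω S ν ho h.1 h.2.1 hn fun x hx => ?_
  obtain ⟨r₁, h1, h2⟩ := Metric.isOpen_iff.1 ho x hx
  obtain ⟨r₂, h3, h4⟩ := not_mem_spt.1 (Set.disjoint_right.1 hd hx)
  have h5 : 0 < min r₁ r₂ / 2 := half_pos (lt_min h1 h3)
  have h6 : min r₁ r₂ / 2 < r₁ := by linarith [min_le_left r₁ r₂]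
  have h7 : min r₁ r₂ / 2 ≤ r₂ := by linarith [min_le_right r₁ r₂]
  obtain ⟨A, hA⟩ := sStar (ball x r₁) (ball x (min r₁ r₂ / 2)) (ball x r₁) ν isOpen_ball
    isBounded_ball (closure_ball_subset_closedBall.trans (closedBall_subset_ball h6)) isOpen_ball
    ⟨x, mem_ball_self h1⟩ (fun o ho y hy => (convex_ball x r₁).segment_subset ho hy) h.1
    (hn.mono h2)
  have h8 := (aLsc Ω _ S A T ν h isOpen_ball ((ball_subset_ball h6.le).trans h2) hA).trans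
    ((lm_mono T (ball_subset_ball h7)).trans h4.le)
  refine ⟨_, h5, side_fd hA h.2.1 ?_⟩
  rw [fdist_comm]
  refine fdist_of (sCst _ _ isOpen_ball (convex_ball _ _).isPreconnected (h.2.1.symmDiff hA.1)
    fun y hy => ?_)
  obtain ⟨r, h9, h10⟩ := Metric.isOpen_iff.1 isOpen_ball y hy
  exact ⟨r, h9, le_zero_iff.1 ((per_mono _ h10).trans h8)⟩

theorem spt_zero : spt (0 : FC 1) = ∅ :=
  eq_empty_of_forall_notMem fun _ hx => hx 1 one_pos (lm_zero _)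

theorem Rel.side (ho : IsOpen Ω) (h : Rel Ω T μ S) (h' : Rel Ω T μ' S') (hn : NoB Ω μ)
    (hn' : NoB Ω μ') : Side Ω (μ + μ') (symmDiff S S') := by
  have h1 := h.add h'
  rw [fc_add_self] at h1
  exact side_of_rel ho h1 (by rw [spt_zero]; exact empty_disjoint _) (hn.add hn' h.1 h'.1)

theorem Rel.uniq (ho : IsOpen Ω) (hc : IsPreconnected Ω) (h : Rel Ω T μ S) (h' : Rel Ω T μ S')
    (hn : NoB Ω μ) : fdist Ω S S' = 0 := by
  have h1 := side_uniq ho hc (h.side ho h' hn hn) (side_double h.1)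
  refine fdist_of ?_
  rcases fdist_zero h1 with e | e <;> rw [sd_empty] at e
  · exact Or.inl e
  · exact Or.inr e

theorem disj_bd (ho : IsOpen Ω) (T : Zc Ω) : Disjoint (spt (fbd (T : FC 1))) Ω :=
  Set.disjoint_left.2 fun _ hx h => ((mem_Zc.1 T.2).2 hx).2 (by rwa [ho.interior_eq])

theorem RelC.uniq (ho : IsOpen Ω) (h : RelC z μ S) (h' : RelC z' μ S) : z = z' := by
  obtain ⟨T, rfl, hT⟩ := h
  obtain ⟨T', rfl, hT'⟩ := h'
  have h1 := (hT.add hT').eq2 (Eq2.double hT.1) (Poly.zero _)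
  rw [sd_self] at h1
  have h2 := aVan Ω _ ho h1
  refine mk_eq_iff.2 fun x hx => ⟨(mem_Zc.1 (T + T').2).1 hx, ?_⟩
  rw [ho.interior_eq]
  exact Set.disjoint_left.1 h2 hx

theorem exists_bd (ho : IsOpen Ω) (hb : Bornology.IsBounded Ω) (hS : MeasurableSet S) :
    ∃ T : Zc Ω, Rel Ω (T : FC 1) 0 S ∧ ENNReal.ofReal ‖T‖ ≤ volume (S ∩ Ω) := by
  obtain ⟨T, hT⟩ := aBd (S ∩ Ω) (hS.inter ho.measurableSet)
    ((measure_mono inter_subset_right).trans_lt hb.measure_lt_top).ne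
  obtain ⟨h1, h2, h3⟩ := aBd2 Ω S T ho hb hS hT
  exact ⟨⟨T, h1⟩, h2, h3⟩

theorem exists_res (ho : IsOpen Ω) (hμ : Poly univ μ) (hn : NoB Ω μ) :
    ∃ T : Zc Ω, Rel Ω (T : FC 1) μ ∅ ∧ ∀ U, MeasurableSet U → lm (T : FC 1) U ≤ μ U := by
  obtain ⟨T, hT⟩ := aRes Ω μ ho hμ
  obtain ⟨h1, h2, h3⟩ := aRes2 Ω μ T ho hμ hn hT
  exact ⟨⟨T, h1⟩, h2, h3⟩

theorem jm_spec (ho : IsOpen Ω) (hb : Bornology.IsBounded Ω) (hμ : Poly univ μ) (hn : NoB Ω μ)
    (hS : MeasurableSet S) : RelC (jm μ (cyc Ω S hS)) μ S := by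
  obtain ⟨T, hT, -⟩ := exists_res ho hμ hn
  obtain ⟨T', hT', -⟩ := exists_bd ho hb hS
  have h1 := hT.add hT'
  rw [add_zero, empty_sd] at h1
  obtain ⟨S', hS', e, T₁, h2, h3⟩ := Classical.epsilon_spec
    (p := fun z : RelCyc Ω => ∃ S' hS', cyc Ω S hS = cyc Ω S' hS' ∧ RelC z μ S')
    ⟨_, S, hS, rfl, T + T', rfl, h1⟩
  refine ⟨T₁, h2, h3.fd ho hS ?_⟩
  rw [← edist_cyc Ω hS' hS, e, edist_self]

theorem jm_eq (ho : IsOpen Ω) (hb : Bornology.IsBounded Ω) (hn : NoB Ω μ) (h : RelC z μ S)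
    (hS : MeasurableSet S) : jm μ (cyc Ω S hS) = z :=
  (jm_spec ho hb h.choose_spec.2.1 hn hS).uniq ho h

theorem jm_lip (ho : IsOpen Ω) (hb : Bornology.IsBounded Ω) (hμ : Poly univ μ) (hn : NoB Ω μ)
    (y y' : Cyc Ω) : edist (jm μ y) (jm μ y') ≤ edist y y' := by
  have key : ∀ S hS S' hS', edist (jm μ (cyc Ω S hS)) (jm μ (cyc Ω S' hS')) ≤
      volume (symmDiff S S' ∩ Ω) := by
    intro S hS S' hS'
    obtain ⟨T, e, hT⟩ := jm_spec ho hb hμ hn hS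
    obtain ⟨T', hT', h1⟩ := exists_bd ho hb (hS.symmDiff hS')
    have h2 := hT.add hT'
    rw [add_zero, symmDiff_symmDiff_cancel_left] at h2
    rw [jm_eq ho hb hn ⟨T + T', rfl, h2⟩ hS', ← e, cls_add, edist_dist,
      dist_self_add_right]
    exact (ENNReal.ofReal_le_ofReal (norm_cls_le _)).trans h1
  obtain ⟨S, hS, rfl⟩ := cyc_surj y
  obtain ⟨S', hS', rfl⟩ := cyc_surj y'
  rw [edist_cyc]
  refine le_min (key S hS S' hS') ?_
  have e : cyc Ω S' hS' = cyc Ω S'ᶜ hS'.compl := by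
    rw [← edist_eq_zero, edist_cyc]
    exact le_zero_iff.1 ((min_le_right _ _).trans (by simp))
  rw [e]
  exact key S hS _ _

theorem jm_cont (ho : IsOpen Ω) (hb : Bornology.IsBounded Ω) (hμ : Poly univ μ) (hn : NoB Ω μ) :
    Continuous (jm (Ω := Ω) μ) :=
  (LipschitzWith.of_edist_le (jm_lip ho hb hμ hn)).continuous

theorem RelC.chg (ho : IsOpen Ω) (h : RelC z μ S) {A : Set ℂ} (hp : Poly univ μ')
    (hn : NoB Ω (μ' + μ)) (hs : Side Ω (μ' + μ) A) : RelC z μ' (symmDiff S A) := by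
  obtain ⟨T, e, hT⟩ := h
  exact ⟨T, e, hT.chg ho hp hn hs⟩

theorem Rr_eq (ho : IsOpen Ω) (hb : Bornology.IsBounded Ω) (hμ : Poly univ μ) (hn : NoB Ω μ)
    (hν : Poly univ ν) (hn' : NoB Ω ν) {E : Set ℂ} (h : Side Ω (ν + μ) E) :
    Rr Ω ν = jm μ (cyc Ω E h.1) := by
  have h1 := (jm_spec ho hb hν hn' MeasurableSet.empty).chg ho hμ (hn.add hn' hμ hν)
    (add_comm ν μ ▸ h)
  rw [empty_sd] at h1
  exact (jm_eq ho hb hn h1 h.1).symm

theorem mass_Rr (ho : IsOpen Ω) (hb : Bornology.IsBounded Ω) (hν : Poly univ ν) (hn : NoB Ω ν)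
    {U : Set ℂ} (hU : MeasurableSet U) : mass (Rr Ω ν) U ≤ ν U := by
  obtain ⟨T, hT, h1⟩ := exists_res ho hν hn
  exact iInf₂_le_of_le T (jm_eq ho hb hn ⟨T, rfl, hT⟩ _).symm
    ((h1 _ (hU.inter ho.measurableSet)).trans (measure_mono inter_subset_left))

theorem cyc_conn (hb : Bornology.IsBounded Ω) : PreconnectedSpace (Cyc Ω) := by
  obtain ⟨R, hR⟩ := hb.exists_norm_le
  have h1 : ∀ w ∈ Ω, |w.im| ≤ R := fun w hw => (Complex.abs_im_le_norm w).trans (hR w hw)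
  have h2 : ∀ w ∈ Ω, |w.re| ≤ R := fun w hw => (Complex.abs_re_le_norm w).trans (hR w hw)
  refine ⟨isPreconnected_of_forall_pair fun x _ y _ => ?_⟩
  obtain ⟨E, rfl⟩ := SeparationQuotient.surjective_mk x
  obtain ⟨F, rfl⟩ := SeparationQuotient.surjective_mk y
  refine ⟨range fun c : ℝ => (SeparationQuotient.mk (zbMix E F c) : Cyc Ω), subset_univ _,
    ⟨R, zb_mk_eq _ _ ?_⟩, ⟨-R - 1, zb_mk_eq _ _ ?_⟩, isPreconnected_range ?_⟩
  · refine eq_empty_of_forall_notMem fun w hw => ?_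
    have h3 := (abs_le.1 (h2 w hw.2)).2
    have h4 := hw.1
    simp only [mem_symmDiff, zb_mem_mix, h3, not_lt.2 h3] at h4
    tauto
  · refine eq_empty_of_forall_notMem fun w hw => ?_
    have h3 : -R - 1 < w.re := by linarith [(abs_le.1 (h2 w hw.2)).1]
    have h4 := hw.1
    simp only [mem_symmDiff, zb_mem_mix, h3, not_le.2 h3] at h4
    tauto
  · refine (LipschitzWith.continuous (K := Real.toNNReal (2 * (2 * R))) fun c c' =>
      (zb_mix_le h1 E F F c c').trans (le_of_eq ?_))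
    rw [sd_self, empty_inter, measure_empty, zero_add, edist_dist, Real.dist_eq,
      ENNReal.ofReal_mul (p := 2) (q := |c - c'|) zero_le_two]
    change _ = ENNReal.ofReal (2 * (2 * R)) * _
    rw [ENNReal.ofReal_mul (p := 2) (q := 2 * R) zero_le_two]
    ring

end Gen

section Dom

variable {ρ : ℂ → ℝ} {gr : ℂ → ℂ} {L c₀ β R : ℝ} {μ μ' ν : Ms} {S S' : Set ℂ}

theorem good_open (hG : Good ρ gr L c₀ β R) (a : ℝ) : IsOpen {z | a < ρ z} :=
  isOpen_lt continuous_const hG.continuous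

theorem good_bdd (hG : Good ρ gr L c₀ β R) : Bornology.IsBounded {z | 0 < ρ z} := by
  refine (Metric.isBounded_closedBall (x := (0 : ℂ)) (r := R)).subset fun z hz => ?_
  have h1 : 0 < ρ z := hz
  have h2 := hG.ball z (by linarith [hG.hβ])
  rw [mem_closedBall_zero_iff]
  linarith

theorem lev_sub {a b : ℝ} (h : a ≤ b) : {z | b < ρ z} ⊆ {z | a < ρ z} := fun _ hz => h.trans_lt hz

theorem RelC.all (hG : Good ρ gr L c₀ β R) (hc : IsConnected {z | 0 < ρ z})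
    {z : RelCyc {z | 0 < ρ z}} (h : RelC z μ S) (T : Zc {z | 0 < ρ z})
    (hT : cls T = z) : Rel {z | 0 < ρ z} (T : FC 1) μ S := by
  have ho := good_open hG 0
  obtain ⟨T₀, e, h0⟩ := h
  have h1 := mk_eq_iff.1 (e.trans hT.symm)
  obtain ⟨β₀, hβ₀, hex⟩ := aEx ρ gr L c₀ β R hG hc
  obtain ⟨μ', S', h2, h3⟩ := hex _ (disj_bd ho (T₀ + T))
  have h4 := h2.mono (lev_sub (by linarith : -β₀ ≤ 0))
  have h5 := side_of_rel ho h3 (Set.disjoint_left.2 fun x hx h =>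
    (h1 hx).2 (by rwa [ho.interior_eq])) h4
  have h6 := h0.add (h3.chg ho (Poly.zero _) (by rwa [zero_add]) (by rwa [zero_add]))
  rwa [sd_self, sd_empty, add_zero, AddSubgroup.coe_add, ← add_assoc, fc_add_self,
    zero_add] at h6

theorem RelC.twb (hG : Good ρ gr L c₀ β R) (hc : IsConnected {z | 0 < ρ z})
    {z : RelCyc {z | 0 < ρ z}} (h : RelC z μ S) (U : Set ℂ) {c : ℝ≥0∞} (hm : mass z U ≤ c) :
    TwB μ S (U ∩ {z | 0 < ρ z}) c := fun ι s V A g w h1 h2 =>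
  le_trans (b := mass z U) (le_iInf₂ fun T hT =>
    aLscW _ _ S T μ (h.all hG hc T hT) inter_subset_right ι s V A g w h1 h2) hm

theorem jm_inj (hG : Good ρ gr L c₀ β R) (hc : IsConnected {z | 0 < ρ z}) (hμ : Poly univ μ)
    (hn : NoB {z | 0 < ρ z} μ) : Function.Injective (jm (Ω := {z | 0 < ρ z}) μ) := by
  intro y y' h
  obtain ⟨S, hS, rfl⟩ := cyc_surj y
  obtain ⟨S', hS', rfl⟩ := cyc_surj y'
  obtain ⟨T, e, hT⟩ := jm_spec (good_open hG 0) (good_bdd hG) hμ hn hS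
  rw [← edist_eq_zero, edist_cyc]
  exact hT.uniq (good_open hG 0) hc.isPreconnected
    ((jm_spec (good_open hG 0) (good_bdd hG) hμ hn hS').all hG hc T (e.trans h)) hn

theorem jm_small (hG : Good ρ gr L c₀ β R) (hc : IsConnected {z | 0 < ρ z}) (hμ : Poly univ μ)
    (hn : NoB {z | 0 < ρ z} μ) {ε : ℝ} (hε : 0 < ε) : ∃ δ : ℝ, 0 < δ ∧
    ∀ (y : Cyc {z | 0 < ρ z}) (z : RelCyc {z | 0 < ρ z}), dist z (jm μ y) < δ →
      ∃ y', jm μ y' = z ∧ edist y' y ≤ ENNReal.ofReal ε := by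
  have ho := good_open hG 0
  obtain ⟨δ, hδ, h⟩ := aSm ρ gr L c₀ β R hG hc ε hε
  refine ⟨δ, hδ, fun y z hz => ?_⟩
  obtain ⟨S, hS, rfl⟩ := cyc_surj y
  obtain ⟨T, e, hT⟩ := jm_spec ho (good_bdd hG) hμ hn hS
  obtain ⟨N, e', hN⟩ := exists_cls ((dist_eq_norm z _).symm.trans_lt hz)
  obtain ⟨S₁, h1, h2⟩ := h N (disj_bd ho N) hN
  have h3 := hT.add h1
  rw [add_zero] at h3
  refine ⟨cyc _ _ h3.2.1, jm_eq ho (good_bdd hG) hn ⟨T + N, ?_, h3⟩ _, ?_⟩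
  · rw [cls_add, e, e', add_sub_cancel]
  · rw [edist_comm, edist_cyc]
    refine (min_le_left _ _).trans ?_
    rwa [symmDiff_symmDiff_cancel_left]

theorem jm_cover (hG : Good ρ gr L c₀ β R) (hc : IsConnected {z | 0 < ρ z})
    (z : RelCyc {z | 0 < ρ z}) : ∃ (μ : Ms) (β₀ : ℝ), 0 < β₀ ∧ Poly univ μ ∧
      NoB {z | -β₀ < ρ z} μ ∧ z ∈ range (jm μ) := by
  obtain ⟨β₀, hβ₀, hex⟩ := aEx ρ gr L c₀ β R hG hc
  obtain ⟨T, rfl⟩ := cls_surj z
  obtain ⟨μ, S, h2, h3⟩ := hex _ (disj_bd (good_open hG 0) T)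
  exact ⟨μ, β₀, hβ₀, h3.1, h2, _, jm_eq (good_open hG 0) (good_bdd hG)
    (h2.mono (lev_sub (by linarith : -β₀ ≤ 0))) ⟨T, rfl, h3⟩ h3.2.1⟩

theorem range_open (hG : Good ρ gr L c₀ β R) (hc : IsConnected {z | 0 < ρ z}) (hμ : Poly univ μ)
    (hn : NoB {z | 0 < ρ z} μ) : IsOpen (range (jm (Ω := {z | 0 < ρ z}) μ)) := by
  obtain ⟨δ, hδ, h⟩ := jm_small hG hc hμ hn one_pos
  refine Metric.isOpen_iff.2 ?_
  rintro _ ⟨y, rfl⟩
  exact ⟨δ, hδ, fun z hz => (h y z hz).imp fun _ h => h.1⟩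

theorem range_sub (hG : Good ρ gr L c₀ β R) (hc : IsConnected {z | 0 < ρ z}) (hμ : Poly univ μ)
    (hn : NoB {z | 0 < ρ z} μ) (hμ' : Poly univ μ') (hn' : NoB {z | 0 < ρ z} μ')
    {z : RelCyc {z | 0 < ρ z}} (h : z ∈ range (jm μ)) (h' : z ∈ range (jm μ')) :
    range (jm (Ω := {z | 0 < ρ z}) μ) ⊆ range (jm μ') := by
  have ho := good_open hG 0
  have hb := good_bdd hG
  obtain ⟨y, e⟩ := h
  obtain ⟨y', e'⟩ := h'
  obtain ⟨S, hS, rfl⟩ := cyc_surj y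
  obtain ⟨S', hS', rfl⟩ := cyc_surj y'
  obtain ⟨T, e1, hT⟩ := jm_spec ho hb hμ hn hS
  have h1 := ((jm_spec ho hb hμ' hn' hS').all hG hc T (e1.trans (e.trans e'.symm))).side ho hT
    hn' hn
  rintro _ ⟨y₁, rfl⟩
  obtain ⟨S₁, hS₁, rfl⟩ := cyc_surj y₁
  exact ⟨_, jm_eq ho hb hn' ((jm_spec ho hb hμ hn hS₁).chg ho hμ' (hn'.add hn hμ' hμ) h1)
    (hS₁.symmDiff h1.1)⟩

theorem range_clopen (hG : Good ρ gr L c₀ β R) (hc : IsConnected {z | 0 < ρ z}) (hμ : Poly univ μ)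
    (hn : NoB {z | 0 < ρ z} μ) : IsClopen (range (jm (Ω := {z | 0 < ρ z}) μ)) := by
  refine ⟨isOpen_compl_iff.1 (isOpen_iff_forall_mem_open.2 fun z hz => ?_),
    range_open hG hc hμ hn⟩
  obtain ⟨μ', β₀, h0, h1, h2, h3⟩ := jm_cover hG hc z
  have h4 := h2.mono (lev_sub (by linarith : -β₀ ≤ 0))
  exact ⟨_, fun z' h5 h6 => hz (range_sub hG hc h1 h4 hμ hn h5 h6 h3), range_open hG hc h1 h4, h3⟩

theorem exists_inv (hG : Good ρ gr L c₀ β R) (hc : IsConnected {z | 0 < ρ z}) (hμ : Poly univ μ)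
    (hn : NoB {z | 0 < ρ z} μ) : ∃ r : C(RelCyc {z | 0 < ρ z}, Cyc {z | 0 < ρ z}),
      ∀ y, r (jm μ y) = y := by
  classical
  have : Nonempty (Cyc {z | 0 < ρ z}) := ⟨cyc _ ∅ MeasurableSet.empty⟩
  have h1 : ∀ y : Cyc {z | 0 < ρ z}, Function.invFun (jm μ) (jm μ y) = y :=
    Function.leftInverse_invFun (jm_inj hG hc hμ hn)
  refine ⟨⟨Function.invFun (jm μ), continuous_iff_continuousAt.2 fun z => ?_⟩, h1⟩
  by_cases hz : z ∈ range (jm (Ω := {z | 0 < ρ z}) μ)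
  · obtain ⟨y, rfl⟩ := hz
    refine EMetric.tendsto_nhds.2 fun ε hε => ?_
    obtain ⟨e, -, h2, h3⟩ := ENNReal.lt_iff_exists_real_btwn.1 hε
    obtain ⟨δ, hδ, h⟩ := jm_small hG hc hμ hn (ENNReal.ofReal_pos.1 h2)
    filter_upwards [ball_mem_nhds _ hδ] with z hz
    obtain ⟨y', rfl, h4⟩ := h y z hz
    rw [h1, h1]
    exact h4.trans_lt h3
  · refine continuousAt_const.congr (f := fun _ => Classical.choice this) ?_
    filter_upwards [(range_clopen hG hc hμ hn).1.isOpen_compl.mem_nhds hz] with z' hz'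
    exact (Function.invFun_neg hz').symm

theorem range_in (hG : Good ρ gr L c₀ β R) (hμ : Poly univ μ) (hn : NoB {z | 0 < ρ z} μ)
    {C : Set (RelCyc {z | 0 < ρ z})} (hC : ∀ z ∈ C, connectedComponent z ⊆ C)
    {y : Cyc {z | 0 < ρ z}} (h : jm μ y ∈ C) (y' : Cyc {z | 0 < ρ z}) : jm μ y' ∈ C := by
  have := cyc_conn (good_bdd hG)
  exact hC _ h ((isPreconnected_range (jm_cont (good_open hG 0) (good_bdd hG) hμ
    hn)).subset_connectedComponent ⟨y, rfl⟩ ⟨y', rfl⟩)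

theorem Rr_cont (hG : Good ρ gr L c₀ β R) {G W : Set ℂ} (hG' : IsOpen G)
    (hΩ : closure {z | 0 < ρ z} ⊆ G) (hW : Convex ℝ W) {X : Type} [TopologicalSpace X]
    {u : X → Ms} (hu : Fam W u) (hp : ∀ x, Par G W 0 (u x)) :
    Continuous fun x => Rr {z | 0 < ρ z} (u x) := by
  have ho := good_open hG 0
  have hb := good_bdd hG
  have h1 : ∀ x, Poly univ (u x) := fun x => (hu.poly x).mono (subset_univ _)
  have h2 : ∀ x, NoB {z | 0 < ρ z} (u x) := fun x z hz => by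
    by_cases h : z ∈ W
    · exact hp x z h (hΩ (subset_closure hz))
    · exact (hu.poly x).bdy_of_notMem h
  refine continuous_iff_continuousAt.2 fun x₀ => EMetric.tendsto_nhds.2 fun ε hε => ?_
  obtain ⟨e, h3, h4⟩ := exists_between hε
  filter_upwards [contZ hG' hΩ hW hu hp x₀ h3] with x ⟨D, h5, h6⟩
  rw [Rr_eq ho hb (h1 x₀) (h2 x₀) (h1 x) (h2 x) h6]
  refine (jm_lip ho hb (h1 x₀) (h2 x₀) _ _).trans_lt ?_
  rw [edist_cyc]
  refine (min_le_left _ _).trans_lt (lt_of_le_of_lt ?_ h4)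
  rw [sd_empty]
  exact (measure_mono inter_subset_left).trans h5

end Dom

end Pool.Agent.MP_20201c_gt.H42
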