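import Pool.Agent.MP_20201c_gt.H42.Flat
import Pool.Agent.MP_20201c_gt.H91.Small
import Pool.Agent.MP_20201c_gt.H91.SideP
import Pool.Agent.MP_20201c_gt.H91.Norm

/-! Basic facts on polyhedral and flat chains, and the bridge to polygonal measures. -/

open MeasureTheory Set Filter Topology UniformSpace
open scoped ENNReal

namespace Pool.Agent.MP_20201c_gt.H42

open Pool.Agent.MP_20201c_gt.H91

variable {k : ℕ}

/-- A single simplex. -/
noncomputable def sx (σ : Fin (k + 1) → ℂ) : PC k := Finsupp.single σ 1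

/-- The coefficient of a simplex. -/
def co (σ : Fin (k + 1) → ℂ) : PC k →+ ZMod 2 := Finsupp.applyAddHom σ

/-- The simplices of a chain. -/
def sup (P : PC k) : Finset (Fin (k + 1) → ℂ) := Finsupp.support P

/-- The hull of a simplex. -/
def hl (σ : Fin (k + 1) → ℂ) : Set ℂ := convexHull ℝ (range σ)

/-- All simplices of `P` lie in `U`. -/
def Ins (U : Set ℂ) (P : PC k) : Prop := ∀ σ ∈ sup P, hl σ ⊆ U

/-- The length measure of the segments of a chain (with multiplicity). -/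
noncomputable def ms (P : PC 1) : Ms := ∑ σ ∈ sup P, sg (σ 0) (σ 1)

/-- Equality mod two of polygonal measures. -/
def Eq2 (μ ν : Ms) : Prop :=
  ∃ κ κ' : Ms, Poly univ κ ∧ Poly univ κ' ∧ μ + κ + κ = ν + κ' + κ'

/-- No boundary in `U`. -/
def NoB (U : Set ℂ) (μ : Ms) : Prop := ∀ z ∈ U, bdy μ z = 0

/-- A polygonal measure with segments outside `U`. -/
def Out (U : Set ℂ) (μ : Ms) : Prop :=
  ∃ (m : ℕ) (a b : Fin m → ℂ), μ = msr a b ∧ ∀ i, Disjoint (segment ℝ (a i) (b i)) U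

theorem z2 (c : ZMod 2) : c = 0 ∨ c = 1 := by revert c; decide

theorem pc_ext {P Q : PC k} (h : ∀ σ, co σ P = co σ Q) : P = Q := Finsupp.ext h

theorem mem_sup {P : PC k} {σ : Fin (k + 1) → ℂ} : σ ∈ sup P ↔ co σ P = 1 := by
  refine Finsupp.mem_support_iff.trans ?_
  change co σ P ≠ 0 ↔ _
  rcases z2 (co σ P) with h | h <;> simp [h]

open Classical in
theorem co_sx (σ τ : Fin (k + 1) → ℂ) : co τ (sx σ) = if σ = τ then 1 else 0 := by
  convert Finsupp.single_apply (a := σ) (a' := τ) (b := (1 : ZMod 2))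
  rfl

theorem sup_sx (σ : Fin (k + 1) → ℂ) : sup (sx σ) = {σ} :=
  Finsupp.support_single σ one_ne_zero

theorem sup_zero : sup (0 : PC k) = ∅ := rfl

theorem pc_add_self (P : PC k) : P + P = 0 :=
  pc_ext fun σ => by rw [map_add, map_zero]; exact CharTwo.add_self_eq_zero _

theorem pc_neg (P : PC k) : -P = P := neg_eq_of_add_eq_zero_left (pc_add_self P)

theorem pc_sub (P Q : PC k) : P - Q = P + Q := by rw [sub_eq_add_neg, pc_neg]

theorem sum_sx (P : PC k) : ∑ σ ∈ sup P, sx σ = P := by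
  classical
  refine pc_ext fun τ => ?_
  rw [map_sum]
  simp only [co_sx]
  rw [Finset.sum_ite_eq']
  split_ifs with h
  · exact (mem_sup.1 h).symm
  · exact ((z2 _).resolve_right fun h' => h (mem_sup.2 h')).symm

theorem mem_sup_add {P Q : PC k} {σ : Fin (k + 1) → ℂ} :
    σ ∈ sup (P + Q) ↔ ¬ (σ ∈ sup P ↔ σ ∈ sup Q) := by
  rw [mem_sup, mem_sup, mem_sup, map_add]
  generalize co σ P = x
  generalize co σ Q = y
  revert x y
  decide

theorem pc_ind {p : PC k → Prop} (h0 : p 0) (h1 : ∀ σ, p (sx σ))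
    (h2 : ∀ P Q, p P → p Q → p (P + Q)) (P : PC k) : p P := by
  rw [← sum_sx P]
  exact Finset.sum_induction _ p h2 h0 fun σ _ => h1 σ

theorem Ins.zero (U : Set ℂ) : Ins U (0 : PC k) := fun _ h => absurd h (Finset.notMem_empty _)

theorem Ins.sx {U : Set ℂ} {σ : Fin (k + 1) → ℂ} (h : hl σ ⊆ U) : Ins U (sx σ) := fun τ hτ => by
  rw [sup_sx, Finset.mem_singleton] at hτ
  rwa [hτ]

theorem Ins.add {U : Set ℂ} {P Q : PC k} (h : Ins U P) (h' : Ins U Q) : Ins U (P + Q) := by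
  intro σ hσ
  rw [mem_sup_add] at hσ
  by_cases h1 : σ ∈ sup P
  · exact h σ h1
  · exact h' σ (by tauto)

theorem Ins.sum {U : Set ℂ} {ι : Type} (s : Finset ι) {P : ι → PC k} (h : ∀ i ∈ s, Ins U (P i)) :
    Ins U (∑ i ∈ s, P i) :=
  Finset.sum_induction _ (Ins U) (fun _ _ => Ins.add) (Ins.zero U) h

theorem Ins.mono {U V : Set ℂ} {P : PC k} (h : Ins U P) (hV : U ⊆ V) : Ins V P :=
  fun σ hσ => (h σ hσ).trans hV

theorem pbd_sx (σ : Fin (k + 2) → ℂ) :
    pbd (sx σ) = ∑ i : Fin (k + 2), sx (σ ∘ i.succAbove) :=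
  (Finsupp.liftAddHom_apply_single _ σ 1).trans (AddMonoidHom.finsetSum_apply _ _ _)

theorem Ins.pbd {U : Set ℂ} {P : PC (k + 1)} (h : Ins U P) : Ins U (pbd P) := by
  rw [← sum_sx P, map_sum]
  refine Ins.sum _ fun σ hσ => ?_
  rw [pbd_sx]
  exact Ins.sum _ fun i _ => Ins.sx ((convexHull_mono (range_comp_subset_range _ _)).trans (h σ hσ))

theorem hl_two (σ : Fin 2 → ℂ) : hl σ = segment ℝ (σ 0) (σ 1) := by
  rw [hl, ← convexHull_pair]
  congr 1
  ext z
  simp [Fin.exists_fin_two, eq_comm]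

theorem hl_three (σ : Fin 3 → ℂ) : hl σ = convexHull ℝ {σ 0, σ 1, σ 2} := by
  rw [hl]
  congr 1
  ext z
  simp [Fin.exists_fin_succ, eq_comm]

theorem hl_one (σ : Fin 1 → ℂ) : hl σ = {σ 0} := by
  rw [hl, ← convexHull_singleton (𝕜 := ℝ) (σ 0)]
  congr 1
  ext z
  simp [eq_comm]

theorem hl_compact (σ : Fin (k + 1) → ℂ) : IsCompact (hl σ) :=
  (finite_range σ).isCompact_convexHull ℝ

theorem car_zero : car (0 : PC k) = ∅ := by simp [car]

theorem car_sx (σ : Fin (k + 1) → ℂ) : car (sx σ) = hl σ := by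
  ext z
  have h := Finsupp.liftAddHom_apply_single (fun σ : Fin (k + 1) → ℂ =>
    open Classical in if z ∈ convexHull ℝ (range σ) then AddMonoidHom.id (ZMod 2) else 0) σ 1
  change mult z (sx σ) = _ at h
  rw [car, mem_ofPred_eq, h, hl]
  split_ifs with h1 <;> simp [h1]

theorem car_add (P Q : PC k) : car (P + Q) = symmDiff (car P) (car Q) := by
  ext z
  simp only [car, mem_symmDiff, mem_ofPred_eq, map_add]
  generalize mult z P = x
  generalize mult z Q = y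
  revert x y
  decide

theorem car_meas (P : PC k) : MeasurableSet (car P) := by
  induction P using pc_ind with
  | h0 => rw [car_zero]; exact MeasurableSet.empty
  | h1 σ => rw [car_sx]; exact (hl_compact σ).measurableSet
  | h2 P Q h h' => rw [car_add]; exact h.symmDiff h'

theorem car_sum_sub {ι : Type} (s : Finset ι) (P : ι → PC k) :
    car (∑ i ∈ s, P i) ⊆ ⋃ i ∈ s, car (P i) := by
  intro z hz
  rw [car, mem_ofPred_eq, map_sum] at hz
  obtain ⟨i, hi, h⟩ := Finset.exists_ne_zero_of_sum_ne_zero hz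
  exact mem_biUnion hi h

theorem Ins.car {U : Set ℂ} {P : PC k} (h : Ins U P) : car P ⊆ U := by
  rw [← sum_sx P]
  refine (car_sum_sub _ _).trans (iUnion₂_subset fun σ hσ => ?_)
  rw [car_sx]
  exact h σ hσ

theorem car_bounded (P : PC k) : Bornology.IsBounded (car P) :=
  ((sup P).isCompact_biUnion fun σ _ => hl_compact σ).isBounded.subset
    (Ins.car fun _ hσ => subset_biUnion_of_mem (u := hl) (Finset.mem_coe.2 hσ))

theorem mem_car_zero (Y : PC 0) (z : ℂ) : z ∈ car Y ↔ co (fun _ => z) Y = 1 := by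
  induction Y using pc_ind with
  | h0 => simp [car_zero]
  | h1 σ =>
    rw [car_sx, hl_one, co_sx, mem_singleton_iff]
    split_ifs with h
    · simp [h]
    · simpa using fun h' : z = σ 0 => h (funext fun i => by rw [Fin.fin_one_eq_zero i, h'])
  | h2 P Q h h' =>
    rw [car_add, mem_symmDiff, h, h', map_add]
    generalize co (fun _ => z) P = x
    generalize co (fun _ => z) Q = y
    revert x y
    decide

theorem pm_mono (P : PC k) {U V : Set ℂ} (h : U ⊆ V) : pm P U ≤ pm P V :=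
  measure_mono (inter_subset_inter_right _ h)

theorem pm_of_disjoint {P : PC k} {U : Set ℂ} (h : Disjoint (car P) U) : pm P U = 0 := by
  rw [pm, h.inter_eq, measure_empty]

theorem pm_two (Q : PC 2) (U : Set ℂ) : pm Q U = volume (car Q ∩ U) := by
  have h := InnerProductSpace.euclideanHausdorffMeasure_eq_volume (V := ℂ)
  rw [Complex.finrank_real_complex] at h
  rw [pm, h]

theorem pm_one (P : PC 1) (U : Set ℂ) : pm P U = μH[1] (car P ∩ U) := by
  have h := InnerProductSpace.euclideanHausdorffMeasure_eq_volume (V := ℝ)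
  rw [Module.finrank_self, Measure.euclideanHausdorffMeasure_def] at h
  rw [pm, Measure.euclideanHausdorffMeasure_def]
  generalize Measure.addHaarScalarFactor (volume : Measure (EuclideanSpace ℝ (Fin 1)))
    μH[(1 : ℕ)] = c at h ⊢
  rw [Nat.cast_one] at h ⊢
  rw [hausdorffMeasure_real] at h
  have h1 := congrArg (fun μ : Measure ℝ => μ (Icc 0 1)) h
  simp only [Measure.smul_apply, Real.volume_Icc, sub_zero, ENNReal.ofReal_one,
    ENNReal.smul_def, smul_eq_mul, mul_one, ENNReal.coe_eq_one] at h1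
  rw [h1, one_smul]

theorem disjoint_of_pm_lt {Y : PC 0} {U : Set ℂ} (h : pm Y U < 1) : Disjoint (car Y) U := by
  by_contra h1
  rw [pm, Measure.euclideanHausdorffMeasure_zero] at h
  exact h.not_ge (Measure.one_le_hausdorffMeasure_zero_of_nonempty
    (not_disjoint_iff_nonempty_inter.1 h1))

theorem eq_zero_of_pm_lt {Y : PC 0} (h : pm Y univ < 1) : Y = 0 := by
  refine pc_ext fun σ => ((z2 _).resolve_right fun h1 => ?_).trans (map_zero _).symm
  refine disjoint_left.1 (disjoint_of_pm_lt h) ((mem_car_zero Y (σ 0)).2 ?_) (mem_univ _)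
  rwa [show (fun _ => σ 0) = σ from funext fun i => by rw [Fin.fin_one_eq_zero i]]

/-! ### Norms -/

theorem norm_pc (P : PC k) : ‖P‖ = (fl P).toReal := rfl

theorem enorm_pc (P : PC k) : ENNReal.ofReal ‖P‖ = fl P := ENNReal.ofReal_toReal (fl_ne_top P)

theorem dist_pc (P Q : PC k) : dist (P : FC k) (Q : FC k) = ‖P + Q‖ := by
  rw [Completion.dist_eq, dist_eq_norm, pc_sub]

theorem exists_fill {P : PC k} {ε : ℝ} (h : ‖P‖ < ε) :
    ∃ Q : PC (k + 1), pm (P + pbd Q) univ + pm Q univ < ENNReal.ofReal ε := by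
  have h1 : fl P < ENNReal.ofReal ε := by
    rw [← enorm_pc]
    exact (ENNReal.ofReal_lt_ofReal_iff ((norm_nonneg _).trans_lt h)).2 h
  obtain ⟨Q, hQ⟩ := iInf_lt_iff.1 h1
  exact ⟨Q, by rwa [pc_sub] at hQ⟩

theorem norm_le_of_fill {P : PC k} (Q : PC (k + 1)) {ε : ℝ} (hε : 0 ≤ ε)
    (h : pm (P + pbd Q) univ + pm Q univ ≤ ENNReal.ofReal ε) : ‖P‖ ≤ ε :=
  ENNReal.toReal_le_of_le_ofReal hε (iInf_le_of_le Q (by rwa [pc_sub]))

theorem norm_le_of_pm {P : PC k} {ε : ℝ} (hε : 0 ≤ ε) (h : pm P univ ≤ ENNReal.ofReal ε) :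
    ‖P‖ ≤ ε := ENNReal.toReal_le_of_le_ofReal hε ((fl_le P).trans h)

theorem norm_pbd_le {Q : PC 2} {ε : ℝ} (hε : 0 ≤ ε) (h : volume (car Q) ≤ ENNReal.ofReal ε) :
    ‖pbd Q‖ ≤ ε :=
  norm_le_of_fill Q hε (by rwa [pc_add_self, pm_zero, zero_add, pm_two, inter_univ])

theorem exists_pc (T : FC k) {ε : ℝ} (hε : 0 < ε) : ∃ P : PC k, dist (P : FC k) T < ε := by
  obtain ⟨P, hP⟩ := Completion.denseRange_coe.exists_dist_lt T hε
  exact ⟨P, by rwa [dist_comm]⟩

theorem fc_add_self (T : FC k) : T + T = 0 := by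
  refine Completion.induction_on T (isClosed_eq (by fun_prop) continuous_const) fun P => ?_
  rw [← Completion.coe_add, pc_add_self, Completion.coe_zero]

theorem fc_neg (T : FC k) : -T = T := neg_eq_of_add_eq_zero_left (fc_add_self T)

theorem fc_sub (T T' : FC k) : T - T' = T + T' := by rw [sub_eq_add_neg, fc_neg]

theorem fbd_coe (P : PC 1) : fbd (P : FC 1) = (pbd P : PC 0) :=
  AddMonoidHom.completion_coe _ _ P

theorem fbd_cont : Continuous fbd := AddMonoidHom.continuous_completion _ _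

theorem norm_fbd_le (T : FC 1) : ‖fbd T‖ ≤ ‖T‖ := by
  refine Completion.induction_on T (isClosed_le fbd_cont.norm continuous_norm) fun P => ?_
  rw [fbd_coe, Completion.norm_coe, Completion.norm_coe]
  exact ENNReal.toReal_mono (fl_ne_top P) (fl_pbd P)

theorem dist_fbd_le (T T' : FC 1) : dist (fbd T) (fbd T') ≤ dist T T' := by
  rw [dist_eq_norm, dist_eq_norm, ← map_sub]
  exact norm_fbd_le _

theorem lm_le {T : FC k} {U : Set ℂ} {c : ℝ≥0∞} (h : ∀ K, IsCompact K → K ⊆ U → ∀ ε, 0 < ε →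
    ∃ P : PC k, dist (P : FC k) T < ε ∧ pm P K ≤ c) : lm T U ≤ c :=
  iSup₂_le fun K hK => iSup₂_le fun hU ε => iSup_le fun hε => by
    obtain ⟨P, h1, h2⟩ := h K hK hU ε hε
    exact iInf₂_le_of_le P h1 h2

theorem exists_of_lm_lt {T : FC k} {U K : Set ℂ} {c : ℝ≥0∞} (h : lm T U < c) (hK : IsCompact K)
    (hU : K ⊆ U) {ε : ℝ} (hε : 0 < ε) : ∃ P : PC k, dist (P : FC k) T < ε ∧ pm P K < c := by
  obtain ⟨P, hP⟩ := iInf_lt_iff.1 ((le_lm T hK hU hε).trans_lt h)
  obtain ⟨h1, h2⟩ := iInf_lt_iff.1 hP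
  exact ⟨P, h1, h2⟩

theorem mem_supp {A : Set ℂ} {T : FC k} : T ∈ Supp k A ↔ spt T ⊆ A := Iff.rfl

theorem not_mem_spt {T : FC k} {x : ℂ} :
    x ∉ spt T ↔ ∃ r, 0 < r ∧ lm T (Metric.ball x r) = 0 := by simp [spt]

theorem disjoint_spt {T : FC k} {U : Set ℂ} (hU : IsOpen U) (h : lm T U = 0) :
    Disjoint (spt T) U := by
  refine disjoint_right.2 fun x hx => not_mem_spt.2 ?_
  obtain ⟨r, hr, h1⟩ := Metric.isOpen_iff.1 hU x hx
  exact ⟨r, hr, le_zero_iff.1 (h ▸ lm_mono T h1)⟩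

theorem mem_Zc {Ω : Set ℂ} {T : FC 1} :
    T ∈ Zc Ω ↔ spt T ⊆ closure Ω ∧ spt (fbd T) ⊆ frontier Ω := Iff.rfl

theorem mk_eq_iff {Ω : Set ℂ} {T T' : Zc Ω} :
    cls T = cls T' ↔ spt ((T : FC 1) + (T' : FC 1)) ⊆ frontier Ω := by
  change (QuotientAddGroup.mk T : Zc Ω ⧸ (Supp 1 (frontier Ω)).addSubgroupOf (Zc Ω)) =
    QuotientAddGroup.mk T' ↔ _
  rw [QuotientAddGroup.eq, AddSubgroup.mem_addSubgroupOf, mem_supp, AddSubgroup.coe_add,
    AddSubgroup.coe_neg, fc_neg]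

/-! ### Polygonal measures mod two -/

theorem ms_poly (P : PC 1) : Poly univ (ms P) :=
  Poly.sum _ fun _ _ => Poly.sg (mem_univ _) (mem_univ _)

theorem ms_zero : ms 0 = 0 := rfl

theorem ms_sx (σ : Fin 2 → ℂ) : ms (sx σ) = sg (σ 0) (σ 1) := by
  rw [ms, sup_sx, Finset.sum_singleton]

theorem Eq2.refl (μ : Ms) : Eq2 μ μ := ⟨0, 0, Poly.zero _, Poly.zero _, rfl⟩

theorem Eq2.of_eq {μ ν : Ms} (h : μ = ν) : Eq2 μ ν := h ▸ Eq2.refl μ

theorem Eq2.symm {μ ν : Ms} (h : Eq2 μ ν) : Eq2 ν μ := by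
  obtain ⟨κ, κ', h1, h2, h3⟩ := h
  exact ⟨κ', κ, h2, h1, h3.symm⟩

theorem Eq2.add {μ ν μ' ν' : Ms} (h : Eq2 μ ν) (h' : Eq2 μ' ν') : Eq2 (μ + μ') (ν + ν') := by
  obtain ⟨a, b, h1, h2, h3⟩ := h
  obtain ⟨c, d, h4, h5, h6⟩ := h'
  refine ⟨a + c, b + d, h1.add h4, h2.add h5, ?_⟩
  calc μ + μ' + (a + c) + (a + c) = (μ + a + a) + (μ' + c + c) := by abel
    _ = ν + ν' + (b + d) + (b + d) := by rw [h3, h6]; abel

theorem Eq2.trans {μ ν κ : Ms} (h : Eq2 μ ν) (h' : Eq2 ν κ) : Eq2 μ κ := by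
  obtain ⟨a, b, h1, h2, h3⟩ := h
  obtain ⟨c, d, h4, h5, h6⟩ := h'
  refine ⟨a + c, d + b, h1.add h4, h5.add h2, ?_⟩
  calc μ + (a + c) + (a + c) = (μ + a + a) + c + c := by abel
    _ = (ν + c + c) + b + b := by rw [h3]; abel
    _ = κ + (d + b) + (d + b) := by rw [h6]; abel

theorem Eq2.double {μ : Ms} (h : Poly univ μ) : Eq2 (μ + μ) 0 :=
  ⟨0, μ, Poly.zero _, h, by abel⟩

theorem Eq2.cancel (μ : Ms) {ν : Ms} (h : Poly univ ν) : Eq2 (μ + ν + ν) μ :=
  ⟨0, ν, Poly.zero _, h, by abel⟩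

theorem Eq2.sum {ι : Type} (s : Finset ι) {μ ν : ι → Ms} (h : ∀ i ∈ s, Eq2 (μ i) (ν i)) :
    Eq2 (∑ i ∈ s, μ i) (∑ i ∈ s, ν i) := by
  classical
  induction s using Finset.induction_on with
  | empty => exact Eq2.refl _
  | insert i s hi ih =>
    rw [Finset.sum_insert hi, Finset.sum_insert hi]
    exact (h i (Finset.mem_insert_self _ _)).add
      (ih fun j hj => h j (Finset.mem_insert_of_mem hj))

theorem Eq2.side {Ω E : Set ℂ} {μ ν : Ms} (h : Eq2 μ ν) (hν : Poly univ ν) (hs : Side Ω μ E) :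
    Side Ω ν E := by
  obtain ⟨a, b, h1, h2, h3⟩ := h
  have h4 := hs.add (side_double (Ω := Ω) h1)
  rw [← add_assoc, h3, ← bot_eq_empty, symmDiff_bot] at h4
  exact Side.cancel hν h2 h4

theorem Eq2.bdy {μ ν : Ms} (h : Eq2 μ ν) (hμ : Poly univ μ) (hν : Poly univ ν) (z : ℂ) :
    bdy μ z = bdy ν z := by
  obtain ⟨a, b, h1, h2, h3⟩ := h
  have h4 := congrArg (fun m => H91.bdy m z) h3
  simp only [bdy_add (hμ.add h1) h1, bdy_add hμ h1, bdy_add (hν.add h2) h2, bdy_add hν h2] at h4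
  simpa only [add_assoc, f2_add_self, add_zero] using h4

theorem ms_add (P Q : PC 1) : Eq2 (ms (P + Q)) (ms P + ms Q) := by
  classical
  refine ⟨∑ σ ∈ sup P ∩ sup Q, sg (σ 0) (σ 1), 0,
    Poly.sum _ fun _ _ => Poly.sg (mem_univ _) (mem_univ _), Poly.zero _, ?_⟩
  have h1 : sup (P + Q) = (sup P \ sup Q) ∪ (sup Q \ sup P) := by
    ext σ
    simp only [mem_sup_add, Finset.mem_union, Finset.mem_sdiff]
    tauto
  rw [add_zero, add_zero, ms, ms, ms, h1, Finset.sum_union disjoint_sdiff_sdiff,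
    ← Finset.sum_inter_add_sum_sdiff (sup P) (sup Q),
    ← Finset.sum_inter_add_sum_sdiff (sup Q) (sup P),
    Finset.inter_comm (sup Q)]
  abel

theorem ms_sum {ι : Type} (s : Finset ι) (P : ι → PC 1) :
    Eq2 (ms (∑ i ∈ s, P i)) (∑ i ∈ s, ms (P i)) := by
  classical
  induction s using Finset.induction_on with
  | empty => exact Eq2.refl _
  | insert i s hi ih =>
    rw [Finset.sum_insert hi, Finset.sum_insert hi]
    exact (ms_add _ _).trans ((Eq2.refl _).add ih)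

/-- The chain of a finite family of segments. -/
theorem ms_segs {ι : Type} (s : Finset ι) (a b : ι → ℂ) :
    Eq2 (ms (∑ i ∈ s, sx ![a i, b i])) (∑ i ∈ s, sg (a i) (b i)) :=
  (ms_sum s _).trans (Eq2.of_eq (Finset.sum_congr rfl fun _ _ => ms_sx _))

theorem exists_ms {W : Set ℂ} {μ : Ms} (h : Poly W μ) : ∃ P : PC 1, Eq2 (ms P) μ := by
  obtain ⟨m, a, b, -, rfl⟩ := h
  exact ⟨_, ms_segs Finset.univ a b⟩

theorem bdy_ms (P : PC 1) (z : ℂ) : bdy (ms P) z = co (fun _ => z) (pbd P) := by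
  induction P using pc_ind with
  | h0 => rw [ms_zero, bdy_zero, map_zero, map_zero]
  | h1 σ =>
    have e : ∀ i : Fin 2, (σ ∘ i.succAbove = fun _ => z) ↔ σ (i.succAbove 0) = z := fun i =>
      ⟨fun h => congrFun h 0, fun h => funext fun j => by rw [Subsingleton.elim j 0]; exact h⟩
    rw [ms_sx, bdy_sg, pbd_sx, map_sum, Fin.sum_univ_two, co_sx, co_sx, add_comm]
    simp only [e]
    congr
  | h2 P Q h h' =>
    rw [(ms_add P Q).bdy (ms_poly _) ((ms_poly _).add (ms_poly _)),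
      bdy_add (ms_poly _) (ms_poly _), h, h', map_add, map_add]

theorem noB_ms {U : Set ℂ} {P : PC 1} : NoB U (ms P) ↔ Disjoint (car (pbd P)) U := by
  rw [disjoint_right]
  refine forall₂_congr fun z _ => ?_
  rw [bdy_ms, mem_car_zero]
  rcases z2 (co (fun _ => z) (pbd P)) with h | h <;> simp [h]

theorem side_pbd (Ω : Set ℂ) (Q : PC 2) : Side Ω (ms (pbd Q)) (car Q) := by
  induction Q using pc_ind with
  | h0 =>
    rw [map_zero, car_zero]
    exact (Eq2.double (Poly.zero _)).side (Poly.zero _) (side_double (Poly.zero univ))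
  | h1 σ =>
    rw [car_sx, hl_three, pbd_sx]
    refine Eq2.side ((ms_sum _ _).trans (Eq2.of_eq ?_)).symm (ms_poly _) (side_tri Ω _ _ _)
    simp only [ms_sx]
    rw [sg_comm (σ 2)]
    refine (Fin.sum_univ_three _).trans ?_
    change sg (σ 1) (σ 2) + sg (σ 0) (σ 2) + sg (σ 0) (σ 1) = _
    abel
  | h2 P Q h h' =>
    rw [map_add, car_add]
    exact (ms_add _ _).symm.side (ms_poly _) (h.add h')

theorem noB_pbd (U : Set ℂ) (Q : PC 2) : NoB U (ms (pbd Q)) := by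
  rw [noB_ms, pbd_pbd, car_zero]
  exact empty_disjoint _

theorem NoB.add {U : Set ℂ} {μ ν : Ms} (h : NoB U μ) (h' : NoB U ν) (hμ : Poly univ μ)
    (hν : Poly univ ν) : NoB U (μ + ν) := fun z hz => by
  rw [bdy_add hμ hν, h z hz, h' z hz, add_zero]

theorem NoB.mono {U V : Set ℂ} {μ : Ms} (h : NoB U μ) (hV : V ⊆ U) : NoB V μ :=
  fun z hz => h z (hV hz)

theorem NoB.eq2 {U : Set ℂ} {μ ν : Ms} (h : NoB U μ) (he : Eq2 μ ν) (hμ : Poly univ μ)
    (hν : Poly univ ν) : NoB U ν := fun z hz => (he.bdy hμ hν z).symm.trans (h z hz)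

theorem Out.poly {U : Set ℂ} {μ : Ms} (h : Out U μ) : Poly univ μ := by
  obtain ⟨m, a, b, rfl, -⟩ := h
  exact ⟨m, a, b, fun _ => ⟨mem_univ _, mem_univ _⟩, rfl⟩

theorem Out.side {U : Set ℂ} {μ : Ms} (h : Out U μ) : Side U μ ∅ := by
  obtain ⟨m, a, b, rfl, h⟩ := h
  exact side_out h

theorem Out.noB {U : Set ℂ} {μ : Ms} (h : Out U μ) : NoB U μ := by
  obtain ⟨m, a, b, rfl, h⟩ := h
  intro z hz
  rw [bdy_msr,
    ind_eq_zero fun i e => disjoint_left.1 (h i) (left_mem_segment _ _ _) (by rwa [e]),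
    ind_eq_zero fun i e => disjoint_left.1 (h i) (right_mem_segment _ _ _) (by rwa [e]), add_zero]

theorem Out.mono {U V : Set ℂ} {μ : Ms} (h : Out U μ) (hV : V ⊆ U) : Out V μ := by
  obtain ⟨m, a, b, rfl, h⟩ := h
  exact ⟨m, a, b, rfl, fun i => (h i).mono_right hV⟩

theorem side_congr {U E F : Set ℂ} {μ : Ms} (h : Side U μ E) (hF : MeasurableSet F)
    (he : volume (symmDiff E F ∩ U) = 0) : Side U μ F := by
  classical
  obtain ⟨-, m, a, b, hμ, hs⟩ := h
  refine ⟨hF, m, a, b, hμ, ?_⟩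
  have h1 : ∀ᵐ z : ℂ, z ∈ U → (z ∈ E ↔ z ∈ F) := by
    filter_upwards [measure_eq_zero_iff_ae_notMem.1 he] with z hz hU
    simp only [mem_inter_iff, mem_symmDiff, hU, and_true] at hz
    tauto
  have h2 := Measure.quasiMeasurePreserving_fst (μ := (volume : Measure ℂ))
    (ν := (volume : Measure ℂ)) |>.ae h1
  have h3 := Measure.quasiMeasurePreserving_snd (μ := (volume : Measure ℂ))
    (ν := (volume : Measure ℂ)) |>.ae h1
  filter_upwards [hs, h2, h3] with q h4 h5 h6 hq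
  rw [h4 hq]
  simp only [h5 (hq (left_mem_segment _ _ _)), h6 (hq (right_mem_segment _ _ _))]

end Pool.Agent.MP_20201c_gt.H42
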