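import Pool.Agent.MP_20201c_gt.H42.Spec

/-! Small pieces of the domain lie in star-shaped open sets inside a neighbourhood. -/

open MeasureTheory Set Filter Topology Metric
open scoped ENNReal

namespace Pool.Agent.MP_20201c_gt.H42

open Pool.Agent.MP_20201c_gt.H91

namespace RInS

theorem ip_eq (a b : ℂ) : ip a b = inner ℝ a b := by
  simp only [ip, Complex.inner, Complex.mul_re, Complex.conj_re, Complex.conj_im]
  ring

theorem abs_ip (a b : ℂ) : |ip a b| ≤ ‖a‖ * ‖b‖ := by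
  rw [ip_eq]
  exact abs_real_inner_le_norm a b

theorem star {ρ : ℂ → ℝ} {gr : ℂ → ℂ} {L c₀ β R : ℝ} (h : Good ρ gr L c₀ β R) {r : ℝ}
    (hr : 0 < r) {q : ℂ} (hc : 216 * L * r ≤ ‖gr q‖) {z : ℂ} (hz : ‖z - q‖ ≤ r) (hz0 : 0 < ρ z)
    {o x : ℂ} (ho : 9 * ‖gr q‖ * r ≤ ip (gr q) (o - q)) (ho' : ‖o - q‖ ≤ 12 * r)
    (hx : ‖x - q‖ ≤ 12 * r) {t : ℝ} (ht0 : 0 ≤ t) (ht1 : t ≤ 1)
    (hy : ‖x + t • (o - x) - q‖ ≤ 12 * r) : min (ρ x) 0 ≤ ρ (x + t • (o - x)) := by
  have hL := h.hL
  have hLr : 0 < L * r := mul_pos hL hr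
  have hsplit : ip (gr q) (o - x) = ip (gr q) (o - q) - ip (gr q) (x - q) := by
    rw [ip_eq, ip_eq, ip_eq, ← inner_sub_right]
    congr 1
    ring
  rcases le_total (ip (gr q) (x - q)) (5 * ‖gr q‖ * r) with hH | hH
  · refine (min_le_left _ _).trans ?_
    have hox : ‖o - x‖ ≤ 24 * r := by
      have e : o - x = (o - q) - (x - q) := by ring
      rw [e]
      linarith [norm_sub_le (o - q) (x - q)]
    have h1 := (abs_le.1 (h.tay x (x + t • (o - x)))).1
    rw [add_sub_cancel_left, ip_eq, inner_smul_right, ← ip_eq, norm_smul, Real.norm_of_nonneg ht0]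
      at h1
    have h2 : ip (gr x) (o - x) = ip (gr q) (o - x) + ip (gr x - gr q) (o - x) := by
      rw [ip_eq, ip_eq, ip_eq, ← inner_add_left]
      congr 1
      ring
    have h3 := (abs_le.1 (abs_ip (gr x - gr q) (o - x))).1
    have h4 : ‖gr x - gr q‖ ≤ L * (12 * r) :=
      (h.lipg q x).trans (mul_le_mul_of_nonneg_left hx hL.le)
    have h5 : ‖gr x - gr q‖ * ‖o - x‖ ≤ L * (12 * r) * (24 * r) :=
      mul_le_mul h4 hox (norm_nonneg _) (by positivity)
    have h6 : (t * ‖o - x‖) ^ 2 ≤ t * (24 * r) ^ 2 := by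
      rw [mul_pow]
      exact mul_le_mul (by nlinarith) (pow_le_pow_left₀ (norm_nonneg _) hox 2) (by positivity) ht0
    have h7 : L * (24 * r) ^ 2 ≤ ip (gr x) (o - x) := by nlinarith
    have h8 := mul_le_mul_of_nonneg_left h7 ht0
    have h9 := mul_le_mul_of_nonneg_left h6 hL.le
    nlinarith
  · refine (min_le_right _ _).trans ?_
    have h1 := (abs_le.1 (h.tay q (x + t • (o - x)))).1
    have h2 := (abs_le.1 (h.tay q z)).2
    have h3 := (abs_le.1 (abs_ip (gr q) (z - q))).2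
    have h4 : ‖gr q‖ * ‖z - q‖ ≤ ‖gr q‖ * r := mul_le_mul_of_nonneg_left hz (norm_nonneg _)
    have h5 : L * ‖z - q‖ ^ 2 ≤ L * r ^ 2 :=
      mul_le_mul_of_nonneg_left (pow_le_pow_left₀ (norm_nonneg _) hz 2) hL.le
    have h6 : L * ‖x + t • (o - x) - q‖ ^ 2 ≤ L * (12 * r) ^ 2 :=
      mul_le_mul_of_nonneg_left (pow_le_pow_left₀ (norm_nonneg _) hy 2) hL.le
    have h7 : ip (gr q) (x + t • (o - x) - q) = ip (gr q) (x - q) + t * ip (gr q) (o - x) := by
      rw [ip_eq, ip_eq, ip_eq, ← inner_smul_right, ← inner_add_right]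
      congr 1
      abel
    have h8 : 0 ≤ ‖gr q‖ * r := by positivity
    have h9 : 5 * ‖gr q‖ * r ≤ ip (gr q) (x + t • (o - x) - q) := by
      rw [h7, hsplit]
      nlinarith
    have h10 := mul_le_mul_of_nonneg_right hc hr.le
    nlinarith

end RInS

open RInS in
theorem sInS : SInS := by
  intro ρ gr L c₀ β R h
  have hL := h.hL
  have hc := h.hc
  have hβ := h.hβ
  have hρ : Continuous ρ := by
    refine (LipschitzWith.of_dist_le_mul (K := ⟨L, hL.le⟩) fun x y => ?_).continuous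
    rw [Real.dist_eq, dist_eq_norm]
    exact h.lip y x
  refine ⟨min (c₀ / (216 * L)) (β / (12 * L)), by positivity, ?_⟩
  rintro β₀ ⟨hb0, -⟩ r ⟨hr, hr0⟩ q ⟨z, hz, hz0⟩
  have hr1 : 216 * L * r ≤ c₀ := by
    have := (le_div_iff₀ (by positivity)).1 (hr0.trans (min_le_left _ _))
    linarith
  have hr2 : 12 * L * r ≤ β := by
    have := (le_div_iff₀ (by positivity)).1 (hr0.trans (min_le_right _ _))
    linarith
  have hLr : 0 < L * r := mul_pos hL hr
  have hzq : ‖z - q‖ ≤ r := by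
    rw [mem_ball, dist_eq_norm] at hz
    exact hz.le
  have hVo : IsOpen (ball q (12 * r) ∩ {z | -β₀ < ρ z}) :=
    isOpen_ball.inter (isOpen_lt continuous_const hρ)
  have hcl : closure (ball q r ∩ {z | 0 < ρ z}) ⊆ ball q (12 * r) ∩ {z | -β₀ < ρ z} := by
    have h1 : IsClosed (closedBall q r ∩ {z | 0 ≤ ρ z}) :=
      isClosed_closedBall.inter (isClosed_le continuous_const hρ)
    refine (closure_minimal (inter_subset_inter ball_subset_closedBall fun w hw => ?_) h1).trans
      (inter_subset_inter (closedBall_subset_ball (by linarith)) fun w hw => ?_)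
    · exact le_of_lt (show 0 < ρ w from hw)
    · exact lt_of_lt_of_le (show -β₀ < 0 by linarith) (show 0 ≤ ρ w from hw)
  rcases le_or_gt (ρ q) β with hq | hq
  · have hq1 : |ρ q| ≤ β := by
      have h1 := (abs_le.1 (h.lip q z)).2
      have h2 := mul_le_mul_of_nonneg_left hzq hL.le
      have h3 : 0 < ρ z := hz0
      exact abs_le.2 ⟨by linarith, hq⟩
    have hg := h.low q hq1
    have hg0 : 0 < ‖gr q‖ := hc.trans_le hg
    refine ⟨_, ball (q + (10 * r / ‖gr q‖) • gr q) r, hVo, isBounded_ball.subset inter_subset_left,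
      hcl, inter_subset_right, isOpen_ball, nonempty_ball.2 hr, fun o ho x hx => ?_⟩
    rw [mem_ball, dist_eq_norm] at ho
    have e : o - q = (o - (q + (10 * r / ‖gr q‖) • gr q)) + (10 * r / ‖gr q‖) • gr q := by abel
    have hn : ‖(10 * r / ‖gr q‖) • gr q‖ = 10 * r := by
      rw [norm_smul, Real.norm_of_nonneg (by positivity), div_mul_cancel₀ _ hg0.ne']
    have ho1 : ‖o - q‖ < 12 * r := by
      rw [e]
      linarith [norm_add_le (o - (q + (10 * r / ‖gr q‖) • gr q)) ((10 * r / ‖gr q‖) • gr q)]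
    have ho2 : 9 * ‖gr q‖ * r ≤ ip (gr q) (o - q) := by
      have h1 := (abs_le.1 (abs_ip (gr q) (o - (q + (10 * r / ‖gr q‖) • gr q)))).1
      have h2 := mul_le_mul_of_nonneg_left ho.le hg0.le
      have h3 : 10 * r / ‖gr q‖ * ‖gr q‖ ^ 2 = 10 * ‖gr q‖ * r := by field_simp
      rw [e, ip_eq, inner_add_right, ← ip_eq, inner_smul_right, real_inner_self_eq_norm_sq, h3]
      linarith
    have hoB : o ∈ ball q (12 * r) := by rwa [mem_ball, dist_eq_norm]
    intro y hy
    have hyB : y ∈ ball q (12 * r) := (convex_ball q (12 * r)).segment_subset hoB hx.1 hy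
    refine ⟨hyB, ?_⟩
    rw [segment_symm, segment_eq_image'] at hy
    obtain ⟨t, ⟨ht0, ht1⟩, rfl⟩ := hy
    have hx1 := hx.1
    rw [mem_ball, dist_eq_norm] at hyB hx1
    exact lt_of_lt_of_le (lt_min (show -β₀ < ρ x from hx.2) (by linarith))
      (star h hr (hr1.trans hg) hzq hz0 ho2 ho1.le hx1.le ht0 ht1 hyB.le)
  · have hsub : ball q (12 * r) ⊆ {z | -β₀ < ρ z} := by
      intro w hw
      rw [mem_ball, dist_eq_norm] at hw
      have h1 := (abs_le.1 (h.lip q w)).1
      have h2 := mul_le_mul_of_nonneg_left hw.le hL.le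
      change -β₀ < ρ w
      linarith
    refine ⟨ball q (12 * r), ball q (12 * r), isOpen_ball, isBounded_ball,
      hcl.trans inter_subset_left, hsub, isOpen_ball, nonempty_ball.2 (by linarith),
      fun o ho x hx => (convex_ball q (12 * r)).segment_subset ho hx⟩

end Pool.Agent.MP_20201c_gt.H42
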