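import Pool.Agent.MP_20201c_gt.H42.Spec

/-! Reduction mod two of polygonal measures and the mass of polyhedral chains. -/

open MeasureTheory Set
open scoped ENNReal

namespace Pool.Agent.MP_20201c_gt.H42

open Pool.Agent.MP_20201c_gt.H91

namespace RRed

theorem sg_eq (a b : ℂ) : sg a b = (μH[1] : Measure ℂ).restrict (segment ℝ a b) := by
  ext U hU
  have e : U ∩ segment ℝ a b =
      AffineMap.lineMap a b '' {t : ℝ | t ∈ Icc (0 : ℝ) 1 ∧ a + t • (b - a) ∈ U} := by
    ext z
    constructor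
    · rintro ⟨h1, h2⟩
      obtain ⟨t, ht, rfl⟩ := m1_seg_ex h2
      exact ⟨t, ⟨ht, h1⟩, by rw [AffineMap.lineMap_apply_module', add_comm]⟩
    · rintro ⟨t, ⟨ht, h1⟩, rfl⟩
      rw [AffineMap.lineMap_apply_module', add_comm]
      exact ⟨h1, m1_seg_mem a b ht⟩
  rw [Measure.restrict_apply hU, e, hausdorffMeasure_lineMap_image,
    hausdorffMeasure_real, sg_apply a b hU, ENNReal.smul_def, smul_eq_mul, ← edist_nndist,
    edist_dist, dist_comm, dist_eq_norm]

theorem res_sum {ι : Type} (s : Finset ι) (μ : ι → Ms) (C : Set ℂ) :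
    (∑ i ∈ s, μ i).restrict C = ∑ i ∈ s, (μ i).restrict C :=
  map_sum (Measure.restrictₗ C) μ s

theorem poly_in {μ : Ms} (h : Poly univ μ) {C : Set ℂ} (hC : Convex ℝ C) (hm : MeasurableSet C) :
    Poly univ (μ.restrict C) := by
  obtain ⟨m, a, b, -, rfl⟩ := h
  rw [msr, res_sum]
  refine Poly.sum _ fun i _ => ?_
  rcases sg_restrict_convex (a i) (b i) hC hm with h | ⟨a', -, b', -, h⟩
  · rw [h]; exact Poly.zero _
  · rw [h]; exact Poly.sg (mem_univ _) (mem_univ _)

theorem split3 (a b : ℂ) {u v : ℝ} (hu : 0 ≤ u) (huv : u ≤ v) (hv : v ≤ 1) :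
    sg a b = sg (a + u • (b - a)) (a + v • (b - a)) +
      (sg a (a + u • (b - a)) + sg (a + v • (b - a)) b) := by
  have h1 : a + u • (b - a) ∈ segment ℝ a (a + v • (b - a)) := by
    have := image_segment ℝ (AffineMap.lineMap a b : ℝ →ᵃ[ℝ] ℂ) 0 v
    rw [AffineMap.lineMap_apply_zero, AffineMap.lineMap_apply_module', add_comm] at this
    rw [← this, segment_eq_Icc (hu.trans huv)]
    exact ⟨u, ⟨hu, huv⟩, by rw [AffineMap.lineMap_apply_module', add_comm]⟩
  rw [sg_split (m1_seg_mem a b ⟨hu.trans huv, hv⟩), sg_split h1]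
  abel

theorem poly_out {μ : Ms} (h : Poly univ μ) {C : Set ℂ} (hC : Convex ℝ C) (hm : MeasurableSet C) :
    Poly univ (μ.restrict Cᶜ) := by
  obtain ⟨m, a, b, -, rfl⟩ := h
  rw [msr, res_sum]
  refine Poly.sum _ fun i _ => ?_
  have e := Measure.restrict_add_restrict_compl (μ := sg (a i) (b i)) hm
  have p : ∀ x y : ℂ, Poly univ (sg x y) := fun _ _ => Poly.sg (mem_univ _) (mem_univ _)
  rcases sg_restrict_convex (a i) (b i) hC hm with h | ⟨a', ⟨ha, -⟩, b', ⟨hb, -⟩, h⟩
  · rw [h, zero_add] at e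
    rw [e]; exact p _ _
  · obtain ⟨u, hu, rfl⟩ := m1_seg_ex ha
    obtain ⟨v, hv, rfl⟩ := m1_seg_ex hb
    rw [h] at e
    rcases le_total u v with k | k
    · rw [(Measure.add_right_inj _ _ _).1 (e.trans (split3 _ _ hu.1 k hv.2))]
      exact (p _ _).add (p _ _)
    · rw [sg_comm (a i + u • _)] at e
      rw [(Measure.add_right_inj _ _ _).1 (e.trans (split3 _ _ hv.1 k hu.2))]
      exact (p _ _).add (p _ _)

theorem poly_outs {μ : Ms} (h : Poly univ μ) {ι : Type} (s : Finset ι) (a b : ι → ℂ) :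
    Poly univ (μ.restrict (⋃ i ∈ s, segment ℝ (a i) (b i))ᶜ) := by
  classical
  induction s using Finset.induction_on with
  | empty => simpa using h
  | insert i s _ ih =>
    rw [Finset.set_biUnion_insert, compl_union,
      ← Measure.restrict_restrict (m1_seg_meas _ _).compl]
    exact poly_out ih (convex_segment _ _) (m1_seg_meas _ _)

theorem poly_inter {A B : Set ℂ} (hA : MeasurableSet A)
    (pA : Poly univ ((μH[1] : Measure ℂ).restrict A))
    (pB : Poly univ ((μH[1] : Measure ℂ).restrict B)) :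
    Poly univ ((μH[1] : Measure ℂ).restrict (A ∩ B)) := by
  obtain ⟨m, a, b, -, e⟩ := pB
  rw [← Measure.restrict_restrict hA, e, msr, res_sum]
  refine Poly.sum _ fun i _ => ?_
  rw [sg_eq, Measure.restrict_comm hA]
  exact poly_in pA (convex_segment _ _) (m1_seg_meas _ _)

theorem poly_diff {A B : Set ℂ} (hB : MeasurableSet B)
    (pA : Poly univ ((μH[1] : Measure ℂ).restrict A))
    (pB : Poly univ ((μH[1] : Measure ℂ).restrict B)) :
    Poly univ ((μH[1] : Measure ℂ).restrict (A \ B)) := by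
  obtain ⟨m, a, b, -, e⟩ := pB
  have hm : MeasurableSet (⋃ i ∈ (Finset.univ : Finset (Fin m)), segment ℝ (a i) (b i)) :=
    Finset.measurableSet_biUnion _ fun i _ => m1_seg_meas _ _
  have h := poly_outs pA Finset.univ a b
  rw [Measure.restrict_restrict hm.compl] at h
  have he : B =ᵐ[(μH[1] : Measure ℂ)]
      ⋃ i ∈ (Finset.univ : Finset (Fin m)), segment ℝ (a i) (b i) := by
    refine ae_eq_set.2 ⟨?_, ?_⟩
    · rw [sdiff_eq_compl_inter, ← Measure.restrict_apply hm.compl, e, msr, Measure.finsetSum_apply]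
      exact Finset.sum_eq_zero fun i hi => sg_of_disjoint
        (disjoint_compl_right_iff_subset.2 (subset_biUnion_of_mem
          (u := fun i => segment ℝ (a i) (b i)) (Finset.mem_coe.2 hi)))
    · have h0 : msr a b Bᶜ = 0 := by
        rw [← e, Measure.restrict_apply hB.compl, compl_inter_self, measure_empty]
      rw [msr, Measure.finsetSum_apply, Finset.sum_eq_zero_iff] at h0
      rw [sdiff_eq, iUnion₂_inter]
      refine (measure_biUnion_null_iff (Finset.univ : Finset (Fin m)).countable_toSet).2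
        fun i hi => ?_
      rw [inter_comm, ← Measure.restrict_apply hB.compl, ← sg_eq]
      exact h0 i hi
  rw [sdiff_eq_compl_inter, Measure.restrict_congr_set (he.compl.inter (ae_eq_refl A))]
  exact h

open Classical in
theorem dens {ι : Type} (s : Finset ι) (a b : ι → ℂ) :
    Measurable (fun z => ((∑ i ∈ s, if z ∈ segment ℝ (a i) (b i) then 1 else 0 : ℕ) : ℝ≥0∞)) ∧
    ∑ i ∈ s, sg (a i) (b i) = (μH[1] : Measure ℂ).withDensity
      fun z => ((∑ i ∈ s, if z ∈ segment ℝ (a i) (b i) then 1 else 0 : ℕ) : ℝ≥0∞) := by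
  have e : (fun z => ((∑ i ∈ s, if z ∈ segment ℝ (a i) (b i) then 1 else 0 : ℕ) : ℝ≥0∞)) =
      ∑ i ∈ s, (segment ℝ (a i) (b i)).indicator 1 := by
    ext z
    simp only [Nat.cast_sum, Finset.sum_apply, indicator, Pi.one_apply, Nat.cast_ite, Nat.cast_one,
      Nat.cast_zero]
  have hm : ∀ i, Measurable ((segment ℝ (a i) (b i)).indicator (1 : ℂ → ℝ≥0∞)) := fun i =>
    measurable_one.indicator (m1_seg_meas _ _)
  rw [e]
  clear e
  induction s using Finset.induction_on with
  | empty => exact ⟨measurable_zero, by simp⟩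
  | insert i s hi ih =>
    rw [Finset.sum_insert hi, Finset.sum_insert hi, withDensity_add_left (hm i),
      withDensity_indicator_one (m1_seg_meas _ _), ← ih.2, sg_eq]
    exact ⟨(hm i).add ih.1, rfl⟩

theorem poly_dens {μ : Ms} (h : Poly univ μ) : ∃ n : ℂ → ℕ, Measurable (fun z => (n z : ℝ≥0∞)) ∧
    μ = (μH[1] : Measure ℂ).withDensity fun z => (n z : ℝ≥0∞) := by
  obtain ⟨m, a, b, -, rfl⟩ := h
  exact ⟨_, dens Finset.univ a b⟩

open Classical in
theorem odd_of_car {P : PC 1} {z : ℂ} (hz : z ∈ car P) :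
    Odd (∑ σ ∈ sup P, if z ∈ segment ℝ (σ 0) (σ 1) then 1 else 0 : ℕ) := by
  rw [← ZMod.natCast_ne_zero_iff_odd, Nat.cast_sum]
  rw [car, mem_ofPred_eq, ← sum_sx P, map_sum] at hz
  convert hz using 2 with σ
  have h : z ∈ car (sx σ) ↔ z ∈ segment ℝ (σ 0) (σ 1) := by rw [car_sx, hl_two]
  rw [car, mem_ofPred_eq] at h
  rcases z2 (mult z (sx σ)) with k | k
  · rw [if_neg fun h' => h.2 h' k, k, Nat.cast_zero]
  · rw [if_pos (h.1 (k ▸ one_ne_zero)), k, Nat.cast_one]

end RRed

open RRed

theorem sLe : SLe := by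
  rintro P μ hμ ⟨κ, κ', h1, h2, e⟩ U hU
  have hf := (((ms_poly P).add h1).add h1).finite
  obtain ⟨p1, p2⟩ := dens (sup P) (fun σ => σ 0) fun σ => σ 1
  obtain ⟨m, m1, rfl⟩ := poly_dens hμ
  obtain ⟨k, k1, rfl⟩ := poly_dens h1
  obtain ⟨k', k2, rfl⟩ := poly_dens h2
  rw [ms, p2, ← withDensity_add_left p1, ← withDensity_add_left (p1.add k1)] at e hf
  rw [← withDensity_add_left m1, ← withDensity_add_left (m1.add k2)] at e
  have hae := (withDensity_eq_iff ((p1.add k1).add k1).aemeasurable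
    ((m1.add k2).add k2).aemeasurable (by
      rw [← setLIntegral_univ, ← withDensity_apply _ MeasurableSet.univ]
      exact measure_ne_top _ _)).1 e
  rw [pm_one, withDensity_apply _ hU, ← Measure.restrict_apply (car_meas P),
    ← lintegral_indicator_one (car_meas P)]
  refine lintegral_mono_ae (ae_restrict_of_ae (hae.mono fun z hz => ?_))
  by_cases h : z ∈ car P
  · obtain ⟨c, hc⟩ := odd_of_car h
    simp only [Pi.add_apply] at hz
    rw [hc] at hz
    have h3 : 2 * c + 1 + k z + k z = m z + k' z + k' z := by exact_mod_cast hz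
    rw [indicator_of_mem h, Pi.one_apply]
    exact_mod_cast (show 1 ≤ m z by omega)
  · rw [indicator_of_notMem h]
    exact zero_le

theorem sRed : SRed := by
  have key : ∀ P : PC 1, Poly univ ((μH[1] : Measure ℂ).restrict (car P)) ∧
      Eq2 (ms P) ((μH[1] : Measure ℂ).restrict (car P)) := by
    intro P
    induction P using pc_ind with
    | h0 =>
      rw [car_zero, Measure.restrict_empty, ms_zero]
      exact ⟨Poly.zero _, Eq2.refl _⟩
    | h1 σ =>
      rw [car_sx, hl_two, ← sg_eq, ms_sx]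
      exact ⟨Poly.sg (mem_univ _) (mem_univ _), Eq2.refl _⟩
    | h2 P Q h h' =>
      have hP := car_meas P
      have hQ := car_meas Q
      have e : (μH[1] : Measure ℂ).restrict (symmDiff (car P) (car Q)) =
          (μH[1] : Measure ℂ).restrict (car P \ car Q) +
            (μH[1] : Measure ℂ).restrict (car Q \ car P) :=
        Measure.restrict_union disjoint_sdiff_sdiff (hQ.diff hP)
      rw [car_add, e]
      refine ⟨(poly_diff hQ h.1 h'.1).add (poly_diff hP h'.1 h.1),
        (ms_add P Q).trans ((h.2.add h'.2).trans ((Eq2.of_eq ?_).trans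
          (Eq2.cancel _ (poly_inter hP h.1 h'.1))))⟩
      rw [← Measure.restrict_inter_add_sdiff (car P) hQ,
        ← Measure.restrict_inter_add_sdiff (car Q) hP, inter_comm (car Q)]
      abel
  intro P
  exact ⟨_, (key P).1, (key P).2, fun U hU => by
    rw [Measure.restrict_apply hU, pm_one, inter_comm]⟩

end Pool.Agent.MP_20201c_gt.H42
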