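import Pool.Agent.MP_20201c_gt.H42.Spec2
import Pool.Agent.MP_20201c_gt.H91.MolA
import Pool.Agent.MP_20201c_gt.H91.SideP

/-! Mollification in charts: the length bound and the bad set. -/

open MeasureTheory Set Filter Topology Metric
open scoped ENNReal

namespace Pool.Agent.MP_20201c_gt.H42

open Pool.Agent.MP_20201c_gt.H91

namespace RTMol

theorem mol_congr {ψ : ℂ → ℝ} {h' : ℝ} (hψ : Bump ψ h') (h : ℝ) (v : Vt) {F F' : Set ℂ}
    (hF : MeasurableSet F) (hF' : MeasurableSet F')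
    (he : ∀ᵐ y, y ∈ ball (gp h v) (4 * h') → (y ∈ F ↔ y ∈ F')) : mol ψ h F v = mol ψ h F' v := by
  have hp := hψ.pos
  rw [mol, mol, ← integral_indicator hF, ← integral_indicator hF']
  refine integral_congr_ae ?_
  filter_upwards [he] with y hy
  by_cases e : y ∈ ball (gp h v) (4 * h')
  · by_cases e' : y ∈ F'
    · rw [indicator_of_mem e', indicator_of_mem ((hy e).2 e')]
    · rw [indicator_of_notMem e', indicator_of_notMem (mt (hy e).1 e')]
  · rw [mem_ball, dist_comm, dist_eq_norm, not_lt] at e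
    simp [indicator, hψ.supp _ (show h' ≤ ‖gp h v - y‖ by linarith)]

end RTMol

theorem pMol : PMol := by
  intro ψ h' ζ hψ hζ
  obtain ⟨L, hL, hl⟩ := hψ.lip
  obtain ⟨L', hL', hl'⟩ := hψ.tay
  have hp := hψ.pos
  refine ⟨min 1 (ζ / ((L + L') * 2 * (4 * (h' + 2) ^ 2))), by positivity,
    fun h hh μ E U A V B P hT hU => ?_⟩
  have h1 : h ≤ 1 := hh.2.trans (min_le_left _ _)
  have h2 := hh.2.trans (min_le_right _ _)
  rw [le_div_iff₀ (by positivity)] at h2
  have h0 := hh.1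
  have b1 : 0 ≤ L * (2 * h) * (4 * (h' + 2) ^ 2) := by positivity
  have b2 : 0 ≤ L' * (2 * h) * (4 * (h' + 2) ^ 2) := by positivity
  choose u hu hu' using fun τ : Tri =>
    ma_unit (Nt (gp h ∘ tv τ) (mol ψ h (symmDiff E (B τ)) ∘ tv τ))
  set c : ℝ := h ^ 2 / (2 * (1 + ζ)) with hc
  set w : Tri → ℂ := fun τ => ⟨-(u τ).im, (u τ).re⟩ with hw
  have hw1 : ∀ τ, ‖w τ‖ ≤ 1 := fun τ => by
    refine le_trans (le_of_eq ?_) (hu τ)
    rw [Complex.norm_def, Complex.norm_def]
    simp [hw, Complex.normSq_apply, add_comm]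
  have p3 : ∀ x : ℂ, tsupport (fun y => c * ψ (x - y)) ⊆ cb x h' := fun x => by
    refine closure_minimal (fun y hy => ?_) isClosed_closedBall
    by_contra a1
    rw [mem_closedBall, dist_comm, dist_eq_norm, not_le] at a1
    exact hy (by beta_reduce; rw [hψ.supp _ a1.le, mul_zero])
  have q1 := hT Tri A V B (fun τ y => c * ψ (gp h τ.1 - y)) w
    (fun τ hτ => ⟨(hU τ hτ).1, (hU τ hτ).2.1, (hU τ hτ).2.2.1,
      contDiff_const.mul ((hψ.smooth.of_le (by norm_num)).comp (contDiff_const.sub contDiff_id)),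
      (isCompact_closedBall _ _).of_isClosed_subset (isClosed_tsupport _) (p3 _),
      (p3 _).trans (hU τ hτ).2.2.2, fun y => mul_nonneg (by positivity) (hψ.nonneg _), hw1 τ⟩)
    fun y => by
      have a1 : ∑ τ ∈ A, c * ψ (gp h τ.1 - y) =
          (∑ τ ∈ A, h ^ 2 * ψ (gp h τ.1 - y)) / (2 * (1 + ζ)) := by
        rw [Finset.sum_div]
        exact Finset.sum_congr rfl fun τ _ => by rw [hc]; ring
      rw [a1, div_le_one (by positivity)]
      have a2 := ma_fst A (g := fun v => h ^ 2 * ψ (gp h v - y)) fun v =>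
        mul_nonneg (sq_nonneg h) (hψ.nonneg _)
      have a3 := ma_riemann hψ hL hl h0 h1 (A.image Prod.fst) y
      linarith
  have q2 : 2 * ((1 + ζ) * ∑ τ ∈ A, ∫ z in symmDiff E (B τ),
      dvg (fun y => (c * ψ (gp h τ.1 - y)) • w τ) z) = ∑ τ ∈ A, ∫ y in symmDiff E (B τ), h ^ 2 *
      (fderiv ℝ ψ (gp h τ.1 - y) 1 * (u τ).im -
        fderiv ℝ ψ (gp h τ.1 - y) Complex.I * (u τ).re) := by
    rw [← mul_assoc, Finset.mul_sum]
    refine Finset.sum_congr rfl fun τ _ => ?_
    rw [← integral_const_mul]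
    refine integral_congr_ae (ae_of_all _ fun y => ?_)
    have a := ma_dvg hψ {τ} (fun τ => gp h τ.1) w c y
    simp only [Finset.sum_singleton] at a
    beta_reduce
    rw [a]
    simp only [hc, hw]
    field_simp
    ring
  have q3 : ∑ τ ∈ A, ‖Nt (gp h ∘ tv τ) (mol ψ h (symmDiff E (B τ)) ∘ tv τ)‖ / 2 ≤
      (1 + ζ) * (∑ τ ∈ A, ∫ z in symmDiff E (B τ),
        dvg (fun y => (c * ψ (gp h τ.1 - y)) • w τ) z) + ζ * (A.card * h ^ 2) := by
    have a1 := Finset.sum_le_sum fun τ (_ : τ ∈ A) =>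
      ma_tri hψ hL' hl' h0 h1 (symmDiff E (B τ)) τ (hu τ)
    simp only [hu'] at a1
    rw [Finset.sum_add_distrib, ← q2, Finset.sum_const, nsmul_eq_mul] at a1
    rw [← Finset.sum_div]
    have a2 : L' * (2 * h) * (4 * (h' + 2) ^ 2) ≤ ζ := by linarith
    have a3 := mul_le_mul_of_nonneg_right a2 (show 0 ≤ (A.card : ℝ) * h ^ 2 by positivity)
    linarith
  refine (ENNReal.ofReal_le_ofReal q3).trans (ENNReal.ofReal_add_le.trans (add_le_add_left ?_ _))
  rw [ENNReal.ofReal_mul (by positivity)]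
  exact mul_le_mul_right q1 _

open RTMol in
theorem pBad : PBad := by
  rintro μ z ⟨m, a, b, -, hμ⟩ hz
  have hK : IsCompact (⋃ i, segment ℝ (a i) (b i)) := isCompact_iUnion fun i => by
    rw [segment_eq_image]
    exact isCompact_Icc.image (by fun_prop)
  have h0 : volume (⋃ i, segment ℝ (a i) (b i)) = 0 :=
    measure_iUnion_null fun i => sp_seg_null _ _
  have ht := tendsto_measure_cthickening_of_isCompact (μ := volume) hK
  rw [h0] at ht
  obtain ⟨δ, hδ, hb⟩ := Metric.eventually_nhds_iff.1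
    (ht.eventually (ge_mem_nhds (ENNReal.ofReal_pos.2 hz)))
  refine ⟨δ / 7, by positivity, fun h' hh' ψ hψ h hh Ω E 𝒯 B hE hT => ?_⟩
  have p1 := hh'.1
  have p2 := hh.1
  have p3 := hh.2
  have hv := hb (y := 6 * h') (by
    rw [Real.dist_eq, sub_zero, abs_of_pos (by positivity)]
    linarith [hh'.2])
  refine le_trans (measure_mono_ae (t := DS.Bad Ω ψ h h' z E ∪
    cthickening (6 * h') (⋃ i, segment ℝ (a i) (b i))) ?_)
    ((measure_union_le _ _).trans (add_le_add le_rfl hv))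
  have key : ∀ τ ∈ 𝒯, ∀ᵐ x, τ.1 = vtx h x →
      z ≤ |(symmDiff E (B τ)).indicator (fun _ => (1 : ℝ)) x - mol ψ h (symmDiff E (B τ)) τ.1| →
      x ∈ DS.Bad Ω ψ h h' z E ∪ cthickening (6 * h') (⋃ i, segment ℝ (a i) (b i)) := by
    intro τ hτ
    obtain ⟨t1, t2⟩ := hT τ hτ
    have near : ∀ x, τ.1 = vtx h x → ‖x - gp h τ.1‖ ≤ 2 * h := fun x hx =>
      hx ▸ DS.vtx_near p2 x
    have nb : ∀ x, τ.1 = vtx h x → x ∈ ball (gp h τ.1) (4 * h') := fun x hx => by
      rw [mem_ball_iff_norm]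
      linarith [near x hx]
    by_cases hd : Disjoint (ball (gp h τ.1) (4 * h')) (⋃ i, segment ℝ (a i) (b i))
    · rcases sp_loc (t2.rep hμ) _ _ subset_rfl hd with e | e
      · have e1 := mol_congr hψ h τ.1 (hE.symmDiff t2.1) hE.compl (by
          filter_upwards [e] with y hy hy'
          simp [mem_symmDiff, hy hy'])
        filter_upwards [e] with x hx hx' hz'
        refine Or.inl ⟨DS.sq_in p2 p3 t1 hx', hz'.trans (le_of_eq ?_)⟩
        rw [e1, mol_compl hψ h hE, ← hx', ← abs_neg]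
        congr 1
        by_cases e2 : x ∈ E <;> simp [mem_symmDiff, e2, hx (nb x hx')]
      · have e1 := mol_congr hψ h τ.1 (hE.symmDiff t2.1) hE (by
          filter_upwards [e] with y hy hy'
          simp [mem_symmDiff, show y ∉ B τ from hy hy'])
        filter_upwards [e] with x hx hx' hz'
        refine Or.inl ⟨DS.sq_in p2 p3 t1 hx', hz'.trans (le_of_eq ?_)⟩
        rw [e1, ← hx']
        congr 2
        by_cases e2 : x ∈ E <;> simp [mem_symmDiff, e2, show x ∉ B τ from hx (nb x hx')]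
    · obtain ⟨y, y1, y2⟩ := not_disjoint_iff.1 hd
      refine ae_of_all _ fun x hx _ => Or.inr (mem_cthickening_of_dist_le x y _ _ y2 ?_)
      have a1 := dist_triangle x (gp h τ.1) y
      rw [dist_eq_norm x (gp h τ.1)] at a1
      rw [mem_ball, dist_comm] at y1
      linarith [near x hx]
  filter_upwards [(Finset.eventually_all 𝒯).2 key] with x hx
  rintro ⟨τ, hτ, e, hz'⟩
  exact hx τ hτ e hz'

end Pool.Agent.MP_20201c_gt.H42
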