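import Pool.Agent.MP_20201c_gt.H42.Kit
import Pool.Agent.MP_20201c_gt.H91.StM

/-! Statements of the steps that compare flat chains with measurable sets. -/

open MeasureTheory Set Filter Topology Metric
open scoped ENNReal

namespace Pool.Agent.MP_20201c_gt.H42

open Pool.Agent.MP_20201c_gt.H91

/-- In `Ω` the flat chain `T` is `μ` plus the boundary of `S`. -/
def Rel (Ω : Set ℂ) (T : FC 1) (μ : Ms) (S : Set ℂ) : Prop :=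
  Poly univ μ ∧ MeasurableSet S ∧ ∀ K, IsCompact K → K ⊆ Ω → ∀ ε : ℝ, 0 < ε →
    ∃ (P : PC 1) (V E : Set ℂ), IsOpen V ∧ K ⊆ V ∧ dist (P : FC 1) T < ε ∧
      NoB V (ms P + μ) ∧ Side V (ms P + μ) E ∧ volume (symmDiff E S ∩ V) < ENNReal.ofReal ε

/-- `T` is the boundary of the set `S`. -/
def IsBd (S : Set ℂ) (T : FC 1) : Prop :=
  ∀ Q : PC 2, ENNReal.ofReal (dist ((pbd Q : PC 1) : FC 1) T) ≤ volume (symmDiff (car Q) S)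

/-- `T` is the part of `μ` in `U`. -/
def IsRes (U : Set ℂ) (μ : Ms) (T : FC 1) : Prop :=
  ∀ K, IsCompact K → K ⊆ U → ∀ ε : ℝ, 0 < ε → ∃ (P : PC 1) (ν₁ ν₂ : Ms),
    dist (P : FC 1) T < ε ∧ Ins U P ∧ Poly univ ν₁ ∧ Out K ν₂ ∧ μ = ν₁ + ν₂ ∧ Eq2 (ms P) ν₁

/-! ### Polygonal chains -/

def SLe : Prop := ∀ (P : PC 1) (μ : Ms), Poly univ μ → Eq2 (ms P) μ →
  ∀ U, MeasurableSet U → pm P U ≤ μ U

def SRed : Prop := ∀ P : PC 1, ∃ ν : Ms, Poly univ ν ∧ Eq2 (ms P) ν ∧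
  ∀ U, MeasurableSet U → ν U = pm P U

def SConv : Prop := ∀ (V : Set ℂ) (P : PC 1), IsOpen V → Side V (ms P) ∅ → pm P V = 0

def SCM : Prop := ∀ (V : Set ℂ) (μ : Ms), IsOpen V → Side V μ ∅ → ∃ ν, Eq2 μ ν ∧ Out V ν

def SDense : Prop := ∀ U E : Set ℂ, IsOpen U → MeasurableSet E → E ⊆ U → volume E ≠ ∞ →
  ∀ ε : ℝ, 0 < ε → ∃ Q : PC 2, Ins U Q ∧ volume (symmDiff (car Q) E) < ENNReal.ofReal ε

/-- In an open triangle a set bounded by a polygon is polyhedral. -/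
def STri : Prop := ∀ (σ : Fin 3 → ℂ) (E : Set ℂ) (μ : Ms), NoB (interior (hl σ)) μ →
  Side (interior (hl σ)) μ E →
  ∃ Q : PC 2, Ins (hl σ) Q ∧ volume (symmDiff (car Q) E ∩ hl σ) = 0

def SApx : Prop := ∀ (U K E : Set ℂ) (μ : Ms), IsOpen U → IsCompact K → K ⊆ U → NoB U μ →
  Side U μ E → ∃ (Q : PC 2) (V : Set ℂ), Ins U Q ∧ IsOpen V ∧ K ⊆ V ∧ V ⊆ U ∧
    volume (symmDiff (car Q) E ∩ V) = 0 ∧ volume (car Q \ E) = 0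

def SGlue : Prop := ∀ (T : FC 1) (K : Set ℂ), IsCompact K → Disjoint (spt (fbd T)) K →
  ∀ ε : ℝ, 0 < ε → ∃ P : PC 1, dist (P : FC 1) T < ε ∧ Disjoint (car (pbd P)) K

/-! ### Geometry of the domain -/

def SFill : Prop := ∀ (ρ : ℂ → ℝ) (gr : ℂ → ℂ) (L c₀ β R : ℝ), Good ρ gr L c₀ β R →
  ∃ δ₀ C : ℝ, 0 < δ₀ ∧ 0 < C ∧ ∀ η ∈ Icc 0 (β / 4), ∀ δ ∈ Ioc 0 δ₀, ∀ ν : Ms, Poly univ ν →
    ν univ ≤ ENNReal.ofReal δ → NoB {z | η < ρ z} ν →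
    ∃ D, Side {z | η < ρ z} ν D ∧ volume D ≤ ENNReal.ofReal (C * δ ^ 2)

def SConn : Prop := ∀ (ρ : ℂ → ℝ) (gr : ℂ → ℂ) (L c₀ β R : ℝ), Good ρ gr L c₀ β R →
  IsConnected {z | 0 < ρ z} → ∃ η₀ : ℝ, 0 < η₀ ∧ ∀ η ∈ Icc 0 η₀, IsPreconnected {z | η < ρ z}

def SNrm : Prop := ∀ (ρ : ℂ → ℝ) (gr : ℂ → ℂ) (L c₀ β R : ℝ), Good ρ gr L c₀ β R →
  ∃ η₀ : ℝ, 0 < η₀ ∧ ∀ η ∈ Icc 0 η₀, ∀ μ : Ms, Poly univ μ → NoB {z | η < ρ z} μ →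
    ∃ ν, Out {z | η < ρ z} ν ∧ NoB {z | -η₀ < ρ z} (μ + ν)

def SPush : Prop := ∀ (ρ : ℂ → ℝ) (gr : ℂ → ℂ) (L c₀ β R : ℝ), Good ρ gr L c₀ β R →
  ∃ η₀ : ℝ, 0 < η₀ ∧ ∀ ν : Ms, Out {z | η₀ < ρ z} ν → NoB {z | 0 < ρ z} ν →
    ∃ A, Side {z | 0 < ρ z} ν A

def SExt : Prop := ∀ (ρ : ℂ → ℝ) (gr : ℂ → ℂ) (L c₀ β R : ℝ), Good ρ gr L c₀ β R →
  IsConnected {z | 0 < ρ z} → ∃ η₀ : ℝ, 0 < η₀ ∧ ∀ η ∈ Ioc 0 η₀, ∀ (ν : Ms) (A : Set ℂ),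
    NoB {z | 0 < ρ z} ν → Side {z | η < ρ z} ν A →
    ∃ A', Side {z | 0 < ρ z} ν A' ∧ volume (symmDiff A' A ∩ {z | η < ρ z}) = 0

/-- Polygons bound in star shaped sets. -/
def SStar : Prop := ∀ (V V' O : Set ℂ) (μ : Ms), IsOpen V → Bornology.IsBounded V →
  closure V' ⊆ V → IsOpen O → O.Nonempty → (∀ o ∈ O, ∀ x ∈ V, segment ℝ o x ⊆ V) →
  Poly univ μ → NoB V μ → ∃ A, Side V' μ A

def SInS : Prop := ∀ (ρ : ℂ → ℝ) (gr : ℂ → ℂ) (L c₀ β R : ℝ), Good ρ gr L c₀ β R →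
  ∃ r₀ : ℝ, 0 < r₀ ∧ ∀ β₀ ∈ Ioc 0 (β / 2), ∀ r ∈ Ioc 0 r₀, ∀ q : ℂ,
    (ball q r ∩ {z | 0 < ρ z}).Nonempty → ∃ V O : Set ℂ, IsOpen V ∧ Bornology.IsBounded V ∧
      closure (ball q r ∩ {z | 0 < ρ z}) ⊆ V ∧ V ⊆ {z | -β₀ < ρ z} ∧ IsOpen O ∧ O.Nonempty ∧
      ∀ o ∈ O, ∀ x ∈ V, segment ℝ o x ⊆ V

def SLoc : Prop := ∀ (U E : Set ℂ) (ν : Ms), IsOpen U → Poly univ ν → MeasurableSet E →
  NoB U ν → (∀ x ∈ U, ∃ r, 0 < r ∧ Side (ball x r) ν E) → Side U ν E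

/-! ### Flat chains -/

def SBd : Prop := ∀ S : Set ℂ, MeasurableSet S → volume S ≠ ∞ → ∃ T, IsBd S T

def SBd2 : Prop := ∀ (Ω S : Set ℂ) (T : FC 1), IsOpen Ω → Bornology.IsBounded Ω →
  MeasurableSet S → IsBd (S ∩ Ω) T →
  T ∈ Zc Ω ∧ Rel Ω T 0 S ∧ ENNReal.ofReal ‖T‖ ≤ volume (S ∩ Ω)

def SRes : Prop := ∀ (U : Set ℂ) (μ : Ms), IsOpen U → Poly univ μ → ∃ T, IsRes U μ T

def SRes2 : Prop := ∀ (Ω : Set ℂ) (μ : Ms) (T : FC 1), IsOpen Ω → Poly univ μ → NoB Ω μ →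
  IsRes Ω μ T → T ∈ Zc Ω ∧ Rel Ω T μ ∅ ∧ ∀ U, MeasurableSet U → lm T U ≤ μ U

def SVan : Prop := ∀ (Ω : Set ℂ) (T : FC 1), IsOpen Ω → Rel Ω T 0 ∅ → Disjoint (spt T) Ω

def SCore : Prop := ∀ (Ω U K S : Set ℂ) (T : FC 1) (μ : Ms) (c : ℝ≥0∞), Rel Ω T μ S →
  IsCompact K → K ⊆ U → U ⊆ Ω → lm T U < c → ∀ ε : ℝ, 0 < ε → ∃ (ν : Ms) (V E : Set ℂ),
    Poly univ ν ∧ IsOpen V ∧ K ⊆ V ∧ ν K < c ∧ Side V (ν + μ) E ∧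
      volume (symmDiff E S ∩ V) < ENNReal.ofReal ε

def SLsc : Prop := ∀ (Ω V S A : Set ℂ) (T : FC 1) (μ : Ms), Rel Ω T μ S → IsOpen V → V ⊆ Ω →
  Side V μ A → per (symmDiff S A) V ≤ lm T V

def SCst : Prop := ∀ Ω S : Set ℂ, IsOpen Ω → IsPreconnected Ω → MeasurableSet S →
  (∀ x ∈ Ω, ∃ r, 0 < r ∧ per S (ball x r) = 0) → volume (S ∩ Ω) = 0 ∨ volume (Sᶜ ∩ Ω) = 0

def SW : Prop := ∀ (V E : Set ℂ) (ν : Ms) (g : ℂ → ℝ) (w : ℂ), IsOpen V → Side V ν E →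
  ContDiff ℝ 1 g → HasCompactSupport g → tsupport g ⊆ V → (∀ z, 0 ≤ g z) → ‖w‖ ≤ 1 →
  ∫ z in E, dvg (fun y => g y • w) z ≤ ∫ z, g z ∂ν

/-- Lower bound `c` for the mass in `U` of `μ` plus the boundary of `S`. -/
def TwB (μ : Ms) (S U : Set ℂ) (c : ℝ≥0∞) : Prop :=
  ∀ (ι : Type) (s : Finset ι) (V A : ι → Set ℂ) (g : ι → ℂ → ℝ) (w : ι → ℂ),
    (∀ i ∈ s, IsOpen (V i) ∧ V i ⊆ U ∧ Side (V i) μ (A i) ∧ ContDiff ℝ 1 (g i) ∧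
      HasCompactSupport (g i) ∧ tsupport (g i) ⊆ V i ∧ (∀ z, 0 ≤ g i z) ∧ ‖w i‖ ≤ 1) →
    (∀ z, ∑ i ∈ s, g i z ≤ 1) →
    ENNReal.ofReal (∑ i ∈ s, ∫ z in symmDiff S (A i), dvg (fun y => g i y • w i) z) ≤ c

def SLscW : Prop := ∀ (Ω U S : Set ℂ) (T : FC 1) (μ : Ms), Rel Ω T μ S → U ⊆ Ω →
  TwB μ S U (lm T U)

def SSeq : Prop := ∀ (ρ : ℂ → ℝ) (gr : ℂ → ℂ) (L c₀ β R : ℝ), Good ρ gr L c₀ β R →
  IsConnected {z | 0 < ρ z} → ∃ η₀ : ℝ, 0 < η₀ ∧ ∀ η ∈ Ioc 0 η₀, ∀ ε : ℝ, 0 < ε →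
    ∃ δ : ℝ, 0 < δ ∧ ∀ (T : FC 1) (P : PC 1) (μ : Ms), Disjoint (spt (fbd T)) {z | 0 < ρ z} →
      dist (P : FC 1) T < δ → NoB {z | η < ρ z} (ms P) → Poly univ μ → NoB {z | 0 < ρ z} μ →
      Side {z | η < ρ z} (ms P + μ) ∅ →
      ∃ S, Rel {z | 0 < ρ z} T μ S ∧ volume (S ∩ {z | η < ρ z}) ≤ ENNReal.ofReal ε

/-- Close polygonal chains differ by a small set. -/
def SNear : Prop := ∀ (ρ : ℂ → ℝ) (gr : ℂ → ℂ) (L c₀ β R : ℝ), Good ρ gr L c₀ β R →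
  ∃ δ₀ C : ℝ, 0 < δ₀ ∧ 0 < C ∧ ∀ η ∈ Icc 0 (β / 4), ∀ δ ∈ Ioc 0 δ₀, ∀ P : PC 1, ‖P‖ < δ →
    NoB {z | η < ρ z} (ms P) →
    ∃ D, Side {z | η < ρ z} (ms P) D ∧ volume D ≤ ENNReal.ofReal (C * δ)

def SEx : Prop := ∀ (ρ : ℂ → ℝ) (gr : ℂ → ℂ) (L c₀ β R : ℝ), Good ρ gr L c₀ β R →
  IsConnected {z | 0 < ρ z} → ∃ β₀ : ℝ, 0 < β₀ ∧
    ∀ T : FC 1, Disjoint (spt (fbd T)) {z | 0 < ρ z} →
      ∃ μ S, NoB {z | -β₀ < ρ z} μ ∧ Rel {z | 0 < ρ z} T μ S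

def SSm : Prop := ∀ (ρ : ℂ → ℝ) (gr : ℂ → ℂ) (L c₀ β R : ℝ), Good ρ gr L c₀ β R →
  IsConnected {z | 0 < ρ z} → ∀ ε : ℝ, 0 < ε → ∃ δ : ℝ, 0 < δ ∧
    ∀ T : FC 1, Disjoint (spt (fbd T)) {z | 0 < ρ z} → ‖T‖ < δ →
      ∃ S, Rel {z | 0 < ρ z} T 0 S ∧ volume (S ∩ {z | 0 < ρ z}) ≤ ENNReal.ofReal ε

/-! ### Charts on the grid -/

/-- Signs that compare the charts `B` of the vertices with each other. -/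
structure Signs (Ω : Set ℂ) (B : ℂ → Set ℂ) (h h' r : ℝ) (𝒯 : Finset Tri) (w : Ed → ℝ)
    (s : ℂ → Tri → ℝ) : Prop where
  hw : ∀ e, w e = 1 ∨ w e = -1
  hs : ∀ q τ, s q τ = 1 ∨ s q τ = -1
  pos : ∀ q, ∀ τ ∈ 𝒯, ‖gp h τ.1 - q‖ + 4 * h' ≤ r → s q τ = 1 →
    volume (symmDiff (B (gp h τ.1)) (B q) ∩ ball (gp h τ.1) (4 * h')) = 0
  neg : ∀ q, ∀ τ ∈ 𝒯, ‖gp h τ.1 - q‖ + 4 * h' ≤ r → s q τ = -1 →
    volume (symmDiff (B (gp h τ.1)) (B q)ᶜ ∩ ball (gp h τ.1) (4 * h')) = 0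
  mul : ∀ q, ∀ e ∈ inE 𝒯, ‖gp h (eT1 e).1 - q‖ + 4 * h' ≤ r → ‖gp h (eT2 e).1 - q‖ + 4 * h' ≤ r →
    w e = s q (eT1 e) * s q (eT2 e)

def SSigns : Prop := ∀ (Ω : Set ℂ) (μ : Ms) (B : ℂ → Set ℂ) (h h' r : ℝ) (𝒯 : Finset Tri),
  0 < h → h ≤ h' → 10 * h' ≤ r → (∀ q, Side (ball q r ∩ Ω) μ (B q)) →
  (∀ τ ∈ 𝒯, cb (gp h τ.1) (4 * h') ⊆ Ω) → ∃ w s, Signs Ω B h h' r 𝒯 w s

open Classical in
/-- The edges with sign `-1`. -/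
noncomputable def dW (w : Ed → ℝ) (𝒯 : Finset Tri) (pos : Vt → ℂ) : Ms :=
  ∑ e ∈ (inE 𝒯).filter (fun e => w e = -1), sg (pos e.1) (pos (eEnd e))

/-- The twisted edges are homologous to `μ` in the core `U`. -/
def SD : Prop := ∀ (Ω G U : Set ℂ) (μ : Ms) (B : ℂ → Set ℂ) (h h' r ε : ℝ) (𝒯 : Finset Tri)
  (w : Ed → ℝ) (s : ℂ → Tri → ℝ) (pos : Vt → ℂ), 0 < h → h ≤ h' → 20 * h' ≤ r → 10 * ε ≤ r →
  IsOpen U → IsOpen G → U ⊆ Ω → Ω ⊆ G → Poly univ μ → NoB Ω μ → PosOK h ε pos →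
  (∀ q, Side (ball q r ∩ Ω) μ (B q)) → Signs Ω B h h' r 𝒯 w s →
  (∀ e : Ed, ¬ (eT1 e ∈ 𝒯 ↔ eT2 e ∈ 𝒯) → Disjoint (segment ℝ (pos e.1) (pos (eEnd e))) G) →
  (∀ᵐ x : ℂ, x ∈ U → ∃ τ₀ ∈ 𝒯, τ₀.1 = vtx h x ∧ x ∈ hull pos τ₀ ∧
    ∀ τ ∈ 𝒯, τ ≠ τ₀ → x ∉ hull pos τ) →
  NoB G (dW w 𝒯 pos) ∧ ∃ A, Side U (dW w 𝒯 pos + μ) A ∧
    ∀ᵐ x : ℂ, x ∈ U → (x ∈ A ↔ x ∈ B (gp h (vtx h x)))

/-! ### Algebra of the relation `Rel` -/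

section Alg

variable {Ω S S' : Set ℂ} {T T' : FC 1} {μ μ' : Ms}

theorem Rel.add (h : Rel Ω T μ S) (h' : Rel Ω T' μ' S') :
    Rel Ω (T + T') (μ + μ') (symmDiff S S') := by
  refine ⟨h.1.add h'.1, h.2.1.symmDiff h'.2.1, fun K hK hΩ ε hε => ?_⟩
  obtain ⟨P, V, E, a1, a2, a3, a4, a5, a6⟩ := h.2.2 K hK hΩ _ (half_pos hε)
  obtain ⟨P', V', E', b1, b2, b3, b4, b5, b6⟩ := h'.2.2 K hK hΩ _ (half_pos hε)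
  have e : Eq2 (ms P + μ + (ms P' + μ')) (ms (P + P') + (μ + μ')) :=
    (Eq2.of_eq (add_add_add_comm _ _ _ _)).trans ((ms_add P P').symm.add (Eq2.refl _))
  have p := (ms_poly (P + P')).add (h.1.add h'.1)
  refine ⟨P + P', V ∩ V', symmDiff E E', a1.inter b1, subset_inter a2 b2, ?_,
    ((a4.mono inter_subset_left).add (b4.mono inter_subset_right) a5.poly b5.poly).eq2 e
      (a5.poly.add b5.poly) p,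
    e.side p ((a5.mono inter_subset_left).add (b5.mono inter_subset_right)), ?_⟩
  · rw [UniformSpace.Completion.coe_add]
    exact (dist_add_add_le _ _ _ _).trans_lt (by linarith)
  · rw [← add_halves ε, ENNReal.ofReal_add (half_pos hε).le (half_pos hε).le]
    refine lt_of_le_of_lt ((measure_mono fun z hz => ?_).trans (measure_union_le _ _))
      (ENNReal.add_lt_add a6 b6)
    simp only [mem_inter_iff, mem_symmDiff, mem_union] at hz ⊢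
    tauto

theorem Rel.congr (h : Rel Ω T μ S) (ho : IsOpen Ω) (hS : MeasurableSet S')
    (he : volume (symmDiff S S' ∩ Ω) = 0) : Rel Ω T μ S' := by
  refine ⟨h.1, hS, fun K hK hΩ ε hε => ?_⟩
  obtain ⟨P, V, E, a1, a2, a3, a4, a5, a6⟩ := h.2.2 K hK hΩ _ hε
  refine ⟨P, V ∩ Ω, E, a1.inter ho, subset_inter a2 hΩ, a3, a4.mono inter_subset_left,
    a5.mono inter_subset_left, lt_of_le_of_lt ?_ a6⟩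
  rw [← add_zero (volume (symmDiff E S ∩ V)), ← he]
  refine (measure_mono fun z hz => ?_).trans (measure_union_le _ _)
  simp only [mem_inter_iff, mem_symmDiff, mem_union] at hz ⊢
  tauto

theorem Rel.eq2 (h : Rel Ω T μ S) (he : Eq2 μ μ') (hp : Poly univ μ') : Rel Ω T μ' S := by
  refine ⟨hp, h.2.1, fun K hK hΩ ε hε => ?_⟩
  obtain ⟨P, V, E, a1, a2, a3, a4, a5, a6⟩ := h.2.2 K hK hΩ _ hε
  have e := (Eq2.refl (ms P)).add he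
  exact ⟨P, V, E, a1, a2, a3, a4.eq2 e a5.poly ((ms_poly P).add hp),
    e.side ((ms_poly P).add hp) a5, a6⟩

theorem rel_zero (ho : IsOpen Ω) (hn : NoB Ω μ) (hs : Side Ω μ S) : Rel Ω 0 μ S := by
  refine ⟨hs.poly, hs.1, fun K _ hΩ ε hε => ⟨0, Ω, S, ho, hΩ, ?_, ?_, ?_, ?_⟩⟩
  · rwa [UniformSpace.Completion.coe_zero, dist_self]
  · rwa [ms_zero, zero_add]
  · rwa [ms_zero, zero_add]
  · simpa using hε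

theorem side_zero (Ω : Set ℂ) : Side Ω 0 ∅ :=
  (Eq2.double (Poly.zero _)).side (Poly.zero _) (side_double (Poly.zero univ))

theorem noB_zero (Ω : Set ℂ) : NoB Ω 0 := fun z _ => bdy_zero z

/-- Change of the reference polygon. -/
theorem Rel.chg (h : Rel Ω T μ S) (ho : IsOpen Ω) {A : Set ℂ} (hp : Poly univ μ')
    (hn : NoB Ω (μ' + μ)) (hs : Side Ω (μ' + μ) A) : Rel Ω T μ' (symmDiff S A) := by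
  have h1 := h.add (rel_zero ho hn hs)
  rw [add_zero] at h1
  refine h1.eq2 ((Eq2.of_eq ?_).trans (Eq2.cancel μ' h.1)) hp
  abel

theorem Rel.compl (h : Rel Ω T μ S) (ho : IsOpen Ω) : Rel Ω T μ Sᶜ := by
  have h1 := h.add (rel_zero ho (noB_zero Ω) (side_zero Ω).compl)
  rwa [add_zero, add_zero, compl_empty, ← top_eq_univ, symmDiff_top] at h1

end Alg

end Pool.Agent.MP_20201c_gt.H42
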