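import Pool.Agent.MP_20201c_gt.H42.Spec
import Pool.Agent.MP_20201c_gt.H91.DiscS_a

/-! States with signs on the edges of the grid. -/

open MeasureTheory Set Filter Topology Metric
open scoped ENNReal

namespace Pool.Agent.MP_20201c_gt.H42

open Pool.Agent.MP_20201c_gt.H91

/-- The jump along an edge, with a sign. -/
noncomputable def edgW (w : Ed → ℝ) (pos : Vt → ℂ) (S : St) (e : Ed) : Ms :=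
  sgOn (pos e.1) (pos (eEnd e)) (symmDiff (tr (S (eT1 e) e.1) (S (eT1 e) (eEnd e)))
    (tr (w e * S (eT2 e) e.1) (w e * S (eT2 e) (eEnd e))))

/-- The polygon of a state. -/
noncomputable def stW (w : Ed → ℝ) (𝒯 : Finset Tri) (pos : Vt → ℂ) (S : St) : Ms :=
  ∑ τ ∈ 𝒯, levT pos S τ + ∑ e ∈ inE 𝒯, edgW w pos S e

def SandW (𝒯 : Finset Tri) (f : St) (η : ℝ) (S : St) : Prop :=
  (∀ τ, τ ∉ 𝒯 → S τ = 0) ∧ ∀ τ ∈ 𝒯, ∀ i, S τ (tv τ i) ≠ 0 ∧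
    (1 - η ≤ f τ (tv τ i) → 0 < S τ (tv τ i)) ∧ (f τ (tv τ i) ≤ η → S τ (tv τ i) < 0)

open Classical in
noncomputable def UncW (𝒯 : Finset Tri) (f : St) (η : ℝ) : Finset Tri :=
  𝒯.filter fun τ => ¬ ((∀ i, 1 - η ≤ f τ (tv τ i)) ∨ ∀ i, f τ (tv τ i) ≤ η)

def AdmW (w : Ed → ℝ) (𝒯 : Finset Tri) (pos : Vt → ℂ) (f : St) (η t ζ r : ℝ) (S : St) : Prop :=
  SandW 𝒯 f η S ∧ (stW w 𝒯 pos S).real univ ≤ t ∧ ∀ q, (stW w 𝒯 pos S).real (cb q r) ≤ ζ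

/-- `f` is compatible with the signs. -/
def Cpt (w : Ed → ℝ) (𝒯 : Finset Tri) (f : St) : Prop :=
  ∀ e ∈ inE 𝒯,
    (w e = 1 ∧ f (eT2 e) e.1 = f (eT1 e) e.1 ∧ f (eT2 e) (eEnd e) = f (eT1 e) (eEnd e)) ∨
    (w e = -1 ∧ f (eT2 e) e.1 = 1 - f (eT1 e) e.1 ∧ f (eT2 e) (eEnd e) = 1 - f (eT1 e) (eEnd e))

/-- The signs are trivial over the family `A`. -/
def Triv (w : Ed → ℝ) (f : St) (A : Finset Tri) : Prop :=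
  ∃ (σ : Tri → ℝ) (g : Vt → ℝ),
    (∀ τ ∈ A, (σ τ = 1 ∧ ∀ i, f τ (tv τ i) = g (tv τ i)) ∨
      (σ τ = -1 ∧ ∀ i, f τ (tv τ i) = 1 - g (tv τ i))) ∧
    ∀ e, eT1 e ∈ A → eT2 e ∈ A → w e = σ (eT1 e) * σ (eT2 e)

/-- The bad set of the mollification in the charts. -/
def BadW (𝒯 : Finset Tri) (ψ : ℂ → ℝ) (h z : ℝ) (F : Tri → Set ℂ) : Set ℂ :=
  {x | ∃ τ ∈ 𝒯, τ.1 = vtx h x ∧ z ≤ |(F τ).indicator (fun _ => (1 : ℝ)) x - mol ψ h (F τ) τ.1|}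

def PVst : Prop := ∀ (w : Ed → ℝ) (𝒯 : Finset Tri) (pos : Vt → ℂ) (h ε r : ℝ) (m : ℕ) (f : St)
  (η η₂ ξ t₀ ζ₀ : ℝ), 0 < h → PosOK h ε pos → ε ≤ 1 → 0 ≤ r → 2 * r + 2 * ε < m * h → η₂ ≤ η →
  η < 1 / 2 → 0 ≤ ξ → 0 ≤ ζ₀ → Cpt w 𝒯 f →
  (∀ θ c, Triv w f (𝒯.filter fun τ => cellOf m θ τ = c)) →
  4 * h * (UncW 𝒯 f η₂).card ≤ ξ * m →
  ∑ τ ∈ 𝒯, ‖Nt (gp h ∘ tv τ) (f τ ∘ tv τ)‖ / 2 ≤ t₀ →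
  (∀ θ c, ∑ τ ∈ 𝒯.filter (fun τ => cellOf m θ τ = c), ‖Nt (gp h ∘ tv τ) (f τ ∘ tv τ)‖ / 2 ≤ ζ₀) →
  ∃ S, AdmW w 𝒯 pos f η ((1 + 2 * ε) / (1 - 2 * η) * t₀ + ξ)
    (4 * ((1 + 2 * ε) / (1 - 2 * η) * ζ₀) + ξ) r S

def PMix : Prop := ∀ (w : Ed → ℝ) (𝒯 : Finset Tri) (pos : Vt → ℂ) (h ε r : ℝ) (m : ℕ) (f : St)
  (η η₂ ξ t ζ : ℝ) (𝒮 : Set St), 0 < h → PosOK h ε pos → ε ≤ 1 → 0 ≤ r → 2 * r + 2 * ε < m * h →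
  η₂ ≤ η → 0 ≤ ξ → Cpt w 𝒯 f → 4 * h * (UncW 𝒯 f η₂).card ≤ ξ * m → 𝒮.Finite → 𝒮.Nonempty →
  (∀ S ∈ 𝒮, AdmW w 𝒯 pos f η t ζ r S) →
  ∃ (θ : ℤ × ℤ) (B : St), AdmW w 𝒯 pos f η (t + ξ) (4 * ζ + ξ) r B ∧
    ∀ S ∈ 𝒮, ∀ J, AdmW w 𝒯 pos f η (t + ξ) (4 * ζ + ξ) r (mix (cellOf m θ) J B S)

def PDI : Prop := ∀ (Y : Type) (w : Ed → ℝ) (𝒯 : Finset Tri) (pos : Vt → ℂ) (h ε r : ℝ) (m N : ℕ)
  (𝒮 : Set (Sx Y)) (f : Sx Y → St) (η η' ξ t ζ : ℝ), 0 < h → PosOK h ε pos → ε ≤ 1 → 0 ≤ r →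
  2 * r + 2 * ε < m * h → (∀ e, w e = 1 ∨ w e = -1) → FaceCl 𝒮 → 𝒮 ⊆ Dle Y N → η < 1 / 2 →
  0 ≤ η' → N * η' ≤ η / 2 → 0 ≤ ξ → 0 ≤ ζ →
  (∀ (n : ℕ) (g : Sm (n + 2) → Y) (i : Fin (n + 2)), (⟨n + 2, g⟩ : Sx Y) ∈ 𝒮 →
    (∀ τ ∈ 𝒯, ∀ j, |f ⟨n + 1, g ∘ fc (n + 1) i⟩ τ (tv τ j) - f ⟨n + 2, g⟩ τ (tv τ j)| ≤ η') ∨
    ∀ τ ∈ 𝒯, ∀ j, |1 - f ⟨n + 1, g ∘ fc (n + 1) i⟩ τ (tv τ j) - f ⟨n + 2, g⟩ τ (tv τ j)| ≤ η') →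
  (∀ s ∈ 𝒮, 0 < s.1 → (∃ S, AdmW w 𝒯 pos (f s) η t ζ r S) ∧ Cpt w 𝒯 (f s) ∧
    4 * h * (UncW 𝒯 (f s) (η / 2)).card ≤ ξ * m ∧ UncW 𝒯 (f s) (η / 2) ≠ 𝒯) →
  ∃ ρ : Sx Y → LCh Ms, ρ (emp Y) = one [] ∧ ∀ s ∈ 𝒮, bdL (ρ s) = lift ρ (bdS s) ∧
    ρ s ∈ Sp {l : List Ms | l.length = s.1 ∧ ∃ l₀ : List St, l = l₀.map (stW w 𝒯 pos) ∧
      (∀ S ∈ l₀, AdmW w 𝒯 pos (f s) (η / 2) (t + N * ξ) (5 ^ N * (ζ + ξ)) r S) ∧ Act 𝒯 m N l₀}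

def PMol : Prop := ∀ (ψ : ℂ → ℝ) (h' ζ : ℝ), Bump ψ h' → 0 < ζ → ∃ h₀ : ℝ, 0 < h₀ ∧
  ∀ h ∈ Ioc 0 h₀, ∀ (μ : Ms) (E U : Set ℂ) (A : Finset Tri) (V B : Tri → Set ℂ) (c : ℝ≥0∞),
    TwB μ E U c →
    (∀ τ ∈ A, IsOpen (V τ) ∧ V τ ⊆ U ∧ Side (V τ) μ (B τ) ∧ cb (gp h τ.1) h' ⊆ V τ) →
    ENNReal.ofReal (∑ τ ∈ A, ‖Nt (gp h ∘ tv τ) (mol ψ h (symmDiff E (B τ)) ∘ tv τ)‖ / 2) ≤
      ENNReal.ofReal (1 + ζ) * c + ENNReal.ofReal (ζ * (A.card * h ^ 2))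

def PBad : Prop := ∀ (μ : Ms) (z : ℝ), Poly univ μ → 0 < z → ∃ h₁ : ℝ, 0 < h₁ ∧
  ∀ h' ∈ Ioc 0 h₁, ∀ ψ, Bump ψ h' → ∀ h ∈ Ioc 0 h', ∀ (Ω E : Set ℂ) (𝒯 : Finset Tri)
    (B : Tri → Set ℂ), MeasurableSet E →
    (∀ τ ∈ 𝒯, cb (gp h τ.1) (4 * h') ⊆ Ω ∧ Side (ball (gp h τ.1) (4 * h')) μ (B τ)) →
    volume (BadW 𝒯 ψ h z fun τ => symmDiff E (B τ)) ≤
      volume (DS.Bad Ω ψ h h' z E) + ENNReal.ofReal z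

def PUnc : Prop := ∀ (𝒯 : Finset Tri) (ψ : ℂ → ℝ) (h z a y : ℝ) (F : Tri → Set ℂ), 0 < h →
  0 ≤ y → z ≤ a / 4 → (∀ τ i, |mol ψ h (F τ) (tv τ i) - mol ψ h (F τ) τ.1| ≤ a / 4) →
  volume (BadW 𝒯 ψ h z F) ≤ ENNReal.ofReal y →
  (UncW 𝒯 (fun τ => mol ψ h (F τ)) (a / 2)).card * h ^ 2 ≤ 2 * y

def PArea : Prop := ∀ (U D E' : Set ℂ) (𝒯 : Finset Tri) (ψ : ℂ → ℝ) (h z a y y' : ℝ)
  (pos : Vt → ℂ) (F : Tri → Set ℂ) (S : St), 0 < h → 0 ≤ y → 0 ≤ y' → z ≤ a / 4 → a ≤ 1 / 4 →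
  volume (BadW 𝒯 ψ h z F) ≤ ENNReal.ofReal y →
  (UncW 𝒯 (fun τ => mol ψ h (F τ)) (a / 2)).card * h ^ 2 ≤ y' →
  (∀ᵐ x : ℂ, x ∈ U → ∃ τ₀ ∈ 𝒯, τ₀.1 = vtx h x ∧ x ∈ hull pos τ₀ ∧
    ∀ τ ∈ 𝒯, τ ≠ τ₀ → x ∉ hull pos τ) →
  SandW 𝒯 (fun τ => mol ψ h (F τ)) (a / 2) S →
  (∀ x, ∀ τ₀ ∈ 𝒯, x ∈ hull pos τ₀ → (∀ τ ∈ 𝒯, τ ≠ τ₀ → x ∉ hull pos τ) →
    ((∀ i, 0 < S τ₀ (tv τ₀ i)) → x ∈ E') ∧ ((∀ i, S τ₀ (tv τ₀ i) < 0) → x ∉ E')) →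
  (∀ᵐ x : ℂ, x ∈ U → ∀ τ ∈ 𝒯, τ.1 = vtx h x → (x ∈ D ↔ x ∈ F τ)) →
  volume (symmDiff E' D ∩ U) ≤ ENNReal.ofReal (y + y')

/-- The mollified charts are compatible with the signs. -/
def PCpt : Prop := ∀ (Ω E : Set ℂ) (B : ℂ → Set ℂ) (ψ : ℂ → ℝ) (h h' r : ℝ) (𝒯 : Finset Tri)
  (w : Ed → ℝ) (s : ℂ → Tri → ℝ), Bump ψ h' → 0 < h → h ≤ h' → 10 * h' ≤ r → MeasurableSet E →
  (∀ q, MeasurableSet (B q)) → Signs Ω B h h' r 𝒯 w s →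
  Cpt w 𝒯 (fun τ => mol ψ h (symmDiff E (B (gp h τ.1)))) ∧
    ∀ (q : ℂ) (A : Finset Tri), A ⊆ 𝒯 → (∀ τ ∈ A, ‖gp h τ.1 - q‖ + 4 * h' ≤ r) →
      Triv w (fun τ => mol ψ h (symmDiff E (B (gp h τ.1)))) A

def PChart : Prop := ∀ (ρ : ℂ → ℝ) (gr : ℂ → ℂ) (L c₀ β R : ℝ), Good ρ gr L c₀ β R →
  ∃ r₀ : ℝ, 0 < r₀ ∧ ∀ (μ : Ms) (β₀ : ℝ), 0 < β₀ → Poly univ μ → NoB {z | -β₀ < ρ z} μ →
    ∀ q : ℂ, ∃ A, Side (ball q r₀ ∩ {z | 0 < ρ z}) μ A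

def PDiscS : Prop := ∀ (ρ : ℂ → ℝ) (gr : ℂ → ℂ) (L c₀ β R : ℝ), Good ρ gr L c₀ β R →
  IsConnected {z | 0 < ρ z} → ∀ (μ : Ms) (βμ : ℝ), 0 < βμ → Poly univ μ → NoB {z | -βμ < ρ z} μ →
  ∀ (𝒦 : Set (Cyc {z | 0 < ρ z})) (t₀ : ℝ), IsCompact 𝒦 → 0 ≤ t₀ →
  (∀ E hE, cyc _ E hE ∈ 𝒦 → TwB μ E {z | 0 < ρ z} (ENNReal.ofReal t₀)) →
  (∀ ε : ℝ≥0∞, 0 < ε → ∃ r : ℝ, 0 < r ∧ ∀ E hE, cyc _ E hE ∈ 𝒦 → ∀ q,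
    TwB μ E (ball q r ∩ {z | 0 < ρ z}) ε) →
  ∀ (N K : ℕ) (ε₁ ζ r₁ : ℝ) (δ : ℝ≥0∞), 0 < ε₁ → 0 < ζ → 0 < r₁ → 0 < δ →
  ∃ (β₀ r : ℝ) (δ₀ : ℝ≥0∞), 0 < β₀ ∧ β₀ ≤ β / 2 ∧ 0 < r ∧ r ≤ r₁ ∧ 0 < δ₀ ∧
    ∀ 𝒮 : Set (Sx (Cyc {z | 0 < ρ z})), FaceCl 𝒮 → 𝒮 ⊆ Dle _ N →
      (∀ s ∈ 𝒮, ∀ x, s.2 x ∈ 𝒦 ∧ ∀ x', edist (s.2 x) (s.2 x') < δ₀) →
      ∃ σ : Sx (Cyc {z | 0 < ρ z}) → LCh Ms, σ (emp _) = one [] ∧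
        ∀ s ∈ 𝒮, bdL (σ s) = lift σ (bdS s) ∧
          σ s ∈ Sp {l : List Ms | l.length = s.1 ∧
            Cl {z | -β₀ < ρ z} (cb 0 R) N (t₀ + ε₁) ζ (13 * r) (K * r) l ∧
            ∀ ν ∈ l, ∃ (E : Set ℂ) (hE : Side {z | 0 < ρ z} (ν + μ) E),
              ∀ x, edist (cyc _ E hE.1) (s.2 x) < δ}

def PDisc : Prop := ∀ (ρ : ℂ → ℝ) (gr : ℂ → ℂ) (L c₀ β R : ℝ), Good ρ gr L c₀ β R →
  IsConnected {z | 0 < ρ z} → ∀ (μ : Ms) (βμ : ℝ), 0 < βμ → Poly univ μ → NoB {z | -βμ < ρ z} μ →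
  ∀ (p : ℕ) (lam : C(Sm 2, Cyc {z | 0 < ρ z}) → ZMod 2) (𝒦 : Set (Cyc {z | 0 < ρ z}))
    (c : Ch (Cyc {z | 0 < ρ z})) (t₀ t : ℝ), IsCocycle lam → IsCompact 𝒦 → 0 ≤ t₀ → t₀ < t →
  c ∈ Sp ({s : Sx (Cyc {z | 0 < ρ z}) | Continuous s.2 ∧ ∀ x, s.2 x ∈ 𝒦} ∩ Deq _ (p + 1)) →
  bd c = 0 → lift (cupS lam p) c ≠ 0 →
  (∀ E hE, cyc _ E hE ∈ 𝒦 → TwB μ E {z | 0 < ρ z} (ENNReal.ofReal t₀)) →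
  (∀ ε : ℝ≥0∞, 0 < ε → ∃ r : ℝ, 0 < r ∧ ∀ E hE, cyc _ E hE ∈ 𝒦 → ∀ q,
    TwB μ E (ball q r ∩ {z | 0 < ρ z}) ε) →
  ∃ β₀ : ℝ, 0 < β₀ ∧ ∃ w ∈ Sp ({s : Sx Ms | s ∈ Nice {z | -β₀ < ρ z} (cb 0 R) 0 t ∧
      ∀ x, ∃ E, Side {z | 0 < ρ z} (s.2 x + μ) E} ∩ Deq Ms (p + 1)),
    bd w = 0 ∧ lift (cupS lam p) (mp (fun ν => Rz {z | 0 < ρ z} (ν + μ)) w) ≠ 0

section StW

variable {w : Ed → ℝ} {𝒯 : Finset Tri} {pos : Vt → ℂ} {S S' : St}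

theorem edgW_poly (e : Ed) : Poly (segment ℝ (pos e.1) (pos (eEnd e))) (edgW w pos S e) :=
  (sgOn_tr_add _ _ _ _ _ _).1

theorem stW_poly {W : Set ℂ} (hW : Convex ℝ W) (h : ∀ τ ∈ 𝒯, ∀ i, pos (tv τ i) ∈ W) (S : St) :
    Poly W (stW w 𝒯 pos S) := by
  have h1 : ∀ τ ∈ 𝒯, hull pos τ ⊆ W := fun τ hτ =>
    convexHull_min (range_subset_iff.2 (h τ hτ)) hW
  refine Poly.add (Poly.sum _ fun τ hτ => (lev_poly _ _).mono (h1 τ hτ))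
    (Poly.sum _ fun e he => (edgW_poly e).mono ?_)
  exact ((edge_hull pos e).trans inter_subset_left).trans (h1 _ (StM.mem_inE.1 he).1)

theorem stW_neg (hw : ∀ e, w e = 1 ∨ w e = -1) (h : ∀ τ ∈ 𝒯, ∀ i, S τ (tv τ i) ≠ 0) :
    stW w 𝒯 pos (-S) = stW w 𝒯 pos S := by
  unfold stW
  congr 1
  · exact Finset.sum_congr rfl fun τ _ => lev_neg (pos ∘ tv τ) (S τ ∘ tv τ)
  · refine Finset.sum_congr rfl fun e he => sgOn_congr _ _ ?_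
    obtain ⟨⟨i, h1⟩, -, ⟨k, h3⟩, -⟩ := edge_tv e
    have h5 := h _ (StM.mem_inE.1 he).1 i
    have h6 := h _ (StM.mem_inE.1 he).2 k
    rw [h1] at h5
    rw [h3] at h6
    have h7 : w e * S (eT2 e) e.1 ≠ 0 := mul_ne_zero (by rcases hw e with h | h <;> simp [h]) h6
    filter_upwards [compl_mem_ae_iff.2 (measure_singleton
        (S (eT1 e) e.1 / (S (eT1 e) e.1 - S (eT1 e) (eEnd e)))),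
      compl_mem_ae_iff.2 (measure_singleton
        (w e * S (eT2 e) e.1 / (w e * S (eT2 e) e.1 - w e * S (eT2 e) (eEnd e))))] with u hu hu' _
    simp only [Pi.neg_apply, mul_neg, mem_symmDiff, StM.tr_neg h5 hu, StM.tr_neg h7 hu']
    tauto

theorem stW_local {U : Set ℂ} (h : ∀ τ ∈ 𝒯, S τ = S' τ ∨ hull pos τ ⊆ U) :
    (stW w 𝒯 pos S).restrict Uᶜ = (stW w 𝒯 pos S').restrict Uᶜ := by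
  unfold stW
  rw [Measure.restrict_add, Measure.restrict_add]
  simp only [StM.restrict_sum]
  congr 1
  · refine Finset.sum_congr rfl fun τ hτ => ?_
    rcases h τ hτ with h1 | h1
    · rw [levT, levT, h1]
    · rw [levT, levT, StM.restrict_zero (lev_poly _ _) (convex_convexHull ℝ _) h1,
        StM.restrict_zero (lev_poly _ _) (convex_convexHull ℝ _) h1]
  · refine Finset.sum_congr rfl fun e he => ?_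
    have h0 : segment ℝ (pos e.1) (pos (eEnd e)) ⊆ U →
        (edgW w pos S e).restrict Uᶜ = (edgW w pos S' e).restrict Uᶜ := fun h1 => by
      rw [StM.restrict_zero (edgW_poly e) (convex_segment _ _) h1,
        StM.restrict_zero (edgW_poly e) (convex_segment _ _) h1]
    rcases h _ (StM.mem_inE.1 he).1 with h1 | h1
    · rcases h _ (StM.mem_inE.1 he).2 with h2 | h2
      · rw [edgW, edgW, h1, h2]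
      · exact h0 (((edge_hull pos e).trans inter_subset_right).trans h2)
    · exact h0 (((edge_hull pos e).trans inter_subset_left).trans h1)

theorem dW_poly (w : Ed → ℝ) (𝒯 : Finset Tri) (pos : Vt → ℂ) : Poly univ (dW w 𝒯 pos) :=
  Poly.sum _ fun _ _ => tk_ps _ _

theorem meas_tr (a b : ℝ) : MeasurableSet (tr a b) :=
  measurableSet_lt measurable_const (by fun_prop)

theorem stW_eq2 (hw : ∀ e, w e = 1 ∨ w e = -1) (h : ∀ τ ∈ 𝒯, ∀ i, S τ (tv τ i) ≠ 0) :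
    Eq2 (stW w 𝒯 pos S) (stM 𝒯 pos S + dW w 𝒯 pos) := by
  classical
  rw [stW, H91.stM, add_assoc, dW, Finset.sum_filter, ← Finset.sum_add_distrib]
  refine (Eq2.refl _).add (Eq2.sum _ fun e he => ?_)
  rcases hw e with h1 | h1
  · rw [if_neg (by rw [h1]; norm_num), add_zero, edgW, h1, one_mul, one_mul]
    exact Eq2.refl _
  · obtain ⟨-, -, ⟨k, h3⟩, -⟩ := edge_tv e
    have h6 := h _ (StM.mem_inE.1 he).2 k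
    rw [h3] at h6
    have e1 : edgW w pos S e = sgOn (pos e.1) (pos (eEnd e))
        (symmDiff (tr (S (eT1 e) e.1) (S (eT1 e) (eEnd e)))
          (tr (S (eT2 e) e.1) (S (eT2 e) (eEnd e))))ᶜ := by
      refine sgOn_congr _ _ ?_
      filter_upwards [compl_mem_ae_iff.2 (measure_singleton
        (S (eT2 e) e.1 / (S (eT2 e) e.1 - S (eT2 e) (eEnd e))))] with u hu _
      simp only [h1, neg_one_mul, mem_compl_iff, mem_symmDiff, StM.tr_neg h6 hu]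
      tauto
    have e2 : sg (pos e.1) (pos (eEnd e)) = edg pos S e + edgW w pos S e := by
      rw [e1, edg, ← tk_union _ _ disjoint_compl_right
        ((meas_tr _ _).symmDiff (meas_tr _ _)).compl, union_compl_self, sgOn, univ_inter, sg]
    rw [if_pos h1, e2]
    refine ((Eq2.of_eq ?_).trans
      (Eq2.cancel _ ((StM.edg_poly (pos := pos) (S := S) e).mono (subset_univ _)))).symm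
    abel

end StW

end Pool.Agent.MP_20201c_gt.H42
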