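import Pool.Agent.MP_20201c_gt.H42.Itf
import Pool.Agent.MP_20201c_gt.H91.Ell

/-! The model width of a union of components of the space of relative flat cycles. -/

open MeasureTheory Set Filter Topology
open scoped ENNReal

namespace Pool.Agent.MP_20201c_gt.H42

open Pool.Agent.MP_20201c_gt.H91

section Kp

variable {Y Y' : Type}

open Classical in
/-- The part of a chain with values in `D`. -/
noncomputable def kpD (D : Set Y) : Ch Y →ₗ[F2] Ch Y :=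
  lift fun s => if ∀ x, s.2 x ∈ D then one s else 0

theorem kpD_mem (D : Set Y) {P : Set (Sx Y)} {c : Ch Y} (hc : c ∈ Sp P) :
    kpD D c ∈ Sp (P ∩ {s | ∀ x, s.2 x ∈ D}) := by
  refine lift_mem _ _ (fun s hs => ?_) hc
  split_ifs with h
  · exact one_mem ⟨hs, h⟩
  · exact Submodule.zero_mem _

theorem bd_kpD {D : Set Y} {c : Ch Y}
    (hc : c ∈ Sp {s : Sx Y | s.1 ≠ 1 ∧ ∀ x, s.2 x ∈ D → ∀ x', s.2 x' ∈ D}) :
    bd (kpD D c) = kpD D (bd c) := by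
  refine lin_congr (bd.comp (kpD D)) ((kpD D).comp bd) (fun s hs => ?_) hc
  obtain ⟨_ | _ | n, f⟩ := s
  · simp only [LinearMap.comp_apply, kpD, lift_one, bd_one, bdS, map_zero]
    split_ifs <;> simp [bdS]
  · exact absurd rfl hs.1
  · have h1 : ∀ i, (∀ x, (f ∘ fc (n + 1) i) x ∈ D) ↔ ∀ x, f x ∈ D :=
      fun i => ⟨fun h x => hs.2 _ (h (Classical.arbitrary _)) x, fun h x => h _⟩
    simp only [LinearMap.comp_apply, kpD, lift_one, bd_one, bdS, map_sum]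
    by_cases h : ∀ x, f x ∈ D
    · rw [if_pos h, bd_one, bdS]
      exact Finset.sum_congr rfl fun i _ => (if_pos ((h1 i).2 h)).symm
    · rw [if_neg h, map_zero]
      exact (Finset.sum_eq_zero fun i _ => if_neg fun h' => h ((h1 i).1 h')).symm

variable [TopologicalSpace Y] [TopologicalSpace Y']

theorem cocycle_comp (f : C(Y, Y')) {lam : C(Sm 2, Y') → ZMod 2} (h : IsCocycle lam) :
    IsCocycle fun σ : C(Sm 2, Y) => lam (f.comp σ) := fun σ => h (f.comp σ)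

theorem cup_comp (f : C(Y, Y')) (lam : C(Sm 2, Y') → ZMod 2) (p : ℕ) {c : Ch Y}
    (hc : c ∈ Sp (Cts Y)) :
    lift (cupS (fun σ : C(Sm 2, Y) => lam (f.comp σ)) p) c = lift (cupS lam p) (mp f c) := by
  refine lin_congr _ ((lift (cupS lam p)).comp (mp f)) (fun s hs => ?_) hc
  rw [LinearMap.comp_apply, mp_one, lift_one, lift_one]
  by_cases h : s.1 = p + 1
  · obtain ⟨σ, rfl⟩ := CupA.mem_iff ⟨hs, h⟩
    rw [cupS_eq]
    exact (cupS_eq lam p (f.comp σ)).symm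
  · rw [cupS_of_ne _ p h, cupS_of_ne _ p (s := smap f s) h]

end Kp

theorem sweep_of {Ω : Set ℂ} {C : Set (RelCyc Ω)} {p : ℕ} {lam : C(Sm 2, C) → ZMod 2}
    (hl : IsCocycle lam) {w : Ch C} (hw : w ∈ Sp (Cts C ∩ Deq C (p + 1))) (h0 : bd w = 0)
    (h : lift (cupS lam p) w ≠ 0) {t : ℝ≥0∞} (ht : ∀ s ∈ w.support, ∀ x, mass (s.2 x).1 univ ≤ t)
    (hn : ∀ ε : ℝ≥0∞, 0 < ε → ∃ r : ℝ, 0 < r ∧ ∀ s ∈ w.support, ∀ x q,
      mass (s.2 x).1 (Metric.ball q r) ≤ ε) : wid C p ≤ t := by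
  obtain ⟨N, K, hK, Φ, w', g, hw', h0', hΦ, hg, he⟩ := conv p hw h0
  have h1 : lift (cupS lam p) (mp Φ w') ≠ 0 := by
    have h2 := congrArg (lift (cupS lam p)) he
    rw [map_add, cup_bd hl p hg, add_eq_zero2] at h2
    rwa [h2]
  refine iInf_le_of_le ⟨N, K, hK, Φ, fun ε hε => ?_, lam, hl,
    not_cob_of_cycle Φ lam p hw' h0' h1⟩ (iSup_le fun x => ?_)
  · obtain ⟨r, hr, h2⟩ := hn ε hε
    refine ⟨r, hr, fun x q => ?_⟩
    obtain ⟨s, hs, y, hy⟩ := hΦ x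
    rw [hy]
    exact h2 s hs y q
  · obtain ⟨s, hs, y, hy⟩ := hΦ x
    change mass (Φ x).1 univ ≤ t
    rw [hy]
    exact ht s hs y

open Classical in
/-- The class of a polygon, in `C`. -/
noncomputable def Rc {Ω : Set ℂ} {C : Set (RelCyc Ω)} (z₀ : C) (ν : Ms) : C :=
  if h : Rr Ω ν ∈ C then ⟨_, h⟩ else z₀

theorem Rc_val {Ω : Set ℂ} {C : Set (RelCyc Ω)} (z₀ : C) {ν : Ms} (h : Rr Ω ν ∈ C) :
    (Rc z₀ ν).1 = Rr Ω ν := by rw [Rc, dif_pos h]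

/-- The evaluation of the cup power on polygonal chains. -/
noncomputable def ellC {Ω : Set ℂ} {C : Set (RelCyc Ω)} (z₀ : C) (lam : C(Sm 2, C) → ZMod 2)
    (p : ℕ) : Ch Ms →ₗ[F2] F2 :=
  (lift (cupS lam p)).comp ((mp (Rc z₀)).comp (kpD {ν | Rr Ω ν ∈ C}))

/-- The levels of the model width. -/
def MWC {Ω : Set ℂ} {C : Set (RelCyc Ω)} (z₀ : C) (G W : Set ℂ) (p : ℕ) : Set ℝ :=
  {t | ∃ lam : C(Sm 2, C) → ZMod 2, IsCocycle lam ∧
    ∃ w ∈ Sp (Nice G W 0 t ∩ Deq Ms (p + 1)), bd w = 0 ∧ ellC z₀ lam p w ≠ 0}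

theorem ellC_ne {Ω : Set ℂ} {C : Set (RelCyc Ω)} (z₀ : C) (lam : C(Sm 2, C) → ZMod 2) (p : ℕ)
    {s : Sx Ms} (h : s.1 ≠ p + 1) : ellC z₀ lam p (one s) = 0 := by
  simp only [ellC, LinearMap.comp_apply, kpD, lift_one]
  split_ifs
  · rw [mp_one, lift_one, cupS_of_ne _ p (s := smap (Rc z₀) s) h]
  · rw [map_zero, map_zero]

variable {ρ : ℂ → ℝ} {gr : ℂ → ℂ} {L c₀ β R : ℝ} {G W : Set ℂ} {C : Set (RelCyc {z | 0 < ρ z})}

theorem nice_noB (hΩ : closure {z | 0 < ρ z} ⊆ G) {t : ℝ} {s : Sx Ms} (hs : s ∈ Nice G W 0 t)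
    (x : Sm s.1) : Poly univ (s.2 x) ∧ NoB {z | 0 < ρ z} (s.2 x) := by
  refine ⟨(hs.1.poly x).mono (subset_univ _), fun z hz => ?_⟩
  by_cases h : z ∈ W
  · exact (hs.2 x).1 z h (hΩ (subset_closure hz))
  · exact (hs.1.poly x).bdy_of_notMem h

theorem nice_all (hG : Good ρ gr L c₀ β R) (hC : ∀ z ∈ C, connectedComponent z ⊆ C)
    (ho : IsOpen G) (hΩ : closure {z | 0 < ρ z} ⊆ G) (hW : Convex ℝ W) {t : ℝ} {s : Sx Ms}
    (hs : s ∈ Nice G W 0 t) (x : Sm s.1) (hx : Rr _ (s.2 x) ∈ C) (x' : Sm s.1) :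
    Rr _ (s.2 x') ∈ C := by
  have : PreconnectedSpace (Sm s.1) :=
    isPreconnected_iff_preconnectedSpace.1 (convex_stdSimplex ℝ _).isPreconnected
  exact hC _ hx ((isPreconnected_range
    (Rr_cont hG ho hΩ hW hs.1 fun x => (hs.2 x).1)).subset_connectedComponent ⟨x, rfl⟩ ⟨x', rfl⟩)

theorem rc_cts (hG : Good ρ gr L c₀ β R) (ho : IsOpen G) (hΩ : closure {z | 0 < ρ z} ⊆ G)
    (hW : Convex ℝ W) (z₀ : C) {t : ℝ} {s : Sx Ms} (hs : s ∈ Nice G W 0 t)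
    (hb : ∀ x, Rr _ (s.2 x) ∈ C) : smap (Rc z₀) s ∈ Cts C :=
  continuous_induced_rng.2 ((Rr_cont hG ho hΩ hW hs.1 fun x => (hs.2 x).1).congr
    fun x => (Rc_val z₀ (hb x)).symm)

theorem bd_kpC (hG : Good ρ gr L c₀ β R) (hC : ∀ z ∈ C, connectedComponent z ⊆ C)
    (ho : IsOpen G) (hΩ : closure {z | 0 < ρ z} ⊆ G) (hW : Convex ℝ W) {t : ℝ} {p : ℕ}
    (hp : 1 ≤ p) {w : Ch Ms} (hw : w ∈ Sp (Nice G W 0 t ∩ Deq Ms (p + 1))) (h0 : bd w = 0) :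
    bd (kpD {ν | Rr _ ν ∈ C} w) = 0 := by
  rw [bd_kpD (sp_mono (fun s hs => ?_) hw), h0, map_zero]
  refine ⟨?_, nice_all hG hC ho hΩ hW hs.1⟩
  have : s.1 = p + 1 := hs.2
  omega

theorem ellC_bd (hG : Good ρ gr L c₀ β R) (hC : ∀ z ∈ C, connectedComponent z ⊆ C)
    (ho : IsOpen G) (hΩ : closure {z | 0 < ρ z} ⊆ G) (hW : Convex ℝ W) (z₀ : C)
    {lam : C(Sm 2, C) → ZMod 2} (hl : IsCocycle lam) (p : ℕ) {t : ℝ} {h : Ch Ms}
    (hh : h ∈ Sp (Nice G W 0 t)) : ellC z₀ lam p (bd h) = 0 := by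
  refine lin_congr ((ellC z₀ lam p).comp bd) 0 (fun s hs => ?_) hh
  rw [LinearMap.comp_apply, LinearMap.zero_apply]
  by_cases h1 : s.1 = 1
  · obtain ⟨n, f⟩ := s
    obtain rfl : n = 1 := h1
    rw [bd_one, bdS, map_sum]
    exact Finset.sum_eq_zero fun i _ => ellC_ne z₀ lam p (Nat.succ_ne_zero p).symm
  · rw [ellC, LinearMap.comp_apply, LinearMap.comp_apply,
      ← bd_kpD (one_mem ⟨h1, nice_all hG hC ho hΩ hW hs⟩), ← bd_mp]
    exact cup_bd hl p (mp_mem _ (fun s hs => rc_cts hG ho hΩ hW z₀ hs.1 hs.2)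
      (kpD_mem _ (one_mem hs)))

theorem wid_le_of_MWC (hG : Good ρ gr L c₀ β R) (hC : ∀ z ∈ C, connectedComponent z ⊆ C)
    (ho : IsOpen G) (hΩ : closure {z | 0 < ρ z} ⊆ G) (hW : Convex ℝ W) (z₀ : C) {p : ℕ}
    (hp : 1 ≤ p) {t : ℝ} (ht : t ∈ MWC z₀ G W p) : 0 < t ∧ wid C p ≤ ENNReal.ofReal t := by
  obtain ⟨lam, hl, w, hw, h0, h1⟩ := ht
  constructor
  · have h2 : w ≠ 0 := fun h => h1 (by rw [h, map_zero])
    obtain ⟨⟨n, f⟩, hs⟩ := Finsupp.support_nonempty_iff.2 h2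
    obtain ⟨h3, h4⟩ := mem_sp.1 hw _ hs
    obtain rfl : n = p + 1 := h4
    exact lt_of_le_of_lt measureReal_nonneg (h3.2 (Classical.arbitrary _)).2
  have hk := kpD_mem {ν | Rr _ ν ∈ C} (sp_inter.2 ⟨hw, sp_support w⟩)
  have hm : mp (Rc z₀) (kpD {ν | Rr _ ν ∈ C} w) ∈
      Sp {s' | ∃ s ∈ w.support, (∀ x, Rr _ (s.2 x) ∈ C) ∧ s' = smap (Rc z₀) s} :=
    mp_mem _ (fun s hs => by exact ⟨s, hs.1.2, hs.2, rfl⟩) hk
  have hle : ∀ s ∈ w.support, (∀ x, Rr _ (s.2 x) ∈ C) → ∀ x, ∀ U, IsOpen U →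
      mass (Rc z₀ (s.2 x)).1 U ≤ s.2 x U := by
    intro s hs hb x U hU
    obtain ⟨h2, h3⟩ := nice_noB hΩ (mem_sp.1 hw s hs).1 x
    rw [Rc_val z₀ (hb x)]
    exact mass_Rr (good_open hG 0) (good_bdd hG) h2 h3 hU.measurableSet
  refine sweep_of hl (w := mp (Rc z₀) (kpD {ν | Rr _ ν ∈ C} w))
    (mp_mem _ (fun s hs => by exact ⟨rc_cts hG ho hΩ hW z₀ hs.1.1.1 hs.2, hs.1.1.2⟩) hk) ?_
    h1 (fun s' hs' x => ?_) fun ε hε => ?_
  · rw [bd_mp, bd_kpC hG hC ho hΩ hW hp hw h0, map_zero]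
  · obtain ⟨s, hs, hb, rfl⟩ := mem_sp.1 hm s' hs'
    have h2 := (mem_sp.1 hw s hs).1
    have := (h2.1.poly x).finite
    refine (hle s hs hb x univ isOpen_univ).trans ?_
    rw [← ofReal_measureReal (measure_ne_top _ _)]
    exact ENNReal.ofReal_le_ofReal (h2.2 x).2.le
  · have h2 : ∀ s : w.support, ∃ m : ℕ, ∀ x y R,
        s.1.2 x (cb y R) ≤ ENNReal.ofReal (m * (2 * R)) :=
      fun s => (mem_sp.1 hw s.1 s.2).1.1.cb_le
    choose m hm2 using h2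
    obtain ⟨e, -, he1, he2⟩ := ENNReal.lt_iff_exists_real_btwn.1 hε
    have he : 0 < e := ENNReal.ofReal_pos.1 he1
    have hM : (0 : ℝ) ≤ (∑ s, m s : ℕ) := Nat.cast_nonneg _
    refine ⟨e / (2 * ((∑ s, m s : ℕ) + 1)), by positivity, fun s' hs' x q => ?_⟩
    obtain ⟨s, hs, hb, rfl⟩ := mem_sp.1 hm s' hs'
    refine (hle s hs hb x _ Metric.isOpen_ball).trans
      ((measure_mono Metric.ball_subset_closedBall).trans
      ((hm2 ⟨s, hs⟩ x q _).trans ((ENNReal.ofReal_le_ofReal ?_).trans he2.le)))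
    have h3 : (m ⟨s, hs⟩ : ℝ) ≤ (∑ s, m s : ℕ) := by
      exact_mod_cast Finset.single_le_sum (fun _ _ => Nat.zero_le _) (Finset.mem_univ _)
    generalize ((∑ s, m s : ℕ) : ℝ) = M at *
    rw [← mul_div_assoc, ← mul_div_assoc, div_le_iff₀ (by positivity)]
    nlinarith

theorem not_UC_C (hG : Good ρ gr L c₀ β R) (hC : ∀ z ∈ C, connectedComponent z ⊆ C)
    (ho : IsOpen G) (hΩ : closure {z | 0 < ρ z} ⊆ G) (hW : Convex ℝ W) (hWc : IsCompact W)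
    (z₀ : C) {p : ℕ} (hp : 1 ≤ p) (hne : (MWC z₀ G W p).Nonempty) :
    ¬ UC (p + 1) (2 ^ (p + 1)) G W 0 (sInf (MWC z₀ G W p)) := by
  intro hU
  obtain ⟨δ, hδ, hE⟩ := engine hW hWc hU
  have hbd : BddBelow (MWC z₀ G W p) :=
    ⟨0, fun t ht => (wid_le_of_MWC hG hC ho hΩ hW z₀ hp ht).1.le⟩
  set c := sInf (MWC z₀ G W p) with hcd
  obtain ⟨t, ⟨lam, hl, w, hw, h0, h1⟩, ht⟩ :=
    exists_lt_of_csInf_lt hne (show c < c + δ by linarith)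
  obtain ⟨w', hw', g, hg, he⟩ := hE t (c - δ) (δ / 2) ht.le (by linarith) w
    (sp_mono (fun s hs => by exact ⟨hs.1, le_of_eq hs.2⟩) hw) (by rw [h0]; exact Submodule.zero_mem _)
  rw [max_self] at hw'
  have h2 : bd w' = 0 := by
    have := congrArg bd he
    rwa [map_add, h0, zero_add, bd_bd] at this
  have h3 : ellC z₀ lam p w' ≠ 0 := by
    have := congrArg (ellC z₀ lam p) he
    rw [map_add, ellC_bd hG hC ho hΩ hW z₀ hl p hg, add_eq_zero2] at this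
    rwa [← this]
  have h4 : ellC z₀ lam p (prj {n | ∃ k ∈ ({p} : Set ℕ), n = k + 1} w') = ellC z₀ lam p w' := by
    have h6 := fun s h => ellC_ne z₀ lam p (s := s) h
    generalize ellC z₀ lam p = A at h6 ⊢
    refine lin_ext (A.comp (prj _)) _ (fun s => ?_) w'
    simp only [LinearMap.comp_apply, prj, lift_one]
    split_ifs with h
    · rfl
    · rw [map_zero, h6 s fun h5 => h ⟨p, rfl, h5⟩]
  have h5 : c - δ + δ / 2 ∈ MWC z₀ G W p := by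
    refine ⟨lam, hl, _, sp_mono ?_ (prj_mem {n | ∃ k ∈ ({p} : Set ℕ), n = k + 1} hw'), ?_,
      by rwa [h4]⟩
    · rintro s ⟨h6, k, rfl, h7⟩
      exact ⟨h6.1, h7⟩
    · rw [bd_prj, h2, map_zero]
  linarith [csInf_le hbd h5]

end Pool.Agent.MP_20201c_gt.H42
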