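import Pool.Agent.MP_20201c_gt.H42.TEll
import Pool.Agent.MP_20201c_gt.H91.Main
import Pool.Agent.MP_20201c_gt.H27.Width

/-! The widths of a union of components of the space of relative flat cycles. -/

open MeasureTheory Set Filter Topology
open scoped ENNReal

namespace Pool.Agent.MP_20201c_gt.H42

open Pool.Agent.MP_20201c_gt.H91

theorem sm_conn (n : ℕ) : PreconnectedSpace (Sm n) :=
  isPreconnected_iff_preconnectedSpace.1 (convex_stdSimplex ℝ _).isPreconnected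

/-- A cycle splits along a partition into clopen sets. -/
theorem exists_part {Y : Type} [TopologicalSpace Y] (D : Y → Set Y) (h1 : ∀ y, IsClopen (D y))
    (h2 : ∀ y, y ∈ D y) (h3 : ∀ y y' z, z ∈ D y → z ∈ D y' → D y ⊆ D y') {n : ℕ} {c : Ch Y}
    (hc : c ∈ Sp (Cts Y ∩ Deq Y (n + 1))) (f : Sx Y → F2) (h : lift f c ≠ 0) :
    ∃ y, lift f (kpD (D y) c) ≠ 0 := by
  classical
  rw [lift_eq_sum, ← Finset.sum_fiberwise_of_maps_to (g := fun s : Sx Y => ⋃ x, D (s.2 x))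
    fun s hs => Finset.mem_image_of_mem (fun s : Sx Y => ⋃ x, D (s.2 x)) hs] at h
  obtain ⟨a, ha, h⟩ := Finset.exists_ne_zero_of_sum_ne_zero h
  obtain ⟨⟨k, g⟩, hg, rfl⟩ := Finset.mem_image.1 ha
  obtain rfl : k = n + 1 := (mem_sp.1 hc _ hg).2
  obtain ⟨x₀⟩ : Nonempty (Sm (n + 1)) := inferInstance
  have key : ∀ u : Sm (n + 1) → Y, (∀ x, u x ∈ D (g x₀)) → ⋃ x, D (u x) = D (g x₀) := fun u hu =>
    (iUnion_subset fun x => h3 _ _ _ (h2 _) (hu x)).antisymm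
      (subset_iUnion_of_subset x₀ (h3 _ _ _ (hu x₀) (h2 _)))
  have := sm_conn (n + 1)
  have e0 := key g fun x => (isPreconnected_range (mem_sp.1 hc _ hg).1).subset_isClopen (h1 _)
    ⟨_, ⟨x₀, rfl⟩, h2 _⟩ ⟨x, rfl⟩
  refine ⟨g x₀, ?_⟩
  rw [kpD, lin_lift, lift_eq_sum]
  rw [Finset.sum_filter] at h
  refine fun h0 => h (Eq.trans (Finset.sum_congr rfl ?_) h0)
  rintro ⟨k, u⟩ hu
  obtain rfl : k = n + 1 := (mem_sp.1 hc _ hu).2
  by_cases h4 : ∀ x, u x ∈ D (g x₀)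
  · rw [if_pos h4, if_pos ((key u h4).trans e0.symm), lift_one]
  · rw [if_neg h4, if_neg fun e => h4 fun x => ?_, map_zero]
    rw [← e0, ← e]
    exact mem_iUnion.2 ⟨x, h2 _⟩

variable {ρ : ℂ → ℝ} {gr : ℂ → ℂ} {L c₀ β R : ℝ} {C : Set (RelCyc {z | 0 < ρ z})}

theorem cl_sub (hG : Good ρ gr L c₀ β R) {a : ℝ} (ha : 0 < a) :
    closure {z | 0 < ρ z} ⊆ {z | -a < ρ z} := by
  rw [hG.closure]
  exact fun z hz => lt_of_lt_of_le (neg_lt_zero.2 ha) hz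

theorem ellC_eq {Ω : Set ℂ} {C : Set (RelCyc Ω)} (z₀ : C) (lam : C(Sm 2, C) → ZMod 2) (p : ℕ)
    {w : Ch Ms} (hw : w ∈ Sp {s : Sx Ms | ∀ x, Rr Ω (s.2 x) ∈ C}) :
    ellC z₀ lam p w = lift (cupS lam p) (mp (Rc z₀) w) := by
  refine lin_congr _ ((lift (cupS lam p)).comp (mp (Rc z₀))) (fun s hs => ?_) hw
  simp only [ellC, LinearMap.comp_apply, kpD, lift_one]
  rw [if_pos (show ∀ x, s.2 x ∈ {ν | Rr Ω ν ∈ C} from hs)]

theorem discC (hG : Good ρ gr L c₀ β R) (hc : IsConnected {z | 0 < ρ z})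
    (hC : ∀ z ∈ C, connectedComponent z ⊆ C) (z₀ : C) {p : ℕ} (hp : 1 ≤ p) {t : ℝ}
    (ht : wid C p < ENNReal.ofReal t) :
    ∃ β₀, 0 < β₀ ∧ ∀ G ⊆ {z | -β₀ < ρ z}, t ∈ MWC z₀ G (cb 0 R) p := by
  have ho := good_open hG 0
  have hb := good_bdd hG
  obtain ⟨S, hS⟩ := iInf_lt_iff.1 ht
  have hM := hS.ne_top
  obtain ⟨lam, hlam, hnot⟩ := S.detect
  obtain ⟨w₀, hw₀, hb₀, hcup⟩ := exists_cycle_of_not_cob S.Φ lam p hnot
  choose μ b hb0 hμ hn hz using jm_cover hG hc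
  have hn' : ∀ z, NoB {z | 0 < ρ z} (μ z) := fun z =>
    (hn z).mono (lev_sub (neg_nonpos.2 (hb0 z).le))
  have hcl : ∀ y : C, IsClopen (Subtype.val ⁻¹' range (jm (μ y.1)) : Set C) := fun y =>
    (range_clopen hG hc (hμ _) (hn' _)).preimage continuous_subtype_val
  have hc1 : mp S.Φ w₀ ∈ Sp ((Cts C ∩ Deq C (p + 1)) ∩ {s | ∀ x, s.2 x ∈ range S.Φ}) :=
    mp_mem _ (fun s hs => by
      exact ⟨⟨S.Φ.continuous.comp hs.1, hs.2⟩, fun x => mem_range_self _⟩) hw₀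
  obtain ⟨y, hy⟩ := exists_part (fun y : C => Subtype.val ⁻¹' range (jm (μ y.1))) hcl
    (fun y => hz y.1) (fun y y' z h h' => preimage_mono
      (range_sub hG hc (hμ _) (hn' _) (hμ _) (hn' _) h h')) (sp_inter.1 hc1).1 _ hcup
  have hk := kpD_mem (Subtype.val ⁻¹' range (jm (μ y.1)) : Set C) hc1
  have hk0 : bd (kpD (Subtype.val ⁻¹' range (jm (μ y.1)) : Set C) (mp S.Φ w₀)) = 0 := by
    rw [bd_kpD (sp_mono (fun s hs => ?_) hc1), bd_mp, hb₀, map_zero, map_zero]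
    have := sm_conn s.1
    refine ⟨?_, fun x hx x' => (isPreconnected_range hs.1.1).subset_isClopen (hcl y)
      ⟨_, ⟨x, rfl⟩, hx⟩ ⟨x', rfl⟩⟩
    have : s.1 = p + 1 := hs.1.2
    omega
  generalize kpD (Subtype.val ⁻¹' range (jm (μ y.1)) : Set C) (mp S.Φ w₀) = c at hy hk hk0
  obtain ⟨r, hr⟩ := exists_inv hG hc (hμ y.1) (hn' y.1)
  have hin : ∀ u, jm (μ y.1) u ∈ C := by
    obtain ⟨u, hu⟩ := hz y.1
    exact range_in hG (hμ _) (hn' _) hC (y := u) (by rw [hu]; exact y.2)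
  obtain ⟨j, hj⟩ : ∃ j : C(Cyc {z | 0 < ρ z}, C), ∀ u, (j u).1 = jm (μ y.1) u :=
    ⟨⟨fun u => ⟨_, hin u⟩, (jm_cont ho hb (hμ _) (hn' _)).subtype_mk _⟩, fun _ => rfl⟩
  have hjr : ∀ z : C, z.1 ∈ range (jm (μ y.1)) → j (r z.1) = z := by
    rintro z ⟨u, hu⟩
    exact Subtype.ext (by rw [hj, ← hu, hr])
  have hK : IsCompact (range S.Φ) := by
    have h : IsCompact S.K.space :=
      S.fin.isCompact_biUnion fun s _ => s.finite_toSet.isCompact_convexHull ℝ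
    have := isCompact_iff_compactSpace.1 h
    exact isCompact_range S.Φ.continuous
  have hrc : Continuous fun z : C => r z.1 := r.continuous.comp continuous_subtype_val
  have hmem : ∀ E hE, cyc _ E hE ∈ (fun z : C => r z.1) '' (range S.Φ ∩ Subtype.val ⁻¹'
      range (jm (μ y.1))) → ∃ x, RelC (S.Φ x).1 (μ y.1) E := by
    rintro E hE ⟨_, ⟨⟨x, rfl⟩, h1⟩, h2⟩
    refine ⟨x, ?_⟩
    rw [← hjr _ h1, hj, show r (S.Φ x).1 = _ from h2]
    exact jm_spec ho hb (hμ _) (hn' _) hE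
  have hc2 : mp (fun z : C => r z.1) c ∈ Sp (Cts _) :=
    mp_mem _ (fun s hs => hrc.comp hs.1.1.1) hk
  obtain ⟨β₀, hβ₀, w, hw, hw0, hw1⟩ := aDisc ρ gr L c₀ β R hG hc (μ y.1) (b y.1) (hb0 _) (hμ _)
    (hn _) p (fun σ => lam (j.comp σ)) _ (mp (fun z : C => r z.1) c)
    (⨆ x, mass (S.Φ x).1 univ).toReal t (cocycle_comp j hlam)
    ((hK.inter_right (hcl y).1).image hrc) ENNReal.toReal_nonneg
    ((ENNReal.lt_ofReal_iff_toReal_lt hM).1 hS)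
    (mp_mem _ (fun s hs => by
      exact ⟨⟨hrc.comp hs.1.1.1, fun x => ⟨_, ⟨hs.1.2 x, hs.2 x⟩, rfl⟩⟩, hs.1.1.2⟩) hk)
    (by rw [bd_mp, hk0, map_zero])
    (by
      rw [cup_comp j lam p hc2, mp_mp, mp_congr _ id (fun s hs x => hjr _ (hs.2 x)) hk, mp_id]
      exact hy)
    (fun E hE h => by
      obtain ⟨x, hx⟩ := hmem E hE h
      have := hx.twb hG hc univ (le_iSup (fun x => mass (S.Φ x).1 univ) x)
      rwa [univ_inter, ← ENNReal.ofReal_toReal hM] at this)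
    (fun ε hε => by
      obtain ⟨r, hr, h⟩ := S.noConc ε hε
      refine ⟨r, hr, fun E hE h' q => ?_⟩
      obtain ⟨x, hx⟩ := hmem E hE h'
      exact hx.twb hG hc _ (h x q))
  have e1 : ∀ s ∈ ({s : Sx Ms | s ∈ Nice {z | -β₀ < ρ z} (cb 0 R) 0 t ∧
      ∀ x, ∃ E, Side {z | 0 < ρ z} (s.2 x + μ y.1) E} ∩ Deq Ms (p + 1)), ∀ x,
      Rr _ (s.2 x) = jm (μ y.1) (Rz {z | 0 < ρ z} (s.2 x + μ y.1)) := by
    intro s hs x
    obtain ⟨E, hE⟩ := hs.1.2 x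
    obtain ⟨h1, h2⟩ := nice_noB (cl_sub hG hβ₀) hs.1.1 x
    rw [rz_eq ho hc.isPreconnected hE, Rr_eq ho hb (hμ _) (hn' _) h1 h2 hE]
  refine ⟨β₀, hβ₀, fun G hGG => ⟨lam, hlam, w, sp_mono (fun s hs => by
    exact ⟨⟨hs.1.1.1, fun x => ⟨fun z hz hz' => (hs.1.1.2 x).1 z hz (hGG hz'),
      (hs.1.1.2 x).2⟩⟩, hs.2⟩) hw, hw0, ?_⟩⟩
  rw [cup_comp j lam p (mp_mem _ (fun s hs => ?_) hw), mp_mp] at hw1
  · rw [ellC_eq z₀ lam p (sp_mono (fun s hs x => by rw [e1 s hs]; exact hin _) hw),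
      mp_congr _ _ (fun s hs x => ?_) hw]
    · exact hw1
    · refine Subtype.ext ((Rc_val z₀ (by rw [e1 s hs]; exact hin _)).trans ?_)
      rw [e1 s hs]
      exact (hj _).symm
  · refine (r.continuous.comp (Rr_cont hG (good_open hG _) (cl_sub hG hβ₀)
      (convex_closedBall _ _) hs.1.1.1 fun x => (hs.1.1.2 x).1)).congr fun x => ?_
    rw [Function.comp_apply, e1 s hs, hr]
    rfl

theorem wid_lt_top (hG : Good ρ gr L c₀ β R) (hc : IsConnected {z | 0 < ρ z})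
    (hC : ∀ z ∈ C, connectedComponent z ⊆ C) (z₀ : C) {p : ℕ} (hp : 1 ≤ p) : wid C p < ∞ := by
  have ho := good_open hG 0
  have hb := good_bdd hG
  obtain ⟨t, -, h1, -⟩ := ENNReal.lt_iff_exists_real_btwn.1 (H27.width_lt_top ho.measurableSet hb
    (ho.measure_pos _ hc.nonempty) p hp)
  obtain ⟨β₀, hβ₀, h2⟩ := disc hG hc p h1
  obtain ⟨μ, b, hb0, hμ, hn, u, hu⟩ := jm_cover hG hc z₀.1
  have hn' : NoB {z | 0 < ρ z} μ := hn.mono (lev_sub (neg_nonpos.2 hb0.le))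
  have ha := lt_min hβ₀ hb0
  have hcl := cl_sub hG ha
  obtain ⟨lam, hl, w, hw, h0, h3⟩ := h2 _ (lev_sub (neg_le_neg (min_le_left β₀ b)))
  obtain ⟨r, hr⟩ := exists_inv hG hc hμ hn'
  have hin := range_in hG hμ hn' hC (y := u) (hu ▸ z₀.2)
  have hk := kp_mem {z | 0 < ρ z} hw
  have hW : Convex ℝ (cb (0 : ℂ) R) := convex_closedBall _ _
  have e1 : ∀ s ∈ (Nice {z | -min β₀ b < ρ z} (cb 0 R) 0 t ∩ Deq Ms (p + 1)) ∩ BS {z | 0 < ρ z},
      ∀ x, Rr _ (s.2 x + μ) = jm μ (Rz {z | 0 < ρ z} (s.2 x)) := by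
    intro s hs x
    obtain ⟨E, hE⟩ := hs.2 x
    obtain ⟨h4, h5⟩ := nice_noB hcl hs.1.1 x
    rw [rz_eq ho hc.isPreconnected hE, Rr_eq ho hb hμ hn' (h4.add hμ) (h5.add hn' h4 hμ)
      ((Eq2.cancel _ hμ).symm.side ((h4.add hμ).add hμ) hE)]
  have e2 : ∀ s ∈ Nice {z | -min β₀ b < ρ z} (cb 0 R) 0 t, smap (fun ν => ν + μ) s ∈
      Nice {z | -min β₀ b < ρ z} univ 0 (t + μ.real univ) := by
    intro s hs
    refine ⟨(hs.1.mono (subset_univ _)).add (Fam.const hμ), fun x => ⟨fun z _ hz => ?_, ?_⟩⟩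
    · refine (bdy_add (hs.1.poly x) hμ z).trans ?_
      rw [hn z (lev_sub (neg_le_neg (min_le_right β₀ b)) hz), add_zero]
      by_cases h : z ∈ cb (0 : ℂ) R
      · exact (hs.2 x).1 z h hz
      · exact (hs.1.poly x).bdy_of_notMem h
    · exact (cn_real_add ((hs.1.poly x).mono (subset_univ _)) hμ).trans_lt
        (add_lt_add_left (hs.2 x).2 _)
  let r' : C(C, Cyc {z | 0 < ρ z}) := r.comp ⟨Subtype.val, continuous_subtype_val⟩
  refine (wid_le_of_MWC hG hC (good_open hG _) hcl convex_univ z₀ hp (t := t + μ.real univ)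
    ⟨_, cocycle_comp r' hl, mp (fun ν => ν + μ) (kp {z | 0 < ρ z} w),
      mp_mem _ (fun s hs => by exact ⟨e2 s hs.1.1, hs.1.2⟩) hk, ?_, ?_⟩).2.trans_lt
    ENNReal.ofReal_lt_top
  · rw [bd_mp, bd_kp (t := t) (good_open hG _) hcl hW (sp_mono (fun s hs => ?_) hw), h0, map_zero,
      map_zero]
    refine ⟨hs.1, ?_⟩
    have : s.1 = p + 1 := hs.2
    simp only [mem_ofPred_eq]
    omega
  · have e3 : ∀ s ∈ (Nice {z | -min β₀ b < ρ z} (cb 0 R) 0 t ∩ Deq Ms (p + 1)) ∩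
        BS {z | 0 < ρ z}, ∀ x, Rr _ (s.2 x + μ) ∈ C := fun s hs x => by
      rw [e1 s hs]
      exact hin _
    rw [ellC_eq z₀ _ p (H91.mp_mem _ (fun s hs => by exact e3 s hs) hk), mp_mp,
      cup_comp r' lam p (H91.mp_mem _ (fun s hs => by
        exact rc_cts hG (good_open hG _) hcl convex_univ z₀ (e2 s hs.1.1) (e3 s hs)) hk), mp_mp,
      mp_congr _ (Rz {z | 0 < ρ z}) (fun s hs x => ?_) hk, ← ell_kp]
    · exact h3
    · change r (Rc z₀ (s.2 x + μ)).1 = _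
      rw [Rc_val z₀ (e3 s hs x), e1 s hs, hr]

theorem MWC_pos (hG : Good ρ gr L c₀ β R) (hc : IsConnected {z | 0 < ρ z})
    (hC : ∀ z ∈ C, connectedComponent z ⊆ C) (z₀ : C) {p : ℕ} (hp : 1 ≤ p) :
    ∃ t₁ : ℝ, 0 < t₁ ∧ ∀ G W : Set ℂ, IsOpen G → closure {z | 0 < ρ z} ⊆ G → Convex ℝ W →
      ∀ t ∈ MWC z₀ G W p, t₁ ≤ t := by
  have ho := good_open hG 0
  have hb := good_bdd hG
  have hd : 0 < volume {z | 0 < ρ z} / 4 :=
    ENNReal.div_pos (ho.measure_pos _ hc.nonempty).ne' (by simp)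
  obtain ⟨d, -, hd0, hd1⟩ := ENNReal.lt_iff_exists_real_btwn.1 hd
  have hd2 := ENNReal.ofReal_pos.1 hd0
  obtain ⟨δ₀, K, hδ₀, hK, hF⟩ := sFill ρ gr L c₀ β R hG
  obtain ⟨δ, h1, h2, h3⟩ : ∃ δ : ℝ, 0 < δ ∧ δ ≤ δ₀ ∧ K * δ ^ 2 ≤ d := by
    refine ⟨min δ₀ (min 1 (d / K)), by positivity, min_le_left _ _, ?_⟩
    have a0 : 0 < min δ₀ (min 1 (d / K)) := by positivity
    have a1 := (min_le_right δ₀ _).trans (min_le_left 1 (d / K))
    have a2 := (le_div_iff₀ hK).1 ((min_le_right δ₀ _).trans (min_le_right 1 (d / K)))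
    generalize min δ₀ (min 1 (d / K)) = u at a0 a1 a2
    nlinarith [mul_nonneg hK.le (mul_nonneg a0.le (sub_nonneg.2 a1))]
  refine ⟨δ, h1, fun G W hGo hcl hW t ⟨lam, hl, w, hw, h0, h4⟩ => not_lt.1 fun ht => h4 ?_⟩
  have hk := kpD_mem {ν | Rr _ ν ∈ C} hw
  have e1 : ∀ s ∈ Nice G W 0 t, ∀ x, Rr _ (s.2 x) = jm 0 (Rz {z | 0 < ρ z} (s.2 x)) ∧
      edist (Rz {z | 0 < ρ z} (s.2 x)) (cyc _ ∅ MeasurableSet.empty) <
        volume {z | 0 < ρ z} / 4 := by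
    intro s hs x
    obtain ⟨h5, h6⟩ := nice_noB hcl hs x
    have := h5.finite
    obtain ⟨D, h7, h8⟩ := hF 0 ⟨le_rfl, by linarith [hG.hβ]⟩ δ ⟨h1, h2⟩ _ h5 (by
      rw [← ofReal_measureReal (measure_ne_top _ _)]
      exact ENNReal.ofReal_le_ofReal ((hs.2 x).2.le.trans ht.le)) h6
    rw [rz_eq ho hc.isPreconnected h7, edist_cyc]
    refine ⟨Rr_eq ho hb (Poly.zero _) (noB_zero _) h5 h6 (by rwa [add_zero]),
      (min_le_left _ _).trans_lt (lt_of_le_of_lt ?_ hd1)⟩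
    rw [sd_empty]
    exact (measure_mono inter_subset_left).trans (h8.trans (ENNReal.ofReal_le_ofReal h3))
  change lift (cupS lam p) (mp (Rc z₀) (kpD {ν | Rr _ ν ∈ C} w)) = 0
  have h5 := bd_kpC hG hC hGo hcl hW hp hw h0
  generalize kpD {ν | Rr _ ν ∈ C} w = c at hk h5
  rcases eq_or_ne c 0 with rfl | hne
  · rw [map_zero, map_zero]
  obtain ⟨⟨n, f⟩, hs⟩ := Finsupp.support_nonempty_iff.2 hne
  obtain ⟨⟨h6, h7⟩, h8⟩ := mem_sp.1 hk _ hs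
  obtain rfl : n = p + 1 := h7
  have hin := range_in hG (Poly.zero _) (noB_zero _) hC
    (mem_of_eq_of_mem (e1 _ h6 (Classical.arbitrary _)).1.symm (h8 (Classical.arbitrary _)))
  obtain ⟨r, hr⟩ := exists_inv hG hc (Poly.zero _) (noB_zero _)
  obtain ⟨j, hj⟩ : ∃ j : C(Cyc {z | 0 < ρ z}, C), ∀ u, (j u).1 = jm 0 u :=
    ⟨⟨fun u => ⟨_, hin u⟩, (jm_cont ho hb (Poly.zero _) (noB_zero _)).subtype_mk _⟩, fun _ => rfl⟩
  have h9 : mp (Rz {z | 0 < ρ z}) c ∈ Sp (BallS (cyc _ ∅ MeasurableSet.empty)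
      (volume {z | 0 < ρ z} / 4)) := by
    refine H91.mp_mem _ (fun s hs => ?_) hk
    refine ⟨(r.continuous.comp (Rr_cont hG hGo hcl hW hs.1.1.1
      fun x => (hs.1.1.2 x).1)).congr fun x => ?_, fun x => (e1 s hs.1.1 x).2⟩
    rw [Function.comp_apply, (e1 s hs.1.1 x).1, hr]
    rfl
  obtain ⟨g, hg, hg'⟩ := zball ho.measurableSet hb _ hd ENNReal.mul_div_le _ h9
    (by rw [bd_mp, h5, map_zero])
  have h10 := cup_bd (cocycle_comp j hl) p (sp_mono (fun s hs => hs.1) hg)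
  rw [hg', cup_comp j lam p (sp_mono (fun s hs => hs.1) h9), mp_mp] at h10
  rw [mp_congr _ _ (fun s hs x => ?_) hk]
  · exact h10
  · exact Subtype.ext ((Rc_val z₀ (hs.2 x)).trans ((e1 s hs.1.1 x).1.trans (hj _).symm))

theorem main_flat {ρ : ℂ → ℝ} (hρ : ContDiff ℝ 2 ρ) (hb : Bornology.IsBounded {z | 0 < ρ z})
    (hr : ∀ z, ρ z = 0 → fderiv ℝ ρ z ≠ 0) {Ω : Set ℂ} (hΩ' : Ω = {z | 0 < ρ z})
    (hc : IsConnected Ω) {C : Set (RelCyc Ω)} (hne : C.Nonempty)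
    (hC : ∀ z ∈ C, connectedComponent z ⊆ C) {p : ℕ} (hp : 1 ≤ p) :
    ∃ 𝓛 : List (List (ℂ × ℂ)), 𝓛 ≠ [] ∧ (∀ γ ∈ 𝓛, IsBilliard ρ γ) ∧
      wid C p = ENNReal.ofReal (𝓛.map len).sum := by
  obtain ⟨ρ', gr, L, c₀, β, R, hG, hΩ, hd⟩ := exists_good hρ hb hr
  rw [← hΩ] at hΩ'
  subst hΩ'
  obtain ⟨z₀⟩ := hne.to_subtype
  have hf := (wid_lt_top hG hc hC z₀ hp).ne
  set c := (wid C p).toReal with hcdef
  have hc0 : 0 ≤ c := ENNReal.toReal_nonneg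
  have hw : wid C p = ENNReal.ofReal c := (ENNReal.ofReal_toReal hf).symm
  obtain ⟨D₀, N₀, hnet⟩ := net_bound hG (2 ^ (p + 1)) (c + 1)
  have hR : 0 < R := by
    obtain ⟨z, hz⟩ := hc.nonempty
    have h1 := hG.ball z (by have := hG.hβ; simp only [mem_ofPred_eq] at hz; linarith)
    have := norm_nonneg z
    linarith
  have hW : Convex ℝ (cb (0 : ℂ) R) := convex_closedBall _ _
  have hdisc := fun ε (hε : 0 < ε) => discC hG hc hC z₀ hp (t := c + ε) (by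
    rw [hw]
    exact (ENNReal.ofReal_lt_ofReal_iff (by linarith)).mpr (by linarith))
  suffices h : ∃ 𝓛 : List (List (ℂ × ℂ)), (∀ γ ∈ 𝓛, IsBilliard ρ γ) ∧ (𝓛.map len).sum = c by
    obtain ⟨𝓛, h1, h2⟩ := h
    refine ⟨𝓛, ?_, h1, by rw [h2, hw]⟩
    rintro rfl
    obtain ⟨t₁, h3, h4⟩ := MWC_pos hG hc hC z₀ hp
    obtain ⟨β₀, hβ₀, h5⟩ := hdisc _ (half_pos h3)
    have h6 := h4 _ _ (good_open hG _) (cl_sub hG hβ₀) hW _ (h5 _ subset_rfl)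
    rw [List.map_nil, List.sum_nil] at h2
    linarith
  refine final_lim hG hΩ hd N₀ c fun ε hε => ?_
  have hm : 0 < min ε 1 := lt_min hε one_pos
  obtain ⟨β₀, hβ₀, hMW⟩ := hdisc _ hm
  have hη : 0 < ε / 3 := by positivity
  obtain ⟨βo, hβo, hob⟩ := ob_all D₀ (p + 1) (θ := (ε / 3) ^ 2 / 8) (by positivity)
  obtain ⟨e, he, e1, e2, e3, e4, e5⟩ : ∃ e : ℝ, 0 < e ∧ e ≤ β₀ ∧ e ≤ β ∧ e ≤ 1 / 20 ∧
      e ≤ ε / 3 ∧ e ≤ βo / 2 := by
    refine ⟨min β₀ (min β (min (1 / 20) (min (ε / 3) (βo / 2)))), ?_, ?_, ?_, ?_, ?_, ?_⟩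
    · have := hG.hβ
      positivity
    · exact min_le_left _ _
    · exact (min_le_right _ _).trans (min_le_left _ _)
    · exact (min_le_right _ _).trans ((min_le_right _ _).trans (min_le_left _ _))
    · exact (min_le_right _ _).trans ((min_le_right _ _).trans
        ((min_le_right _ _).trans (min_le_left _ _)))
    · exact (min_le_right _ _).trans ((min_le_right _ _).trans
        ((min_le_right _ _).trans (min_le_right _ _)))
  obtain ⟨G, ν, hcon, hG1, hG2, hG3⟩ := exists_poly hG he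
  have hcl : closure {z | 0 < ρ' z} ⊆ G := by rw [hG.closure]; exact hG1
  have ht : c + min ε 1 ∈ MWC z₀ G (cb 0 R) p := hMW G (hG2.trans (lev_sub (neg_le_neg e1)))
  have hlow : ∀ t ∈ MWC z₀ G (cb 0 R) p, c ≤ t := by
    intro t ht'
    obtain ⟨h1, h2⟩ := wid_le_of_MWC hG hC hcon.1 hcl hW z₀ hp ht'
    rw [hw] at h2
    exact (ENNReal.ofReal_le_ofReal_iff h1.le).mp h2
  have hnu := not_UC_C hG hC hcon.1 hcl hW (isCompact_closedBall _ _) z₀ hp ⟨_, ht⟩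
  have hlo := le_csInf ⟨_, ht⟩ hlow
  have hhi := csInf_le ⟨c, hlow⟩ ht
  generalize sInf (MWC z₀ G (cb 0 R) p) = cG at hnu hlo hhi
  have hS : Setup G ν 0 R (Fin.elim0 : Fin 0 → ℂ) := by
    refine ⟨hR, hcon, fun i => i.elim0, fun i => i.elim0, fun y hy hy' => ?_⟩
    exfalso
    have h1 : closure G ⊆ {z | -e ≤ ρ' z} :=
      closure_minimal (fun z hz => show -e ≤ ρ' z from le_of_lt (hG2 hz))
        (isClosed_le continuous_const hG.continuous)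
    have h2 : -e ≤ ρ' y := h1 (frontier_subset_closure hy')
    have h3 := hG.ball y (by linarith)
    rw [mem_sphere_zero_iff_norm] at hy
    linarith
  have hB : OB (p + 1) G ν (fun _ => {d | d ≤ D₀}) ((ε / 3) ^ 2 / 8) := by
    refine hob G ν hcon fun y hy => ?_
    obtain ⟨h1, h2⟩ := hG3 y hy
    calc ‖(ν y).1 - (ν y).2‖ = ‖((ν y).1 - nrm gr y) - ((ν y).2 - nrm gr y)‖ := by
          congr 1; ring
      _ ≤ ‖(ν y).1 - nrm gr y‖ + ‖(ν y).2 - nrm gr y‖ := norm_sub_le _ _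
      _ ≤ βo := by linarith
  have hind : ind (Fin.elim0 : Fin 0 → ℂ) = 0 := by
    funext z
    simp [ind]
  rcases crit hS (2 ^ (p + 1)) hη.le (oi_all (p + 1) hcon.1) hB cG with h | ⟨m, a, b, hN⟩
  · rw [hind] at h
    exact absurd h hnu
  obtain ⟨hm', σ, hσ, h1, h2⟩ := hnet e he e2 e3 G ν hcon hG1 hG2 hG3 cG
    (by linarith [min_le_right ε 1]) (ε / 3) m a b hN
  refine ⟨m, hm', a, b, σ, hσ, fun i => ⟨hN.ne i, fun z hz => ?_⟩, ?_, fun δ => ?_⟩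
  · linarith [h1 i z hz]
  · rw [hN.len, abs_le]
    constructor <;> linarith [min_le_left ε 1]
  · obtain ⟨k1, k2, k3, k4⟩ := h2 δ
    exact ⟨k1, by linarith, by linarith, by linarith⟩

end Pool.Agent.MP_20201c_gt.H42
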